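import Mathlib

/-!
# LEAF AB: Bessel against growing scales (Mathlib only)

`c 4^j ≤ v j j ≤ C 4^j`, `|v i j| ≤ C 4^{min i j}`. `Y_j = P_j/√(v j j)`, `E = ∫ dμ`. With `ε` small in terms of `J, c, C` all of the following hold up to
`1/J`:
* `E[(J⁻¹ ∑_j Y_j)²] = J⁻² ∑_{i,j} v i j/√(v i i v j j) + small ≤ J⁻² ∑_{i,j} (C/c) 2^{-|i-j|} + small ≤ 3 (C/c)/J + small`, so
  `|J⁻¹ ∑_j E[Y_j; G]| ≤ (3 C/c + 1)^{1/2} J^{-1/2}` (Cauchy-Schwarz against the indicator of `G`).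
* `E[(J⁻¹ ∑_j (Y_j² - 1))²] ≤ J⁻² ∑_{i,j} 2 (v i j)²/(v i i v j j) + small ≤ J⁻² ∑ 2 (C/c)² 4^{-|i-j|} + small ≤ C'/J`, so
  `J⁻¹ ∑_j E[Y_j²; G] ≥ μ G - C'' J^{-1/2} ≥ p/2` for `J` large.
* `E[Y_j⁻; G] ≤ K/√(v j j) ≤ K c^{-1/2} 2^{-j}`: `J⁻¹ ∑_j E[Y_j⁻; G] ≤ 2 K c^{-1/2}/J`. So `J⁻¹ ∑_j E[|Y_j|; G] = J⁻¹ ∑_j (E[Y_j; G] + 2 E[Y_j⁻; G]) ≤ C''' J^{-1/2} =: θ`.
* `y² ≤ λ|y| + y⁴/λ²` for every `λ > 0` (`|y| ≤ λ` or `|y| > λ`), `E Y_j⁴ ≤ 3 (C/c)² + 1 =: Q` (indeed `≤ 3 + small`: `v j j v j j + 2 v j j²` over `v j j²`), so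
  `p/2 ≤ J⁻¹ ∑_j E[Y_j²; G] ≤ λ θ + Q/λ²`: choose `λ` with `Q/λ² < p/4`, then `J` with `λ θ < p/4`: contradiction.
`ε` is chosen after `J`. All functions are bounded and measurable: integrable on the probability space.
-/

open MeasureTheory Set Filter Topology

namespace Pool.Agent.Lib.MP_00e05b_nt.Bar

/-- Bounded measurable functions. -/
private def BM (f : ℝ × ℝ → ℝ) : Prop := Measurable f ∧ ∃ B : ℝ, ∀ ω, |f ω| ≤ B

private theorem BM.int {f : ℝ × ℝ → ℝ} (h : BM f) (μ : Measure (ℝ × ℝ)) [IsFiniteMeasure μ] :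
    Integrable f μ := by
  obtain ⟨hm, B, hB⟩ := h
  exact Integrable.of_bound hm.aestronglyMeasurable B (Eventually.of_forall fun ω => by
    rw [Real.norm_eq_abs]; exact hB ω)

private theorem BM.mul {f g : ℝ × ℝ → ℝ} (hf : BM f) (hg : BM g) : BM fun ω => f ω * g ω := by
  obtain ⟨hm, B, hB⟩ := hf
  obtain ⟨gm, D, hD⟩ := hg
  refine ⟨hm.mul gm, B * D, fun ω => ?_⟩
  rw [abs_mul]
  exact mul_le_mul (hB ω) (hD ω) (abs_nonneg _) ((abs_nonneg _).trans (hB ω))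

private theorem BM.add {f g : ℝ × ℝ → ℝ} (hf : BM f) (hg : BM g) : BM fun ω => f ω + g ω := by
  obtain ⟨hm, B, hB⟩ := hf
  obtain ⟨gm, D, hD⟩ := hg
  exact ⟨hm.add gm, B + D, fun ω => (abs_add_le _ _).trans (add_le_add (hB ω) (hD ω))⟩

private theorem BM.sub {f g : ℝ × ℝ → ℝ} (hf : BM f) (hg : BM g) : BM fun ω => f ω - g ω := by
  obtain ⟨hm, B, hB⟩ := hf
  obtain ⟨gm, D, hD⟩ := hg
  exact ⟨hm.sub gm, B + D, fun ω => (abs_sub _ _).trans (add_le_add (hB ω) (hD ω))⟩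

private theorem BM.const (a : ℝ) : BM fun _ => a := ⟨measurable_const, |a|, fun _ => le_rfl⟩

private theorem BM.pow {f : ℝ × ℝ → ℝ} (hf : BM f) (k : ℕ) : BM fun ω => f ω ^ k := by
  obtain ⟨hm, B, hB⟩ := hf
  refine ⟨hm.pow_const k, B ^ k, fun ω => ?_⟩
  rw [abs_pow]
  exact pow_le_pow_left₀ (abs_nonneg _) (hB ω) k

private theorem BM.neg_part {f : ℝ × ℝ → ℝ} (hf : BM f) : BM fun ω => max (-(f ω)) 0 := by
  obtain ⟨hm, B, hB⟩ := hf
  refine ⟨hm.neg.max measurable_const, B, fun ω => ?_⟩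
  rw [abs_of_nonneg (le_max_right _ _)]
  exact max_le ((neg_le_abs _).trans (hB ω)) ((abs_nonneg _).trans (hB ω))

private theorem BM.sum {J : ℕ} {f : ℕ → ℝ × ℝ → ℝ} (hf : ∀ j < J, BM (f j)) :
    BM fun ω => ∑ j ∈ Finset.range J, f j ω := by
  induction J with
  | zero => simpa using BM.const 0
  | succ J ih =>
    have h1 := ih fun j hj => hf j (by omega)
    have h2 := hf J (by omega)
    have h3 := h1.add h2
    simpa only [Finset.sum_range_succ] using h3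

/-- Cauchy-Schwarz against an indicator. -/
private theorem cs_ind (μ : Measure (ℝ × ℝ)) [IsProbabilityMeasure μ] {f : ℝ × ℝ → ℝ} (hf : BM f)
    (G : Set (ℝ × ℝ)) {a : ℝ} (ha : 0 < a) (h : ∫ ω, f ω ^ 2 ∂μ ≤ a ^ 2) :
    ∫ ω in G, f ω ∂μ ≤ a := by
  have h1 : ∫ ω in G, f ω ∂μ ≤ ∫ ω in G, (1 / (2 * a) * f ω ^ 2 + a / 2) ∂μ := by
    refine integral_mono (hf.int _) ((((BM.const (1 / (2 * a))).mul (hf.pow 2)).add
      (BM.const (a / 2))).int _) fun ω => ?_
    have : 0 ≤ (f ω - a) ^ 2 / (2 * a) := by positivity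
    have e : (f ω - a) ^ 2 / (2 * a) = 1 / (2 * a) * f ω ^ 2 + a / 2 - f ω := by
      field_simp
      ring
    change f ω ≤ 1 / (2 * a) * f ω ^ 2 + a / 2
    linarith
  have h2 : ∫ ω in G, (1 / (2 * a) * f ω ^ 2 + a / 2) ∂μ =
      1 / (2 * a) * ∫ ω in G, f ω ^ 2 ∂μ + (μ.real G) * (a / 2) := by
    rw [integral_add (((BM.const (1 / (2 * a))).mul (hf.pow 2)).int _) ((BM.const (a / 2)).int _),
      integral_const_mul, setIntegral_const, smul_eq_mul]
  have h3 : ∫ ω in G, f ω ^ 2 ∂μ ≤ ∫ ω, f ω ^ 2 ∂μ :=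
    setIntegral_le_integral ((hf.pow 2).int _) (Eventually.of_forall fun ω => sq_nonneg _)
  have h4 : μ.real G ≤ 1 := measureReal_le_one
  have h5 : 1 / (2 * a) * ∫ ω in G, f ω ^ 2 ∂μ ≤ 1 / (2 * a) * a ^ 2 :=
    mul_le_mul_of_nonneg_left (h3.trans h) (by positivity)
  have h6 : 1 / (2 * a) * a ^ 2 = a / 2 := by field_simp
  have h7 : (μ.real G) * (a / 2) ≤ 1 * (a / 2) := mul_le_mul_of_nonneg_right h4 (by positivity)
  linarith

/-- The double sum of `2^{-|i-j|}`. -/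
private theorem dsum (J : ℕ) : ∑ i ∈ Finset.range J, ∑ j ∈ Finset.range J,
    (4 : ℝ) ^ (min i j) / (2 ^ i * 2 ^ j) ≤ 3 * J := by
  induction J with
  | zero => simp
  | succ J ih =>
    have e : ∑ i ∈ Finset.range (J + 1), ∑ j ∈ Finset.range (J + 1),
        (4 : ℝ) ^ (min i j) / (2 ^ i * 2 ^ j) = (∑ i ∈ Finset.range J, ∑ j ∈ Finset.range J,
        (4 : ℝ) ^ (min i j) / (2 ^ i * 2 ^ j)) + 2 * (∑ i ∈ Finset.range J, (2 : ℝ) ^ i / 2 ^ J)
          + 1 := by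
      rw [Finset.sum_range_succ]
      have h1 : ∀ i ∈ Finset.range J, ∑ j ∈ Finset.range (J + 1),
          (4 : ℝ) ^ (min i j) / (2 ^ i * 2 ^ j) = (∑ j ∈ Finset.range J,
          (4 : ℝ) ^ (min i j) / (2 ^ i * 2 ^ j)) + (2 : ℝ) ^ i / 2 ^ J := by
        intro i hi
        rw [Finset.sum_range_succ, min_eq_left (Finset.mem_range.1 hi).le]
        congr 1
        rw [show (4 : ℝ) = 2 * 2 by norm_num, mul_pow]
        field_simp
      rw [Finset.sum_congr rfl h1, Finset.sum_add_distrib, Finset.sum_range_succ]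
      have h2 : ∀ j ∈ Finset.range J, (4 : ℝ) ^ (min J j) / (2 ^ J * 2 ^ j) =
          (2 : ℝ) ^ j / 2 ^ J := by
        intro j hj
        rw [min_eq_right (Finset.mem_range.1 hj).le, show (4 : ℝ) = 2 * 2 by norm_num, mul_pow]
        field_simp
      rw [Finset.sum_congr rfl h2, min_self]
      have h3 : (4 : ℝ) ^ J / (2 ^ J * 2 ^ J) = 1 := by
        rw [← mul_pow, show (2 : ℝ) * 2 = 4 by norm_num]
        exact div_self (by positivity)
      rw [h3]
      ring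
    have g : ∑ i ∈ Finset.range J, (2 : ℝ) ^ i / 2 ^ J ≤ 1 := by
      rw [← Finset.sum_div, div_le_one (by positivity)]
      have := geom_sum_eq (show (2 : ℝ) ≠ 1 by norm_num) J
      rw [this]
      norm_num
    rw [e]
    push_cast
    linarith

private theorem pt4 {y l : ℝ} (hl : 0 < l) : y ^ 2 ≤ l * (y + 2 * max (-y) 0) + 1 / l ^ 2 * y ^ 4 := by
  have habs : y + 2 * max (-y) 0 = |y| := by
    rcases le_total 0 y with h | h
    · rw [max_eq_right (by linarith), abs_of_nonneg h]; ring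
    · rw [max_eq_left (by linarith), abs_of_nonpos h]; ring
  rw [habs]
  have h4 : y ^ 2 = |y| ^ 2 := (sq_abs y).symm
  have h5 : y ^ 4 = |y| ^ 4 := by
    rw [show (4 : ℕ) = 2 * 2 by norm_num, pow_mul, pow_mul, sq_abs]
  rw [h4, h5]
  have h0 : 0 ≤ |y| := abs_nonneg y
  set z := |y|
  rcases le_total z l with h | h
  · have : 0 ≤ 1 / l ^ 2 * z ^ 4 := by positivity
    nlinarith
  · have h6 : z ^ 2 ≤ 1 / l ^ 2 * z ^ 4 := by
      have : l ^ 2 ≤ z ^ 2 := pow_le_pow_left₀ hl.le h 2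
      rw [one_div, inv_mul_eq_div, le_div_iff₀ (by positivity)]
      nlinarith [sq_nonneg z]
    have : 0 ≤ l * z := by positivity
    linarith

theorem bessel_abs {p K c C : ℝ} (hp : 0 < p) (hK : 0 ≤ K) (hc : 0 < c) (hC : 0 < C) :
    ∃ (J : ℕ) (ε : ℝ), 1 ≤ J ∧ 0 < ε ∧ ∀ (μ : Measure (ℝ × ℝ)) [IsProbabilityMeasure μ] (P : ℕ → ℝ × ℝ → ℝ) (v : ℕ → ℕ → ℝ)
      (G : Set (ℝ × ℝ)), MeasurableSet G → ENNReal.ofReal p ≤ μ G → (∀ j, Measurable (P j)) → (∀ j, ∃ B : ℝ, ∀ ω, |P j ω| ≤ B) →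
      (∀ i < J, ∀ j < J, |∫ ω, P i ω * P j ω ∂μ - v i j| ≤ ε) →
      (∀ i < J, ∀ j < J, ∫ ω, P i ω ^ 2 * P j ω ^ 2 ∂μ ≤ v i i * v j j + 2 * v i j ^ 2 + ε) →
      (∀ i < J, ∀ j < J, |v i j| ≤ C * 4 ^ (min i j)) → (∀ j < J, c * 4 ^ j ≤ v j j) →
      (∀ j < J, ∫⁻ ω in G, ENNReal.ofReal (-(P j ω)) ∂μ ≤ ENNReal.ofReal K) → False := by
  set R : ℝ := C / c with hR
  have hRpos : 0 < R := by positivity
  set r1 : ℝ := 4 * R + 1 with hr1
  set r2 : ℝ := 6 * R ^ 2 + 1 with hr2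
  set l : ℝ := 8 / p + 1 with hl
  have hlpos : 0 < l := by positivity
  have hl1 : 1 ≤ l := by
    have : 0 ≤ 8 / p := by positivity
    linarith
  set sc : ℝ := Real.sqrt c with hsc
  have hscpos : 0 < sc := Real.sqrt_pos.2 hc
  set D : ℝ := r2 + l * r1 + 4 * l * K / sc with hD
  have hDpos : 0 < D := by positivity
  obtain ⟨M, hM⟩ := exists_nat_gt (2 * D / p)
  have hMpos : 0 < (M : ℝ) := lt_of_le_of_lt (by positivity) hM
  have hM1 : 1 ≤ M := by
    have : 0 < M := by exact_mod_cast hMpos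
    omega
  have hM1' : (1 : ℝ) ≤ M := by exact_mod_cast hM1
  set J : ℕ := M ^ 2 with hJ
  have hJ1 : 1 ≤ J := Nat.one_le_pow _ _ (by omega)
  have hJpos : (0 : ℝ) < (J : ℝ) := by exact_mod_cast hJ1
  have hJM : (J : ℝ) = (M : ℝ) ^ 2 := by rw [hJ]; push_cast; ring
  set ε : ℝ := min (min (R * c / J) (1 / (J * (1 / c ^ 2 + 2 / c)))) (c ^ 2) with hε
  have hεpos : 0 < ε := by
    refine lt_min (lt_min ?_ ?_) ?_ <;> positivity
  have hε1 : J * (ε / c) ≤ R := by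
    have h1 : ε ≤ R * c / J := (min_le_left _ _).trans (min_le_left _ _)
    rw [le_div_iff₀ hJpos] at h1
    rw [← mul_div_assoc, div_le_iff₀ hc]
    linarith
  have hε2 : J * (ε * (1 / c ^ 2 + 2 / c)) ≤ 1 := by
    have h1 : ε ≤ 1 / (J * (1 / c ^ 2 + 2 / c)) := (min_le_left _ _).trans (min_le_right _ _)
    rw [le_div_iff₀ (by positivity)] at h1
    linarith
  have hε3 : ε / c ^ 2 ≤ 1 := by
    rw [div_le_one (by positivity)]
    exact min_le_right _ _
  refine ⟨J, ε, hJ1, hεpos, ?_⟩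
  intro μ _ P v G hG hμG hPm hPb h2 h4 hvC hvc hneg
  have hP : ∀ j, BM (P j) := fun j => ⟨hPm j, hPb j⟩
  have hvpos : ∀ j < J, 0 < v j j := fun j hj => lt_of_lt_of_le (by positivity) (hvc j hj)
  have hs_pos : ∀ j < J, 0 < Real.sqrt (v j j) := fun j hj => Real.sqrt_pos.2 (hvpos j hj)
  have hs_sq : ∀ j < J, Real.sqrt (v j j) ^ 2 = v j j := fun j hj => Real.sq_sqrt (hvpos j hj).le
  have hs_low : ∀ j < J, sc * 2 ^ j ≤ Real.sqrt (v j j) := by
    intro j hj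
    refine Real.le_sqrt_of_sq_le ?_
    rw [mul_pow, hsc, Real.sq_sqrt hc.le, ← pow_mul, mul_comm j 2, pow_mul]
    norm_num
    exact hvc j hj
  set s : ℕ → ℝ := fun j => Real.sqrt (v j j) with hs
  set Y : ℕ → ℝ × ℝ → ℝ := fun j ω => 1 / s j * P j ω with hY
  have hYB : ∀ j, BM (Y j) := fun j => (BM.const (1 / s j)).mul (hP j)
  set q : ℕ → ℕ → ℝ := fun i j => (4 : ℝ) ^ (min i j) / (2 ^ i * 2 ^ j) with hq
  have hq0 : ∀ i j, 0 ≤ q i j := fun i j => by simp only [hq]; positivity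
  have hq1 : ∀ i j, q i j ≤ 1 := by
    intro i j
    simp only [hq]
    rw [div_le_one (by positivity), show (4 : ℝ) = 2 * 2 by norm_num, mul_pow]
    exact mul_le_mul (pow_le_pow_right₀ (by norm_num) (min_le_left _ _))
      (pow_le_pow_right₀ (by norm_num) (min_le_right _ _)) (by positivity) (by positivity)
  have hqs : ∑ i ∈ Finset.range J, ∑ j ∈ Finset.range J, q i j ≤ 3 * J := dsum J
  have hss : ∀ i < J, ∀ j < J, c * (2 ^ i * 2 ^ j) ≤ s i * s j := by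
    intro i hi j hj
    have h1 := mul_le_mul (hs_low i hi) (hs_low j hj) (by positivity) (hs_pos i hi).le
    have e : sc * 2 ^ i * (sc * 2 ^ j) = c * (2 ^ i * 2 ^ j) := by
      have : sc * sc = c := Real.mul_self_sqrt hc.le
      calc sc * 2 ^ i * (sc * 2 ^ j) = (sc * sc) * (2 ^ i * 2 ^ j) := by ring
        _ = _ := by rw [this]
    rw [e] at h1
    exact h1
  have hone : ∀ i j : ℕ, (1 : ℝ) ≤ 2 ^ i * 2 ^ j := fun i j =>
    one_le_mul_of_one_le_of_one_le (one_le_pow₀ (by norm_num)) (one_le_pow₀ (by norm_num))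
  have hss' : ∀ i < J, ∀ j < J, c ≤ s i * s j := by
    intro i hi j hj
    have := hss i hi j hj
    have h1 := mul_le_mul_of_nonneg_left (hone i j) hc.le
    linarith
  have hvr : ∀ i < J, ∀ j < J, |v i j| / (s i * s j) ≤ R * q i j := by
    intro i hi j hj
    have hsp : 0 < s i * s j := mul_pos (hs_pos i hi) (hs_pos j hj)
    rw [div_le_iff₀ hsp]
    have h1 : C * 4 ^ (min i j) = R * q i j * (c * (2 ^ i * 2 ^ j)) := by
      simp only [hR, hq]
      field_simp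
    calc |v i j| ≤ C * 4 ^ (min i j) := hvC i hi j hj
      _ = R * q i j * (c * (2 ^ i * 2 ^ j)) := h1
      _ ≤ R * q i j * (s i * s j) :=
        mul_le_mul_of_nonneg_left (hss i hi j hj) (mul_nonneg hRpos.le (hq0 i j))
  -- second moments of the `Y`
  have hYY : ∀ i < J, ∀ j < J, ∫ ω, Y i ω * Y j ω ∂μ ≤ R * q i j + ε / c := by
    intro i hi j hj
    have hsp : 0 < s i * s j := mul_pos (hs_pos i hi) (hs_pos j hj)
    have e : ∫ ω, Y i ω * Y j ω ∂μ = (∫ ω, P i ω * P j ω ∂μ) / (s i * s j) := by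
      rw [div_eq_inv_mul, ← integral_const_mul]
      refine integral_congr_ae (Eventually.of_forall fun ω => ?_)
      simp only [hY]
      rw [one_div, one_div, mul_inv]
      ring
    rw [e]
    have h1 : ∫ ω, P i ω * P j ω ∂μ ≤ |v i j| + ε := by
      have := (abs_le.1 (h2 i hi j hj)).2
      have := le_abs_self (v i j)
      linarith
    calc (∫ ω, P i ω * P j ω ∂μ) / (s i * s j) ≤ (|v i j| + ε) / (s i * s j) :=
          div_le_div_of_nonneg_right h1 hsp.le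
      _ = |v i j| / (s i * s j) + ε / (s i * s j) := add_div _ _ _
      _ ≤ R * q i j + ε / c := add_le_add (hvr i hi j hj)
          (div_le_div_of_nonneg_left hεpos.le hc (hss' i hi j hj))
  have hJJ : ∀ a : ℝ, ∑ _i ∈ Finset.range J, ∑ _j ∈ Finset.range J, a = J * (J * a) := by
    intro a
    simp [Finset.sum_const, Finset.card_range, nsmul_eq_mul]
  have S1 : ∫ ω, (∑ j ∈ Finset.range J, Y j ω) ^ 2 ∂μ ≤ (r1 * M) ^ 2 := by
    have e : ∫ ω, (∑ j ∈ Finset.range J, Y j ω) ^ 2 ∂μ =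
        ∑ i ∈ Finset.range J, ∑ j ∈ Finset.range J, ∫ ω, Y i ω * Y j ω ∂μ := by
      have e1 : ∀ ω, (∑ j ∈ Finset.range J, Y j ω) ^ 2 =
          ∑ i ∈ Finset.range J, ∑ j ∈ Finset.range J, Y i ω * Y j ω := by
        intro ω
        rw [sq, Finset.sum_mul_sum]
      simp_rw [e1]
      rw [integral_finset_sum]
      · refine Finset.sum_congr rfl fun i _ => ?_
        rw [integral_finset_sum]
        intro j _
        exact ((hYB i).mul (hYB j)).int μ
      · intro i _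
        exact (BM.sum fun j _ => (hYB i).mul (hYB j)).int μ
    rw [e]
    have h1 : ∑ i ∈ Finset.range J, ∑ j ∈ Finset.range J, ∫ ω, Y i ω * Y j ω ∂μ ≤
        ∑ i ∈ Finset.range J, ∑ j ∈ Finset.range J, (R * q i j + ε / c) :=
      Finset.sum_le_sum fun i hi => Finset.sum_le_sum fun j hj =>
        hYY i (Finset.mem_range.1 hi) j (Finset.mem_range.1 hj)
    have h3 : ∑ i ∈ Finset.range J, ∑ j ∈ Finset.range J, (R * q i j + ε / c) =
        R * (∑ i ∈ Finset.range J, ∑ j ∈ Finset.range J, q i j) + J * (J * (ε / c)) := by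
      simp_rw [Finset.sum_add_distrib, ← Finset.mul_sum]
      rw [← hJJ (ε / c)]
    rw [h3] at h1
    have h5 : R * (∑ i ∈ Finset.range J, ∑ j ∈ Finset.range J, q i j) ≤ R * (3 * J) :=
      mul_le_mul_of_nonneg_left hqs hRpos.le
    have h6 : J * (J * (ε / c)) ≤ J * R := mul_le_mul_of_nonneg_left hε1 hJpos.le
    have h7 : 4 * R ≤ r1 ^ 2 := by rw [hr1]; nlinarith
    calc _ ≤ R * (3 * J) + J * R := by linarith
      _ = (4 * R) * M ^ 2 := by rw [hJM]; ring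
      _ ≤ r1 ^ 2 * M ^ 2 := mul_le_mul_of_nonneg_right h7 (by positivity)
      _ = (r1 * M) ^ 2 := by ring
  -- fourth moments
  have hvv : ∀ i < J, ∀ j < J, c ^ 2 ≤ v i i * v j j := by
    intro i hi j hj
    have h1 : c ≤ v i i := le_trans (by
      have : (1 : ℝ) ≤ 4 ^ i := one_le_pow₀ (by norm_num)
      nlinarith) (hvc i hi)
    have h3 : c ≤ v j j := le_trans (by
      have : (1 : ℝ) ≤ 4 ^ j := one_le_pow₀ (by norm_num)
      nlinarith) (hvc j hj)
    rw [sq]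
    exact mul_le_mul h1 h3 hc.le (hvpos i hi).le
  have hv1 : ∀ i < J, c ≤ v i i := by
    intro i hi
    refine le_trans ?_ (hvc i hi)
    have : (1 : ℝ) ≤ 4 ^ i := one_le_pow₀ (by norm_num)
    nlinarith
  have hY4 : ∀ i < J, ∀ j < J, ∫ ω, Y i ω ^ 2 * Y j ω ^ 2 ∂μ ≤
      1 + 2 * (v i j ^ 2 / (v i i * v j j)) + ε / c ^ 2 := by
    intro i hi j hj
    have hvp : 0 < v i i * v j j := mul_pos (hvpos i hi) (hvpos j hj)
    have e : ∫ ω, Y i ω ^ 2 * Y j ω ^ 2 ∂μ =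
        (∫ ω, P i ω ^ 2 * P j ω ^ 2 ∂μ) / (v i i * v j j) := by
      rw [div_eq_inv_mul, ← integral_const_mul]
      refine integral_congr_ae (Eventually.of_forall fun ω => ?_)
      simp only [hY]
      rw [mul_pow, mul_pow, one_div, one_div, inv_pow, inv_pow]
      have e1 : s i ^ 2 = v i i := hs_sq i hi
      have e2 : s j ^ 2 = v j j := hs_sq j hj
      rw [e1, e2, mul_inv]
      ring
    rw [e]
    calc (∫ ω, P i ω ^ 2 * P j ω ^ 2 ∂μ) / (v i i * v j j)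
        ≤ (v i i * v j j + 2 * v i j ^ 2 + ε) / (v i i * v j j) :=
          div_le_div_of_nonneg_right (h4 i hi j hj) hvp.le
      _ = 1 + 2 * (v i j ^ 2 / (v i i * v j j)) + ε / (v i i * v j j) := by
          rw [add_div, add_div, div_self hvp.ne', mul_div_assoc]
      _ ≤ _ := by
          have := div_le_div_of_nonneg_left hεpos.le (by positivity : 0 < c ^ 2) (hvv i hi j hj)
          linarith
  have hY2 : ∀ i < J, 1 - ε / c ≤ ∫ ω, Y i ω ^ 2 ∂μ := by
    intro i hi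
    have e : ∫ ω, Y i ω ^ 2 ∂μ = (∫ ω, P i ω * P i ω ∂μ) / v i i := by
      rw [div_eq_inv_mul, ← integral_const_mul]
      refine integral_congr_ae (Eventually.of_forall fun ω => ?_)
      simp only [hY]
      rw [mul_pow, one_div, inv_pow]
      have e1 : s i ^ 2 = v i i := hs_sq i hi
      rw [e1]
      ring
    rw [e, le_div_iff₀ (hvpos i hi)]
    have h1 := (abs_le.1 (h2 i hi i hi)).1
    have h3 : ε ≤ ε / c * v i i := by
      rw [div_mul_eq_mul_div, le_div_iff₀ hc]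
      exact mul_le_mul_of_nonneg_left (hv1 i hi) hεpos.le
    nlinarith
  have S2 : ∫ ω, (∑ j ∈ Finset.range J, (1 - Y j ω ^ 2)) ^ 2 ∂μ ≤ (r2 * M) ^ 2 := by
    have e : ∫ ω, (∑ j ∈ Finset.range J, (1 - Y j ω ^ 2)) ^ 2 ∂μ =
        ∑ i ∈ Finset.range J, ∑ j ∈ Finset.range J,
          ∫ ω, (1 - Y i ω ^ 2) * (1 - Y j ω ^ 2) ∂μ := by
      have e1 : ∀ ω, (∑ j ∈ Finset.range J, (1 - Y j ω ^ 2)) ^ 2 =
          ∑ i ∈ Finset.range J, ∑ j ∈ Finset.range J, (1 - Y i ω ^ 2) * (1 - Y j ω ^ 2) := by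
        intro ω
        rw [sq, Finset.sum_mul_sum]
      simp_rw [e1]
      have hb : ∀ i, BM fun ω => 1 - Y i ω ^ 2 := fun i => (BM.const 1).sub ((hYB i).pow 2)
      rw [integral_finset_sum]
      · refine Finset.sum_congr rfl fun i _ => ?_
        rw [integral_finset_sum]
        intro j _
        exact ((hb i).mul (hb j)).int μ
      · intro i _
        exact (BM.sum fun j _ => (hb i).mul (hb j)).int μ
    rw [e]
    have hterm : ∀ i < J, ∀ j < J, ∫ ω, (1 - Y i ω ^ 2) * (1 - Y j ω ^ 2) ∂μ ≤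
        2 * R ^ 2 * q i j + ε * (1 / c ^ 2 + 2 / c) := by
      intro i hi j hj
      have hb : ∀ i, BM fun ω => Y i ω ^ 2 := fun i => (hYB i).pow 2
      have e2 : ∫ ω, (1 - Y i ω ^ 2) * (1 - Y j ω ^ 2) ∂μ =
          1 - ∫ ω, Y i ω ^ 2 ∂μ - ∫ ω, Y j ω ^ 2 ∂μ + ∫ ω, Y i ω ^ 2 * Y j ω ^ 2 ∂μ := by
        have e3 : ∀ ω, (1 - Y i ω ^ 2) * (1 - Y j ω ^ 2) =
            1 - Y i ω ^ 2 - Y j ω ^ 2 + Y i ω ^ 2 * Y j ω ^ 2 := fun ω => by ring
        simp_rw [e3]
        rw [integral_add ((((BM.const 1).sub (hb i)).sub (hb j)).int μ) (((hb i).mul (hb j)).int μ),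
          integral_sub (((BM.const 1).sub (hb i)).int μ) ((hb j).int μ),
          integral_sub ((BM.const 1).int μ) ((hb i).int μ)]
        simp
      rw [e2]
      have a1 := hY4 i hi j hj
      have a2 := hY2 i hi
      have a3 := hY2 j hj
      have a4 : v i j ^ 2 / (v i i * v j j) ≤ R ^ 2 * q i j := by
        have e5 : v i j ^ 2 / (v i i * v j j) = (|v i j| / (s i * s j)) ^ 2 := by
          rw [div_pow, sq_abs, mul_pow]
          have e1 : s i ^ 2 = v i i := hs_sq i hi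
          have e2 : s j ^ 2 = v j j := hs_sq j hj
          rw [e1, e2]
        rw [e5]
        have hsp : 0 < s i * s j := mul_pos (hs_pos i hi) (hs_pos j hj)
        calc (|v i j| / (s i * s j)) ^ 2 ≤ (R * q i j) ^ 2 :=
              pow_le_pow_left₀ (by positivity) (hvr i hi j hj) 2
          _ = R ^ 2 * (q i j * q i j) := by ring
          _ ≤ R ^ 2 * (q i j * 1) := mul_le_mul_of_nonneg_left
              (mul_le_mul_of_nonneg_left (hq1 i j) (hq0 i j)) (by positivity)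
          _ = _ := by ring
      have e6 : ε * (1 / c ^ 2 + 2 / c) = ε / c ^ 2 + 2 * (ε / c) := by ring
      rw [e6]
      linarith
    have h1 : ∑ i ∈ Finset.range J, ∑ j ∈ Finset.range J,
          ∫ ω, (1 - Y i ω ^ 2) * (1 - Y j ω ^ 2) ∂μ ≤
        ∑ i ∈ Finset.range J, ∑ j ∈ Finset.range J,
          (2 * R ^ 2 * q i j + ε * (1 / c ^ 2 + 2 / c)) :=
      Finset.sum_le_sum fun i hi => Finset.sum_le_sum fun j hj =>
        hterm i (Finset.mem_range.1 hi) j (Finset.mem_range.1 hj)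
    have h3 : ∀ κ : ℝ, ∑ i ∈ Finset.range J, ∑ j ∈ Finset.range J,
          (2 * R ^ 2 * q i j + κ) =
        2 * R ^ 2 * (∑ i ∈ Finset.range J, ∑ j ∈ Finset.range J, q i j) + J * (J * κ) := by
      intro κ
      simp_rw [Finset.sum_add_distrib, ← Finset.mul_sum]
      rw [← hJJ κ]
    rw [h3] at h1
    have h5 : 2 * R ^ 2 * (∑ i ∈ Finset.range J, ∑ j ∈ Finset.range J, q i j) ≤
        2 * R ^ 2 * (3 * J) := mul_le_mul_of_nonneg_left hqs (by positivity)
    have h6 : J * (J * (ε * (1 / c ^ 2 + 2 / c))) ≤ J * 1 :=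
      mul_le_mul_of_nonneg_left hε2 hJpos.le
    have h7 : r2 ≤ r2 ^ 2 := by
      have : 1 ≤ r2 := by rw [hr2]; nlinarith [sq_nonneg R]
      nlinarith
    calc _ ≤ 2 * R ^ 2 * (3 * J) + J * 1 := by linarith
      _ = r2 * M ^ 2 := by rw [hJM, hr2]; ring
      _ ≤ r2 ^ 2 * M ^ 2 := mul_le_mul_of_nonneg_right h7 (by positivity)
      _ = (r2 * M) ^ 2 := by ring
  -- Cauchy-Schwarz
  have hr1pos : 0 < r1 := by positivity
  have hr2pos : 0 < r2 := by positivity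
  have T1 : ∫ ω in G, ∑ j ∈ Finset.range J, Y j ω ∂μ ≤ r1 * M :=
    cs_ind μ (BM.sum fun j _ => hYB j) G (by positivity) S1
  have T2 : ∫ ω in G, ∑ j ∈ Finset.range J, (1 - Y j ω ^ 2) ∂μ ≤ r2 * M :=
    cs_ind μ (BM.sum fun j _ => (BM.const 1).sub ((hYB j).pow 2)) G (by positivity) S2
  have hμ : p ≤ μ.real G := by
    rw [measureReal_def]
    exact (ENNReal.ofReal_le_iff_le_toReal (measure_ne_top _ _)).1 hμG
  have T2' : ∫ ω in G, ∑ j ∈ Finset.range J, (1 - Y j ω ^ 2) ∂μ =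
      J * μ.real G - ∫ ω in G, ∑ j ∈ Finset.range J, Y j ω ^ 2 ∂μ := by
    have e1 : ∀ ω, ∑ j ∈ Finset.range J, (1 - Y j ω ^ 2) =
        (J : ℝ) - ∑ j ∈ Finset.range J, Y j ω ^ 2 := by
      intro ω
      rw [Finset.sum_sub_distrib]
      simp
    simp_rw [e1]
    rw [integral_sub ((BM.const (J : ℝ)).int _) ((BM.sum fun j _ => (hYB j).pow 2).int _),
      setIntegral_const, smul_eq_mul, mul_comm]
  -- negative parts
  have N1 : ∀ j < J, ∫ ω in G, max (-(Y j ω)) 0 ∂μ ≤ K / sc * (1 / 2) ^ j := by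
    intro j hj
    have hsj : 0 < s j := hs_pos j hj
    have e : ∀ ω, max (-(Y j ω)) 0 = 1 / s j * max (-(P j ω)) 0 := by
      intro ω
      rw [mul_max_of_nonneg _ _ (by positivity : 0 ≤ 1 / s j)]
      simp only [hY]
      rw [mul_zero, mul_neg]
    simp_rw [e]
    rw [integral_const_mul]
    have h1 : ∫ ω in G, max (-(P j ω)) 0 ∂μ ≤ K := by
      have h3 := ofReal_integral_eq_lintegral_ofReal (μ := μ.restrict G)
        ((hP j).neg_part.int (μ.restrict G)) (Eventually.of_forall fun ω => le_max_right _ _)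
      have h5 : ∫⁻ ω in G, ENNReal.ofReal (max (-(P j ω)) 0) ∂μ =
          ∫⁻ ω in G, ENNReal.ofReal (-(P j ω)) ∂μ := by
        refine lintegral_congr fun ω => ?_
        rcases le_total (-(P j ω)) 0 with h | h
        · rw [max_eq_right h, ENNReal.ofReal_of_nonpos h, ENNReal.ofReal_zero]
        · rw [max_eq_left h]
      rw [h5] at h3
      have h6 := hneg j hj
      rw [← h3] at h6
      exact (ENNReal.ofReal_le_ofReal_iff hK).1 h6
    have h3 : 1 / s j ≤ 1 / (sc * 2 ^ j) :=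
      one_div_le_one_div_of_le (by positivity) (hs_low j hj)
    calc 1 / s j * ∫ ω in G, max (-(P j ω)) 0 ∂μ ≤ 1 / s j * K :=
          mul_le_mul_of_nonneg_left h1 (by positivity)
      _ ≤ 1 / (sc * 2 ^ j) * K := mul_le_mul_of_nonneg_right h3 hK
      _ = K / sc * (1 / 2) ^ j := by
          rw [div_pow, one_pow, div_mul_div_comm, mul_one, one_div, inv_mul_eq_div]
  have N2 : ∫ ω in G, ∑ j ∈ Finset.range J, max (-(Y j ω)) 0 ∂μ ≤ 2 * (K / sc) := by
    rw [integral_finset_sum _ fun j _ => (hYB j).neg_part.int _]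
    calc ∑ j ∈ Finset.range J, ∫ ω in G, max (-(Y j ω)) 0 ∂μ
        ≤ ∑ j ∈ Finset.range J, K / sc * (1 / 2) ^ j :=
          Finset.sum_le_sum fun j hj => N1 j (Finset.mem_range.1 hj)
      _ = K / sc * ∑ j ∈ Finset.range J, (1 / 2 : ℝ) ^ j := by rw [Finset.mul_sum]
      _ ≤ K / sc * 2 := by
          refine mul_le_mul_of_nonneg_left ?_ (by positivity)
          rw [geom_sum_eq (by norm_num)]
          have : (0 : ℝ) ≤ (1 / 2) ^ J := by positivity
          rw [div_le_iff_of_neg (by norm_num)]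
          linarith
      _ = 2 * (K / sc) := by ring
  -- fourth moment
  have F4 : ∫ ω in G, ∑ j ∈ Finset.range J, Y j ω ^ 4 ∂μ ≤ 4 * J := by
    rw [integral_finset_sum _ fun j _ => ((hYB j).pow 4).int _]
    calc ∑ j ∈ Finset.range J, ∫ ω in G, Y j ω ^ 4 ∂μ ≤ ∑ _j ∈ Finset.range J, (4 : ℝ) := by
          refine Finset.sum_le_sum fun j hj => ?_
          have hj' := Finset.mem_range.1 hj
          have h1 : ∫ ω in G, Y j ω ^ 4 ∂μ ≤ ∫ ω, Y j ω ^ 4 ∂μ :=
            setIntegral_le_integral (((hYB j).pow 4).int _)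
              (Eventually.of_forall fun ω => by
                change 0 ≤ Y j ω ^ 4
                positivity)
          have h3 := hY4 j hj' j hj'
          have e : ∫ ω, Y j ω ^ 2 * Y j ω ^ 2 ∂μ = ∫ ω, Y j ω ^ 4 ∂μ :=
            integral_congr_ae (Eventually.of_forall fun ω => by
              change Y j ω ^ 2 * Y j ω ^ 2 = Y j ω ^ 4
              ring)
          rw [e] at h3
          have e5 : v j j ^ 2 / (v j j * v j j) = 1 := by
            rw [sq]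
            exact div_self (mul_pos (hvpos j hj') (hvpos j hj')).ne'
          rw [e5] at h3
          linarith
      _ = 4 * J := by rw [Finset.sum_const, Finset.card_range, nsmul_eq_mul, mul_comm]
  -- conclusion
  have main : ∫ ω in G, ∑ j ∈ Finset.range J, Y j ω ^ 2 ∂μ ≤
      l * ((∫ ω in G, ∑ j ∈ Finset.range J, Y j ω ∂μ) +
        2 * ∫ ω in G, ∑ j ∈ Finset.range J, max (-(Y j ω)) 0 ∂μ) +
      1 / l ^ 2 * ∫ ω in G, ∑ j ∈ Finset.range J, Y j ω ^ 4 ∂μ := by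
    have b1 : BM fun ω => ∑ j ∈ Finset.range J, Y j ω := BM.sum fun j _ => hYB j
    have b2 : BM fun ω => ∑ j ∈ Finset.range J, max (-(Y j ω)) 0 :=
      BM.sum fun j _ => (hYB j).neg_part
    have b3 : BM fun ω => ∑ j ∈ Finset.range J, Y j ω ^ 4 := BM.sum fun j _ => (hYB j).pow 4
    have b4 : BM fun ω => ∑ j ∈ Finset.range J, Y j ω ^ 2 := BM.sum fun j _ => (hYB j).pow 2
    have e : ∫ ω in G, (l * ((∑ j ∈ Finset.range J, Y j ω) +
        2 * ∑ j ∈ Finset.range J, max (-(Y j ω)) 0) +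
        1 / l ^ 2 * ∑ j ∈ Finset.range J, Y j ω ^ 4) ∂μ = l * ((∫ ω in G, ∑ j ∈ Finset.range J, Y j ω ∂μ) +
        2 * ∫ ω in G, ∑ j ∈ Finset.range J, max (-(Y j ω)) 0 ∂μ) +
      1 / l ^ 2 * ∫ ω in G, ∑ j ∈ Finset.range J, Y j ω ^ 4 ∂μ := by
      rw [integral_add (((BM.const l).mul (b1.add ((BM.const 2).mul b2))).int _)
        (((BM.const (1 / l ^ 2)).mul b3).int _), integral_const_mul, integral_const_mul,
        integral_add (b1.int _) (((BM.const 2).mul b2).int _), integral_const_mul]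
    rw [← e]
    refine integral_mono (b4.int _) ((((BM.const l).mul (b1.add ((BM.const 2).mul b2))).add
      ((BM.const (1 / l ^ 2)).mul b3)).int _) fun ω => ?_
    change ∑ j ∈ Finset.range J, Y j ω ^ 2 ≤ l * ((∑ j ∈ Finset.range J, Y j ω) +
        2 * ∑ j ∈ Finset.range J, max (-(Y j ω)) 0) +
        1 / l ^ 2 * ∑ j ∈ Finset.range J, Y j ω ^ 4
    rw [Finset.mul_sum, ← Finset.sum_add_distrib, Finset.mul_sum, Finset.mul_sum,
      ← Finset.sum_add_distrib]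
    exact Finset.sum_le_sum fun j _ => pt4 hlpos
  have hl2 : 1 / l ^ 2 * (4 * J) ≤ p / 2 * J := by
    have h1 : 8 / p ≤ l ^ 2 := by
      have : 8 / p ≤ l := by rw [hl]; linarith
      nlinarith
    have h3 : 1 / l ^ 2 ≤ p / 8 := by
      have := one_div_le_one_div_of_le (by positivity : 0 < 8 / p) h1
      rwa [one_div_div] at this
    calc 1 / l ^ 2 * (4 * J) ≤ p / 8 * (4 * J) := mul_le_mul_of_nonneg_right h3 (by positivity)
      _ = p / 2 * J := by ring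
  have hA : l * ((∫ ω in G, ∑ j ∈ Finset.range J, Y j ω ∂μ) +
        2 * ∫ ω in G, ∑ j ∈ Finset.range J, max (-(Y j ω)) 0 ∂μ) ≤
      l * (r1 * M + 2 * (2 * (K / sc))) :=
    mul_le_mul_of_nonneg_left (by linarith) hlpos.le
  have hBd : 1 / l ^ 2 * ∫ ω in G, ∑ j ∈ Finset.range J, Y j ω ^ 4 ∂μ ≤
      1 / l ^ 2 * (4 * J) := mul_le_mul_of_nonneg_left F4 (by positivity)
  have hJp : (J : ℝ) * p ≤ J * μ.real G := mul_le_mul_of_nonneg_left hμ hJpos.le
  have hfin : (J : ℝ) * p ≤ r2 * M + l * (r1 * M + 2 * (2 * (K / sc))) + p / 2 * J := by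
    linarith
  have hfin2 : p / 2 * (M : ℝ) ^ 2 ≤ M * D := by
    have h1 : l * (2 * (2 * (K / sc))) ≤ M * (4 * l * K / sc) := by
      have e : l * (2 * (2 * (K / sc))) = 1 * (4 * l * K / sc) := by ring
      rw [e]
      exact mul_le_mul_of_nonneg_right hM1' (by positivity)
    rw [hJM] at hfin
    have e2 : M * D = r2 * M + l * (r1 * M) + M * (4 * l * K / sc) := by rw [hD]; ring
    rw [e2]
    nlinarith
  have hfin3 : p / 2 * (M : ℝ) ≤ D := by
    have : (M : ℝ) * (p / 2 * M) ≤ M * D := by linarith [hfin2, sq (M : ℝ), mul_comm (M : ℝ) (p / 2 * M), show (M : ℝ) * (p / 2 * M) = p / 2 * (M : ℝ) ^ 2 by ring]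
    exact le_of_mul_le_mul_left this hMpos
  rw [div_lt_iff₀ hp] at hM
  linarith

end Pool.Agent.Lib.MP_00e05b_nt.Bar
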