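import Pool.Agent.Lib.MP_00e05b_nt.Bar.J2

/-!
# LEAF AV: the mean of the circle averages

For `v ≥ 0`, `0 < w ≤ 1`: `log⁺ v = (1/2) log⁺ (v² w w⁻¹) ≤ (1/2) (v² w + log (1/w))`. With `z = ib + N e^{iφ} = x + iy`, `v = ‖CF_t z‖ e^{2πh|y|}`,
`w = |y|/(1 + |y|)`, `1/w = 1 + 1/|y|`: by `CF_shift` and translation invariance of the integral over `t ∈ ℝ`,
`∫_0^T v² dt ≤ e^{4πh|y|} ∫_ℝ ‖CF_t(iy)‖² dt ≤ K (1 + 1/|y|) T`, so `∫_0^T log⁺ v dt ≤ (K + log (1 + 1/|y|)) T/2`, for `y ≠ 0`, `|y| ≤ N + 1`.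
`∫_{-1}^1 log (1 + 1/|b + s|) db ≤ C` for every real `s` (`log (1 + 1/u) ≤ 2/√u` and `≤ 1` for `u ≥ 1`; or: the integrand is decreasing in
`|b + s|`). Integrate over `b ∈ (-1, 1)` first, then over `φ ∈ (0, 2π]` (Tonelli, `CF_meas`). All with `lintegral`; `ofReal (circle average) ≤`
`(2π)⁻¹ ∫⁻ ofReal` by `AR_int` (`ofReal_integral_eq_lintegral_ofReal`). `K'` depends on `K` only.
-/

open Complex Set Filter Topology MeasureTheory

namespace Pool.Agent.Lib.MP_00e05b_nt.Bar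

open Pool.Agent.Lib.MP_00e05b_nt Pool.Agent.Lib.MP_00e05b_nt.Mont Pool.Agent.Lib.MP_00e05b_nt.Gap

/-- `log⁺ v ≤ (v² w + log (1/w))/2` for `w = y/(1 + y)`. -/
private theorem AV_log {v y : ℝ} (hv : 0 ≤ v) (hy : 0 < y) :
    Real.posLog v ≤ 1 / 2 * (y / (1 + y)) * v ^ 2 + 1 / 2 * Real.log (1 + 1 / y) := by
  have hw : 0 < y / (1 + y) := by positivity
  have h1 : Real.log (1 + 1 / y) = -Real.log (y / (1 + y)) := by
    rw [← Real.log_inv]
    congr 1
    field_simp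
    ring
  have hy1 : 0 < 1 / y := by positivity
  have h0 : 0 ≤ Real.log (1 + 1 / y) := Real.log_nonneg (by linarith)
  have h2 : Real.posLog v = max 0 (Real.log v) := by
    rw [Real.posLog_def]
    rfl
  have h3 : 0 ≤ 1 / 2 * (y / (1 + y)) * v ^ 2 := by positivity
  rw [h2]
  refine max_le (by linarith) ?_
  rcases hv.eq_or_lt with h | hv'
  · rw [← h, Real.log_zero]
    rw [← h] at h3
    linarith
  · have h4 := Real.log_le_sub_one_of_pos (by positivity : 0 < y / (1 + y) * v ^ 2)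
    rw [Real.log_mul hw.ne' (by positivity), Real.log_pow] at h4
    push_cast at h4
    linarith

/-- `∫_{-1}^1 log (1 + 1/|b + s|) db` is bounded: `log (1 + 1/|u|) ≤ log 2 + |log u|` for `|u| ≤ 1` and `≤ log 2` otherwise. -/
private theorem AV_logc : ∃ C : ℝ, 0 ≤ C ∧ ∀ s : ℝ,
    ∫⁻ b in Ioo (-1 : ℝ) 1, ENNReal.ofReal (Real.log (1 + 1 / |b + s|)) ≤ ENNReal.ofReal C := by
  obtain ⟨g, hg⟩ : ∃ g : ℝ → ℝ, g = (Ioc (-1 : ℝ) 1).indicator fun u => |Real.log u| := ⟨_, rfl⟩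
  have hgi : Integrable g := by
    have h1 : IntervalIntegrable Real.log volume (-1) 1 := intervalIntegral.intervalIntegrable_log'
    rw [intervalIntegrable_iff_integrableOn_Ioc_of_le (by norm_num)] at h1
    rw [hg]
    exact (integrable_indicator_iff measurableSet_Ioc).2 h1.abs
  have hg0 : ∀ u, 0 ≤ g u := fun u => by
    rw [hg]
    exact indicator_nonneg (fun _ _ => abs_nonneg _) u
  have hlog2 : 0 < Real.log 2 := Real.log_pos (by norm_num)
  have hpt : ∀ u : ℝ, Real.log (1 + 1 / |u|) ≤ Real.log 2 + g u := by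
    intro u
    rcases eq_or_ne u 0 with rfl | hu
    · have h1 := hg0 0
      simp only [abs_zero, div_zero, add_zero, Real.log_one]
      linarith
    have hu' := abs_pos.2 hu
    by_cases h : u ∈ Ioc (-1 : ℝ) 1
    · have h1 : |u| ≤ 1 := abs_le.2 ⟨h.1.le, h.2⟩
      have h2 : 1 + 1 / |u| ≤ 2 / |u| := by
        rw [le_div_iff₀ hu', add_mul, one_mul, div_mul_cancel₀ _ hu'.ne']
        linarith
      have h3 : g u = |Real.log u| := by
        rw [hg, indicator_of_mem h]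
      calc Real.log (1 + 1 / |u|) ≤ Real.log (2 / |u|) := Real.log_le_log (by positivity) h2
        _ = Real.log 2 - Real.log |u| := Real.log_div (by norm_num) hu'.ne'
        _ ≤ Real.log 2 + g u := by
            rw [Real.log_abs, h3]
            have := neg_abs_le (Real.log u)
            linarith
    · have h1 : 1 ≤ |u| := by
        by_contra h3
        rw [not_le, abs_lt] at h3
        exact h ⟨h3.1, h3.2.le⟩
      have h2 : 1 / |u| ≤ 1 := by
        rw [div_le_one hu']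
        exact h1
      have h3 := hg0 u
      have h4 : Real.log (1 + 1 / |u|) ≤ Real.log 2 := Real.log_le_log (by positivity) (by linarith)
      linarith
  refine ⟨2 * Real.log 2 + ∫ u, g u, add_nonneg (by positivity) (integral_nonneg hg0), fun s => ?_⟩
  have e1 : ∫⁻ _b in Ioo (-1 : ℝ) 1, ENNReal.ofReal (Real.log 2) = ENNReal.ofReal (2 * Real.log 2) := by
    rw [lintegral_const, Measure.restrict_apply_univ, Real.volume_Ioo, ← ENNReal.ofReal_mul hlog2.le]
    congr 1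
    ring
  calc ∫⁻ b in Ioo (-1 : ℝ) 1, ENNReal.ofReal (Real.log (1 + 1 / |b + s|))
      ≤ ∫⁻ b in Ioo (-1 : ℝ) 1, (ENNReal.ofReal (Real.log 2) + ENNReal.ofReal (g (b + s))) :=
        lintegral_mono fun b => (ENNReal.ofReal_le_ofReal (hpt (b + s))).trans ENNReal.ofReal_add_le
    _ = (∫⁻ _b in Ioo (-1 : ℝ) 1, ENNReal.ofReal (Real.log 2)) +
        ∫⁻ b in Ioo (-1 : ℝ) 1, ENNReal.ofReal (g (b + s)) := lintegral_add_left measurable_const _
    _ ≤ ENNReal.ofReal (2 * Real.log 2) + ∫⁻ b, ENNReal.ofReal (g (b + s)) :=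
        add_le_add e1.le (setLIntegral_le_lintegral _ _)
    _ = ENNReal.ofReal (2 * Real.log 2) + ENNReal.ofReal (∫ u, g u) := by
        rw [lintegral_add_right_eq_self (fun b => ENNReal.ofReal (g b)) s,
          ofReal_integral_eq_lintegral_ofReal hgi (ae_of_all _ hg0)]
    _ = ENNReal.ofReal (2 * Real.log 2 + ∫ u, g u) :=
        (ENNReal.ofReal_add (by positivity) (integral_nonneg hg0)).symm

/-- Measurability in the three variables, for an abstract function in place of `CF`. -/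
private theorem AV_meas (f : ℝ → ℂ → ℂ) (hf : Measurable fun q : ℝ × ℂ => f q.1 q.2) (h R : ℝ)
    {F : (ℝ × ℝ) × ℝ → ENNReal} (hF : ∀ q, F q = ENNReal.ofReal (Real.posLog
      (‖f q.1.1 (circleMap ((q.1.2 : ℂ) * I) R q.2)‖ *
        Real.exp (2 * Real.pi * h * |(circleMap ((q.1.2 : ℂ) * I) R q.2).im|)))) : Measurable F := by
  have hz : Measurable (fun q : (ℝ × ℝ) × ℝ => circleMap ((q.1.2 : ℂ) * I) R q.2) := by
    refine Continuous.measurable ?_
    unfold circleMap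
    fun_prop
  have h1 : Measurable (fun q : (ℝ × ℝ) × ℝ => f q.1.1 (circleMap ((q.1.2 : ℂ) * I) R q.2)) :=
    hf.comp ((measurable_fst.comp measurable_fst).prodMk hz)
  have h2 : Measurable (fun q : (ℝ × ℝ) × ℝ =>
      Real.exp (2 * Real.pi * h * |(circleMap ((q.1.2 : ℂ) * I) R q.2).im|)) :=
    Real.measurable_exp.comp (measurable_const.mul (continuous_abs.measurable.comp
      (Complex.measurable_im.comp hz)))
  have h3 : F = fun q => ENNReal.ofReal (Real.posLog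
    (‖f q.1.1 (circleMap ((q.1.2 : ℂ) * I) R q.2)‖ *
      Real.exp (2 * Real.pi * h * |(circleMap ((q.1.2 : ℂ) * I) R q.2).im|))) := funext hF
  rw [h3]
  exact (Real.continuous_posLog.measurable.comp (h1.norm.mul h2)).ennreal_ofReal

/-- The integral over `t`, at the point `x + iy`: shift covariance, translation invariance and the mean square. -/
private theorem AV_inner {ρ : ℝ → ℝ} {m : ℕ} {τ : ℝ} {a : ℕ → ℂ} {c T K h Y : ℝ} (hT : 1 < T) (hK : 0 ≤ K)
    (hMS : MS ρ m τ a c T K h Y) (x : ℝ) {y : ℝ} (hy : y ≠ 0) (hyY : |y| ≤ Y) :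
    ∫⁻ t in Icc 0 T, ENNReal.ofReal (Real.posLog (‖CF ρ m τ a c T t ((x : ℂ) + (y : ℂ) * I)‖ *
      Real.exp (2 * Real.pi * h * |y|))) ≤ ENNReal.ofReal (T / 2 * (K + Real.log (1 + 1 / |y|))) := by
  obtain ⟨hi, hle⟩ := hMS y hy hyY
  have hy' := abs_pos.2 hy
  have hT0 : 0 < T := by linarith
  have hy1 : 0 < 1 / |y| := by positivity
  have hl0 : 0 ≤ Real.log (1 + 1 / |y|) := Real.log_nonneg (by linarith)
  obtain ⟨s, hs⟩ : ∃ s : ℝ, s = 2 * Real.pi * x / Real.log T := ⟨_, rfl⟩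
  obtain ⟨A, hA⟩ : ∃ A : ℝ, A = 1 / 2 * (|y| / (1 + |y|)) * Real.exp (4 * Real.pi * h * |y|) := ⟨_, rfl⟩
  obtain ⟨B, hB⟩ : ∃ B : ℝ, B = 1 / 2 * Real.log (1 + 1 / |y|) := ⟨_, rfl⟩
  have hA0 : 0 ≤ A := by rw [hA]; positivity
  have hB0 : 0 ≤ B := by rw [hB]; positivity
  have hpt : ∀ t : ℝ, ENNReal.ofReal (Real.posLog (‖CF ρ m τ a c T t ((x : ℂ) + (y : ℂ) * I)‖ *
      Real.exp (2 * Real.pi * h * |y|))) ≤
      ENNReal.ofReal (A * ‖CF ρ m τ a c T (t + s) ((y : ℂ) * I)‖ ^ 2) + ENNReal.ofReal B := by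
    intro t
    rw [CF_shift hT, ← hs, ← ENNReal.ofReal_add (by positivity) hB0]
    refine ENNReal.ofReal_le_ofReal ((AV_log (by positivity) hy').trans (le_of_eq ?_))
    have h1 : (‖CF ρ m τ a c T (t + s) ((y : ℂ) * I)‖ * Real.exp (2 * Real.pi * h * |y|)) ^ 2 =
        ‖CF ρ m τ a c T (t + s) ((y : ℂ) * I)‖ ^ 2 * Real.exp (4 * Real.pi * h * |y|) := by
      rw [mul_pow, ← Real.exp_nat_mul]
      congr 2
      push_cast
      ring
    rw [h1, hA, hB]
    ring
  have hint : A * ∫ t : ℝ, ‖CF ρ m τ a c T t ((y : ℂ) * I)‖ ^ 2 ≤ T / 2 * K := by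
    have h1 : ∫ t : ℝ, ‖CF ρ m τ a c T t ((y : ℂ) * I)‖ ^ 2 ≤
        T * (K * (1 + 1 / |y|) * Real.exp (-(4 * Real.pi * h * |y|))) := by
      rwa [inv_mul_le_iff₀ hT0] at hle
    refine (mul_le_mul_of_nonneg_left h1 hA0).trans (le_of_eq ?_)
    have h2 : Real.exp (4 * Real.pi * h * |y|) * Real.exp (-(4 * Real.pi * h * |y|)) = 1 := by
      rw [← Real.exp_add, add_neg_cancel, Real.exp_zero]
    have h3 : |y| / (1 + |y|) * (1 + 1 / |y|) = 1 := by
      field_simp
      ring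
    rw [hA]
    calc 1 / 2 * (|y| / (1 + |y|)) * Real.exp (4 * Real.pi * h * |y|) *
          (T * (K * (1 + 1 / |y|) * Real.exp (-(4 * Real.pi * h * |y|))))
        = T / 2 * K * (|y| / (1 + |y|) * (1 + 1 / |y|)) *
          (Real.exp (4 * Real.pi * h * |y|) * Real.exp (-(4 * Real.pi * h * |y|))) := by ring
      _ = T / 2 * K := by rw [h2, h3, mul_one, mul_one]
  have hTv : volume (Icc 0 T) = ENNReal.ofReal T := by rw [Real.volume_Icc, sub_zero]
  calc ∫⁻ t in Icc 0 T, ENNReal.ofReal (Real.posLog (‖CF ρ m τ a c T t ((x : ℂ) + (y : ℂ) * I)‖ *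
        Real.exp (2 * Real.pi * h * |y|)))
      ≤ ∫⁻ t in Icc 0 T, (ENNReal.ofReal (A * ‖CF ρ m τ a c T (t + s) ((y : ℂ) * I)‖ ^ 2) +
          ENNReal.ofReal B) := lintegral_mono hpt
    _ = (∫⁻ t in Icc 0 T, ENNReal.ofReal (A * ‖CF ρ m τ a c T (t + s) ((y : ℂ) * I)‖ ^ 2)) +
        ENNReal.ofReal B * ENNReal.ofReal T := by
        rw [lintegral_add_right _ measurable_const, lintegral_const, Measure.restrict_apply_univ, hTv]
    _ ≤ (∫⁻ t : ℝ, ENNReal.ofReal (A * ‖CF ρ m τ a c T (t + s) ((y : ℂ) * I)‖ ^ 2)) +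
        ENNReal.ofReal B * ENNReal.ofReal T := add_le_add (setLIntegral_le_lintegral _ _) le_rfl
    _ = ENNReal.ofReal (A * ∫ t : ℝ, ‖CF ρ m τ a c T t ((y : ℂ) * I)‖ ^ 2) + ENNReal.ofReal (B * T) := by
        rw [lintegral_add_right_eq_self
          (fun t => ENNReal.ofReal (A * ‖CF ρ m τ a c T t ((y : ℂ) * I)‖ ^ 2)) s,
          ← ofReal_integral_eq_lintegral_ofReal (hi.const_mul A) (ae_of_all _ fun t => by positivity),
          integral_const_mul, ENNReal.ofReal_mul hB0]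
    _ ≤ ENNReal.ofReal (T / 2 * K) + ENNReal.ofReal (B * T) :=
        add_le_add (ENNReal.ofReal_le_ofReal hint) le_rfl
    _ = ENNReal.ofReal (T / 2 * (K + Real.log (1 + 1 / |y|))) := by
        rw [← ENNReal.ofReal_add (by positivity) (by positivity), hB]
        congr 1
        ring

theorem AR_avg {K : ℝ} (hK : 1 ≤ K) : ∃ K' : ℝ, 0 ≤ K' ∧ ∀ (ρ : ℝ → ℝ) (m : ℕ) (τ : ℝ) (a : ℕ → ℂ) (c T h : ℝ) (N : ℕ),
    RR ρ → 1 < T → 0 ≤ h → 1 ≤ N → MS ρ m τ a c T K h (N + 1) →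
      ∫⁻ q in Icc 0 T ×ˢ Ioo (-1 : ℝ) 1, ENNReal.ofReal (AR ρ m τ a c T h N q.1 q.2) ≤ ENNReal.ofReal (K' * T) := by
  obtain ⟨C, hC0, hC⟩ := AV_logc
  have hK0 : 0 ≤ K := by linarith
  refine ⟨(2 * K + C) / 2, by positivity, ?_⟩
  intro ρ m τ a c T h N hρ hT hh hN hMS
  have hT0 : 0 < T := by linarith
  obtain ⟨F, hF⟩ : ∃ F : (ℝ × ℝ) × ℝ → ENNReal, ∀ q, F q = ENNReal.ofReal (Real.posLog
      (‖CF ρ m τ a c T q.1.1 (circleMap ((q.1.2 : ℂ) * I) (N : ℝ) q.2)‖ *
        Real.exp (2 * Real.pi * h * |(circleMap ((q.1.2 : ℂ) * I) (N : ℝ) q.2).im|))) := ⟨_, fun _ => rfl⟩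
  have hFm : Measurable F := AV_meas (CF ρ m τ a c T) (CF_meas hρ m τ a c T) h (N : ℝ) hF
  have hpi : 0 < Real.pi := Real.pi_pos
  -- the circle average as a lower integral
  have hAR : ∀ q : ℝ × ℝ, ENNReal.ofReal (AR ρ m τ a c T h N q.1 q.2) =
      ENNReal.ofReal (2 * Real.pi)⁻¹ * ∫⁻ θ in Ioc 0 (2 * Real.pi), F (q, θ) := by
    intro q
    have h1 := AR_int hρ m τ a c T hh N q.1 q.2
    have h2 : IntegrableOn (fun θ => Real.posLog
        (‖CF ρ m τ a c T q.1 (circleMap ((q.2 : ℂ) * I) (N : ℝ) θ)‖ *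
        Real.exp (2 * Real.pi * h * |(circleMap ((q.2 : ℂ) * I) (N : ℝ) θ).im|))) (Ioc 0 (2 * Real.pi)) :=
      (intervalIntegrable_iff_integrableOn_Ioc_of_le (by positivity)).1 h1
    unfold AR
    rw [Real.circleAverage_def, smul_eq_mul, ENNReal.ofReal_mul (by positivity),
      intervalIntegral.integral_of_le (by positivity),
      ofReal_integral_eq_lintegral_ofReal h2 (ae_of_all _ fun θ => Real.posLog_nonneg)]
    congr 1
    exact lintegral_congr fun θ => (hF (q, θ)).symm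
  -- the bound at a fixed angle
  have hθ : ∀ θ : ℝ, ∫⁻ q, F (q, θ) ∂((volume.restrict (Icc 0 T)).prod (volume.restrict (Ioo (-1 : ℝ) 1))) ≤
      ENNReal.ofReal (T / 2 * (2 * K + C)) := by
    intro θ
    obtain ⟨y, hy⟩ : ∃ y : ℝ, y = (N : ℝ) * Real.sin θ := ⟨_, rfl⟩
    rw [lintegral_prod_symm (fun q : ℝ × ℝ => F (q, θ)) (hFm.comp (measurable_id.prodMk measurable_const)).aemeasurable]
    have h1 : ∀ᵐ b ∂(volume.restrict (Ioo (-1 : ℝ) 1)), ∫⁻ t in Icc 0 T, F ((t, b), θ) ≤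
        ENNReal.ofReal (T / 2 * (K + Real.log (1 + 1 / |b + y|))) := by
      have hne : ∀ᵐ b : ℝ, b ∈ ({-y} : Set ℝ)ᶜ := compl_mem_ae_iff.2 (measure_singleton _)
      filter_upwards [ae_restrict_mem measurableSet_Ioo, ae_restrict_of_ae hne] with b hb hb2
      have hby : b + y ≠ 0 := by
        intro h2
        refine hb2 ?_
        rw [mem_singleton_iff]
        linarith
      have hyN : |y| ≤ N := by
        rw [hy, abs_mul, Nat.abs_cast]
        exact mul_le_of_le_one_right (Nat.cast_nonneg _) (Real.abs_sin_le_one θ)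
      have hY : |b + y| ≤ (N : ℝ) + 1 := by
        have h3 := abs_add_le b y
        have h4 : |b| < 1 := abs_lt.2 hb
        linarith
      have hzz : circleMap ((b : ℂ) * I) (N : ℝ) θ =
          (((N : ℝ) * Real.cos θ : ℝ) : ℂ) + ((b + y : ℝ) : ℂ) * I := by
        unfold circleMap
        rw [Complex.exp_mul_I, hy]
        push_cast
        ring
      have him : (circleMap ((b : ℂ) * I) (N : ℝ) θ).im = b + y := by
        rw [hzz]
        simp
      have h5 := AV_inner hT hK0 hMS ((N : ℝ) * Real.cos θ) hby hY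
      refine le_trans (le_of_eq ?_) h5
      refine lintegral_congr fun t => ?_
      rw [hF]
      show ENNReal.ofReal (Real.posLog
        (‖CF ρ m τ a c T t (circleMap ((b : ℂ) * I) (N : ℝ) θ)‖ *
          Real.exp (2 * Real.pi * h * |(circleMap ((b : ℂ) * I) (N : ℝ) θ).im|))) = _
      rw [him, hzz]
    calc ∫⁻ b in Ioo (-1 : ℝ) 1, ∫⁻ t in Icc 0 T, F ((t, b), θ)
        ≤ ∫⁻ b in Ioo (-1 : ℝ) 1, ENNReal.ofReal (T / 2 * (K + Real.log (1 + 1 / |b + y|))) :=
          lintegral_mono_ae h1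
      _ ≤ ∫⁻ b in Ioo (-1 : ℝ) 1, (ENNReal.ofReal (T / 2 * K) +
          ENNReal.ofReal (T / 2) * ENNReal.ofReal (Real.log (1 + 1 / |b + y|))) := by
          refine lintegral_mono fun b => ?_
          show ENNReal.ofReal (T / 2 * (K + Real.log (1 + 1 / |b + y|))) ≤ ENNReal.ofReal (T / 2 * K) +
            ENNReal.ofReal (T / 2) * ENNReal.ofReal (Real.log (1 + 1 / |b + y|))
          rw [mul_add, ← ENNReal.ofReal_mul (by positivity)]
          exact ENNReal.ofReal_add_le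
      _ = ENNReal.ofReal (T / 2 * K) * ENNReal.ofReal 2 +
          ENNReal.ofReal (T / 2) * ∫⁻ b in Ioo (-1 : ℝ) 1, ENNReal.ofReal (Real.log (1 + 1 / |b + y|)) := by
          rw [lintegral_add_left measurable_const, lintegral_const, Measure.restrict_apply_univ,
            Real.volume_Ioo, lintegral_const_mul' _ _ ENNReal.ofReal_ne_top]
          norm_num
      _ ≤ ENNReal.ofReal (T / 2 * K) * ENNReal.ofReal 2 + ENNReal.ofReal (T / 2) * ENNReal.ofReal C := by
          gcongr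
          exact hC y
      _ = ENNReal.ofReal (T / 2 * (2 * K + C)) := by
          rw [← ENNReal.ofReal_mul (by positivity), ← ENNReal.ofReal_mul (by positivity),
            ← ENNReal.ofReal_add (by positivity) (by positivity)]
          congr 1
          ring
  rw [Measure.volume_eq_prod, ← Measure.prod_restrict]
  calc ∫⁻ q, ENNReal.ofReal (AR ρ m τ a c T h N q.1 q.2)
        ∂((volume.restrict (Icc 0 T)).prod (volume.restrict (Ioo (-1 : ℝ) 1)))
      = ∫⁻ q, (ENNReal.ofReal (2 * Real.pi)⁻¹ * ∫⁻ θ in Ioc 0 (2 * Real.pi), F (q, θ))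
        ∂((volume.restrict (Icc 0 T)).prod (volume.restrict (Ioo (-1 : ℝ) 1))) :=
        lintegral_congr fun q => hAR q
    _ = ENNReal.ofReal (2 * Real.pi)⁻¹ * ∫⁻ q, (∫⁻ θ in Ioc 0 (2 * Real.pi), F (q, θ))
        ∂((volume.restrict (Icc 0 T)).prod (volume.restrict (Ioo (-1 : ℝ) 1))) :=
        lintegral_const_mul _ hFm.lintegral_prod_right'
    _ = ENNReal.ofReal (2 * Real.pi)⁻¹ * ∫⁻ θ in Ioc 0 (2 * Real.pi), (∫⁻ q, F (q, θ)
        ∂((volume.restrict (Icc 0 T)).prod (volume.restrict (Ioo (-1 : ℝ) 1)))) := by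
        rw [lintegral_lintegral_swap (f := fun q θ => F (q, θ)) hFm.aemeasurable]
    _ ≤ ENNReal.ofReal (2 * Real.pi)⁻¹ * ∫⁻ _θ in Ioc 0 (2 * Real.pi), ENNReal.ofReal (T / 2 * (2 * K + C)) := by
        gcongr
        exact hθ _
    _ = ENNReal.ofReal ((2 * K + C) / 2 * T) := by
        rw [lintegral_const, Measure.restrict_apply_univ, Real.volume_Ioc, sub_zero,
          ← ENNReal.ofReal_mul (by positivity), ← ENNReal.ofReal_mul (by positivity)]
        congr 1
        field_simp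

end Pool.Agent.Lib.MP_00e05b_nt.Bar
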