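import Pool.Agent.Lib.MP_00e05b_nt.Bar.K3

/-!
# LEAF B1: the sum of the logarithms

`z = ib - (x_γ + d_k)`, `|z| ≥ |x_γ + d_k|`: `log⁺ (N/|z|) ≤ log⁺ (N/max (1, |z|)) + log⁺ (1/|z|) ≤ kN (x_γ + d_k) + log⁺ (1/|z|)` (`kN_ge`; if `|z| < 1` the first is
`log N = log⁺ (N/max 1 |x|)`; `log⁺` is monotone). `mult γ ≥ 1` (`Iso_mult`). The offsets are symmetric (`d_{m-k} = -d_k`), so
`∑_k kN (x + d_k) ≤ (m + 1) kN x + (1/2) ∑_k |kN (x + d_k) + kN (x - d_k) - 2 kN x|`, and `kN x ≤ fT (kap W N) x + |kN x - fT (kap W N) x|`. So with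
`B (t, b) = ∑_γ m_γ (E(x_γ) + ∑_k log⁺ (1/‖ib - x_γ - d_k‖))`, `E x = (m+1) |kN x - fT (kap W N) x| + (1/2) ∑_k |second difference at d_k|`, the
first claim holds. Mean of `B` over `t ∈ ℝ`, for fixed `b`: `Gap.FM.first_moment` (`NN T/N0 T → 1`: `≤ 2` for large `T`, e.g. `FM_ratio` with `c = 1` or the
count asymptotics), `∫ log⁺ (1/|x - ib|) dx ≤ ∫ log⁺ (1/|x|) dx = 2`, `|d_k| ≤ m`. `K` does not depend on `N, τ`.
-/

open Complex Set Filter Topology MeasureTheory

namespace Pool.Agent.Lib.MP_00e05b_nt.Bar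

open Pool.Agent.Lib.MP_00e05b_nt Pool.Agent.Lib.MP_00e05b_nt.Mont Pool.Agent.Lib.MP_00e05b_nt.Gap

private lemma B1_fT_meas {φ : ℝ → ℝ} (hφ : Measurable φ) : Measurable (fT φ) := by
  have h1 : StronglyMeasurable (Function.uncurry fun (x α : ℝ) => φ α * Real.cos (2 * Real.pi * x * α)) := by
    apply Measurable.stronglyMeasurable
    simp only [Function.uncurry_def]
    fun_prop
  exact (h1.integral_prod_right (ν := volume)).measurable

private lemma B1_point {N : ℕ} (hN : 1 ≤ N) {x b : ℝ} (hb : b ≠ 0) :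
    Real.posLog ((N : ℝ) / ‖(b : ℂ) * I - ((x : ℝ) : ℂ)‖) ≤ kN N x + Real.posLog (1 / ‖(b : ℂ) * I - ((x : ℝ) : ℂ)‖) := by
  have hN0 : (0 : ℝ) ≤ N := Nat.cast_nonneg N
  have hre : |x| ≤ ‖(b : ℂ) * I - ((x : ℝ) : ℂ)‖ := by
    have h1 := Complex.abs_re_le_norm ((b : ℂ) * I - ((x : ℝ) : ℂ))
    simpa using h1
  have him : |b| ≤ ‖(b : ℂ) * I - ((x : ℝ) : ℂ)‖ := by
    have h1 := Complex.abs_im_le_norm ((b : ℂ) * I - ((x : ℝ) : ℂ))
    simpa using h1
  have hpos : 0 < ‖(b : ℂ) * I - ((x : ℝ) : ℂ)‖ := lt_of_lt_of_le (abs_pos.mpr hb) him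
  obtain ⟨r, hr⟩ : ∃ r : ℝ, r = ‖(b : ℂ) * I - ((x : ℝ) : ℂ)‖ := ⟨_, rfl⟩
  rw [← hr] at hre hpos ⊢
  have hk := kN_ge hN x
  rcases le_or_gt 1 r with h | h
  · have h2 : (N : ℝ) / r ≤ (N : ℝ) / max 1 |x| :=
      div_le_div_of_nonneg_left hN0 (lt_of_lt_of_le one_pos (le_max_left _ _)) (max_le h hre)
    have h3 := Real.posLog_le_posLog (div_nonneg hN0 hpos.le) h2
    have h4 : 0 ≤ Real.posLog (1 / r) := Real.posLog_nonneg
    linarith
  · have h2 : max 1 |x| = 1 := max_eq_left (hre.trans h.le)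
    rw [h2, div_one] at hk
    have h3 : Real.posLog ((N : ℝ) / r) ≤ Real.posLog (N : ℝ) + Real.posLog (1 / r) := by
      have h4 : (N : ℝ) / r = (N : ℝ) * (1 / r) := by ring
      rw [h4]; exact Real.posLog_mul
    linarith

private lemma B1_off {m : ℕ} {τ : ℝ} (h0 : 0 < τ) (h1 : τ ≤ 1) {k : ℕ} (hk : k ∈ Finset.range (m + 1)) :
    |off m τ k| ≤ m := by
  have hk' : (k : ℝ) ≤ m := by exact_mod_cast Nat.lt_succ_iff.mp (Finset.mem_range.mp hk)
  have hk0 : (0 : ℝ) ≤ k := Nat.cast_nonneg k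
  unfold off
  rw [abs_mul, abs_of_pos h0]
  have h2 : |(k : ℝ) - (m : ℝ) / 2| ≤ m := by
    rw [abs_le]; constructor <;> linarith
  calc |(k : ℝ) - (m : ℝ) / 2| * τ ≤ |(k : ℝ) - (m : ℝ) / 2| * 1 := by gcongr
    _ ≤ m := by linarith

private lemma B1_sym (N m : ℕ) (τ x : ℝ) :
    ∑ k ∈ Finset.range (m + 1), kN N (x + off m τ k) =
      (m + 1) * kN N x + 1 / 2 * ∑ k ∈ Finset.range (m + 1),
        (kN N (x + off m τ k) + kN N (x - off m τ k) - 2 * kN N x) := by
  have h1 : ∑ k ∈ Finset.range (m + 1), kN N (x - off m τ k) = ∑ k ∈ Finset.range (m + 1), kN N (x + off m τ k) := by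
    rw [← Finset.sum_range_reflect]
    refine Finset.sum_congr rfl fun k hk => ?_
    have hk' : k ≤ m := Nat.lt_succ_iff.mp (Finset.mem_range.mp hk)
    congr 1
    have h2 : m + 1 - 1 - k = m - k := by omega
    rw [h2]
    unfold off
    rw [Nat.cast_sub hk']
    ring
  rw [Finset.sum_sub_distrib, Finset.sum_add_distrib, h1, Finset.sum_const, Finset.card_range, nsmul_eq_mul]
  push_cast
  ring

private lemma B1_log_int :
    Integrable (fun x : ℝ => Real.posLog (1 / |x|)) ∧ ∫ x : ℝ, Real.posLog (1 / |x|) = 2 := by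
  have h1 : (fun x : ℝ => Real.posLog (1 / |x|)) = (Ioc (-1 : ℝ) 1).indicator (fun x => -Real.log x) := by
    funext x
    have e1 : Real.posLog (1 / |x|) = max 0 (-Real.log x) := by
      rw [Real.posLog_apply, one_div, Real.log_inv, Real.log_abs]
    rw [e1]
    by_cases hx : x ∈ Ioc (-1 : ℝ) 1
    · rw [indicator_of_mem hx]
      apply max_eq_right
      have h2 : |x| ≤ 1 := abs_le.mpr ⟨hx.1.le, hx.2⟩
      have h3 := Real.log_nonpos (abs_nonneg x) h2
      rw [Real.log_abs] at h3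
      linarith
    · rw [indicator_of_notMem hx]
      apply max_eq_left
      have h2 : 1 ≤ |x| := by
        by_contra hc
        have h4 := abs_lt.mp (not_le.mp hc)
        exact hx ⟨h4.1, h4.2.le⟩
      have h3 := Real.log_nonneg h2
      rw [Real.log_abs] at h3
      linarith
  have h2 : IntervalIntegrable (fun x : ℝ => -Real.log x) volume (-1) 1 := intervalIntegral.intervalIntegrable_log'.neg
  rw [h1]
  constructor
  · rw [integrable_indicator_iff measurableSet_Ioc]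
    exact (intervalIntegrable_iff_integrableOn_Ioc_of_le (by norm_num)).mp h2
  · rw [integral_indicator measurableSet_Ioc, ← intervalIntegral.integral_of_le (by norm_num), intervalIntegral.integral_neg,
      integral_log]
    simp
    norm_num

private lemma B1_logb_int (b d : ℝ) :
    Integrable (fun x : ℝ => Real.posLog (1 / ‖(b : ℂ) * I - ((x + d : ℝ) : ℂ)‖)) ∧
      ∫ x : ℝ, Real.posLog (1 / ‖(b : ℂ) * I - ((x + d : ℝ) : ℂ)‖) ≤ 2 := by
  obtain ⟨h1, h2⟩ := B1_log_int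
  have h3 : Integrable (fun x : ℝ => Real.posLog (1 / |x + d|)) := h1.comp_add_right d
  have h4 : ∫ x : ℝ, Real.posLog (1 / |x + d|) = 2 := by
    rw [← h2]
    exact integral_add_right_eq_self (fun x : ℝ => Real.posLog (1 / |x|)) d
  have hm : Measurable (fun x : ℝ => Real.posLog (1 / ‖(b : ℂ) * I - ((x + d : ℝ) : ℂ)‖)) := by
    apply Real.continuous_posLog.measurable.comp
    fun_prop
  have hle : ∀ᵐ x : ℝ, Real.posLog (1 / ‖(b : ℂ) * I - ((x + d : ℝ) : ℂ)‖) ≤ Real.posLog (1 / |x + d|) := by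
    have h5 : ∀ᵐ x : ℝ, x ≠ -d := by
      rw [ae_iff]
      simp
    filter_upwards [h5] with x hx
    have hx' : 0 < |x + d| := by
      rw [abs_pos]
      intro h; exact hx (by linarith)
    have hre : |x + d| ≤ ‖(b : ℂ) * I - ((x + d : ℝ) : ℂ)‖ := by
      have h1 := Complex.abs_re_le_norm ((b : ℂ) * I - ((x + d : ℝ) : ℂ))
      have h6 : ((b : ℂ) * I - ((x + d : ℝ) : ℂ)).re = -(x + d) := by simp
      rwa [h6, abs_neg] at h1
    exact Real.posLog_le_posLog (by positivity) (one_div_le_one_div_of_le hx' hre)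
  constructor
  · refine h3.mono' hm.aestronglyMeasurable ?_
    filter_upwards [hle] with x hx
    rwa [Real.norm_of_nonneg Real.posLog_nonneg]
  · rw [← h4]
    exact integral_mono_of_nonneg (Eventually.of_forall fun x => Real.posLog_nonneg) h3 hle


theorem log_sum (hRH : RiemannHypothesis) {W : ℝ → ℝ} (hW : EB W (1 / 8)) (m : ℕ) :
    ∃ K : ℝ, 0 ≤ K ∧ ∀ τ : ℝ, 0 < τ → τ ≤ 1 → ∀ N : ℕ, 1 ≤ N → ∀ᶠ T : ℝ in atTop, ∃ B : ℝ × ℝ → ℝ, Measurable B ∧ (∀ q, 0 ≤ B q) ∧
      (∀ t b : ℝ, b ≠ 0 → ∑ γ ∈ ordinates T, ∑ k ∈ Finset.range (m + 1),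
          Real.posLog ((N : ℝ) / ‖(b : ℂ) * I - ((xg T t γ + off m τ k : ℝ) : ℂ)‖) ≤
        (m + 1) * WR (fT (kap W N)) T t + B (t, b)) ∧
      ∫⁻ q in Icc 0 T ×ˢ Ioo (-1 : ℝ) 1, ENNReal.ofReal (B q) ≤ ENNReal.ofReal (K * T) := by
  obtain ⟨C, hC0, hC⟩ := kN_smooth hW
  refine ⟨4 * ((m + 1) * C + 4 * (m + 1) * (m : ℝ) ^ 2 + 2 * (m + 1)), by positivity, ?_⟩
  intro τ hτ0 hτ1 N hN
  obtain ⟨hS1, hS2⟩ := hC N hN
  have hWm : Measurable W := hW.smooth.continuous.measurable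
  have hkNm : Measurable (kN N) := (kN_cont N).measurable
  have hkapm : Measurable (kap W N) := hWm.mul (B1_fT_meas hkNm)
  have hFm : Measurable (fT (kap W N)) := B1_fT_meas hkapm
  obtain ⟨E, hE⟩ : ∃ E : ℝ → ℝ, E = fun x => (m + 1) * |kN N x - fT (kap W N) x| +
      1 / 2 * ∑ k ∈ Finset.range (m + 1), |kN N (x + off m τ k) + kN N (x - off m τ k) - 2 * kN N x| := ⟨_, rfl⟩
  have hEm : Measurable E := by
    rw [hE]
    fun_prop
  have hE0 : ∀ x, 0 ≤ E x := by
    intro x; rw [hE]; dsimp only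
    have h1 : 0 ≤ ∑ k ∈ Finset.range (m + 1), |kN N (x + off m τ k) + kN N (x - off m τ k) - 2 * kN N x| :=
      Finset.sum_nonneg fun k _ => abs_nonneg _
    positivity
  have hEi : Integrable E := by
    rw [hE]
    refine (hS1.abs.const_mul _).add (Integrable.const_mul ?_ _)
    exact integrable_finsetSum _ fun k _ => (kN_second hN (off m τ k)).1.abs
  have hEint : ∫ x, E x ≤ (m + 1) * C + 4 * (m + 1) * (m : ℝ) ^ 2 := by
    rw [hE]
    rw [integral_add (hS1.abs.const_mul _)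
      (Integrable.const_mul (integrable_finsetSum _ fun k _ => (kN_second hN (off m τ k)).1.abs) _),
      integral_const_mul, integral_const_mul, integral_finsetSum _ fun k _ => (kN_second hN (off m τ k)).1.abs]
    have h1 : ∑ k ∈ Finset.range (m + 1), ∫ x, |kN N (x + off m τ k) + kN N (x - off m τ k) - 2 * kN N x| ≤
        ∑ k ∈ Finset.range (m + 1), 8 * (m : ℝ) ^ 2 := by
      refine Finset.sum_le_sum fun k hk => ?_
      refine (kN_second hN (off m τ k)).2.trans ?_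
      have h2 := B1_off hτ0 hτ1 hk
      have h3 : (off m τ k) ^ 2 ≤ (m : ℝ) ^ 2 := sq_le_sq' (by linarith [(abs_le.mp h2).1]) (abs_le.mp h2).2
      linarith
    rw [Finset.sum_const, Finset.card_range, nsmul_eq_mul] at h1
    push_cast at h1
    have h4 : ((m : ℝ) + 1) * ∫ x, |kN N x - fT (kap W N) x| ≤ (m + 1) * C := by gcongr
    linarith
  -- the function of one variable
  obtain ⟨g, hg⟩ : ∃ g : ℝ → ℝ → ℝ, g = fun (b x : ℝ) => E x + ∑ k ∈ Finset.range (m + 1),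
      Real.posLog (1 / ‖(b : ℂ) * I - ((x + off m τ k : ℝ) : ℂ)‖) := ⟨_, rfl⟩
  have hg0 : ∀ b x : ℝ, 0 ≤ g b x := by
    intro b x; rw [hg]
    exact add_nonneg (hE0 x) (Finset.sum_nonneg fun k _ => Real.posLog_nonneg)
  have hgm : Measurable (Function.uncurry g) := by
    rw [hg]
    simp only [Function.uncurry_def]
    refine (hEm.comp measurable_snd).add (Finset.measurable_fun_sum _ fun k _ => ?_)
    apply Real.continuous_posLog.measurable.comp
    fun_prop
  have hgi : ∀ b : ℝ, Integrable (g b) := by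
    intro b; rw [hg]
    exact hEi.add (integrable_finsetSum _ fun k _ => (B1_logb_int b _).1)
  have hgint : ∀ b : ℝ, ∫ x, g b x ≤ (m + 1) * C + 4 * (m + 1) * (m : ℝ) ^ 2 + 2 * (m + 1) := by
    intro b; rw [hg]; dsimp only
    rw [integral_add hEi (integrable_finsetSum _ fun k _ => (B1_logb_int b _).1),
      integral_finsetSum _ fun k _ => (B1_logb_int b _).1]
    have h1 : ∑ k ∈ Finset.range (m + 1), ∫ x : ℝ, Real.posLog (1 / ‖(b : ℂ) * I - ((x + off m τ k : ℝ) : ℂ)‖) ≤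
        ∑ k ∈ Finset.range (m + 1), (2 : ℝ) := Finset.sum_le_sum fun k _ => (B1_logb_int b _).2
    rw [Finset.sum_const, Finset.card_range, nsmul_eq_mul] at h1
    rw [Nat.cast_add, Nat.cast_one] at h1
    linarith
  have hpt : ∀ b x : ℝ, b ≠ 0 → ∑ k ∈ Finset.range (m + 1), Real.posLog ((N : ℝ) / ‖(b : ℂ) * I - ((x + off m τ k : ℝ) : ℂ)‖) ≤
      (m + 1) * fT (kap W N) x + g b x := by
    intro b x hb
    have h1 : ∑ k ∈ Finset.range (m + 1), Real.posLog ((N : ℝ) / ‖(b : ℂ) * I - ((x + off m τ k : ℝ) : ℂ)‖) ≤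
        ∑ k ∈ Finset.range (m + 1), kN N (x + off m τ k) +
          ∑ k ∈ Finset.range (m + 1), Real.posLog (1 / ‖(b : ℂ) * I - ((x + off m τ k : ℝ) : ℂ)‖) := by
      rw [← Finset.sum_add_distrib]
      exact Finset.sum_le_sum fun k _ => B1_point hN hb
    rw [B1_sym] at h1
    have h2 : ∑ k ∈ Finset.range (m + 1), (kN N (x + off m τ k) + kN N (x - off m τ k) - 2 * kN N x) ≤
        ∑ k ∈ Finset.range (m + 1), |kN N (x + off m τ k) + kN N (x - off m τ k) - 2 * kN N x| :=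
      Finset.sum_le_sum fun k _ => le_abs_self _
    have h3 : ((m : ℝ) + 1) * kN N x ≤ (m + 1) * fT (kap W N) x + (m + 1) * |kN N x - fT (kap W N) x| := by
      rw [← mul_add]
      have h4 := le_abs_self (kN N x - fT (kap W N) x)
      have h5 : (0 : ℝ) ≤ (m : ℝ) + 1 := by positivity
      apply mul_le_mul_of_nonneg_left _ h5
      linarith
    rw [hg, hE]; dsimp only
    linarith
  have hratio : ∀ᶠ T : ℝ in atTop, NN T / N0 T < 2 :=
    (count_tendsto hRH).eventually (eventually_lt_nhds (show (1 : ℝ) < 2 by norm_num))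
  filter_upwards [hratio, eventually_gt_atTop 1] with T hT2 hT
  have hT0 : (0 : ℝ) < T := by linarith
  have hxm : ∀ γ : ℝ, Measurable (fun t : ℝ => xg T t γ) := by
    intro γ; unfold xg; fun_prop
  refine ⟨fun q => ∑ γ ∈ ordinates T, (mult γ : ℝ) * g q.2 (xg T q.1 γ), ?_, ?_, ?_, ?_⟩
  · refine Finset.measurable_fun_sum _ fun γ _ => Measurable.const_mul ?_ _
    exact hgm.comp (measurable_snd.prodMk ((hxm γ).comp measurable_fst))
  · intro q
    exact Finset.sum_nonneg fun γ _ => mul_nonneg (Nat.cast_nonneg _) (hg0 _ _)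
  · intro t b hb
    unfold WR
    rw [Finset.mul_sum, ← Finset.sum_add_distrib]
    refine Finset.sum_le_sum fun γ hγ => ?_
    have hm : (1 : ℝ) ≤ mult γ := by exact_mod_cast Iso_mult hγ
    have h1 := hpt b (xg T t γ) hb
    have h2 : 0 ≤ ∑ k ∈ Finset.range (m + 1), Real.posLog ((N : ℝ) / ‖(b : ℂ) * I - ((xg T t γ + off m τ k : ℝ) : ℂ)‖) :=
      Finset.sum_nonneg fun k _ => Real.posLog_nonneg
    calc ∑ k ∈ Finset.range (m + 1), Real.posLog ((N : ℝ) / ‖(b : ℂ) * I - ((xg T t γ + off m τ k : ℝ) : ℂ)‖)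
        ≤ (mult γ : ℝ) * ∑ k ∈ Finset.range (m + 1), Real.posLog ((N : ℝ) / ‖(b : ℂ) * I - ((xg T t γ + off m τ k : ℝ) : ℂ)‖) :=
          le_mul_of_one_le_left h2 hm
      _ ≤ (mult γ : ℝ) * ((m + 1) * fT (kap W N) (xg T t γ) + g b (xg T t γ)) := by gcongr
      _ = (m + 1) * ((mult γ : ℝ) * fT (kap W N) (xg T t γ)) + (mult γ : ℝ) * g b (xg T t γ) := by ring
  · have hBm : Measurable (fun q : ℝ × ℝ => ENNReal.ofReal (∑ γ ∈ ordinates T, (mult γ : ℝ) * g q.2 (xg T q.1 γ))) := by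
      apply ENNReal.measurable_ofReal.comp
      refine Finset.measurable_fun_sum _ fun γ _ => Measurable.const_mul ?_ _
      exact hgm.comp (measurable_snd.prodMk ((hxm γ).comp measurable_fst))
    have hinner : ∀ b : ℝ, ∫⁻ t in Icc 0 T, ENNReal.ofReal (∑ γ ∈ ordinates T, (mult γ : ℝ) * g b (xg T t γ)) ≤
        ENNReal.ofReal (2 * ((m + 1) * C + 4 * (m + 1) * (m : ℝ) ^ 2 + 2 * (m + 1)) * T) := by
      intro b
      obtain ⟨f1, f2⟩ := first_moment hT (hgi b)
      have e1 : (fun t => ∑ γ ∈ ordinates T, (mult γ : ℝ) * g b (xg T t γ)) = fun t => WR (g b) T t := rfl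
      calc ∫⁻ t in Icc 0 T, ENNReal.ofReal (∑ γ ∈ ordinates T, (mult γ : ℝ) * g b (xg T t γ))
          ≤ ∫⁻ t, ENNReal.ofReal (WR (g b) T t) := setLIntegral_le_lintegral _ _
        _ = ENNReal.ofReal (∫ t, WR (g b) T t) := by
            rw [ofReal_integral_eq_lintegral_ofReal f1]
            exact Eventually.of_forall fun t => Finset.sum_nonneg fun γ _ => mul_nonneg (Nat.cast_nonneg _) (hg0 _ _)
        _ ≤ _ := by
            apply ENNReal.ofReal_le_ofReal
            have h1 : ∫ t, WR (g b) T t = NN T / N0 T * (∫ x, g b x) * T := by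
              rw [← f2]; field_simp
            rw [h1]
            have h2 : 0 ≤ ∫ x, g b x := integral_nonneg (hg0 b)
            have h3 := hgint b
            have h4 : NN T / N0 T * (∫ x, g b x) ≤ 2 * ((m + 1) * C + 4 * (m + 1) * (m : ℝ) ^ 2 + 2 * (m + 1)) :=
              (mul_le_mul_of_nonneg_right hT2.le h2).trans (mul_le_mul_of_nonneg_left h3 (by norm_num))
            exact mul_le_mul_of_nonneg_right h4 hT0.le
    rw [Measure.volume_eq_prod, ← Measure.prod_restrict, lintegral_prod_symm' _ hBm]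
    calc ∫⁻ b in Ioo (-1 : ℝ) 1, ∫⁻ t in Icc 0 T, ENNReal.ofReal (∑ γ ∈ ordinates T, (mult γ : ℝ) * g (t, b).2 (xg T (t, b).1 γ))
        ≤ ∫⁻ b in Ioo (-1 : ℝ) 1, ENNReal.ofReal (2 * ((m + 1) * C + 4 * (m + 1) * (m : ℝ) ^ 2 + 2 * (m + 1)) * T) :=
          lintegral_mono fun b => hinner b
      _ = ENNReal.ofReal (2 * ((m + 1) * C + 4 * (m + 1) * (m : ℝ) ^ 2 + 2 * (m + 1)) * T) * ENNReal.ofReal 2 := by
          rw [lintegral_const, Measure.restrict_apply_univ, Real.volume_Ioo]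
          norm_num
      _ = ENNReal.ofReal (4 * ((m + 1) * C + 4 * (m + 1) * (m : ℝ) ^ 2 + 2 * (m + 1)) * T) := by
          rw [← ENNReal.ofReal_mul (by positivity)]
          congr 1
          ring
      _ ≤ _ := le_rfl

end Pool.Agent.Lib.MP_00e05b_nt.Bar
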