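import Pool.Agent.Lib.MP_00e05b_nt.Bar.S1

/-!
# LEAF D0: the second moment of `log⁺ ‖CF‖` near the real line

As in `AV`: `(log⁺ v)² ≤ 2 v² w + (log (1/w))²` for `0 < w ≤ 1` (`log⁺ v ≤ (1/2) (log⁺ (v² w) + log (1/w))`, `(log⁺ x)² ≤ 4 x`, so
`(log⁺ v)² ≤ (1/2) ((log⁺ (v² w))² + (log (1/w))²)`), `w = |b|/(1 + |b|)`, `0 < |b| < 1`; `∫_{-1}^1 (log (1 + 1/|b|))² db ≤ C`;
`MS` with `Y = 1` and `e^{-4πh|b|} ≤ 1`.
-/

open Complex Set Filter Topology MeasureTheory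

namespace Pool.Agent.Lib.MP_00e05b_nt.Bar

open Pool.Agent.Lib.MP_00e05b_nt Pool.Agent.Lib.MP_00e05b_nt.Mont Pool.Agent.Lib.MP_00e05b_nt.Gap

private theorem D0_rpow : IntegrableOn (fun b : ℝ => |b| ^ (-(1 / 2) : ℝ)) (Ioo (-1 : ℝ) 1) := by
  have h0 : IntervalIntegrable (fun b : ℝ => b ^ (-(1 / 2) : ℝ)) volume (-1) 1 :=
    intervalIntegral.intervalIntegrable_rpow' (by norm_num)
  have h1 : IntervalIntegrable (fun b : ℝ => (-b) ^ (-(1 / 2) : ℝ)) volume (-1) 1 := by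
    have h2 : IntervalIntegrable (fun b : ℝ => b ^ (-(1 / 2) : ℝ)) volume (- -1) (-1) := by
      rw [neg_neg]
      exact h0.symm
    have h3 := h2.comp_sub_left 0
    simp only [zero_sub, neg_neg] at h3
    exact h3
  have h4 : IntegrableOn (fun b : ℝ => b ^ (-(1 / 2) : ℝ) + (-b) ^ (-(1 / 2) : ℝ)) (Ioo (-1 : ℝ) 1) := by
    have h5 := (intervalIntegrable_iff_integrableOn_Ioc_of_le (by norm_num : (-1 : ℝ) ≤ 1)).1 (h0.add h1)
    exact h5.mono_set Ioo_subset_Ioc_self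
  have hm : Measurable (fun b : ℝ => |b| ^ (-(1 / 2) : ℝ)) := by fun_prop
  refine Integrable.mono' h4 hm.aestronglyMeasurable (ae_of_all _ fun b => ?_)
  rw [Real.norm_of_nonneg (Real.rpow_nonneg (abs_nonneg b) _)]
  have hc : Real.cos (-(1 / 2) * Real.pi) = 0 := by
    rw [show (-(1 / 2) * Real.pi : ℝ) = -(Real.pi / 2) by ring, Real.cos_neg, Real.cos_pi_div_two]
  rcases lt_trichotomy b 0 with hb | hb | hb
  · rw [abs_of_neg hb, Real.rpow_def_of_neg hb, hc, mul_zero, zero_add]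
  · subst hb
    rw [abs_zero, neg_zero, Real.zero_rpow (by norm_num), add_zero]
  · rw [abs_of_pos hb, Real.rpow_def_of_neg (neg_lt_zero.2 hb), hc, mul_zero, add_zero]

private theorem D0_log {b : ℝ} (hb : |b| < 1) :
    Real.log (1 + 1 / |b|) ^ 2 ≤ 32 * |b| ^ (-(1 / 2) : ℝ) := by
  rcases eq_or_ne b 0 with rfl | h0
  · rw [abs_zero, div_zero, add_zero, Real.log_one]
    have := Real.rpow_nonneg (le_refl (0 : ℝ)) (-(1 / 2) : ℝ)
    nlinarith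
  have hp : 0 < |b| := abs_pos.2 h0
  set x : ℝ := |b| with hx
  have h1 : 0 ≤ Real.log (1 + 1 / x) := Real.log_nonneg (by have := one_div_pos.2 hp; linarith)
  have h2 : Real.log (1 + 1 / x) ≤ (1 + 1 / x) ^ (1 / 4 : ℝ) / (1 / 4) :=
    Real.log_le_rpow_div (by positivity) (by norm_num)
  have h3 : 1 + 1 / x ≤ 2 / x := by
    rw [le_div_iff₀ hp, add_mul, one_div, inv_mul_cancel₀ hp.ne']
    linarith
  have h4 : (1 + 1 / x) ^ (1 / 4 : ℝ) ≤ (2 / x) ^ (1 / 4 : ℝ) :=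
    Real.rpow_le_rpow (by positivity) h3 (by norm_num)
  have h5 : Real.log (1 + 1 / x) ≤ 4 * (2 / x) ^ (1 / 4 : ℝ) := by
    calc Real.log (1 + 1 / x) ≤ (1 + 1 / x) ^ (1 / 4 : ℝ) / (1 / 4) := h2
      _ = 4 * (1 + 1 / x) ^ (1 / 4 : ℝ) := by ring
      _ ≤ 4 * (2 / x) ^ (1 / 4 : ℝ) := by linarith
  have h6 : ((2 / x) ^ (1 / 4 : ℝ)) ^ 2 = (2 / x) ^ (1 / 2 : ℝ) := by
    rw [← Real.rpow_natCast, ← Real.rpow_mul (by positivity)]
    norm_num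
  have h7 : (2 / x) ^ (1 / 2 : ℝ) ≤ 2 * x ^ (-(1 / 2) : ℝ) := by
    rw [div_eq_mul_inv, Real.mul_rpow (by norm_num) (by positivity), Real.inv_rpow hp.le, ← Real.rpow_neg hp.le]
    refine mul_le_mul_of_nonneg_right ?_ (Real.rpow_nonneg hp.le _)
    calc (2 : ℝ) ^ (1 / 2 : ℝ) ≤ (2 : ℝ) ^ (1 : ℝ) := Real.rpow_le_rpow_of_exponent_le (by norm_num) (by norm_num)
      _ = 2 := Real.rpow_one 2
  calc Real.log (1 + 1 / x) ^ 2 ≤ (4 * (2 / x) ^ (1 / 4 : ℝ)) ^ 2 := pow_le_pow_left₀ h1 h5 2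
    _ = 16 * (2 / x) ^ (1 / 2 : ℝ) := by rw [mul_pow, h6]; norm_num
    _ ≤ 16 * (2 * x ^ (-(1 / 2) : ℝ)) := by linarith
    _ = 32 * x ^ (-(1 / 2) : ℝ) := by ring

private theorem D0_int : ∃ C : ℝ, 0 ≤ C ∧
    ∫⁻ b in Ioo (-1 : ℝ) 1, ENNReal.ofReal (Real.log (1 + 1 / |b|) ^ 2) ≤ ENNReal.ofReal C := by
  have hI : Integrable (fun b : ℝ => 32 * |b| ^ (-(1 / 2) : ℝ)) (volume.restrict (Ioo (-1 : ℝ) 1)) :=
    D0_rpow.const_mul 32
  have hn : ∀ b : ℝ, 0 ≤ 32 * |b| ^ (-(1 / 2) : ℝ) := fun b =>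
    mul_nonneg (by norm_num) (Real.rpow_nonneg (abs_nonneg b) _)
  refine ⟨∫ b in Ioo (-1 : ℝ) 1, 32 * |b| ^ (-(1 / 2) : ℝ), integral_nonneg hn, ?_⟩
  rw [ofReal_integral_eq_lintegral_ofReal hI (ae_of_all _ hn)]
  refine setLIntegral_mono' measurableSet_Ioo fun b hb => ENNReal.ofReal_le_ofReal (D0_log ?_)
  exact abs_lt.2 hb

/-- The pointwise inequality. -/
private theorem D0_pt {v x : ℝ} (hv : 0 ≤ v) (hx : 0 < x) (B : ℝ) (hB : B = Real.log (1 + 1 / x)) :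
    Real.posLog v ^ 2 ≤ 2 * (x / (1 + x)) * v ^ 2 + B ^ 2 / 2 := by
  have hw : 0 < x / (1 + x) := by positivity
  have hB0 : 0 ≤ B := by
    rw [hB]
    exact Real.log_nonneg (by have := one_div_pos.2 hx; linarith)
  have hwi : (x / (1 + x))⁻¹ = 1 + 1 / x := by
    field_simp
    ring
  have h1 : 2 * Real.posLog v ≤ Real.posLog (v ^ 2 * (x / (1 + x))) + B := by
    have h2 : Real.posLog (v ^ 2) = 2 * Real.posLog v := by
      rcases le_total v 1 with h | h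
      · have h3 : Real.posLog v = 0 := (Real.posLog_eq_zero_iff v).2 (by rwa [abs_of_nonneg hv])
        have h4 : Real.posLog (v ^ 2) = 0 := (Real.posLog_eq_zero_iff _).2 (by
          rw [abs_of_nonneg (sq_nonneg v)]
          exact pow_le_one₀ hv h)
        rw [h3, h4, mul_zero]
      · have h3 : Real.posLog v = Real.log v := Real.posLog_eq_log (by rwa [abs_of_nonneg hv])
        have h4 : Real.posLog (v ^ 2) = Real.log (v ^ 2) := Real.posLog_eq_log (by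
          rw [abs_of_nonneg (sq_nonneg v)]
          exact one_le_pow₀ h)
        rw [h3, h4, Real.log_pow]
        norm_num
    have h3 : v ^ 2 = v ^ 2 * (x / (1 + x)) * (x / (1 + x))⁻¹ := by
      rw [mul_assoc, mul_inv_cancel₀ hw.ne', mul_one]
    have h4 : Real.posLog ((x / (1 + x))⁻¹) = B := by
      rw [hwi, Real.posLog_eq_log, hB]
      rw [abs_of_nonneg (by positivity)]
      have := one_div_pos.2 hx
      linarith
    rw [← h2, ← h4]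
    calc Real.posLog (v ^ 2) = Real.posLog (v ^ 2 * (x / (1 + x)) * (x / (1 + x))⁻¹) := by rw [← h3]
      _ ≤ _ := Real.posLog_mul
  set u : ℝ := v ^ 2 * (x / (1 + x)) with hu
  have hu0 : 0 ≤ u := by positivity
  have h5 : Real.posLog u ^ 2 ≤ 4 * u := by
    have h6 : Real.posLog u ≤ 2 * Real.sqrt u := by
      rcases le_total u 1 with h | h
      · rw [(Real.posLog_eq_zero_iff u).2 (by rwa [abs_of_nonneg hu0])]
        positivity
      · rw [Real.posLog_eq_log (by rwa [abs_of_nonneg hu0])]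
        have hs : 0 < Real.sqrt u := Real.sqrt_pos.2 (by linarith)
        have h7 : Real.log u = 2 * Real.log (Real.sqrt u) := by
          rw [Real.log_sqrt hu0]
          ring
        rw [h7]
        have := Real.log_le_sub_one_of_pos hs
        linarith
    calc Real.posLog u ^ 2 ≤ (2 * Real.sqrt u) ^ 2 := pow_le_pow_left₀ Real.posLog_nonneg h6 2
      _ = 4 * u := by rw [mul_pow, Real.sq_sqrt hu0]; norm_num
  have h8 : 0 ≤ Real.posLog v := Real.posLog_nonneg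
  have h9 : 0 ≤ Real.posLog u := Real.posLog_nonneg
  have h10 : (2 * Real.posLog v) ^ 2 ≤ (Real.posLog u + B) ^ 2 :=
    pow_le_pow_left₀ (by positivity) h1 2
  have h11 : (Real.posLog u + B) ^ 2 ≤ 2 * (Real.posLog u ^ 2 + B ^ 2) := by
    nlinarith [sq_nonneg (Real.posLog u - B)]
  have h12 : 2 * (x / (1 + x)) * v ^ 2 = 2 * u := by
    rw [hu]
    ring
  rw [h12]
  nlinarith

/-- The integral over `t` for a fixed `b`. -/
private theorem D0_in {K T h x : ℝ} {F : ℝ → ℂ} (hK : 1 ≤ K) (hT : 2 ≤ T) (hh : 0 ≤ h) (hx : 0 < x)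
    (hi : Integrable (fun t : ℝ => ‖F t‖ ^ 2))
    (hb : T⁻¹ * ∫ t : ℝ, ‖F t‖ ^ 2 ≤ K * (1 + 1 / x) * Real.exp (-(4 * Real.pi * h * x))) :
    ∫⁻ t in Icc (-1 : ℝ) (T + 1), ENNReal.ofReal (Real.posLog ‖F t‖ ^ 2)
      ≤ ENNReal.ofReal (2 * K * T) + ENNReal.ofReal T * ENNReal.ofReal (Real.log (1 + 1 / x) ^ 2) := by
  have hT0 : 0 < T := by linarith
  set B : ℝ := Real.log (1 + 1 / x) with hB
  set w : ℝ := x / (1 + x) with hw
  have hw0 : 0 ≤ w := by positivity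
  have hA : ∫ t : ℝ, ‖F t‖ ^ 2 ≤ K * (1 + 1 / x) * T := by
    have h2 : Real.exp (-(4 * Real.pi * h * x)) ≤ 1 := by
      rw [Real.exp_le_one_iff]
      have := Real.pi_pos
      have : 0 ≤ 4 * Real.pi * h * x := by positivity
      linarith
    have h3 : K * (1 + 1 / x) * Real.exp (-(4 * Real.pi * h * x)) ≤ K * (1 + 1 / x) :=
      mul_le_of_le_one_right (by positivity) h2
    have h4 := hb.trans h3
    rw [inv_mul_le_iff₀ hT0] at h4
    linarith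
  have hA2 : 2 * w * ∫ t : ℝ, ‖F t‖ ^ 2 ≤ 2 * K * T := by
    have h5 : w * (1 + 1 / x) = 1 := by
      rw [hw]
      field_simp
      ring
    calc 2 * w * ∫ t : ℝ, ‖F t‖ ^ 2 ≤ 2 * w * (K * (1 + 1 / x) * T) := mul_le_mul_of_nonneg_left hA (by positivity)
      _ = 2 * K * T * (w * (1 + 1 / x)) := by ring
      _ = 2 * K * T := by rw [h5, mul_one]
  have e1 : ∫⁻ t in Icc (-1 : ℝ) (T + 1), ENNReal.ofReal (Real.posLog ‖F t‖ ^ 2)
      ≤ ∫⁻ t in Icc (-1 : ℝ) (T + 1), (ENNReal.ofReal (2 * w * ‖F t‖ ^ 2) + ENNReal.ofReal (B ^ 2 / 2)) := by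
    refine lintegral_mono fun t => ?_
    have h1 : 0 ≤ 2 * w * ‖F t‖ ^ 2 := by positivity
    have h2 : 0 ≤ B ^ 2 / 2 := by positivity
    have h3 := D0_pt (norm_nonneg (F t)) hx B hB
    change ENNReal.ofReal (Real.posLog ‖F t‖ ^ 2) ≤ ENNReal.ofReal (2 * w * ‖F t‖ ^ 2) + ENNReal.ofReal (B ^ 2 / 2)
    rw [← ENNReal.ofReal_add h1 h2]
    exact ENNReal.ofReal_le_ofReal h3
  have e2 : ∫⁻ t in Icc (-1 : ℝ) (T + 1), (ENNReal.ofReal (2 * w * ‖F t‖ ^ 2) + ENNReal.ofReal (B ^ 2 / 2))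
      = (∫⁻ t in Icc (-1 : ℝ) (T + 1), ENNReal.ofReal (2 * w * ‖F t‖ ^ 2))
        + ENNReal.ofReal (B ^ 2 / 2) * volume (Icc (-1 : ℝ) (T + 1)) := by
    rw [lintegral_add_right _ measurable_const, setLIntegral_const]
  have e3 : ∫⁻ t in Icc (-1 : ℝ) (T + 1), ENNReal.ofReal (2 * w * ‖F t‖ ^ 2) ≤ ∫⁻ t, ENNReal.ofReal (2 * w * ‖F t‖ ^ 2) :=
    setLIntegral_le_lintegral _ _
  have e4 : ∫⁻ t, ENNReal.ofReal (2 * w * ‖F t‖ ^ 2) = ENNReal.ofReal (2 * w * ∫ t, ‖F t‖ ^ 2) := by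
    rw [← integral_const_mul]
    exact (ofReal_integral_eq_lintegral_ofReal (hi.const_mul _) (ae_of_all _ fun t => by positivity)).symm
  have e5 : ENNReal.ofReal (B ^ 2 / 2) * volume (Icc (-1 : ℝ) (T + 1)) ≤ ENNReal.ofReal T * ENNReal.ofReal (B ^ 2) := by
    rw [Real.volume_Icc, ← ENNReal.ofReal_mul (by positivity), ← ENNReal.ofReal_mul (by positivity)]
    refine ENNReal.ofReal_le_ofReal ?_
    nlinarith [sq_nonneg B]
  rw [e2] at e1
  refine e1.trans (add_le_add (e3.trans ?_) e5)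
  rw [e4]
  exact ENNReal.ofReal_le_ofReal hA2

/-- The integral over `b`. -/
private theorem D0_out {K T C : ℝ} (hK : 1 ≤ K) (hT : 2 ≤ T) (hC : 0 ≤ C) {G : ℝ → ENNReal}
    (hCI : ∫⁻ b in Ioo (-1 : ℝ) 1, ENNReal.ofReal (Real.log (1 + 1 / |b|) ^ 2) ≤ ENNReal.ofReal C)
    (hG : ∀ᵐ b : ℝ ∂(volume.restrict (Ioo (-1 : ℝ) 1)),
      G b ≤ ENNReal.ofReal (2 * K * T) + ENNReal.ofReal T * ENNReal.ofReal (Real.log (1 + 1 / |b|) ^ 2)) :
    ∫⁻ b in Ioo (-1 : ℝ) 1, G b ≤ ENNReal.ofReal ((4 * K + C) * T) := by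
  have hT0 : 0 < T := by linarith
  have h1 : ∫⁻ b in Ioo (-1 : ℝ) 1, (ENNReal.ofReal (2 * K * T) + ENNReal.ofReal T * ENNReal.ofReal (Real.log (1 + 1 / |b|) ^ 2))
      = ENNReal.ofReal (2 * K * T) * volume (Ioo (-1 : ℝ) 1)
        + ENNReal.ofReal T * ∫⁻ b in Ioo (-1 : ℝ) 1, ENNReal.ofReal (Real.log (1 + 1 / |b|) ^ 2) := by
    rw [lintegral_add_left measurable_const, setLIntegral_const, lintegral_const_mul' _ _ ENNReal.ofReal_ne_top]
  have h2 : ENNReal.ofReal ((4 * K + C) * T) = ENNReal.ofReal (2 * K * T) * ENNReal.ofReal 2 + ENNReal.ofReal T * ENNReal.ofReal C := by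
    rw [← ENNReal.ofReal_mul (by positivity), ← ENNReal.ofReal_mul hT0.le, ← ENNReal.ofReal_add (by positivity) (by positivity)]
    congr 1
    ring
  have h3 : volume (Ioo (-1 : ℝ) 1) = ENNReal.ofReal 2 := by
    rw [Real.volume_Ioo]
    norm_num
  rw [h2]
  refine (lintegral_mono_ae hG).trans ?_
  rw [h1, h3]
  exact add_le_add le_rfl (mul_le_mul' le_rfl hCI)

private theorem D0_ne : ∀ᵐ b : ℝ ∂(volume.restrict (Ioo (-1 : ℝ) 1)), b ≠ 0 := by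
  refine ae_restrict_of_ae ?_
  rw [ae_iff]
  simp

private theorem D0_posLog : Measurable Real.posLog := by
  have : Real.posLog = fun x : ℝ => max 0 (Real.log x) := rfl
  rw [this]
  fun_prop

private theorem D0_meas (G : ℝ × ℂ → ℂ) (hG : Measurable G) : Measurable (fun q : ℝ × ℝ => G (q.1, (q.2 : ℂ) * I)) :=
  hG.comp (measurable_fst.prodMk ((Complex.measurable_ofReal.comp measurable_snd).mul_const I))

private theorem D0_meas2 {ρ : ℝ → ℝ} (hρ : RR ρ) (m : ℕ) (τ : ℝ) (a : ℕ → ℂ) (c T : ℝ) :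
    Measurable (fun q : ℝ × ℝ => CF ρ m τ a c T q.1 ((q.2 : ℂ) * I)) := by
  have h := D0_meas _ (CF_meas hρ m τ a c T)
  exact h

theorem posLog_sq {K : ℝ} (hK : 1 ≤ K) : ∃ K' : ℝ, 0 ≤ K' ∧ ∀ (ρ : ℝ → ℝ) (m : ℕ) (τ : ℝ) (a : ℕ → ℂ) (c T h : ℝ),
    RR ρ → 2 ≤ T → 0 ≤ h → MS ρ m τ a c T K h 1 →
      ∫⁻ q in Icc (-1 : ℝ) (T + 1) ×ˢ Ioo (-1 : ℝ) 1,
        ENNReal.ofReal (Real.posLog ‖CF ρ m τ a c T q.1 ((q.2 : ℂ) * I)‖ ^ 2) ≤ ENNReal.ofReal (K' * T) := by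
  obtain ⟨C, hC, hCI⟩ := D0_int
  refine ⟨4 * K + C, by linarith, fun ρ m τ a c T h hρ hT hh hMS => ?_⟩
  have hm0 := D0_meas2 hρ m τ a c T
  have hm : Measurable (fun q : ℝ × ℝ => ENNReal.ofReal (Real.posLog ‖CF ρ m τ a c T q.1 ((q.2 : ℂ) * I)‖ ^ 2)) :=
    ((D0_posLog.comp hm0.norm).pow_const 2).ennreal_ofReal
  have e0 : ∫⁻ q in Icc (-1 : ℝ) (T + 1) ×ˢ Ioo (-1 : ℝ) 1,
        ENNReal.ofReal (Real.posLog ‖CF ρ m τ a c T q.1 ((q.2 : ℂ) * I)‖ ^ 2)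
      = ∫⁻ b in Ioo (-1 : ℝ) 1, ∫⁻ t in Icc (-1 : ℝ) (T + 1),
        ENNReal.ofReal (Real.posLog ‖CF ρ m τ a c T t ((b : ℂ) * I)‖ ^ 2) := by
    rw [Measure.volume_eq_prod, ← Measure.prod_restrict]
    exact lintegral_prod_symm _ hm.aemeasurable
  rw [e0]
  refine D0_out hK hT hC hCI ?_
  filter_upwards [D0_ne, ae_restrict_mem measurableSet_Ioo] with b hb hbm
  have hb1 : |b| < 1 := abs_lt.2 hbm
  obtain ⟨hi, hb2⟩ := hMS b hb hb1.le
  exact D0_in hK hT hh (abs_pos.2 hb) hi hb2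

end Pool.Agent.Lib.MP_00e05b_nt.Bar
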