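import Pool.Agent.Lib.MP_00e05b_nt.Bar.S1
import Pool.Agent.Lib.MP_00e05b_nt.Gap.J

/-!
# LEAF D1: around an isolated simple zero

`gg v = 1 + log⁺ v` if `v ≥ e⁻¹`, else `0`: `log v ≤ gg v - 1` for every `v > 0`.
-/

open Complex Set Filter Topology MeasureTheory

namespace Pool.Agent.Lib.MP_00e05b_nt.Bar

open Pool.Agent.Lib.MP_00e05b_nt Pool.Agent.Lib.MP_00e05b_nt.Mont Pool.Agent.Lib.MP_00e05b_nt.Gap

/-- `1 + log⁺ v` for `v ≥ e⁻¹`, zero below. -/
noncomputable def gg (v : ℝ) : ℝ := by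
  classical
  exact if Real.exp (-1) ≤ v then 1 + Real.posLog v else 0

theorem gg_nonneg (v : ℝ) : 0 ≤ gg v := by
  unfold gg
  split_ifs
  · have := Real.posLog_nonneg (x := v)
    linarith
  · exact le_refl 0

theorem gg_meas : Measurable gg := by
  classical
  have h1 : Measurable (fun v : ℝ => 1 + Real.posLog v) :=
    measurable_const.add (measurable_const.max Real.measurable_log)
  exact Measurable.ite measurableSet_Ici h1 measurable_const

theorem gg_le (v : ℝ) : gg v ≤ 1 + Real.posLog v := by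
  unfold gg
  split_ifs
  · exact le_refl _
  · have := Real.posLog_nonneg (x := v)
    linarith

private theorem D1_log {v : ℝ} (hv : 0 < v) : Real.log v ≤ gg v - 1 := by
  unfold gg
  split_ifs with h
  · have : Real.log v ≤ Real.posLog v := le_max_right _ _
    linarith
  · have h1 : Real.log v < -1 := by
      rw [Real.log_lt_iff_lt_exp hv]
      exact lt_of_not_ge h
    linarith

private theorem D1_mono {v w : ℝ} (hv : 0 ≤ v) (h : v ≤ w) : gg v ≤ 1 + Real.posLog w := by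
  have h1 : Real.posLog v ≤ Real.posLog w := Real.posLog_le_posLog hv h
  have h2 := gg_le v
  linarith

/-- The analytic function. -/
private theorem D1_an {ρ : ℝ → ℝ} (hρ : RR ρ) {m : ℕ} {τ r : ℝ} {a : ℕ → ℂ} {c T γ s : ℝ} (ha : a 0 = 1)
    (hτ : 0 < τ) (hτr : (m + 1) * τ ≤ r) (hγ : γ ∈ Iso r T) (hsτ : s < τ) :
    ∃ g : ℂ → ℂ, AnalyticOnNhd ℂ g (Metric.closedBall ((off m τ 0 : ℝ) : ℂ) s) ∧
      g ((off m τ 0 : ℝ) : ℂ) = 1 ∧
      ∀ z : ℂ, z ≠ ((off m τ 0 : ℝ) : ℂ) → g z = CF ρ m τ a c T γ z * (z - ((off m τ 0 : ℝ) : ℂ)) := by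
  classical
  obtain ⟨hγ1, hγ2, hγ3⟩ := mem_Iso.1 hγ
  set x0 : ℂ := ((off m τ 0 : ℝ) : ℂ) with hx0
  set W : ℝ × ℕ → ℂ := fun q => (mult q.1 : ℂ) * cexp (-((2 * Real.pi * c * xg T γ q.1 : ℝ) : ℂ) * I) * a q.2
    with hW
  set p : ℝ × ℕ → ℂ := fun q => ((xg T γ q.1 + off m τ q.2 : ℝ) : ℂ) with hp
  set S : Finset (ℝ × ℕ) := ordinates T ×ˢ Finset.range (m + 1) with hS
  have hq0 : ((γ, 0) : ℝ × ℕ) ∈ S := by
    rw [hS, Finset.mem_product]
    exact ⟨hγ1, Finset.mem_range.2 (Nat.succ_pos m)⟩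
  have hxg : xg T γ γ = 0 := by
    unfold xg
    rw [sub_self, mul_zero, zero_div]
  have hp0 : p (γ, 0) = x0 := by
    rw [hp, hx0]
    simp only [hxg, zero_add]
  have hW0 : W (γ, 0) = 1 := by
    rw [hW]
    simp only [hxg, mul_zero, hγ2, ha, Nat.cast_one, Complex.ofReal_zero, neg_zero, zero_mul, Complex.exp_zero,
      mul_one]
  have hdist : ∀ q ∈ S.erase (γ, 0), τ ≤ ‖p q - x0‖ := by
    rintro ⟨γ', k⟩ hq
    rw [Finset.mem_erase, hS, Finset.mem_product, Finset.mem_range] at hq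
    obtain ⟨hne, hγ', hk⟩ := hq
    have h1 : p (γ', k) - x0 = ((xg T γ γ' + (k : ℝ) * τ : ℝ) : ℂ) := by
      rw [hp, hx0]
      simp only
      rw [← Complex.ofReal_sub]
      congr 1
      unfold off
      push_cast
      ring
    rw [h1, Complex.norm_real, Real.norm_eq_abs]
    by_cases hg : γ' = γ
    · subst hg
      have hk0 : k ≠ 0 := fun h => hne (by rw [h])
      have hk1 : (1 : ℝ) ≤ k := by exact_mod_cast Nat.one_le_iff_ne_zero.2 hk0
      rw [hxg, zero_add, abs_of_nonneg (by positivity)]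
      nlinarith
    · have h2 := hγ3 γ' hγ' hg
      have h3 : |xg T γ γ'| = |Real.log T * (γ - γ') / (2 * Real.pi)| := by
        unfold xg
        rw [← abs_neg]
        congr 1
        ring
      rw [← h3] at h2
      have h4 : |xg T γ γ'| ≤ |xg T γ γ' + (k : ℝ) * τ| + |(k : ℝ) * τ| := by
        have := abs_sub_abs_le_abs_sub (xg T γ γ') (-((k : ℝ) * τ))
        rw [abs_neg, sub_neg_eq_add] at this
        linarith
      have h5 : |(k : ℝ) * τ| ≤ (m : ℝ) * τ := by
        rw [abs_of_nonneg (by positivity)]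
        have : (k : ℝ) ≤ m := by exact_mod_cast Nat.lt_succ_iff.1 hk
        exact mul_le_mul_of_nonneg_right this hτ.le
      nlinarith
  refine ⟨fun z => Psi ρ (z - x0) + (z - x0) * ∑ q ∈ S.erase (γ, 0), W q * Psi ρ (z - p q) / (z - p q), ?_, ?_, ?_⟩
  · intro z hz
    have hz' : ‖z - x0‖ ≤ s := by simpa [dist_eq_norm] using hz
    have hP : ∀ w : ℂ, AnalyticAt ℂ (fun z => Psi ρ (z - w)) z := fun w => by
      have h1 : Differentiable ℂ (fun z => Psi ρ (z - w)) := (Psi_diff hρ).comp (differentiable_id.sub_const w)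
      exact h1.analyticAt z
    have hlin : ∀ w : ℂ, AnalyticAt ℂ (fun z : ℂ => z - w) z := fun w => analyticAt_id.sub analyticAt_const
    refine (hP x0).add ((hlin x0).mul ?_)
    refine Finset.analyticAt_fun_sum _ fun q hq => ?_
    refine (analyticAt_const.mul (hP (p q))).div (hlin (p q)) ?_
    intro h0
    have h1 : z = p q := sub_eq_zero.1 h0
    have h2 := hdist q hq
    rw [← h1] at h2
    linarith
  · simp only [sub_self, zero_mul, add_zero]
    exact Psi_zero hρ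
  · intro z hz
    have hz0 : z - x0 ≠ 0 := sub_ne_zero.2 hz
    have h1 : CF ρ m τ a c T γ z = ∑ q ∈ S, W q * Psi ρ (z - p q) / (z - p q) :=
      CF_poles ρ m τ a c T γ z
    rw [h1, ← Finset.add_sum_erase _ _ hq0, hp0, hW0, one_mul, add_mul, div_mul_cancel₀ _ hz0]
    exact congrArg (fun w => Psi ρ (z - x0) + w) (mul_comm _ _)

theorem disc_circle {ρ : ℝ → ℝ} (hρ : RR ρ) {m : ℕ} {τ r : ℝ} {a : ℕ → ℂ} {c T γ s : ℝ} (hT : 1 < T) (ha : a 0 = 1)
    (hτ : 0 < τ) (hτr : (m + 1) * τ ≤ r) (hr : r ≤ 1) (hγ : γ ∈ Iso r T) (hs : 0 < s) (hsτ : s < τ) :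
    CircleIntegrable (fun z : ℂ => gg ‖CF ρ m τ a c T γ z‖) ((off m τ 0 : ℝ) : ℂ) s ∧
    1 ≤ Real.circleAverage (fun z : ℂ => gg ‖CF ρ m τ a c T γ z‖) ((off m τ 0 : ℝ) : ℂ) s := by
  obtain ⟨g, hg, hg0, hgz⟩ := D1_an (c := c) hρ ha hτ hτr hγ hsτ
  set x0 : ℂ := ((off m τ 0 : ℝ) : ℂ) with hx0
  have hsph : ∀ z ∈ Metric.sphere x0 s, ‖g z‖ = ‖CF ρ m τ a c T γ z‖ * s := by
    intro z hz
    have h1 : ‖z - x0‖ = s := by simpa [dist_eq_norm] using hz
    have h2 : z ≠ x0 := by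
      intro h
      rw [h, sub_self, norm_zero] at h1
      linarith
    rw [hgz z h2, norm_mul, h1]
  obtain ⟨Mg, hMg⟩ := (isCompact_closedBall x0 s).exists_bound_of_continuousOn hg.continuousOn
  have hCFle : ∀ z ∈ Metric.sphere x0 s, ‖CF ρ m τ a c T γ z‖ ≤ Mg / s := by
    intro z hz
    rw [le_div_iff₀ hs, ← hsph z hz]
    exact hMg z (Metric.sphere_subset_closedBall hz)
  have hint : CircleIntegrable (fun z : ℂ => gg ‖CF ρ m τ a c T γ z‖) x0 s := by
    unfold CircleIntegrable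
    refine (intervalIntegrable_const (c := 1 + Real.posLog (Mg / s))).mono_fun' ?_ ?_
    · have h0 : Measurable (fun θ : ℝ => ((γ, circleMap x0 s θ) : ℝ × ℂ)) :=
        (measurable_const (a := γ)).prodMk (continuous_circleMap x0 s).measurable
      have h1 := (CF_meas hρ m τ a c T).comp h0
      have h2 := gg_meas.comp h1.norm
      exact h2.aestronglyMeasurable
    · refine Eventually.of_forall fun θ => ?_
      simp only
      rw [Real.norm_eq_abs, abs_of_nonneg (gg_nonneg _)]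
      exact D1_mono (norm_nonneg _) (hCFle _ (circleMap_mem_sphere x0 hs.le θ))
  refine ⟨hint, ?_⟩
  have hB : CircleIntegrable (fun z : ℂ => gg ‖CF ρ m τ a c T γ z‖ - 1 + Real.log s) x0 s :=
    (hint.sub (circleIntegrable_const 1 x0 s)).add (circleIntegrable_const (Real.log s) x0 s)
  have h1 := Gap.Jx.avg_le hs hg (by rw [hg0]; exact one_ne_zero) hB (by
    intro z hz hne
    have h2 := hsph z hz
    have h3 : 0 < ‖g z‖ := norm_pos_iff.2 hne
    have h4 : 0 < ‖CF ρ m τ a c T γ z‖ := by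
      rw [h2] at h3
      exact pos_of_mul_pos_left h3 hs.le
    rw [h2, Real.log_mul h4.ne' hs.ne']
    have h5 := D1_log h4
    linarith)
  rw [hg0, norm_one, Real.log_one] at h1
  have hls : Real.log s ≤ 0 := by
    have : s ≤ 1 := by
      have hm : (0 : ℝ) ≤ m := Nat.cast_nonneg m
      nlinarith
    exact Real.log_nonpos hs.le this
  have h2 : Real.circleAverage (fun z : ℂ => gg ‖CF ρ m τ a c T γ z‖ - 1 + Real.log s) x0 s =
      Real.circleAverage (fun z : ℂ => gg ‖CF ρ m τ a c T γ z‖) x0 s + (Real.log s - 1) := by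
    have e1 : (fun z : ℂ => gg ‖CF ρ m τ a c T γ z‖ - 1 + Real.log s) =
        (fun z : ℂ => gg ‖CF ρ m τ a c T γ z‖) + fun _ => (Real.log s - 1) := by
      funext z
      simp only [Pi.add_apply]
      ring
    rw [e1, Real.circleAverage_add hint (circleIntegrable_const _ x0 s), Real.circleAverage_const]
  rw [h2] at h1
  linarith

end Pool.Agent.Lib.MP_00e05b_nt.Bar
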