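import Pool.Agent.Lib.MP_00e05b_nt.Bar.D1

/-!
# LEAF D2: the area integral over the disc of an isolated simple zero

`DS` is the disc `|(x + iy) - d_0| < σ` in the coordinates `x = (t - γ) log T/2π`, `y = b`. By `CF_shift` (`z = iy`, from `t = γ`),
`‖CF_t(ib)‖ = ‖CF_γ(x + iy)‖` for `t = γ + 2πx/log T`. Substitute `t = γ + 2π(x + d_0)/log T` (linear change of variables, factor `2π/log T`; e.g.
`lintegral_prod` and `lintegral_comp` / `Measure.map` of an affine map on the first coordinate), then polar coordinates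
(`lintegral_comp_polarCoord_symm`) and `D1.disc_circle` for every radius `0 < s < σ ≤ τ`:
`∫⁻_{disc} gg ≥ ∫_0^σ s 2π ds = π σ²`.
-/

open Complex Set Filter Topology MeasureTheory

namespace Pool.Agent.Lib.MP_00e05b_nt.Bar

open Pool.Agent.Lib.MP_00e05b_nt Pool.Agent.Lib.MP_00e05b_nt.Mont Pool.Agent.Lib.MP_00e05b_nt.Gap

/-- The disc of the zero `γ` in the coordinates `(t, b)`. -/
def DS (m : ℕ) (τ T γ σ : ℝ) : Set (ℝ × ℝ) :=
  {q | (Real.log T * (q.1 - γ) / (2 * Real.pi) - off m τ 0) ^ 2 + q.2 ^ 2 < σ ^ 2}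

theorem DS_meas (m : ℕ) (τ T γ σ : ℝ) : MeasurableSet (DS m τ T γ σ) := by
  unfold DS
  exact measurableSet_lt (by fun_prop) (by fun_prop)

/-- Affine change of variables in the lower integral over the line. -/
private lemma D2_affine (g : ℝ → ENNReal) (hg : Measurable g) {c : ℝ} (hc : 0 < c) (d : ℝ) :
    ∫⁻ t, g (c * t + d) = ENNReal.ofReal c⁻¹ * ∫⁻ x, g x := by
  have h1 : ∫⁻ x, g (x + d) = ∫⁻ x, g x := lintegral_add_right_eq_self g d
  have h3 : ∫⁻ t, g (c * t + d) = ∫⁻ x, g (x + d) ∂(Measure.map (fun x => c * x) volume) := by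
    have hg' : Measurable fun x : ℝ => g (x + d) := hg.comp (measurable_id.add_const d)
    rw [lintegral_map hg' (measurable_const_mul c)]
  rw [h3, Real.map_volume_mul_left hc.ne', lintegral_smul_measure, h1, abs_of_pos (inv_pos.2 hc), smul_eq_mul]

/-- Affine change of variables in the first coordinate of the plane. -/
private lemma D2_affine2 (f : ℝ × ℝ → ENNReal) (hf : Measurable f) {c : ℝ} (hc : 0 < c) (d : ℝ) :
    ∫⁻ q : ℝ × ℝ, f (c * q.1 + d, q.2) = ENNReal.ofReal c⁻¹ * ∫⁻ q, f q := by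
  have hm : Measurable fun q : ℝ × ℝ => f (c * q.1 + d, q.2) := hf.comp (by fun_prop)
  have e1 : ∫⁻ q : ℝ × ℝ, f (c * q.1 + d, q.2) = ∫⁻ y : ℝ, ∫⁻ x : ℝ, f (c * x + d, y) :=
    lintegral_prod_symm' (μ := (volume : Measure ℝ)) (ν := (volume : Measure ℝ)) _ hm
  have e2 : ∫⁻ q : ℝ × ℝ, f q = ∫⁻ y : ℝ, ∫⁻ x : ℝ, f (x, y) :=
    lintegral_prod_symm' (μ := (volume : Measure ℝ)) (ν := (volume : Measure ℝ)) _ hf
  rw [e1, e2, ← lintegral_const_mul _ hf.lintegral_prod_left']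
  refine lintegral_congr fun y => ?_
  exact D2_affine (fun x => f (x, y)) (hf.comp (by fun_prop)) hc d

/-- Polar coordinates for the disc: a lower bound for the area integral from lower bounds for circle averages. -/
private lemma D2_polar {g : ℂ → ℝ} (hg : Measurable g) (hg0 : ∀ z, 0 ≤ g z) (d : ℝ) {σ : ℝ} (hσ : 0 < σ)
    (H : ∀ s : ℝ, 0 < s → s < σ → CircleIntegrable g ((d : ℝ) : ℂ) s ∧ 1 ≤ Real.circleAverage g ((d : ℝ) : ℂ) s) :
    ENNReal.ofReal (Real.pi * σ ^ 2) ≤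
      ∫⁻ p : ℝ × ℝ, {p : ℝ × ℝ | p.1 ^ 2 + p.2 ^ 2 < σ ^ 2}.indicator
        (fun p => ENNReal.ofReal (g (((d + p.1 : ℝ) : ℂ) + (p.2 : ℂ) * I))) p := by
  have hmg : Measurable fun p : ℝ × ℝ => ENNReal.ofReal (g (((d + p.1 : ℝ) : ℂ) + (p.2 : ℂ) * I)) :=
    (hg.comp (by fun_prop)).ennreal_ofReal
  have hms : MeasurableSet {p : ℝ × ℝ | p.1 ^ 2 + p.2 ^ 2 < σ ^ 2} := measurableSet_lt (by fun_prop) (by fun_prop)
  set F : ℝ × ℝ → ENNReal := {p : ℝ × ℝ | p.1 ^ 2 + p.2 ^ 2 < σ ^ 2}.indicator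
        (fun p => ENNReal.ofReal (g (((d + p.1 : ℝ) : ℂ) + (p.2 : ℂ) * I))) with hF
  have hmF : Measurable F := hmg.indicator hms
  have key : ∀ s : ℝ, s ∈ Ioo 0 σ → ENNReal.ofReal (2 * Real.pi) ≤
      ∫⁻ θ in Ioo (-Real.pi) Real.pi, F (polarCoord.symm (s, θ)) := by
    intro s hs
    obtain ⟨hi, ha⟩ := H s hs.1 hs.2
    have hFc : ∀ θ : ℝ, F (polarCoord.symm (s, θ)) = ENNReal.ofReal (g (circleMap ((d : ℝ) : ℂ) s θ)) := by
      intro θ
      have hin : polarCoord.symm (s, θ) ∈ {p : ℝ × ℝ | p.1 ^ 2 + p.2 ^ 2 < σ ^ 2} := by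
        show (s * Real.cos θ) ^ 2 + (s * Real.sin θ) ^ 2 < σ ^ 2
        have h1 : (s * Real.cos θ) ^ 2 + (s * Real.sin θ) ^ 2 = s ^ 2 := by
          nlinarith [Real.sin_sq_add_cos_sq θ]
        rw [h1]
        exact pow_lt_pow_left₀ hs.2 hs.1.le two_ne_zero
      rw [hF, indicator_of_mem hin]
      show ENNReal.ofReal (g (((d + s * Real.cos θ : ℝ) : ℂ) + ((s * Real.sin θ : ℝ) : ℂ) * I)) = _
      have h2 : ((d + s * Real.cos θ : ℝ) : ℂ) + ((s * Real.sin θ : ℝ) : ℂ) * I = circleMap ((d : ℝ) : ℂ) s θ := by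
        unfold circleMap
        rw [Complex.exp_mul_I]
        push_cast
        ring
      rw [h2]
    have hper : Function.Periodic (fun θ : ℝ => g (circleMap ((d : ℝ) : ℂ) s θ)) (2 * Real.pi) := by
      intro θ
      show g (circleMap ((d : ℝ) : ℂ) s (θ + 2 * Real.pi)) = g (circleMap ((d : ℝ) : ℂ) s θ)
      rw [periodic_circleMap ((d : ℝ) : ℂ) s θ]
    have hint : ∫ θ in (-Real.pi)..Real.pi, g (circleMap ((d : ℝ) : ℂ) s θ) =
        ∫ θ in (0 : ℝ)..2 * Real.pi, g (circleMap ((d : ℝ) : ℂ) s θ) := by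
      have h3 := hper.intervalIntegral_add_eq (-Real.pi) 0
      have e3 : -Real.pi + 2 * Real.pi = Real.pi := by ring
      rw [e3, zero_add] at h3
      exact h3
    have hii : IntervalIntegrable (fun θ : ℝ => g (circleMap ((d : ℝ) : ℂ) s θ)) volume (-Real.pi) Real.pi := by
      have h4 : IntervalIntegrable (fun θ : ℝ => g (circleMap ((d : ℝ) : ℂ) s θ)) volume 0 (0 + 2 * Real.pi) := by
        rw [zero_add]; exact hi
      exact hper.intervalIntegrable Real.two_pi_pos.ne' h4 (-Real.pi) Real.pi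
    have hpi : -Real.pi ≤ Real.pi := by linarith [Real.pi_pos]
    have hio : Integrable (fun θ : ℝ => g (circleMap ((d : ℝ) : ℂ) s θ)) (volume.restrict (Ioo (-Real.pi) Real.pi)) := by
      have h5 := (intervalIntegrable_iff_integrableOn_Ioc_of_le hpi).1 hii
      exact h5.mono_set Ioo_subset_Ioc_self
    simp_rw [hFc]
    rw [← ofReal_integral_eq_lintegral_ofReal hio (Eventually.of_forall fun θ => hg0 _)]
    apply ENNReal.ofReal_le_ofReal
    rw [← integral_Ioc_eq_integral_Ioo, ← intervalIntegral.integral_of_le hpi, hint]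
    rw [Real.circleAverage_def, smul_eq_mul] at ha
    have h2pi : (0 : ℝ) < 2 * Real.pi := Real.two_pi_pos
    have h6 := mul_le_mul_of_nonneg_left ha h2pi.le
    rw [mul_one, ← mul_assoc, mul_inv_cancel₀ h2pi.ne', one_mul] at h6
    exact h6
  rw [← lintegral_comp_polarCoord_symm F]
  have ht : polarCoord.target = Ioi (0 : ℝ) ×ˢ Ioo (-Real.pi) Real.pi := rfl
  have hmP : Measurable fun p : ℝ × ℝ => ENNReal.ofReal p.1 • F (polarCoord.symm p) := by
    have : Measurable fun p : ℝ × ℝ => ENNReal.ofReal p.1 * F (polarCoord.symm p) :=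
      (measurable_fst.ennreal_ofReal).mul (hmF.comp continuous_polarCoord_symm.measurable)
    exact this
  rw [ht, show (volume : Measure (ℝ × ℝ)) = (volume : Measure ℝ).prod (volume : Measure ℝ) from rfl,
    ← Measure.prod_restrict, lintegral_prod _ hmP.aemeasurable]
  calc ENNReal.ofReal (Real.pi * σ ^ 2) = ∫⁻ s in Ioo 0 σ, ENNReal.ofReal (s * (2 * Real.pi)) := by
        have hi : IntegrableOn (fun s : ℝ => s * (2 * Real.pi)) (Ioo 0 σ) := by
          have : Continuous fun s : ℝ => s * (2 * Real.pi) := by fun_prop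
          exact this.integrableOn_Icc.mono_set Ioo_subset_Icc_self
        rw [← ofReal_integral_eq_lintegral_ofReal hi
          ((ae_restrict_iff' measurableSet_Ioo).2 (Eventually.of_forall fun s hs => mul_nonneg hs.1.le Real.two_pi_pos.le))]
        congr 1
        rw [← integral_Ioc_eq_integral_Ioo, ← intervalIntegral.integral_of_le hσ.le, intervalIntegral.integral_mul_const, integral_id]
        ring
    _ ≤ ∫⁻ s in Ioo 0 σ, ∫⁻ θ in Ioo (-Real.pi) Real.pi, ENNReal.ofReal s • F (polarCoord.symm (s, θ)) := by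
        refine setLIntegral_mono' measurableSet_Ioo fun s hs => ?_
        rw [ENNReal.ofReal_mul hs.1.le]
        have hms' : Measurable fun θ : ℝ => F (polarCoord.symm (s, θ)) :=
          hmF.comp (continuous_polarCoord_symm.measurable.comp (by fun_prop))
        simp_rw [smul_eq_mul]
        rw [lintegral_const_mul _ hms']
        exact mul_le_mul_right (key s hs) _
    _ ≤ ∫⁻ s in Ioi (0 : ℝ), ∫⁻ θ in Ioo (-Real.pi) Real.pi, ENNReal.ofReal s • F (polarCoord.symm (s, θ)) :=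
        lintegral_mono_set Ioo_subset_Ioi_self

theorem disc_area {ρ : ℝ → ℝ} (hρ : RR ρ) {m : ℕ} {τ r : ℝ} {a : ℕ → ℂ} {c T γ σ : ℝ} (hT : 1 < T) (ha : a 0 = 1)
    (hτ : 0 < τ) (hτr : (m + 1) * τ ≤ r) (hr : r ≤ 1) (hγ : γ ∈ Iso r T) (hσ : 0 < σ) (hστ : σ ≤ τ) :
    ENNReal.ofReal (Real.pi * σ ^ 2 * (2 * Real.pi / Real.log T)) ≤
      ∫⁻ q in DS m τ T γ σ, ENNReal.ofReal (gg ‖CF ρ m τ a c T q.1 ((q.2 : ℂ) * I)‖) := by
  have hL : 0 < Real.log T := Real.log_pos hT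
  have h2pi : (0 : ℝ) < 2 * Real.pi := Real.two_pi_pos
  have hmC : Measurable fun z : ℂ => gg ‖CF ρ m τ a c T γ z‖ :=
    gg_meas.comp ((CF_meas hρ m τ a c T).comp (measurable_const.prodMk measurable_id)).norm
  have hP := D2_polar hmC (fun z => gg_nonneg _) (off m τ 0) hσ
    (fun s hs hsσ => disc_circle hρ hT ha hτ hτr hr hγ hs (lt_of_lt_of_le hsσ hστ))
  have hms : MeasurableSet {p : ℝ × ℝ | p.1 ^ 2 + p.2 ^ 2 < σ ^ 2} := measurableSet_lt (by fun_prop) (by fun_prop)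
  have hmF : Measurable ({p : ℝ × ℝ | p.1 ^ 2 + p.2 ^ 2 < σ ^ 2}.indicator
        (fun p : ℝ × ℝ => ENNReal.ofReal (gg ‖CF ρ m τ a c T γ (((off m τ 0 + p.1 : ℝ) : ℂ) + (p.2 : ℂ) * I)‖))) :=
    ((hmC.comp (by fun_prop)).ennreal_ofReal).indicator hms
  have hA := D2_affine2 _ hmF (div_pos hL h2pi) (-(Real.log T / (2 * Real.pi) * γ) - off m τ 0)
  rw [inv_div] at hA
  rw [← lintegral_indicator (DS_meas m τ T γ σ), mul_comm, ENNReal.ofReal_mul (by positivity)]
  refine (mul_le_mul_right hP _).trans ?_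
  rw [← hA]
  refine (lintegral_congr fun q => ?_).le
  have e1 : Real.log T / (2 * Real.pi) * q.1 + (-(Real.log T / (2 * Real.pi) * γ) - off m τ 0) =
      Real.log T * (q.1 - γ) / (2 * Real.pi) - off m τ 0 := by ring
  rw [e1]
  by_cases hq : q ∈ DS m τ T γ σ
  · have hq' : (Real.log T * (q.1 - γ) / (2 * Real.pi) - off m τ 0, q.2) ∈ {p : ℝ × ℝ | p.1 ^ 2 + p.2 ^ 2 < σ ^ 2} := hq
    rw [indicator_of_mem hq, indicator_of_mem hq']
    have e2 : off m τ 0 + (Real.log T * (q.1 - γ) / (2 * Real.pi) - off m τ 0) = Real.log T * (q.1 - γ) / (2 * Real.pi) := by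
      ring
    have e3 : γ + 2 * Real.pi * (Real.log T * (q.1 - γ) / (2 * Real.pi)) / Real.log T = q.1 := by
      field_simp
      ring
    show ENNReal.ofReal (gg ‖CF ρ m τ a c T γ
      (((off m τ 0 + (Real.log T * (q.1 - γ) / (2 * Real.pi) - off m τ 0) : ℝ) : ℂ) + (q.2 : ℂ) * I)‖) = _
    rw [e2, CF_shift hT γ, e3]
  · have hq' : (Real.log T * (q.1 - γ) / (2 * Real.pi) - off m τ 0, q.2) ∉ {p : ℝ × ℝ | p.1 ^ 2 + p.2 ^ 2 < σ ^ 2} := hq
    rw [indicator_of_notMem hq, indicator_of_notMem hq']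

end Pool.Agent.Lib.MP_00e05b_nt.Bar
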