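import Pool.Agent.Lib.MP_00e05b_nt.Bar.D0
import Pool.Agent.Lib.MP_00e05b_nt.Bar.D2

/-!
# LEAF D3: the good set

`τ = r/(m + 1)`, `σ = τ/2`. The discs `DS m τ T γ σ`, `γ ∈ Iso r T`, are pairwise disjoint (`|log T (γ - γ')/2π| ≥ r ≥ 2σ`), and contained in
`Ω' = [-1, T + 1] × (-1, 1)` for `T` large (`0 < γ ≤ T`, `2π (σ + |d_0|)/log T ≤ 1`). Sum of `D2.disc_area` over `Iso r T` (at least `N0 T/2`
elements, `N0 T = T log T/2π`): `∫⁻_{Ω'} gg ≥ π σ² T/2`. `gg v ≤ (1 + λ) [v ≥ e⁻¹] + (log⁺ v)²/λ` (`log⁺ v ≤ λ + (log⁺ v)²/λ`), so by `D0.posLog_sq`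
`(1 + λ) |G'| ≥ π σ² T/2 - K' T/λ ≥ π σ² T/4` for `λ = 4K'/(π σ²) + 1`, `G' = {(t, b) ∈ Ω' : ‖CF_t(ib)‖ ≥ e⁻¹}`. `G` = the part of `G'` with `0 ≤ t ≤ T`,
`b ≠ 0`: loses measure at most `4`.
-/

open Complex Set Filter Topology MeasureTheory

namespace Pool.Agent.Lib.MP_00e05b_nt.Bar

open Pool.Agent.Lib.MP_00e05b_nt Pool.Agent.Lib.MP_00e05b_nt.Mont Pool.Agent.Lib.MP_00e05b_nt.Gap

private lemma D3_gg {v l : ℝ} (hl : 0 < l) :
    gg v ≤ (1 + l) * ({x : ℝ | Real.exp (-1) ≤ x}.indicator (fun _ => (1 : ℝ)) v) + Real.posLog v ^ 2 / l := by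
  classical
  have h1 : Real.posLog v ≤ l + Real.posLog v ^ 2 / l := by
    have h2 : Real.posLog v = (Real.posLog v * l) / l := by field_simp
    have h3 : l + Real.posLog v ^ 2 / l = (l * l + Real.posLog v ^ 2) / l := by field_simp
    rw [h3]
    conv_lhs => rw [h2]
    apply (div_le_div_iff_of_pos_right hl).2
    nlinarith [sq_nonneg (Real.posLog v - l), Real.posLog_nonneg (x := v)]
  have h4 : 0 ≤ Real.posLog v ^ 2 / l := by positivity
  unfold gg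
  split_ifs with h
  · rw [indicator_of_mem (show v ∈ {x : ℝ | Real.exp (-1) ≤ x} from h)]
    linarith
  · rw [indicator_of_notMem (show v ∉ {x : ℝ | Real.exp (-1) ≤ x} from h)]
    linarith

private lemma D3_off {m : ℕ} {r : ℝ} (hr0 : 0 < r) (hr1 : r ≤ 1) : |off m (r / (m + 1)) 0| ≤ 1 / 2 := by
  have hm : (0 : ℝ) < (m : ℝ) + 1 := by positivity
  unfold off
  rw [Nat.cast_zero, zero_sub, abs_mul, abs_neg, abs_of_nonneg (by positivity : (0 : ℝ) ≤ (m : ℝ) / 2),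
    abs_of_nonneg (by positivity : (0 : ℝ) ≤ r / ((m : ℝ) + 1))]
  have h1 : (m : ℝ) / 2 * (r / (m + 1)) = (m / (m + 1)) * (r / 2) := by ring
  rw [h1]
  have h2 : (m : ℝ) / (m + 1) ≤ 1 := by
    rw [div_le_one hm]; linarith
  have h3 : 0 ≤ (m : ℝ) / (m + 1) := by positivity
  nlinarith

private lemma D3_sub {m : ℕ} {r T γ : ℝ} (hr0 : 0 < r) (hr1 : r ≤ 1) (hL : 2 * Real.pi ≤ Real.log T) (h0 : 0 < γ)
    (hT : γ ≤ T) : DS m (r / (m + 1)) T γ (r / (m + 1) / 2) ⊆ Icc (-1 : ℝ) (T + 1) ×ˢ Ioo (-1 : ℝ) 1 := by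
  intro q hq
  have hq' : (Real.log T * (q.1 - γ) / (2 * Real.pi) - off m (r / (m + 1)) 0) ^ 2 + q.2 ^ 2 < (r / (m + 1) / 2) ^ 2 := hq
  have hm : (1 : ℝ) ≤ (m : ℝ) + 1 := by
    have : (0 : ℝ) ≤ (m : ℝ) := Nat.cast_nonneg m
    linarith
  have hs0 : 0 < r / ((m : ℝ) + 1) / 2 := by positivity
  have hs1 : r / ((m : ℝ) + 1) / 2 ≤ 1 / 2 := by
    have : r / ((m : ℝ) + 1) ≤ 1 := by
      rw [div_le_one (by linarith)]; linarith
    linarith
  have hpi := Real.pi_pos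
  have hLp : 0 < Real.log T := by linarith
  have ho := D3_off (m := m) hr0 hr1
  have h1 : |Real.log T * (q.1 - γ) / (2 * Real.pi) - off m (r / (m + 1)) 0| < r / (m + 1) / 2 := by
    apply abs_lt_of_sq_lt_sq _ hs0.le
    nlinarith [sq_nonneg q.2]
  have h2 : |q.2| < r / (m + 1) / 2 := by
    apply abs_lt_of_sq_lt_sq _ hs0.le
    nlinarith [sq_nonneg (Real.log T * (q.1 - γ) / (2 * Real.pi) - off m (r / (m + 1)) 0)]
  have h3 : |Real.log T * (q.1 - γ) / (2 * Real.pi)| ≤ 1 := by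
    have h4 := abs_add_le (Real.log T * (q.1 - γ) / (2 * Real.pi) - off m (r / (m + 1)) 0) (off m (r / (m + 1)) 0)
    rw [sub_add_cancel] at h4
    linarith
  have h5 : |q.1 - γ| ≤ 1 := by
    rw [abs_div, abs_mul, abs_of_pos hLp, abs_of_pos (by positivity : (0 : ℝ) < 2 * Real.pi), div_le_one (by positivity)] at h3
    by_contra h6
    have h6' : 1 < |q.1 - γ| := not_le.1 h6
    nlinarith
  rw [abs_le] at h5
  rw [abs_lt] at h2
  refine ⟨⟨by linarith, by linarith⟩, ⟨by linarith, by linarith⟩⟩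

private lemma D3_disj {m : ℕ} {r T γ γ' : ℝ} (hr0 : 0 < r) (hg : γ ∈ Iso r T) (hg' : γ' ∈ Iso r T) (hne : γ ≠ γ') :
    Disjoint (DS m (r / (m + 1)) T γ (r / (m + 1) / 2)) (DS m (r / (m + 1)) T γ' (r / (m + 1) / 2)) := by
  have hm : (1 : ℝ) ≤ (m : ℝ) + 1 := by
    have : (0 : ℝ) ≤ (m : ℝ) := Nat.cast_nonneg m
    linarith
  have hs0 : 0 < r / ((m : ℝ) + 1) / 2 := by positivity
  have hs1 : r / ((m : ℝ) + 1) ≤ r := div_le_self hr0.le hm
  rw [Set.disjoint_left]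
  intro q hq hq'
  have h1 : |Real.log T * (q.1 - γ) / (2 * Real.pi) - off m (r / (m + 1)) 0| < r / (m + 1) / 2 := by
    apply abs_lt_of_sq_lt_sq _ hs0.le
    have : (Real.log T * (q.1 - γ) / (2 * Real.pi) - off m (r / (m + 1)) 0) ^ 2 + q.2 ^ 2 < (r / (m + 1) / 2) ^ 2 := hq
    nlinarith [sq_nonneg q.2]
  have h2 : |Real.log T * (q.1 - γ') / (2 * Real.pi) - off m (r / (m + 1)) 0| < r / (m + 1) / 2 := by
    apply abs_lt_of_sq_lt_sq _ hs0.le
    have : (Real.log T * (q.1 - γ') / (2 * Real.pi) - off m (r / (m + 1)) 0) ^ 2 + q.2 ^ 2 < (r / (m + 1) / 2) ^ 2 := hq'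
    nlinarith [sq_nonneg q.2]
  have h3 := (mem_Iso.1 hg).2.2 γ' (mem_Iso.1 hg').1 (Ne.symm hne)
  have h4 : Real.log T * (γ - γ') / (2 * Real.pi) =
      (Real.log T * (q.1 - γ') / (2 * Real.pi) - off m (r / (m + 1)) 0) -
        (Real.log T * (q.1 - γ) / (2 * Real.pi) - off m (r / (m + 1)) 0) := by ring
  rw [h4] at h3
  have h5 := abs_sub (Real.log T * (q.1 - γ') / (2 * Real.pi) - off m (r / (m + 1)) 0)
    (Real.log T * (q.1 - γ) / (2 * Real.pi) - off m (r / (m + 1)) 0)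
  linarith

theorem good_set {ρ : ℝ → ℝ} (hρ : RR ρ) {r : ℝ} (hr0 : 0 < r) (hr1 : r ≤ 1)
    (hiso : ∀ᶠ T : ℝ in atTop, 1 / 2 * N0 T ≤ ((Iso r T).card : ℝ)) (m : ℕ) {K : ℝ} (hK : 1 ≤ K) :
    ∃ p : ℝ, 0 < p ∧ ∀ᶠ T : ℝ in atTop, ∀ (c h : ℝ) (a : ℕ → ℂ), 0 ≤ h → a 0 = 1 → MS ρ m (r / (m + 1)) a c T K h 1 →
      ∃ G : Set (ℝ × ℝ), MeasurableSet G ∧ G ⊆ Icc 0 T ×ˢ Ioo (-1 : ℝ) 1 ∧ ENNReal.ofReal (p * T) ≤ volume G ∧
        ∀ q ∈ G, q.2 ≠ 0 ∧ Real.exp (-1) ≤ ‖CF ρ m (r / (m + 1)) a c T q.1 ((q.2 : ℂ) * I)‖ := by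
  have hm : (1 : ℝ) ≤ (m : ℝ) + 1 := by
    have : (0 : ℝ) ≤ (m : ℝ) := Nat.cast_nonneg m
    linarith
  obtain ⟨K', hK'0, hK'⟩ := posLog_sq hK
  have hτ : 0 < r / ((m : ℝ) + 1) := by positivity
  have hσ : 0 < r / ((m : ℝ) + 1) / 2 := by positivity
  obtain ⟨A, hA⟩ : ∃ A : ℝ, A = Real.pi * (r / ((m : ℝ) + 1) / 2) ^ 2 := ⟨_, rfl⟩
  have hpi := Real.pi_pos
  have hA0 : 0 < A := by rw [hA]; positivity
  obtain ⟨l, hl⟩ : ∃ l : ℝ, l = 4 * K' / A + 1 := ⟨_, rfl⟩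
  have hl1 : 1 ≤ l := by rw [hl]; have : 0 ≤ 4 * K' / A := by positivity
                         linarith
  have hlK : K' / l ≤ A / 4 := by
    rw [div_le_div_iff₀ (by linarith) (by norm_num)]
    have : A * l = 4 * K' + A := by rw [hl]; field_simp
    rw [this]; linarith
  obtain ⟨p', hp'⟩ : ∃ p' : ℝ, p' = A / (4 * (1 + l)) := ⟨_, rfl⟩
  have hp0 : 0 < p' := by rw [hp']; positivity
  refine ⟨p' / 2, by positivity, ?_⟩
  have e1 : ∀ᶠ T : ℝ in atTop, 2 * Real.pi ≤ Real.log T := Real.tendsto_log_atTop.eventually_ge_atTop _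
  filter_upwards [hiso, e1, eventually_ge_atTop (2 : ℝ), eventually_ge_atTop (8 / p')] with T g1 g2 g3 g4
  intro c h a hh ha hMS
  have hT1 : 1 < T := by linarith
  have hL : 0 < Real.log T := by linarith [hpi]
  obtain ⟨f, hf⟩ : ∃ f : ℝ × ℝ → ℝ, f = fun q => ‖CF ρ m (r / (m + 1)) a c T q.1 ((q.2 : ℂ) * I)‖ := ⟨_, rfl⟩
  have hfm : Measurable f := by
    rw [hf]
    exact ((CF_meas hρ m (r / (m + 1)) a c T).comp
      (measurable_fst.prodMk ((Complex.measurable_ofReal.comp measurable_snd).mul_const I))).norm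
  have hΩm : MeasurableSet (Icc (-1 : ℝ) (T + 1) ×ˢ Ioo (-1 : ℝ) 1) := measurableSet_Icc.prod measurableSet_Ioo
  -- the sum over the discs
  have s1 : ENNReal.ofReal (A * T / 2) ≤ ∫⁻ q in Icc (-1 : ℝ) (T + 1) ×ˢ Ioo (-1 : ℝ) 1, ENNReal.ofReal (gg (f q)) := by
    have h1 : ∀ γ ∈ Iso r T, ENNReal.ofReal (A * (2 * Real.pi / Real.log T)) ≤
        ∫⁻ q in DS m (r / (m + 1)) T γ (r / (m + 1) / 2), ENNReal.ofReal (gg (f q)) := by
      intro γ hγ
      rw [hA, hf]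
      exact disc_area hρ hT1 ha hτ (by rw [mul_div_cancel₀ _ (by linarith : ((m : ℝ) + 1) ≠ 0)]) hr1 hγ hσ
        (by linarith)
    have h2 : ∫⁻ q in ⋃ γ ∈ Iso r T, DS m (r / (m + 1)) T γ (r / (m + 1) / 2), ENNReal.ofReal (gg (f q)) =
        ∑ γ ∈ Iso r T, ∫⁻ q in DS m (r / (m + 1)) T γ (r / (m + 1) / 2), ENNReal.ofReal (gg (f q)) := by
      apply lintegral_biUnion_finset
      · intro γ hγ γ' hγ' hne
        exact D3_disj hr0 hγ hγ' hne
      · intro γ _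
        exact DS_meas _ _ _ _ _
    have h3 : (⋃ γ ∈ Iso r T, DS m (r / (m + 1)) T γ (r / (m + 1) / 2)) ⊆ Icc (-1 : ℝ) (T + 1) ×ˢ Ioo (-1 : ℝ) 1 := by
      refine iUnion₂_subset fun γ hγ => ?_
      have h4 := mem_ordinates.1 (mem_Iso.1 hγ).1
      exact D3_sub hr0 hr1 g2 h4.1 h4.2.1
    calc ENNReal.ofReal (A * T / 2)
        ≤ ENNReal.ofReal (((Iso r T).card : ℝ) * (A * (2 * Real.pi / Real.log T))) := by
          apply ENNReal.ofReal_le_ofReal
          have h5 : A * T / 2 = (1 / 2 * N0 T) * (A * (2 * Real.pi / Real.log T)) := by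
            unfold N0
            field_simp
          rw [h5]
          exact mul_le_mul_of_nonneg_right g1 (by positivity)
      _ = ∑ γ ∈ Iso r T, ENNReal.ofReal (A * (2 * Real.pi / Real.log T)) := by
          rw [Finset.sum_const, nsmul_eq_mul, ENNReal.ofReal_mul (Nat.cast_nonneg _), ENNReal.ofReal_natCast]
      _ ≤ ∑ γ ∈ Iso r T, ∫⁻ q in DS m (r / (m + 1)) T γ (r / (m + 1) / 2), ENNReal.ofReal (gg (f q)) :=
          Finset.sum_le_sum h1
      _ = _ := h2.symm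
      _ ≤ _ := lintegral_mono_set h3
  -- the upper bound
  obtain ⟨G', hG'⟩ : ∃ G' : Set (ℝ × ℝ), G' = {q | Real.exp (-1) ≤ f q} := ⟨_, rfl⟩
  have hG'm : MeasurableSet G' := by
    rw [hG']
    exact measurableSet_le measurable_const hfm
  have s2 : ∫⁻ q in Icc (-1 : ℝ) (T + 1) ×ˢ Ioo (-1 : ℝ) 1, ENNReal.ofReal (gg (f q)) ≤
      ENNReal.ofReal (1 + l) * volume (G' ∩ Icc (-1 : ℝ) (T + 1) ×ˢ Ioo (-1 : ℝ) 1) + ENNReal.ofReal (A * T / 4) := by
    have h1 : ∀ q, ENNReal.ofReal (gg (f q)) ≤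
        ENNReal.ofReal (1 + l) * G'.indicator (fun _ => 1) q + ENNReal.ofReal (1 / l) * ENNReal.ofReal (Real.posLog (f q) ^ 2) := by
      intro q
      refine (ENNReal.ofReal_le_ofReal (D3_gg (v := f q) (by linarith : 0 < l))).trans ?_
      have h2 : Real.posLog (f q) ^ 2 / l = 1 / l * Real.posLog (f q) ^ 2 := by ring
      rw [h2]
      refine ENNReal.ofReal_add_le.trans ?_
      rw [ENNReal.ofReal_mul (by linarith : 0 ≤ 1 + l), ENNReal.ofReal_mul (by positivity : 0 ≤ 1 / l)]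
      refine add_le_add_left (le_of_eq ?_) _
      congr 1
      by_cases hq : Real.exp (-1) ≤ f q
      · rw [indicator_of_mem (show f q ∈ {x : ℝ | Real.exp (-1) ≤ x} from hq),
          indicator_of_mem (show q ∈ G' by rw [hG']; exact hq), ENNReal.ofReal_one]
      · rw [indicator_of_notMem (show f q ∉ {x : ℝ | Real.exp (-1) ≤ x} from hq),
          indicator_of_notMem (show q ∉ G' by rw [hG']; exact hq), ENNReal.ofReal_zero]
    refine (lintegral_mono h1).trans ?_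
    have hm1 : Measurable fun q => ENNReal.ofReal (1 + l) * G'.indicator (fun _ => (1 : ENNReal)) q :=
      (measurable_const.indicator hG'm).const_mul _
    rw [lintegral_add_left hm1, lintegral_const_mul _ (measurable_const.indicator hG'm)]
    have hm2 : Measurable fun q => ENNReal.ofReal (Real.posLog (f q) ^ 2) := by
      have : Measurable fun v : ℝ => Real.posLog v := by
        unfold Real.posLog
        exact measurable_const.max Real.measurable_log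
      exact ((this.comp hfm).pow_const 2).ennreal_ofReal
    rw [lintegral_const_mul _ hm2]
    refine add_le_add ?_ ?_
    · rw [lintegral_indicator_const hG'm, one_mul, Measure.restrict_apply hG'm]
    · have h5 := hK' ρ m (r / (m + 1)) a c T h hρ g3 hh hMS
      calc ENNReal.ofReal (1 / l) * ∫⁻ q in Icc (-1 : ℝ) (T + 1) ×ˢ Ioo (-1 : ℝ) 1, ENNReal.ofReal (Real.posLog (f q) ^ 2)
          ≤ ENNReal.ofReal (1 / l) * ENNReal.ofReal (K' * T) := by
            gcongr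
            rw [hf]
            exact h5
        _ = ENNReal.ofReal (1 / l * (K' * T)) := (ENNReal.ofReal_mul (by positivity)).symm
        _ ≤ ENNReal.ofReal (A * T / 4) := by
            apply ENNReal.ofReal_le_ofReal
            have : 1 / l * (K' * T) = K' / l * T := by ring
            rw [this]
            nlinarith
  have s3 : ENNReal.ofReal (p' * T) ≤ volume (G' ∩ Icc (-1 : ℝ) (T + 1) ×ˢ Ioo (-1 : ℝ) 1) := by
    have h1 := s1.trans s2
    have h2 : ENNReal.ofReal (A * T / 2) = ENNReal.ofReal (A * T / 4) + ENNReal.ofReal (A * T / 4) := by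
      rw [← ENNReal.ofReal_add (by positivity) (by positivity)]
      congr 1
      ring
    rw [h2] at h1
    have h3 := (ENNReal.add_le_add_iff_right ENNReal.ofReal_ne_top).1 h1
    have h4 : ENNReal.ofReal (A * T / 4) = ENNReal.ofReal (1 + l) * ENNReal.ofReal (p' * T) := by
      rw [← ENNReal.ofReal_mul (by linarith)]
      congr 1
      rw [hp']
      field_simp
    rw [h4] at h3
    exact (ENNReal.mul_le_mul_iff_right (by
      intro h5
      rw [ENNReal.ofReal_eq_zero] at h5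
      linarith) ENNReal.ofReal_ne_top).1 h3
  -- the set
  refine ⟨(Icc (0 : ℝ) T ×ˢ Ioo (-1 : ℝ) 1) ∩ ({q | q.2 ≠ 0} ∩ G'), ?_, ?_, ?_, ?_⟩
  · refine (measurableSet_Icc.prod measurableSet_Ioo).inter (MeasurableSet.inter ?_ hG'm)
    exact (measurable_snd (measurableSet_singleton (0 : ℝ)).compl)
  · exact inter_subset_left
  · have h1 : G' ∩ Icc (-1 : ℝ) (T + 1) ×ˢ Ioo (-1 : ℝ) 1 ⊆
        ((Icc (0 : ℝ) T ×ˢ Ioo (-1 : ℝ) 1) ∩ ({q | q.2 ≠ 0} ∩ G')) ∪
          ((Icc (-1 : ℝ) 0 ×ˢ Ioo (-1 : ℝ) 1) ∪ ((Icc T (T + 1) ×ˢ Ioo (-1 : ℝ) 1) ∪ (univ ×ˢ {(0 : ℝ)}))) := by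
      rintro q ⟨hq1, hq2, hq3⟩
      by_cases c1 : q.2 = 0
      · right; right; right
        exact ⟨trivial, c1⟩
      by_cases c2 : q.1 < 0
      · right; left
        exact ⟨⟨hq2.1, c2.le⟩, hq3⟩
      by_cases c3 : T < q.1
      · right; right; left
        exact ⟨⟨c3.le, hq2.2⟩, hq3⟩
      left
      exact ⟨⟨⟨not_lt.1 c2, not_lt.1 c3⟩, hq3⟩, c1, hq1⟩
    have v1 : volume (Icc (-1 : ℝ) 0 ×ˢ Ioo (-1 : ℝ) 1) = 2 := by
      rw [Measure.volume_eq_prod, Measure.prod_prod, Real.volume_Icc, Real.volume_Ioo,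
        ← ENNReal.ofReal_mul (by norm_num)]
      norm_num
    have v2 : volume (Icc T (T + 1) ×ˢ Ioo (-1 : ℝ) 1) = 2 := by
      rw [Measure.volume_eq_prod, Measure.prod_prod, Real.volume_Icc, Real.volume_Ioo,
        ← ENNReal.ofReal_mul (by linarith)]
      rw [show (T + 1 - T) * ((1 : ℝ) - -1) = 2 by ring]
      norm_num
    have v3 : volume ((univ : Set ℝ) ×ˢ {(0 : ℝ)}) = 0 := by
      rw [Measure.volume_eq_prod, Measure.prod_prod, Real.volume_singleton, mul_zero]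
    have h2 := s3.trans ((measure_mono h1).trans ((measure_union_le _ _).trans (add_le_add_right
      ((measure_union_le _ _).trans (add_le_add_right (measure_union_le _ _) _)) _)))
    rw [v1, v2, v3] at h2
    have h3 : ENNReal.ofReal (p' / 2 * T) + 4 ≤ ENNReal.ofReal (p' * T) := by
      rw [show (4 : ENNReal) = ENNReal.ofReal 4 by norm_num, ← ENNReal.ofReal_add (by positivity) (by norm_num)]
      apply ENNReal.ofReal_le_ofReal
      rw [div_le_iff₀ hp0] at g4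
      linarith
    have h4 : (2 : ENNReal) + (2 + 0) = 4 := by norm_num
    rw [h4] at h2
    exact (ENNReal.add_le_add_iff_right (by norm_num)).1 (h3.trans h2)
  · rintro q ⟨_, hq1, hq2⟩
    rw [hG', hf] at hq2
    exact ⟨hq1, hq2⟩

end Pool.Agent.Lib.MP_00e05b_nt.Bar
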