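import Pool.Agent.Lib.MP_00e05b_nt.Gap.FM
import Pool.Agent.Lib.MP_00e05b_nt.Gap.Iso

/-!
# Beyond the density barrier: definitions

`xg T t γ = (γ - t) log T / 2π` (Gap.Defs), `e(x) = e^{2πix}`, `L = log T`.
`ψ = Psi ρ` is an entire function with `ψ 0 = 1`; `Θ z = ∑_{k ≤ m} a_k ψ(z - d_k)/(z - d_k)`, `d_k = (k - m/2) τ`;
`CF z = ∑_γ m_γ e(-c x_γ) Θ(z - x_γ)`: meromorphic with poles at `x_γ + d_k`, and `‖CF_t(x + iy)‖ = ‖CF_{t + 2πx/L}(iy)‖`.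
For `Im z > 0`: `Θ z = -2πi ∫ P(ξ) A(ξ) e(ξ z) dξ`, `P ξ = ∫_{-∞}^ξ ρ`, `A = Af`.
-/

open Complex Set Filter Topology MeasureTheory

namespace Pool.Agent.Lib.MP_00e05b_nt.Bar

open Pool.Agent.Lib.MP_00e05b_nt Pool.Agent.Lib.MP_00e05b_nt.Mont Pool.Agent.Lib.MP_00e05b_nt.Gap

/-- The smoothing: smooth, even, supported in `[-1/8, 1/8]`, nonnegative, of integral one. -/
structure RR (ρ : ℝ → ℝ) : Prop where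
  es : ES ρ (1 / 8)
  nonneg : ∀ u, 0 ≤ ρ u
  one : ∫ u, ρ u = 1

/-- `ψ z = ∫ ρ(β) e^{2πiβz} dβ`. -/
noncomputable def Psi (ρ : ℝ → ℝ) (z : ℂ) : ℂ :=
  ∫ β : ℝ, (ρ β : ℂ) * cexp (2 * (Real.pi : ℂ) * I * (β : ℂ) * z)

/-- `P ξ = ∫_{-∞}^ξ ρ`. -/
noncomputable def Pc (ρ : ℝ → ℝ) (ξ : ℝ) : ℝ := ∫ β in Iic ξ, ρ β

/-- The offsets `(k - m/2) τ`. -/
noncomputable def off (m : ℕ) (τ : ℝ) (k : ℕ) : ℝ := ((k : ℝ) - (m : ℝ) / 2) * τ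

/-- `Θ z = ∑_{k ≤ m} a_k ψ(z - d_k)/(z - d_k)`. -/
noncomputable def Th (ρ : ℝ → ℝ) (m : ℕ) (τ : ℝ) (a : ℕ → ℂ) (z : ℂ) : ℂ :=
  ∑ k ∈ Finset.range (m + 1), a k * (Psi ρ (z - (off m τ k : ℂ)) / (z - (off m τ k : ℂ)))

/-- `A ξ = ∑_{k ≤ m} a_k e(-ξ d_k)`. -/
noncomputable def Af (m : ℕ) (τ : ℝ) (a : ℕ → ℂ) (ξ : ℝ) : ℂ :=
  ∑ k ∈ Finset.range (m + 1), a k * cexp (-((2 * Real.pi * ξ * off m τ k : ℝ) : ℂ) * I)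

/-- `CF z = ∑_γ m_γ e(-c x_γ) Θ(z - x_γ)`. -/
noncomputable def CF (ρ : ℝ → ℝ) (m : ℕ) (τ : ℝ) (a : ℕ → ℂ) (c T t : ℝ) (z : ℂ) : ℂ :=
  ∑ γ ∈ ordinates T, (mult γ : ℂ) *
    (cexp (-((2 * Real.pi * c * xg T t γ : ℝ) : ℂ) * I) * Th ρ m τ a (z - (xg T t γ : ℂ)))

/-- The coefficients `a` kill the frequencies `b i`, `i < m`. -/
structure FD (m : ℕ) (τ : ℝ) (b : ℕ → ℝ) (a : ℕ → ℂ) : Prop where
  zero : a 0 = 1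
  sum : ∑ k ∈ Finset.range (m + 1), ‖a k‖ ≤ 2 ^ m
  kill : ∀ ξ : ℝ, ∀ i < m, ‖Af m τ a ξ‖ ≤ 2 ^ m * Real.pi * τ * |ξ - b i|

/-- The mean square bound for `CF` on the lines `Im z = y`, `0 < |y| ≤ Y`. -/
def MS (ρ : ℝ → ℝ) (m : ℕ) (τ : ℝ) (a : ℕ → ℂ) (c T K h Y : ℝ) : Prop :=
  ∀ y : ℝ, y ≠ 0 → |y| ≤ Y →
    Integrable (fun t : ℝ => ‖CF ρ m τ a c T t ((y : ℂ) * I)‖ ^ 2) ∧
    T⁻¹ * ∫ t : ℝ, ‖CF ρ m τ a c T t ((y : ℂ) * I)‖ ^ 2 ≤ K * (1 + 1 / |y|) * Real.exp (-(4 * Real.pi * h * |y|))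

/-- The circle average of `log⁺ (‖CF z‖ e^{2πh|Im z|})` around `ib`, radius `N`. -/
noncomputable def AR (ρ : ℝ → ℝ) (m : ℕ) (τ : ℝ) (a : ℕ → ℂ) (c T h : ℝ) (N : ℕ) (t b : ℝ) : ℝ :=
  Real.circleAverage (fun z : ℂ => Real.posLog (‖CF ρ m τ a c T t z‖ * Real.exp (2 * Real.pi * h * |z.im|)))
    ((b : ℂ) * I) (N : ℝ)

/-- Superposition of tents, a majorant of `log⁺ (N / max 1 |x|)` of integral at most `2N`. -/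
noncomputable def kN (N : ℕ) (x : ℝ) : ℝ :=
  ∑ j ∈ Finset.Icc 2 N, max 0 ((j : ℝ) - |x|) / ((j : ℝ) ^ 2 - 1) + max 0 ((N : ℝ) - |x|) / (N : ℝ)

/-- The band-limited kernel: `W` times the Fourier transform of `kN N`. -/
noncomputable def kap (W : ℝ → ℝ) (N : ℕ) (u : ℝ) : ℝ := W u * fT (kN N) u

/-- The sum over primes `-(2/L) ∑_{p ≤ T} (log p) p^{-1/2} κ(log p/L) cos (t log p)`. -/
noncomputable def Pr (κ : ℝ → ℝ) (T t : ℝ) : ℝ :=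
  -(2 / Real.log T) * ∑ p ∈ (Finset.range (⌊T⌋₊ + 1)).filter Nat.Prime,
    Real.log p / Real.sqrt p * κ (Real.log p / Real.log T) * Real.cos (t * Real.log p)

end Pool.Agent.Lib.MP_00e05b_nt.Bar
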