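import Mathlib

/-!
# LEAF E1: Plancherel for integrable continuous functions, decay of Fourier transforms
-/

open Complex Set Filter Topology MeasureTheory
open scoped FourierTransform

namespace Pool.Agent.Lib.MP_00e05b_nt.Bar

/-- Plancherel for a continuous integrable function with integrable Fourier transform. -/
theorem planch_int {f : ℝ → ℂ} (hc : Continuous f) (hf : Integrable f) (hF : Integrable (𝓕 f)) :
    Integrable (fun t => ‖𝓕 f t‖ ^ 2) ∧ ∫ t, ‖𝓕 f t‖ ^ 2 = ∫ u, ‖f u‖ ^ 2 := by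
  have hFc : Continuous (𝓕 f) :=
    VectorFourier.fourierIntegral_continuous Real.continuous_fourierChar (innerSL ℝ).continuous₂ hf
  constructor
  · have h1 : (fun t => ‖𝓕 f t‖ ^ 2) = fun t => ‖𝓕 f t‖ * ‖𝓕 f t‖ := by
      funext t
      ring
    rw [h1]
    refine hF.norm.mul_bdd (c := ∫ u, ‖f u‖) hFc.norm.aestronglyMeasurable (Eventually.of_forall fun t => ?_)
    rw [norm_norm]
    exact VectorFourier.norm_fourierIntegral_le_integral_norm _ _ _ _ _
  · have h2 := VectorFourier.integral_sesq_fourierIntegral_eq_neg_flip (μ := volume) (ν := volume) (innerSL ℂ)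
      (L := innerₗ ℝ) Real.continuous_fourierChar continuous_inner hf hF
    have h3 : ∀ x, VectorFourier.fourierIntegral Real.fourierChar volume (-(innerₗ ℝ).flip) (𝓕 f) x = f x := by
      intro x
      have h4 := congrFun (hc.fourierInv_fourier_eq hf hF) x
      rw [← h4]
      have h5 : (innerₗ ℝ).flip = innerₗ ℝ := by
        ext
        simp
      rw [h5]
      rfl
    have h6 : (∫ ξ, (innerSL ℂ) (𝓕 f ξ) (𝓕 f ξ)) = ∫ x, (innerSL ℂ) (f x) (f x) := by
      refine h2.trans (integral_congr_ae (Eventually.of_forall fun x => ?_))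
      simp only
      rw [h3]
    have h7 : ∀ z : ℂ, (innerSL ℂ) z z = ((‖z‖ ^ 2 : ℝ) : ℂ) := by
      intro z
      rw [innerSL_apply_apply, inner_self_eq_norm_sq_to_K]
      push_cast
      rfl
    simp only [h7] at h6
    rw [integral_complex_ofReal, integral_complex_ofReal] at h6
    exact_mod_cast h6

/-- Two integrable derivatives: the Fourier transform is integrable. -/
theorem fourier_integrable {f f1 f2 : ℝ → ℂ} (h1 : ∀ x, HasDerivAt f (f1 x) x) (h2 : ∀ x, HasDerivAt f1 (f2 x) x)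
    (i0 : Integrable f) (i1 : Integrable f1) (i2 : Integrable f2) : Integrable (𝓕 f) := by
  have hFc : Continuous (𝓕 f) :=
    VectorFourier.fourierIntegral_continuous Real.continuous_fourierChar (innerSL ℝ).continuous₂ i0
  have d1 : deriv f = f1 := funext fun x => (h1 x).deriv
  have d2 : deriv f1 = f2 := funext fun x => (h2 x).deriv
  have e1 : 𝓕 f1 = fun (x : ℝ) => (2 * Real.pi * I * x) • (𝓕 f x) := by
    rw [← d1]
    exact Real.fourier_deriv i0 (fun x => (h1 x).differentiableAt) (by rw [d1]; exact i1)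
  have e2 : 𝓕 f2 = fun (x : ℝ) => (2 * Real.pi * I * x) • (𝓕 f1 x) := by
    rw [← d2]
    exact Real.fourier_deriv i1 (fun x => (h2 x).differentiableAt) (by rw [d2]; exact i2)
  have b0 : ∀ x, ‖𝓕 f x‖ ≤ ∫ u, ‖f u‖ := fun x => VectorFourier.norm_fourierIntegral_le_integral_norm _ _ _ _ _
  have b2 : ∀ x, ‖𝓕 f2 x‖ ≤ ∫ u, ‖f2 u‖ := fun x => VectorFourier.norm_fourierIntegral_le_integral_norm _ _ _ _ _
  have hpi := Real.pi_gt_three
  have b3 : ∀ x : ℝ, ‖𝓕 f x‖ ≤ ((∫ u, ‖f u‖) + ∫ u, ‖f2 u‖) * (1 + x ^ 2)⁻¹ := by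
    intro x
    have h3 : 𝓕 f2 x = (2 * Real.pi * I * x) * ((2 * Real.pi * I * x) * 𝓕 f x) := by
      have h4 := congrFun e2 x
      have h5 := congrFun e1 x
      simp only [smul_eq_mul] at h4 h5
      rw [h4, h5]
    have h6 : ‖𝓕 f2 x‖ = (2 * Real.pi) ^ 2 * x ^ 2 * ‖𝓕 f x‖ := by
      have h7 : ‖(2 * Real.pi * I * x : ℂ)‖ = 2 * Real.pi * |x| := by
        rw [norm_mul, norm_mul, norm_mul, Complex.norm_I, Complex.norm_real, Complex.norm_real, Real.norm_eq_abs,
          Real.norm_eq_abs, abs_of_pos Real.pi_pos, Complex.norm_two]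
        ring
      obtain ⟨w, hw⟩ : ∃ w : ℂ, w = 2 * Real.pi * I * x := ⟨_, rfl⟩
      rw [← hw] at h3 h7
      rw [h3, norm_mul, norm_mul, h7, ← sq_abs x]
      ring
    have h8 : (1 + x ^ 2) * ‖𝓕 f x‖ ≤ (∫ u, ‖f u‖) + ∫ u, ‖f2 u‖ := by
      have h9 := b0 x
      have h10 := b2 x
      rw [h6] at h10
      have h11 : x ^ 2 * ‖𝓕 f x‖ ≤ (2 * Real.pi) ^ 2 * x ^ 2 * ‖𝓕 f x‖ := by
        refine mul_le_mul_of_nonneg_right ?_ (norm_nonneg _)
        have h12 : (1 : ℝ) ≤ (2 * Real.pi) ^ 2 := by nlinarith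
        nlinarith [mul_le_mul_of_nonneg_right h12 (sq_nonneg x)]
      linarith
    rw [← div_eq_mul_inv, le_div_iff₀ (by positivity)]
    linarith
  exact (integrable_inv_one_add_sq.const_mul _).mono' hFc.aestronglyMeasurable (Eventually.of_forall b3)

/-- Two integrations by parts against a cosine. -/
theorem int_cos_deriv2 {f f1 f2 : ℝ → ℝ} (h1 : ∀ x, HasDerivAt f (f1 x) x) (h2 : ∀ x, HasDerivAt f1 (f2 x) x)
    (i0 : Integrable f) (i1 : Integrable f1) (i2 : Integrable f2) (θ : ℝ) :
    ∫ x, f2 x * Real.cos (θ * x) = -(θ ^ 2 * ∫ x, f x * Real.cos (θ * x)) := by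
  have hb : ∀ (g : ℝ → ℝ), Integrable g → Integrable (fun x => g x * Real.cos (θ * x)) := fun g hg =>
    hg.mul_bdd (c := 1) (by fun_prop) (Eventually.of_forall fun x => by
      rw [Real.norm_eq_abs]
      exact Real.abs_cos_le_one _)
  have hs : ∀ (g : ℝ → ℝ), Integrable g → Integrable (fun x => g x * Real.sin (θ * x)) := fun g hg =>
    hg.mul_bdd (c := 1) (by fun_prop) (Eventually.of_forall fun x => by
      rw [Real.norm_eq_abs]
      exact Real.abs_sin_le_one _)
  have dlin : ∀ x : ℝ, HasDerivAt (fun x : ℝ => θ * x) θ x := fun x => by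
    simpa using (hasDerivAt_id x).const_mul θ
  have dcos : ∀ x : ℝ, HasDerivAt (fun x : ℝ => Real.cos (θ * x)) (-Real.sin (θ * x) * θ) x := fun x => (dlin x).cos
  have dsin : ∀ x : ℝ, HasDerivAt (fun x : ℝ => Real.sin (θ * x)) (Real.cos (θ * x) * θ) x := fun x => (dlin x).sin
  have e1 : ∫ x, (f2 x * Real.cos (θ * x) + f1 x * (-Real.sin (θ * x) * θ)) = 0 := by
    refine integral_eq_zero_of_hasDerivAt_of_integrable (fun x => (h2 x).mul (dcos x)) ?_ (hb _ i1)
    refine (hb _ i2).add (((hs _ i1).const_mul (-θ)).congr (Eventually.of_forall fun x => ?_))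
    simp only
    ring
  have e2 : ∫ x, (f1 x * Real.sin (θ * x) + f x * (Real.cos (θ * x) * θ)) = 0 := by
    refine integral_eq_zero_of_hasDerivAt_of_integrable (fun x => (h1 x).mul (dsin x)) ?_ (hs _ i0)
    refine (hs _ i1).add (((hb _ i0).const_mul θ).congr (Eventually.of_forall fun x => ?_))
    simp only
    ring
  have e3 : ∫ x, f1 x * (-Real.sin (θ * x) * θ) = -(θ * ∫ x, f1 x * Real.sin (θ * x)) := by
    rw [← integral_const_mul, ← integral_neg]
    refine integral_congr_ae (Eventually.of_forall fun x => ?_)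
    simp only
    ring
  have e4 : ∫ x, f x * (Real.cos (θ * x) * θ) = θ * ∫ x, f x * Real.cos (θ * x) := by
    rw [← integral_const_mul]
    refine integral_congr_ae (Eventually.of_forall fun x => ?_)
    simp only
    ring
  rw [integral_add (hb _ i2), e3] at e1
  · rw [integral_add (hs _ i1), e4] at e2
    · have : ∫ x, f1 x * Real.sin (θ * x) = -(θ * ∫ x, f x * Real.cos (θ * x)) := by linarith
      rw [this] at e1
      linarith
    · refine ((hb _ i0).const_mul θ).congr (Eventually.of_forall fun x => ?_)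
      simp only
      ring
  · refine ((hs _ i1).const_mul (-θ)).congr (Eventually.of_forall fun x => ?_)
    simp only
    ring

end Pool.Agent.Lib.MP_00e05b_nt.Bar
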