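import Pool.Agent.Lib.MP_00e05b_nt.Bar.Defs
import Pool.Agent.Lib.MP_00e05b_nt.Bar.E1

/-!
# LEAF E2: the cutoff `Pc` and the kernel `ψ(z)/z`
-/

open Complex Set Filter Topology MeasureTheory

namespace Pool.Agent.Lib.MP_00e05b_nt.Bar

open Pool.Agent.Lib.MP_00e05b_nt Pool.Agent.Lib.MP_00e05b_nt.Mont Pool.Agent.Lib.MP_00e05b_nt.Gap

theorem RR.cont {ρ : ℝ → ℝ} (hρ : RR ρ) : Continuous ρ := hρ.es.smooth.continuous

theorem RR.int {ρ : ℝ → ℝ} (hρ : RR ρ) : Integrable ρ := by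
  refine hρ.cont.integrable_of_hasCompactSupport ?_
  refine HasCompactSupport.intro (isCompact_Icc (a := (-(1 / 8) : ℝ)) (b := 1 / 8)) fun x hx => hρ.es.supp x ?_
  by_contra h
  rw [not_le, abs_lt] at h
  exact hx ⟨h.1.le, h.2.le⟩

theorem Pc_hasDerivAt {ρ : ℝ → ℝ} (hρ : RR ρ) (v : ℝ) : HasDerivAt (Pc ρ) (ρ v) v := by
  have h1 : Pc ρ = fun x => Pc ρ 0 + ∫ s in (0 : ℝ)..x, ρ s := by
    funext x
    unfold Pc
    rw [← intervalIntegral.integral_Iic_sub_Iic hρ.int.integrableOn hρ.int.integrableOn]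
    ring
  rw [h1]
  refine HasDerivAt.const_add _ ?_
  exact intervalIntegral.integral_hasDerivAt_right (hρ.cont.intervalIntegrable _ _)
    hρ.cont.aestronglyMeasurable.stronglyMeasurableAtFilter hρ.cont.continuousAt

theorem Pc_cont {ρ : ℝ → ℝ} (hρ : RR ρ) : Continuous (Pc ρ) :=
  continuous_iff_continuousAt.2 fun v => (Pc_hasDerivAt hρ v).continuousAt

theorem Pc_nonneg {ρ : ℝ → ℝ} (hρ : RR ρ) (v : ℝ) : 0 ≤ Pc ρ v :=
  setIntegral_nonneg measurableSet_Iic fun u _ => hρ.nonneg u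

theorem Pc_le_one {ρ : ℝ → ℝ} (hρ : RR ρ) (v : ℝ) : Pc ρ v ≤ 1 := by
  have h := setIntegral_le_integral (s := Iic v) hρ.int (Eventually.of_forall hρ.nonneg)
  rw [hρ.one] at h
  exact h

theorem Pc_zero {ρ : ℝ → ℝ} (hρ : RR ρ) {v : ℝ} (hv : v ≤ -(1 / 8)) : Pc ρ v = 0 := by
  unfold Pc
  refine setIntegral_eq_zero_of_forall_eq_zero fun u hu => hρ.es.supp u ?_
  rw [mem_Iic] at hu
  rw [abs_of_nonpos (by linarith)]
  linarith

theorem RR.zero {ρ : ℝ → ℝ} (hρ : RR ρ) {v : ℝ} (hv : v ≤ -(1 / 8)) : ρ v = 0 := by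
  refine hρ.es.supp v ?_
  rw [abs_of_nonpos (by linarith)]
  linarith

theorem deriv_zero {ρ : ℝ → ℝ} (hρ : RR ρ) {v : ℝ} (hv : v < -(1 / 8)) : deriv ρ v = 0 := by
  have h1 : ρ =ᶠ[𝓝 v] fun _ => 0 := by
    filter_upwards [Iio_mem_nhds hv] with u hu
    exact hρ.zero (le_of_lt hu)
  rw [h1.deriv_eq]
  simp

theorem RR.hasDerivAt {ρ : ℝ → ℝ} (hρ : RR ρ) (v : ℝ) : HasDerivAt ρ (deriv ρ v) v :=
  (hρ.es.smooth.differentiable (by simp)).differentiableAt.hasDerivAt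

theorem RR.bdd {ρ : ℝ → ℝ} (hρ : RR ρ) : ∃ R : ℝ, 0 ≤ R ∧ (∀ v, |ρ v| ≤ R) ∧ ∀ v, |deriv ρ v| ≤ R := by
  have hc1 : HasCompactSupport ρ := by
    refine HasCompactSupport.intro (isCompact_Icc (a := (-(1 / 8) : ℝ)) (b := 1 / 8)) fun x hx => hρ.es.supp x ?_
    by_contra h
    rw [not_le, abs_lt] at h
    exact hx ⟨h.1.le, h.2.le⟩
  have hd : Continuous (deriv ρ) := hρ.es.smooth.continuous_deriv (by simp)
  obtain ⟨R1, h1⟩ := hρ.cont.bounded_above_of_compact_support hc1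
  obtain ⟨R2, h2⟩ := hd.bounded_above_of_compact_support hc1.deriv
  refine ⟨max (max R1 R2) 0, le_max_right _ _, fun v => ?_, fun v => ?_⟩
  · rw [← Real.norm_eq_abs]
    exact (h1 v).trans ((le_max_left _ _).trans (le_max_left _ _))
  · rw [← Real.norm_eq_abs]
    exact (h2 v).trans ((le_max_right _ _).trans (le_max_left _ _))

/-- Integrability from an exponential bound on a half line. -/
theorem int_of_exp {E : Type*} [NormedAddCommGroup E] {f : ℝ → E} {C l : ℝ} (hl : 0 < l) (hm : AEStronglyMeasurable f)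
    (h0 : ∀ v, v < -(1 / 8) → f v = 0) (hb : ∀ v, ‖f v‖ ≤ C * Real.exp (-l * v)) : Integrable f := by
  have h1 : IntegrableOn f (Ici (-(1 / 8))) := by
    have h2 : IntegrableOn (fun v : ℝ => C * Real.exp (-l * v)) (Ici (-(1 / 8))) := by
      rw [integrableOn_Ici_iff_integrableOn_Ioi]
      exact (exp_neg_integrableOn_Ioi (-(1 / 8)) hl).const_mul C
    exact h2.mono' hm.restrict (Eventually.of_forall hb)
  rw [← integrableOn_univ]
  have h3 : IntegrableOn f (Ici (-(1 / 8)) ∪ Iio (-(1 / 8))) := by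
    refine h1.union ?_
    refine IntegrableOn.congr_fun (f := fun _ => (0 : E)) integrableOn_zero (fun v hv => ?_) measurableSet_Iio
    exact (h0 v hv).symm
  refine h3.mono_set fun v _ => ?_
  rcases lt_or_ge v (-(1 / 8)) with h | h
  · exact Or.inr h
  · exact Or.inl h

/-- `g(v) = P(v) e^{-2πyv}`. -/
noncomputable def gy (ρ : ℝ → ℝ) (y v : ℝ) : ℝ := Pc ρ v * Real.exp (-(2 * Real.pi * y) * v)

theorem gy_facts {ρ : ℝ → ℝ} (hρ : RR ρ) {y : ℝ} (hy : 0 < y) :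
    Continuous (gy ρ y) ∧ Integrable (gy ρ y) ∧ ∃ f1 f2 : ℝ → ℝ, (∀ x, HasDerivAt (gy ρ y) (f1 x) x) ∧
      (∀ x, HasDerivAt f1 (f2 x) x) ∧ Integrable f1 ∧ Integrable f2 := by
  obtain ⟨R, hR0, hR1, hR2⟩ := hρ.bdd
  have hl : 0 < 2 * Real.pi * y := by positivity
  obtain ⟨l, hll⟩ : ∃ l : ℝ, l = 2 * Real.pi * y := ⟨_, rfl⟩
  rw [← hll] at hl
  have hgy : gy ρ y = fun v => Pc ρ v * Real.exp (-l * v) := by
    funext v
    unfold gy
    rw [hll]
  rw [hgy]
  have dexp : ∀ x : ℝ, HasDerivAt (fun v : ℝ => Real.exp (-l * v)) (Real.exp (-l * x) * -l) x := fun x => by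
    have := ((hasDerivAt_id x).const_mul (-l)).exp
    simpa using this
  have hd : Continuous (deriv ρ) := hρ.es.smooth.continuous_deriv (by simp)
  have hPa : ∀ v, |Pc ρ v| ≤ 1 := fun v => by
    rw [abs_of_nonneg (Pc_nonneg hρ v)]
    exact Pc_le_one hρ v
  have hPc := Pc_cont hρ
  have hρc := hρ.cont
  refine ⟨by fun_prop, ?_, fun v => (ρ v - l * Pc ρ v) * Real.exp (-l * v),
    fun v => (deriv ρ v - 2 * l * ρ v + l ^ 2 * Pc ρ v) * Real.exp (-l * v), fun x => ?_, fun x => ?_, ?_, ?_⟩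
  · refine int_of_exp (C := 1) hl (by fun_prop) (fun v hv => ?_) fun v => ?_
    · show Pc ρ v * Real.exp (-l * v) = 0
      rw [Pc_zero hρ hv.le, zero_mul]
    · rw [norm_mul, Real.norm_eq_abs, Real.norm_eq_abs, abs_of_pos (Real.exp_pos _)]
      exact mul_le_mul_of_nonneg_right (hPa v) (Real.exp_pos _).le
  · refine ((Pc_hasDerivAt hρ x).mul (dexp x)).congr_deriv ?_
    ring
  · refine (((hρ.hasDerivAt x).sub ((Pc_hasDerivAt hρ x).const_mul l)).mul (dexp x)).congr_deriv ?_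
    simp only [Pi.sub_apply]
    ring
  · refine int_of_exp (C := R + l) hl (by fun_prop) (fun v hv => ?_) fun v => ?_
    · show (ρ v - l * Pc ρ v) * Real.exp (-l * v) = 0
      rw [Pc_zero hρ hv.le, hρ.zero hv.le]
      ring
    · rw [norm_mul, Real.norm_eq_abs, Real.norm_eq_abs, abs_of_pos (Real.exp_pos _)]
      refine mul_le_mul_of_nonneg_right ?_ (Real.exp_pos _).le
      refine (abs_sub _ _).trans ?_
      rw [abs_mul, abs_of_pos hl]
      nlinarith [hR1 v, hPa v]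
  · refine int_of_exp (C := R + 2 * l * R + l ^ 2) hl (by fun_prop) (fun v hv => ?_) fun v => ?_
    · show (deriv ρ v - 2 * l * ρ v + l ^ 2 * Pc ρ v) * Real.exp (-l * v) = 0
      rw [Pc_zero hρ hv.le, hρ.zero hv.le, deriv_zero hρ hv]
      ring
    · rw [norm_mul, Real.norm_eq_abs, Real.norm_eq_abs, abs_of_pos (Real.exp_pos _)]
      refine mul_le_mul_of_nonneg_right ?_ (Real.exp_pos _).le
      have h1 := hR1 v
      have h2 := hR2 v
      have h3 := hPa v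
      have h4 : |2 * l * ρ v| ≤ 2 * l * R := by
        rw [abs_mul, abs_of_pos (by positivity)]
        exact mul_le_mul_of_nonneg_left h1 (by positivity)
      have h5 : |l ^ 2 * Pc ρ v| ≤ l ^ 2 := by
        rw [abs_mul, abs_of_pos (by positivity)]
        exact mul_le_of_le_one_right (by positivity) h3
      calc |deriv ρ v - 2 * l * ρ v + l ^ 2 * Pc ρ v| ≤ |deriv ρ v| + |2 * l * ρ v| + |l ^ 2 * Pc ρ v| :=
            (abs_add_le _ _).trans (add_le_add (abs_sub _ _) le_rfl)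
        _ ≤ R + 2 * l * R + l ^ 2 := by linarith

/-- The kernel formula in the upper half plane. -/
theorem Psi_div {ρ : ℝ → ℝ} (hρ : RR ρ) {z : ℂ} (hz : 0 < z.im) :
    Psi ρ z / z = -(2 * (Real.pi : ℂ) * I) * ∫ v : ℝ, (Pc ρ v : ℂ) * cexp (2 * (Real.pi : ℂ) * I * (v : ℂ) * z) := by
  have hz0 : z ≠ 0 := by
    rintro rfl
    simp at hz
  have hl : 0 < 2 * Real.pi * z.im := by positivity
  have hnorm : ∀ v : ℝ, ‖cexp (2 * (Real.pi : ℂ) * I * (v : ℂ) * z)‖ = Real.exp (-(2 * Real.pi * z.im) * v) := by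
    intro v
    rw [Complex.norm_exp]
    congr 1
    simp
    ring
  have hPa : ∀ v, |Pc ρ v| ≤ 1 := fun v => by
    rw [abs_of_nonneg (Pc_nonneg hρ v)]
    exact Pc_le_one hρ v
  have hPc := Pc_cont hρ
  have hρc := hρ.cont
  have hPcC : Continuous fun v : ℝ => (Pc ρ v : ℂ) := Complex.continuous_ofReal.comp hPc
  have hρcC : Continuous fun v : ℝ => (ρ v : ℂ) := Complex.continuous_ofReal.comp hρc
  obtain ⟨R, hR0, hR1, hR2⟩ := hρ.bdd
  have i1 : Integrable fun v : ℝ => (Pc ρ v : ℂ) * cexp (2 * (Real.pi : ℂ) * I * (v : ℂ) * z) := by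
    refine int_of_exp (C := 1) hl (by fun_prop) (fun v hv => ?_) fun v => ?_
    · rw [Pc_zero hρ hv.le, Complex.ofReal_zero, zero_mul]
    · rw [norm_mul, Complex.norm_real, Real.norm_eq_abs, hnorm]
      exact mul_le_mul_of_nonneg_right (hPa v) (Real.exp_pos _).le
  have i2 : Integrable fun v : ℝ => (ρ v : ℂ) * cexp (2 * (Real.pi : ℂ) * I * (v : ℂ) * z) := by
    refine int_of_exp (C := R) hl (by fun_prop) (fun v hv => ?_) fun v => ?_
    · rw [hρ.zero hv.le, Complex.ofReal_zero, zero_mul]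
    · rw [norm_mul, Complex.norm_real, Real.norm_eq_abs, hnorm]
      exact mul_le_mul_of_nonneg_right (hR1 v) (Real.exp_pos _).le
  have dexp : ∀ x : ℝ, HasDerivAt (fun v : ℝ => cexp (2 * (Real.pi : ℂ) * I * (v : ℂ) * z))
      (cexp (2 * (Real.pi : ℂ) * I * (x : ℂ) * z) * (2 * (Real.pi : ℂ) * I * z)) x := by
    intro x
    have h1 : HasDerivAt (fun v : ℝ => (v : ℂ)) 1 x := by
      simpa using (hasDerivAt_id x).ofReal_comp
    have h2 : HasDerivAt (fun v : ℝ => 2 * (Real.pi : ℂ) * I * (v : ℂ) * z) (2 * (Real.pi : ℂ) * I * z) x := by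
      have := (h1.const_mul (2 * (Real.pi : ℂ) * I)).mul_const z
      simpa using this
    exact h2.cexp
  have hder : ∀ x : ℝ, HasDerivAt (fun v : ℝ => (Pc ρ v : ℂ) * cexp (2 * (Real.pi : ℂ) * I * (v : ℂ) * z))
      ((ρ x : ℂ) * cexp (2 * (Real.pi : ℂ) * I * (x : ℂ) * z) +
        (2 * (Real.pi : ℂ) * I * z) * ((Pc ρ x : ℂ) * cexp (2 * (Real.pi : ℂ) * I * (x : ℂ) * z))) x := by
    intro x
    refine ((Pc_hasDerivAt hρ x).ofReal_comp.mul (dexp x)).congr_deriv ?_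
    ring
  have h0 := integral_eq_zero_of_hasDerivAt_of_integrable hder (i2.add (i1.const_mul _)) i1
  rw [integral_add i2 (i1.const_mul _), integral_const_mul] at h0
  have h3 : Psi ρ z = ∫ v : ℝ, (ρ v : ℂ) * cexp (2 * (Real.pi : ℂ) * I * (v : ℂ) * z) := rfl
  rw [← h3] at h0
  rw [div_eq_iff hz0]
  linear_combination h0

end Pool.Agent.Lib.MP_00e05b_nt.Bar
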