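import Pool.Agent.Lib.MP_00e05b_nt.Bar.E2

/-!
# LEAF E3: Plancherel for finite sums of translates of `ψ(z)/z`
-/

open Complex Set Filter Topology MeasureTheory
open scoped FourierTransform

namespace Pool.Agent.Lib.MP_00e05b_nt.Bar

open Pool.Agent.Lib.MP_00e05b_nt Pool.Agent.Lib.MP_00e05b_nt.Mont Pool.Agent.Lib.MP_00e05b_nt.Gap

/-- The Fourier transform of `g`. -/
private lemma E3_gy_F {ρ : ℝ → ℝ} (hρ : RR ρ) {y : ℝ} (hy : 0 < y) :
    Integrable (fun v : ℝ => (gy ρ y v : ℂ)) ∧ Integrable (𝓕 (fun v : ℝ => (gy ρ y v : ℂ))) := by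
  obtain ⟨hc, hi, f1, f2, h1, h2, i1, i2⟩ := gy_facts hρ hy
  exact ⟨hi.ofReal, fourier_integrable (fun x => (h1 x).ofReal_comp) (fun x => (h2 x).ofReal_comp) hi.ofReal i1.ofReal
    i2.ofReal⟩

/-- The kernel as a Fourier transform. -/
private lemma E3_kernel {ρ : ℝ → ℝ} (hρ : RR ρ) {y : ℝ} (hy : 0 < y) (x : ℝ) :
    Psi ρ (((x : ℝ) : ℂ) + (y : ℂ) * I) / (((x : ℝ) : ℂ) + (y : ℂ) * I) =
      -(2 * (Real.pi : ℂ) * I) * 𝓕 (fun v : ℝ => (gy ρ y v : ℂ)) (-x) := by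
  have him : 0 < (((x : ℝ) : ℂ) + (y : ℂ) * I).im := by simpa using hy
  rw [Psi_div hρ him, Real.fourier_real_eq_integral_exp_smul]
  congr 1
  refine integral_congr_ae (Eventually.of_forall fun v => ?_)
  have h1 : (gy ρ y v : ℂ) = (Pc ρ v : ℂ) * cexp (((-(2 * Real.pi * y) * v : ℝ)) : ℂ) := by
    unfold gy
    rw [Complex.ofReal_mul, Complex.ofReal_exp]
  have h2 : cexp (2 * (Real.pi : ℂ) * I * (v : ℂ) * (((x : ℝ) : ℂ) + (y : ℂ) * I)) =
      cexp (((-2 * Real.pi * v * -x : ℝ) : ℂ) * I) * cexp (((-(2 * Real.pi * y) * v : ℝ)) : ℂ) := by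
    rw [← Complex.exp_add]
    congr 1
    have h3 : (2 * (Real.pi : ℂ) * I * (v : ℂ) * (((x : ℝ) : ℂ) + (y : ℂ) * I)) =
        2 * (Real.pi : ℂ) * (v : ℂ) * (x : ℂ) * I + 2 * (Real.pi : ℂ) * (v : ℂ) * (y : ℂ) * (I * I) := by ring
    rw [h3, Complex.I_mul_I]
    push_cast
    ring
  simp only [smul_eq_mul]
  rw [h1, h2]
  ring

/-- Plancherel for a finite sum of translates. -/
theorem plan_K {ι : Type*} {ρ : ℝ → ℝ} (hρ : RR ρ) {y : ℝ} (hy : 0 < y) (s : Finset ι) (w : ι → ℂ) (X : ι → ℝ) :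
    Integrable (fun u : ℝ => ‖∑ p ∈ s, w p * (Psi ρ (((u - X p : ℝ) : ℂ) + (y : ℂ) * I) / (((u - X p : ℝ) : ℂ) + (y : ℂ) * I))‖ ^ 2) ∧
    ∫ u : ℝ, ‖∑ p ∈ s, w p * (Psi ρ (((u - X p : ℝ) : ℂ) + (y : ℂ) * I) / (((u - X p : ℝ) : ℂ) + (y : ℂ) * I))‖ ^ 2 =
      ∫ v : ℝ, (2 * Real.pi) ^ 2 * gy ρ y v ^ 2 * ‖∑ p ∈ s, w p * cexp (-((2 * Real.pi * v * X p : ℝ) : ℂ) * I)‖ ^ 2 := by
  obtain ⟨i0, iF⟩ := E3_gy_F hρ hy
  have hgc : Continuous (gy ρ y) := (gy_facts hρ hy).1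
  have hgcC : Continuous fun v : ℝ => (gy ρ y v : ℂ) := Complex.continuous_ofReal.comp hgc
  obtain ⟨G, hG⟩ : ∃ G : ℝ → ℂ, G = fun v => -(2 * (Real.pi : ℂ) * I) *
    ((gy ρ y v : ℂ) * ∑ p ∈ s, w p * cexp (-((2 * Real.pi * v * X p : ℝ) : ℂ) * I)) := ⟨_, rfl⟩
  have hexp : ∀ p : ι, Continuous fun v : ℝ => cexp (-((2 * Real.pi * v * X p : ℝ) : ℂ) * I) := by
    intro p
    refine Complex.continuous_exp.comp (Continuous.mul (Continuous.neg (Complex.continuous_ofReal.comp ?_)) continuous_const)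
    fun_prop
  have hne : ∀ (p : ι) (v : ℝ), ‖cexp (-((2 * Real.pi * v * X p : ℝ) : ℂ) * I)‖ = 1 := by
    intro p v
    rw [← Complex.ofReal_neg, Complex.norm_exp_ofReal_mul_I]
  have hGc : Continuous G := by
    rw [hG]
    refine continuous_const.mul (hgcC.mul ?_)
    exact continuous_finsetSum _ fun p _ => continuous_const.mul (hexp p)
  have hGi : Integrable G := by
    rw [hG]
    refine Integrable.const_mul ?_ _
    refine i0.mul_bdd (c := ∑ p ∈ s, ‖w p‖) ?_ (Eventually.of_forall fun v => ?_)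
    · exact (continuous_finsetSum _ fun p _ => continuous_const.mul (hexp p)).aestronglyMeasurable
    · refine (norm_sum_le _ _).trans (Finset.sum_le_sum fun p _ => ?_)
      rw [norm_mul, hne, mul_one]
  have hFG : ∀ x : ℝ, 𝓕 G x = ∑ p ∈ s, -(2 * (Real.pi : ℂ) * I) * (w p * 𝓕 (fun v : ℝ => (gy ρ y v : ℂ)) (x + X p)) := by
    intro x
    have h1 : 𝓕 G x = ∫ v : ℝ, ∑ p ∈ s, -(2 * (Real.pi : ℂ) * I) * (w p *
        (cexp ((-2 * Real.pi * v * (x + X p) : ℝ) * I) * (gy ρ y v : ℂ))) := by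
      rw [Real.fourier_real_eq_integral_exp_smul]
      refine integral_congr_ae (Eventually.of_forall fun v => ?_)
      simp only [smul_eq_mul]
      rw [hG]
      simp only
      rw [Finset.mul_sum, Finset.mul_sum, Finset.mul_sum]
      refine Finset.sum_congr rfl fun p _ => ?_
      have h2 : cexp ((-2 * Real.pi * v * (x + X p) : ℝ) * I) =
          cexp ((-2 * Real.pi * v * x : ℝ) * I) * cexp (-((2 * Real.pi * v * X p : ℝ) : ℂ) * I) := by
        rw [← Complex.exp_add]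
        congr 1
        push_cast
        ring
      rw [h2]
      ring
    rw [h1, integral_finsetSum]
    · refine Finset.sum_congr rfl fun p _ => ?_
      rw [integral_const_mul, integral_const_mul, Real.fourier_real_eq_integral_exp_smul]
      rfl
    · intro p _
      refine Integrable.const_mul (Integrable.const_mul ?_ _) _
      refine i0.bdd_mul (c := 1) ?_ (Eventually.of_forall fun v => ?_)
      · refine Continuous.aestronglyMeasurable ?_
        refine Complex.continuous_exp.comp (Continuous.mul (Complex.continuous_ofReal.comp ?_) continuous_const)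
        fun_prop
      · rw [Complex.norm_exp_ofReal_mul_I]
  have hFi : Integrable (𝓕 G) := by
    have h1 : 𝓕 G = fun x : ℝ => ∑ p ∈ s, -(2 * (Real.pi : ℂ) * I) * (w p * 𝓕 (fun v : ℝ => (gy ρ y v : ℂ)) (x + X p)) :=
      funext hFG
    rw [h1]
    exact integrable_finsetSum _ fun p _ => ((iF.comp_add_right (X p)).const_mul _).const_mul _
  obtain ⟨p1, p2⟩ := planch_int hGc hGi hFi
  have hval : ∀ u : ℝ, ∑ p ∈ s, w p * (Psi ρ (((u - X p : ℝ) : ℂ) + (y : ℂ) * I) / (((u - X p : ℝ) : ℂ) + (y : ℂ) * I)) =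
      𝓕 G (-u) := by
    intro u
    rw [hFG]
    refine Finset.sum_congr rfl fun p _ => ?_
    rw [E3_kernel hρ hy, show -(u - X p) = -u + X p by ring]
    ring
  have hfun : (fun u : ℝ => ‖∑ p ∈ s, w p * (Psi ρ (((u - X p : ℝ) : ℂ) + (y : ℂ) * I) / (((u - X p : ℝ) : ℂ) + (y : ℂ) * I))‖ ^ 2) =
      fun u : ℝ => ‖𝓕 G (-u)‖ ^ 2 := by
    funext u
    rw [hval]
  rw [hfun]
  refine ⟨p1.comp_neg, ?_⟩
  rw [integral_neg_eq_self (fun u : ℝ => ‖𝓕 G u‖ ^ 2), p2]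
  refine integral_congr_ae (Eventually.of_forall fun v => ?_)
  simp only
  rw [hG]
  simp only
  rw [norm_mul, norm_mul, mul_pow, mul_pow, Complex.norm_real, Real.norm_eq_abs, sq_abs, norm_neg, norm_mul, norm_mul,
    Complex.norm_I, Complex.norm_two, Complex.norm_real, Real.norm_eq_abs, abs_of_pos Real.pi_pos]
  ring

end Pool.Agent.Lib.MP_00e05b_nt.Bar
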