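import Pool.Agent.Lib.MP_00e05b_nt.Bar.E3

/-!
# LEAF E4: the exact energy identity
-/

open Complex Set Filter Topology MeasureTheory

namespace Pool.Agent.Lib.MP_00e05b_nt.Bar

open Pool.Agent.Lib.MP_00e05b_nt Pool.Agent.Lib.MP_00e05b_nt.Mont Pool.Agent.Lib.MP_00e05b_nt.Gap

/-- The Cauchy transform of the twisted point measure. -/
noncomputable def C0 (ρ : ℝ → ℝ) (c T t : ℝ) (z : ℂ) : ℂ :=
  ∑ γ ∈ ordinates T, (mult γ : ℂ) *
    (cexp (-((2 * Real.pi * c * xg T t γ : ℝ) : ℂ) * I) * (Psi ρ (z - (xg T t γ : ℂ)) / (z - (xg T t γ : ℂ))))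

/-- `h(v) = P(v)² e^{-lv}`. -/
noncomputable def hy (ρ : ℝ → ℝ) (l v : ℝ) : ℝ := Pc ρ v ^ 2 * Real.exp (-l * v)

/-- The second derivative of `h`. -/
noncomputable def hy2 (ρ : ℝ → ℝ) (l v : ℝ) : ℝ :=
  (2 * ρ v ^ 2 + 2 * deriv ρ v * Pc ρ v - 4 * l * ρ v * Pc ρ v + l ^ 2 * Pc ρ v ^ 2) * Real.exp (-l * v)

theorem hy2_aux {l R a b p : ℝ} (hl : 0 ≤ l) (hR : 0 ≤ R) (ha : |a| ≤ R) (hb : |b| ≤ R) (hp : |p| ≤ 1) :
    |2 * a ^ 2 + 2 * b * p - 4 * l * a * p + l ^ 2 * p ^ 2| ≤ 2 * R ^ 2 + 2 * R + 4 * l * R + l ^ 2 := by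
  have e1 : |2 * a ^ 2| ≤ 2 * R ^ 2 := by
    rw [abs_mul, abs_two, abs_pow]
    have := pow_le_pow_left₀ (abs_nonneg _) ha 2
    linarith
  have e2 : |2 * b * p| ≤ 2 * R := by
    rw [abs_mul, abs_mul, abs_two]
    have := mul_le_mul hb hp (abs_nonneg _) hR
    linarith
  have e3 : |4 * l * a * p| ≤ 4 * l * R := by
    rw [abs_mul, abs_mul, abs_of_nonneg (show 0 ≤ 4 * l by linarith)]
    have := mul_le_mul ha hp (abs_nonneg _) hR
    have h4 := mul_le_mul_of_nonneg_left this (show 0 ≤ 4 * l by linarith)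
    linarith
  have e4 : |l ^ 2 * p ^ 2| ≤ l ^ 2 := by
    rw [abs_mul, abs_of_nonneg (show 0 ≤ l ^ 2 by positivity), abs_pow]
    exact mul_le_of_le_one_right (by positivity) (pow_le_one₀ (abs_nonneg _) hp)
  calc |2 * a ^ 2 + 2 * b * p - 4 * l * a * p + l ^ 2 * p ^ 2| ≤ |2 * a ^ 2| + |2 * b * p| + |4 * l * a * p| + |l ^ 2 * p ^ 2| := by
        refine (abs_add_le _ _).trans (add_le_add ((abs_sub _ _).trans (add_le_add (abs_add_le _ _) le_rfl)) le_rfl)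
    _ ≤ _ := by linarith

theorem hy_facts {ρ : ℝ → ℝ} (hρ : RR ρ) {l : ℝ} (hl : 0 < l) : Continuous (hy ρ l) ∧ Integrable (hy ρ l) ∧
    Continuous (hy2 ρ l) ∧ Integrable (hy2 ρ l) ∧ ∃ f1 : ℝ → ℝ, Integrable f1 ∧ (∀ x, HasDerivAt (hy ρ l) (f1 x) x) ∧
      (∀ x, HasDerivAt f1 (hy2 ρ l x) x) := by
  obtain ⟨R, hR0, hR1, hR2⟩ := hρ.bdd
  have dexp : ∀ x : ℝ, HasDerivAt (fun v : ℝ => Real.exp (-l * v)) (Real.exp (-l * x) * -l) x := fun x => by
    have := ((hasDerivAt_id x).const_mul (-l)).exp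
    simpa using this
  have hd : Continuous (deriv ρ) := hρ.es.smooth.continuous_deriv (by simp)
  have hPa : ∀ v, |Pc ρ v| ≤ 1 := fun v => by
    rw [abs_of_nonneg (Pc_nonneg hρ v)]
    exact Pc_le_one hρ v
  have hPc := Pc_cont hρ
  have hρc := hρ.cont
  have c1 : Continuous (hy ρ l) := by
    unfold hy
    fun_prop
  have c2 : Continuous (hy2 ρ l) := by
    unfold hy2
    fun_prop
  have hPs : ∀ v, |Pc ρ v ^ 2| ≤ 1 := fun v => by
    rw [abs_pow]
    exact pow_le_one₀ (abs_nonneg _) (hPa v)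
  refine ⟨c1, ?_, c2, ?_, fun v => (2 * ρ v * Pc ρ v - l * Pc ρ v ^ 2) * Real.exp (-l * v), ?_, fun x => ?_, fun x => ?_⟩
  · refine int_of_exp (C := 1) hl c1.aestronglyMeasurable (fun v hv => ?_) fun v => ?_
    · unfold hy
      rw [Pc_zero hρ hv.le]
      ring
    · unfold hy
      rw [norm_mul, Real.norm_eq_abs, Real.norm_eq_abs, abs_of_pos (Real.exp_pos _)]
      exact mul_le_mul_of_nonneg_right (hPs v) (Real.exp_pos _).le
  · refine int_of_exp (C := 2 * R ^ 2 + 2 * R + 4 * l * R + l ^ 2) hl c2.aestronglyMeasurable (fun v hv => ?_) fun v => ?_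
    · unfold hy2
      rw [Pc_zero hρ hv.le, hρ.zero hv.le, deriv_zero hρ hv]
      ring
    · unfold hy2
      rw [norm_mul, Real.norm_eq_abs, Real.norm_eq_abs, abs_of_pos (Real.exp_pos _)]
      refine mul_le_mul_of_nonneg_right ?_ (Real.exp_pos _).le
      exact hy2_aux hl.le hR0 (hR1 v) (hR2 v) (hPa v)
  · refine int_of_exp (C := 2 * R + l) hl (by fun_prop) (fun v hv => ?_) fun v => ?_
    · rw [Pc_zero hρ hv.le, hρ.zero hv.le]
      ring
    · rw [norm_mul, Real.norm_eq_abs, Real.norm_eq_abs, abs_of_pos (Real.exp_pos _)]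
      refine mul_le_mul_of_nonneg_right ?_ (Real.exp_pos _).le
      refine (abs_sub _ _).trans ?_
      have e1 : |2 * ρ v * Pc ρ v| ≤ 2 * R := by
        rw [abs_mul, abs_mul, abs_two]
        have := mul_le_mul (hR1 v) (hPa v) (abs_nonneg _) hR0
        linarith
      have e2 : |l * Pc ρ v ^ 2| ≤ l := by
        rw [abs_mul, abs_of_pos hl]
        exact mul_le_of_le_one_right hl.le (hPs v)
      linarith
  · refine (((Pc_hasDerivAt hρ x).pow 2).mul (dexp x)).congr_deriv ?_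
    simp only [Pi.pow_apply]
    push_cast
    ring
  · have e1 := (((hρ.hasDerivAt x).const_mul 2).mul (Pc_hasDerivAt hρ x)).sub (((Pc_hasDerivAt hρ x).pow 2).const_mul l)
    refine (e1.mul (dexp x)).congr_deriv ?_
    simp only [Pi.sub_apply, Pi.pow_apply, Pi.mul_apply]
    unfold hy2
    push_cast
    ring

end Pool.Agent.Lib.MP_00e05b_nt.Bar
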