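import Pool.Agent.Lib.MP_00e05b_nt.Bar.E4

/-!
# LEAF E5: the exact energy identity

`T⁻¹ ∫_ℝ ‖C0_t(iy)‖² dt = ∫ (H - H''/(4 L²)) FF`, `H α = 4π² h(α - c)`, `h v = P(v)² e^{-4πyv}`.
-/

open Complex Set Filter Topology MeasureTheory

namespace Pool.Agent.Lib.MP_00e05b_nt.Bar

open Pool.Agent.Lib.MP_00e05b_nt Pool.Agent.Lib.MP_00e05b_nt.Mont Pool.Agent.Lib.MP_00e05b_nt.Gap

/-- The square of an exponential sum with nonnegative coefficients. -/
theorem expsum_sq (s : Finset ℝ) (m X : ℝ → ℝ) (α : ℝ) :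
    ‖∑ γ ∈ s, (m γ : ℂ) * cexp (-((2 * Real.pi * α * X γ : ℝ) : ℂ) * I)‖ ^ 2 =
      ∑ γ ∈ s, ∑ γ' ∈ s, m γ * m γ' * Real.cos (2 * Real.pi * (X γ - X γ') * α) := by
  have h0 : ∑ γ ∈ s, (m γ : ℂ) * cexp (-((2 * Real.pi * α * X γ : ℝ) : ℂ) * I) =
      ((∑ γ ∈ s, m γ * Real.cos (2 * Real.pi * α * X γ) : ℝ) : ℂ) -
        ((∑ γ ∈ s, m γ * Real.sin (2 * Real.pi * α * X γ) : ℝ) : ℂ) * I := by
    rw [Complex.ofReal_sum, Complex.ofReal_sum, Finset.sum_mul, ← Finset.sum_sub_distrib]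
    refine Finset.sum_congr rfl fun γ _ => ?_
    rw [← Complex.ofReal_neg, Complex.exp_mul_I, ← Complex.ofReal_cos, ← Complex.ofReal_sin, Real.cos_neg, Real.sin_neg]
    push_cast
    ring
  have h1 : ∀ a b : ℝ, ‖((a : ℂ) - (b : ℂ) * I)‖ ^ 2 = a * a + b * b := by
    intro a b
    rw [← Complex.normSq_eq_norm_sq, Complex.normSq_apply]
    simp
  rw [h0, h1, Finset.sum_mul_sum, Finset.sum_mul_sum, ← Finset.sum_add_distrib]
  refine Finset.sum_congr rfl fun γ _ => ?_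
  rw [← Finset.sum_add_distrib]
  refine Finset.sum_congr rfl fun γ' _ => ?_
  rw [show 2 * Real.pi * (X γ - X γ') * α = 2 * Real.pi * α * X γ - 2 * Real.pi * α * X γ' by ring, Real.cos_sub]
  ring

/-- The norm of `C0` on a horizontal line as a sum of translates. -/
theorem C0_norm {ρ : ℝ → ℝ} (c T t y : ℝ) :
    ‖C0 ρ c T t ((y : ℂ) * I)‖ = ‖∑ γ ∈ ordinates T,
      ((mult γ : ℂ) * cexp (-((2 * Real.pi * c * (Real.log T * γ / (2 * Real.pi)) : ℝ) : ℂ) * I)) *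
      (Psi ρ ((((Real.log T / (2 * Real.pi)) * t - Real.log T * γ / (2 * Real.pi) : ℝ) : ℂ) + (y : ℂ) * I) /
        ((((Real.log T / (2 * Real.pi)) * t - Real.log T * γ / (2 * Real.pi) : ℝ) : ℂ) + (y : ℂ) * I))‖ := by
  have h1 : C0 ρ c T t ((y : ℂ) * I) = cexp (((2 * Real.pi * c * ((Real.log T / (2 * Real.pi)) * t) : ℝ) : ℂ) * I) *
      ∑ γ ∈ ordinates T,
      ((mult γ : ℂ) * cexp (-((2 * Real.pi * c * (Real.log T * γ / (2 * Real.pi)) : ℝ) : ℂ) * I)) *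
      (Psi ρ ((((Real.log T / (2 * Real.pi)) * t - Real.log T * γ / (2 * Real.pi) : ℝ) : ℂ) + (y : ℂ) * I) /
        ((((Real.log T / (2 * Real.pi)) * t - Real.log T * γ / (2 * Real.pi) : ℝ) : ℂ) + (y : ℂ) * I)) := by
    unfold C0
    rw [Finset.mul_sum]
    refine Finset.sum_congr rfl fun γ _ => ?_
    have h2 : (y : ℂ) * I - (xg T t γ : ℂ) =
        (((Real.log T / (2 * Real.pi)) * t - Real.log T * γ / (2 * Real.pi) : ℝ) : ℂ) + (y : ℂ) * I := by
      unfold xg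
      push_cast
      ring
    have h3 : cexp (-((2 * Real.pi * c * xg T t γ : ℝ) : ℂ) * I) =
        cexp (((2 * Real.pi * c * ((Real.log T / (2 * Real.pi)) * t) : ℝ) : ℂ) * I) *
          cexp (-((2 * Real.pi * c * (Real.log T * γ / (2 * Real.pi)) : ℝ) : ℂ) * I) := by
      rw [← Complex.exp_add]
      congr 1
      unfold xg
      push_cast
      ring
    rw [h2, h3]
    ring
  rw [h1, norm_mul, Complex.norm_exp_ofReal_mul_I, one_mul]

/-- Removal of the weight: two integrations by parts in each pair. -/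
theorem weight_removal {T : ℝ} (hT : 1 < T) {f f1 f2 : ℝ → ℝ} (h1 : ∀ x, HasDerivAt f (f1 x) x)
    (h2 : ∀ x, HasDerivAt f1 (f2 x) x) (i0 : Integrable f) (i1 : Integrable f1) (i2 : Integrable f2) :
    (N0 T)⁻¹ * ∫ α : ℝ, f α * ‖∑ γ ∈ ordinates T, (mult γ : ℂ) *
      cexp (-((2 * Real.pi * α * (Real.log T * γ / (2 * Real.pi)) : ℝ) : ℂ) * I)‖ ^ 2 =
    ∫ α : ℝ, (f α - f2 α / (4 * Real.log T ^ 2)) * FF α T := by
  have hL : 0 < Real.log T := Real.log_pos hT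
  have hb : ∀ (g : ℝ → ℝ) (θ : ℝ), Integrable g → Integrable (fun x => g x * Real.cos (θ * x)) := fun g θ hg =>
    hg.mul_bdd (c := 1) (by fun_prop) (Eventually.of_forall fun x => by
      rw [Real.norm_eq_abs]
      exact Real.abs_cos_le_one _)
  have e0 : ∀ α : ℝ, ∀ γ γ' : ℝ, Real.cos (2 * Real.pi * (Real.log T * γ / (2 * Real.pi) - Real.log T * γ' / (2 * Real.pi)) * α) =
      Real.cos (Real.log T * (γ - γ') * α) := by
    intro α γ γ'
    congr 1
    have := Real.pi_ne_zero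
    field_simp
  have e1 : ∀ α : ℝ, f α * ‖∑ γ ∈ ordinates T, (mult γ : ℂ) *
      cexp (-((2 * Real.pi * α * (Real.log T * γ / (2 * Real.pi)) : ℝ) : ℂ) * I)‖ ^ 2 =
      ∑ γ ∈ ordinates T, ∑ γ' ∈ ordinates T, (mult γ : ℝ) * (mult γ' : ℝ) * (f α * Real.cos (Real.log T * (γ - γ') * α)) := by
    intro α
    have e2 := expsum_sq (ordinates T) (fun γ => (mult γ : ℝ)) (fun γ => Real.log T * γ / (2 * Real.pi)) α
    simp only [e0, Complex.ofReal_natCast] at e2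
    rw [e2, Finset.mul_sum]
    refine Finset.sum_congr rfl fun γ _ => ?_
    rw [Finset.mul_sum]
    refine Finset.sum_congr rfl fun γ' _ => ?_
    ring
  have e3 : ∀ α : ℝ, (f α - f2 α / (4 * Real.log T ^ 2)) * FF α T = (N0 T)⁻¹ *
      ∑ γ ∈ ordinates T, ∑ γ' ∈ ordinates T, (mult γ : ℝ) * (mult γ' : ℝ) * weight (γ - γ') *
        ((f α - f2 α / (4 * Real.log T ^ 2)) * Real.cos (Real.log T * (γ - γ') * α)) := by
    intro α
    rw [FF_cos (by linarith) α, mul_left_comm, Finset.mul_sum]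
    congr 1
    refine Finset.sum_congr rfl fun γ _ => ?_
    rw [Finset.mul_sum]
    refine Finset.sum_congr rfl fun γ' _ => ?_
    have : α * Real.log T * (γ - γ') = Real.log T * (γ - γ') * α := by ring
    rw [this]
    ring
  simp_rw [e1, e3]
  rw [integral_const_mul]
  congr 1
  have i3 : Integrable (fun α => f α - f2 α / (4 * Real.log T ^ 2)) := i0.sub (i2.div_const _)
  rw [integral_finsetSum _ fun γ _ => integrable_finsetSum _ fun γ' _ => (hb _ _ i0).const_mul _,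
    integral_finsetSum _ fun γ _ => integrable_finsetSum _ fun γ' _ => (hb _ _ i3).const_mul _]
  refine Finset.sum_congr rfl fun γ _ => ?_
  rw [integral_finsetSum _ fun γ' _ => (hb _ _ i0).const_mul _, integral_finsetSum _ fun γ' _ => (hb _ _ i3).const_mul _]
  refine Finset.sum_congr rfl fun γ' _ => ?_
  rw [integral_const_mul, integral_const_mul]
  have e4 : ∫ α, (f α - f2 α / (4 * Real.log T ^ 2)) * Real.cos (Real.log T * (γ - γ') * α) =
      (1 + (γ - γ') ^ 2 / 4) * ∫ α, f α * Real.cos (Real.log T * (γ - γ') * α) := by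
    have e5 : ∫ α, (f α - f2 α / (4 * Real.log T ^ 2)) * Real.cos (Real.log T * (γ - γ') * α) =
        ∫ α, (f α * Real.cos (Real.log T * (γ - γ') * α) -
          (1 / (4 * Real.log T ^ 2)) * (f2 α * Real.cos (Real.log T * (γ - γ') * α))) := by
      refine integral_congr_ae (Eventually.of_forall fun α => ?_)
      simp only
      ring
    rw [e5, integral_sub (hb _ _ i0) ((hb _ _ i2).const_mul _), integral_const_mul, int_cos_deriv2 h1 h2 i0 i1 i2]
    have := hL.ne'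
    field_simp
    ring
  rw [e4]
  unfold weight
  have h4 : (4 + (γ - γ') ^ 2) ≠ 0 := by positivity
  field_simp

theorem energy_id {T : ℝ} (hT : 1 < T) {ρ : ℝ → ℝ} (hρ : RR ρ) {y : ℝ} (hy0 : 0 < y) (c : ℝ) :
    Integrable (fun t : ℝ => ‖C0 ρ c T t ((y : ℂ) * I)‖ ^ 2) ∧
    T⁻¹ * ∫ t : ℝ, ‖C0 ρ c T t ((y : ℂ) * I)‖ ^ 2 =
      ∫ α : ℝ, ((2 * Real.pi) ^ 2 * hy ρ (4 * Real.pi * y) (α - c) -
        (2 * Real.pi) ^ 2 * hy2 ρ (4 * Real.pi * y) (α - c) / (4 * Real.log T ^ 2)) * FF α T := by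
  have hL : 0 < Real.log T := Real.log_pos hT
  have hk : (0 : ℝ) < Real.log T / (2 * Real.pi) := by positivity
  obtain ⟨p1, p2⟩ := plan_K hρ hy0 (ordinates T)
    (fun γ => (mult γ : ℂ) * cexp (-((2 * Real.pi * c * (Real.log T * γ / (2 * Real.pi)) : ℝ) : ℂ) * I))
    (fun γ => Real.log T * γ / (2 * Real.pi))
  have hfun : (fun t : ℝ => ‖C0 ρ c T t ((y : ℂ) * I)‖ ^ 2) = fun t : ℝ =>
      (fun u : ℝ => ‖∑ γ ∈ ordinates T,
      ((mult γ : ℂ) * cexp (-((2 * Real.pi * c * (Real.log T * γ / (2 * Real.pi)) : ℝ) : ℂ) * I)) *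
      (Psi ρ (((u - Real.log T * γ / (2 * Real.pi) : ℝ) : ℂ) + (y : ℂ) * I) /
        (((u - Real.log T * γ / (2 * Real.pi) : ℝ) : ℂ) + (y : ℂ) * I))‖ ^ 2) ((Real.log T / (2 * Real.pi)) * t) := by
    funext t
    rw [C0_norm]
  rw [hfun]
  refine ⟨p1.comp_mul_left' hk.ne', ?_⟩
  rw [Measure.integral_comp_mul_left (fun u : ℝ => ‖∑ γ ∈ ordinates T,
      ((mult γ : ℂ) * cexp (-((2 * Real.pi * c * (Real.log T * γ / (2 * Real.pi)) : ℝ) : ℂ) * I)) *
      (Psi ρ (((u - Real.log T * γ / (2 * Real.pi) : ℝ) : ℂ) + (y : ℂ) * I) /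
        (((u - Real.log T * γ / (2 * Real.pi) : ℝ) : ℂ) + (y : ℂ) * I))‖ ^ 2) (Real.log T / (2 * Real.pi)), p2,
    abs_of_pos (inv_pos.2 hk), smul_eq_mul, ← mul_assoc]
  have hN : T⁻¹ * (Real.log T / (2 * Real.pi))⁻¹ = (N0 T)⁻¹ := by
    unfold N0
    rw [← mul_inv]
    congr 1
    ring
  rw [hN]
  have hl : 0 < 4 * Real.pi * y := by positivity
  obtain ⟨c1, i1, c2, i2, f1, if1, d1, d2⟩ := hy_facts hρ hl
  have hsub : ∀ x : ℝ, HasDerivAt (fun α : ℝ => α - c) 1 x := fun x => (hasDerivAt_id x).sub_const c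
  have D1 : ∀ x, HasDerivAt (fun α => (2 * Real.pi) ^ 2 * hy ρ (4 * Real.pi * y) (α - c)) ((2 * Real.pi) ^ 2 * f1 (x - c)) x := by
    intro x
    have := ((d1 (x - c)).comp x (hsub x)).const_mul ((2 * Real.pi) ^ 2)
    simpa using this
  have D2 : ∀ x, HasDerivAt (fun α => (2 * Real.pi) ^ 2 * f1 (α - c)) ((2 * Real.pi) ^ 2 * hy2 ρ (4 * Real.pi * y) (x - c)) x := by
    intro x
    have := ((d2 (x - c)).comp x (hsub x)).const_mul ((2 * Real.pi) ^ 2)
    simpa using this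
  rw [← weight_removal hT D1 D2 ((i1.comp_sub_right c).const_mul _) ((if1.comp_sub_right c).const_mul _)
    ((i2.comp_sub_right c).const_mul _)]
  congr 1
  rw [← integral_sub_right_eq_self (fun v : ℝ => (2 * Real.pi) ^ 2 * gy ρ y v ^ 2 * ‖∑ γ ∈ ordinates T,
      ((mult γ : ℂ) * cexp (-((2 * Real.pi * c * (Real.log T * γ / (2 * Real.pi)) : ℝ) : ℂ) * I)) *
      cexp (-((2 * Real.pi * v * (Real.log T * γ / (2 * Real.pi)) : ℝ) : ℂ) * I)‖ ^ 2) c]
  refine integral_congr_ae (Eventually.of_forall fun α => ?_)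
  simp only
  have e1 : gy ρ y (α - c) ^ 2 = hy ρ (4 * Real.pi * y) (α - c) := by
    unfold gy hy
    rw [mul_pow, ← Real.exp_nat_mul]
    congr 2
    push_cast
    ring
  have e2 : ∀ γ : ℝ, ((mult γ : ℂ) * cexp (-((2 * Real.pi * c * (Real.log T * γ / (2 * Real.pi)) : ℝ) : ℂ) * I)) *
      cexp (-((2 * Real.pi * (α - c) * (Real.log T * γ / (2 * Real.pi)) : ℝ) : ℂ) * I) =
      (mult γ : ℂ) * cexp (-((2 * Real.pi * α * (Real.log T * γ / (2 * Real.pi)) : ℝ) : ℂ) * I) := by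
    intro γ
    rw [mul_assoc, ← Complex.exp_add]
    congr 2
    push_cast
    ring
  simp_rw [e2]
  rw [e1]

end Pool.Agent.Lib.MP_00e05b_nt.Bar
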