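import Pool.Agent.Lib.MP_00e05b_nt.Bar.E5
import Pool.Agent.Lib.MP_00e05b_nt.Gap.E1

/-!
# LEAF E6: masses of `F` on unit windows and exponential sums of masses
-/

open Complex Set Filter Topology MeasureTheory

namespace Pool.Agent.Lib.MP_00e05b_nt.Bar

open Pool.Agent.Lib.MP_00e05b_nt Pool.Agent.Lib.MP_00e05b_nt.Mont Pool.Agent.Lib.MP_00e05b_nt.Gap

private lemma E6_compact {φ : ℝ → ℝ} (hs : ∃ A : ℝ, ∀ α, A ≤ |α| → φ α = 0) : HasCompactSupport φ := by
  obtain ⟨A, hA⟩ := hs
  refine HasCompactSupport.intro (K := Set.Icc (-A) A) isCompact_Icc fun x hx => ?_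
  apply hA
  by_contra hcon
  exact hx (abs_le.1 (not_le.1 hcon).le)

/-- The cosine transform of a translate of an even function. -/
private lemma E6_shift {g : ℝ → ℝ} (hc : Continuous g) (he : ∀ u, g (-u) = g u)
    (hs : ∃ A : ℝ, ∀ α, A ≤ |α| → g α = 0) (β x : ℝ) :
    fT (fun α => g (α - β)) x = fT g x * Real.cos (2 * Real.pi * β * x) := by
  have hI : ∀ F : ℝ → ℝ, Continuous F → Integrable (fun u => g u * F u) := fun F hF =>
    (hc.mul hF).integrable_of_hasCompactSupport (E6_compact hs).mul_right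
  have hS : ∫ u : ℝ, g u * Real.sin (2 * Real.pi * x * u) = 0 := by
    have h1 := integral_neg_eq_self (fun u => g u * Real.sin (2 * Real.pi * x * u)) (volume : Measure ℝ)
    have h2 : ∫ u : ℝ, g (-u) * Real.sin (2 * Real.pi * x * -u) =
        -∫ u : ℝ, g u * Real.sin (2 * Real.pi * x * u) := by
      rw [← integral_neg]
      refine integral_congr_ae (Eventually.of_forall fun u => ?_)
      show g (-u) * Real.sin (2 * Real.pi * x * -u) = -(g u * Real.sin (2 * Real.pi * x * u))
      rw [he u, show 2 * Real.pi * x * -u = -(2 * Real.pi * x * u) by ring, Real.sin_neg]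
      ring
    have h3 : ∫ u : ℝ, g (-u) * Real.sin (2 * Real.pi * x * -u) = ∫ u : ℝ, g u * Real.sin (2 * Real.pi * x * u) := h1
    linarith
  unfold fT
  have h1 : ∫ α : ℝ, g (α - β) * Real.cos (2 * Real.pi * x * α) =
      ∫ u : ℝ, g u * Real.cos (2 * Real.pi * x * (u + β)) := by
    rw [← integral_sub_right_eq_self (μ := volume) (fun u => g u * Real.cos (2 * Real.pi * x * (u + β))) β]
    refine integral_congr_ae (Eventually.of_forall fun α => ?_)
    show g (α - β) * Real.cos (2 * Real.pi * x * α) = g (α - β) * Real.cos (2 * Real.pi * x * (α - β + β))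
    rw [sub_add_cancel]
  rw [h1]
  have h2 : ∀ u : ℝ, g u * Real.cos (2 * Real.pi * x * (u + β)) =
      (g u * Real.cos (2 * Real.pi * x * u)) * Real.cos (2 * Real.pi * β * x) -
        (g u * Real.sin (2 * Real.pi * x * u)) * Real.sin (2 * Real.pi * β * x) := by
    intro u
    rw [show 2 * Real.pi * x * (u + β) = 2 * Real.pi * x * u + 2 * Real.pi * β * x by ring, Real.cos_add]
    ring
  simp_rw [h2]
  rw [integral_sub, integral_mul_const, integral_mul_const, hS, zero_mul, sub_zero]
  · exact (hI _ (by fun_prop)).mul_const _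
  · exact (hI _ (by fun_prop)).mul_const _

/-- The mass of `F` on unit windows is bounded. -/
theorem unit_mass (hRH : RiemannHypothesis) : ∃ C : ℝ, 1 ≤ C ∧ ∀ᶠ T : ℝ in atTop, ∀ x : ℝ,
    ∫ α in x..(x + 1), FF α T ≤ C := by
  obtain ⟨C0, hC0, hC⟩ := PS_bound hRH
  obtain ⟨b, hb⟩ := exists_EB 2 two_pos
  have hbe := hb.even
  have hb0 := hb.supp
  have hb1 : ∀ u, |u| ≤ 1 → b u = 1 := fun u hu => hb.one u (by linarith)
  obtain ⟨-, -, D, hD0, hD⟩ := fT_smooth hb.smooth hbe ⟨2, hb0⟩
  refine ⟨C0 * D + 1, by nlinarith [mul_nonneg hC0 hD0], ?_⟩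
  filter_upwards [hC, eventually_gt_atTop 1] with T hCT hT x
  have hFc := FF_continuous (show (0 : ℝ) < T by linarith)
  have hF0 := FF_nonneg hT
  have hbc : Continuous b := hb.smooth.continuous
  have e1 := PS_FF hT (φ := fun α => b (α - (x + 1 / 2))) (hbc.comp (by fun_prop)) ⟨2 + |x + 1 / 2|, fun α hα => hb0 _ (by
    have := abs_sub_abs_le_abs_sub α (x + 1 / 2)
    linarith)⟩
  have e2 : |PS T (fT fun α => b (α - (x + 1 / 2)))| ≤ C0 * D := by
    refine hCT D _ fun u => ?_
    rw [E6_shift hbc hbe ⟨2, hb0⟩, abs_mul]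
    have e3 : D / (1 + u ^ 2) ^ 2 ≤ D / (1 + u ^ 2) := by
      refine div_le_div_of_nonneg_left hD0 (by positivity) ?_
      nlinarith [sq_nonneg u]
    exact (mul_le_of_le_one_right (abs_nonneg _) (Real.abs_cos_le_one _)).trans ((hD u).trans e3)
  have e4 : ∫ α in x..(x + 1), FF α T ≤ ∫ α : ℝ, FF α T * b (α - (x + 1 / 2)) := by
    rw [intervalIntegral.integral_of_le (by linarith)]
    have i1 : Integrable (fun α : ℝ => FF α T * b (α - (x + 1 / 2))) := by
      refine (hFc.mul (hbc.comp (by fun_prop))).integrable_of_hasCompactSupport ?_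
      refine HasCompactSupport.mul_left (E6_compact ⟨2 + |x + 1 / 2|, fun α hα => hb0 _ (by
        have := abs_sub_abs_le_abs_sub α (x + 1 / 2)
        linarith)⟩)
    have e5 : ∫ α in Ioc x (x + 1), FF α T = ∫ α in Ioc x (x + 1), FF α T * b (α - (x + 1 / 2)) := by
      refine setIntegral_congr_fun measurableSet_Ioc fun α hα => ?_
      show FF α T = FF α T * b (α - (x + 1 / 2))
      rw [hb1 _ (by rw [abs_le]; constructor <;> linarith [hα.1, hα.2]), mul_one]
    rw [e5]
    exact setIntegral_le_integral i1 (Eventually.of_forall fun α => mul_nonneg (hF0 α) (hb.nonneg _))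
  rw [e1] at e4
  linarith [le_abs_self (PS T (fT fun α => b (α - (x + 1 / 2))))]

/-- Exponential sums of masses. -/
theorem exp_mass {F : ℝ → ℝ} (hF : Continuous F) (h0 : ∀ x, 0 ≤ F x) {C : ℝ} (hC : 0 ≤ C)
    (hm : ∀ x, ∫ α in x..(x + 1), F α ≤ C) {l : ℝ} (hl : 0 < l) (x c : ℝ)
    (hi : IntegrableOn (fun α => Real.exp (-l * (α - c)) * F α) (Ioi x)) :
    ∫ α in Ioi x, Real.exp (-l * (α - c)) * F α ≤ C * (1 + 1 / l) * Real.exp (-l * (x - c)) := by
  have hcont : Continuous fun α => Real.exp (-l * (α - c)) * F α := by fun_prop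
  have h1 := intervalIntegral_tendsto_integral_Ioi (μ := volume) x hi
    (tendsto_natCast_atTop_atTop (R := ℝ) |>.comp tendsto_id |> fun h => tendsto_atTop_add_const_left atTop x h)
  refine le_of_tendsto' h1 fun n => ?_
  have h2 : ∀ n : ℕ, ∫ α in x..(x + (n : ℝ)), Real.exp (-l * (α - c)) * F α ≤
      C * Real.exp (-l * (x - c)) * ∑ j ∈ Finset.range n, Real.exp (-l) ^ j := by
    intro n
    induction n with
    | zero => simp
    | succ n ih =>
      have e1 : ∫ α in x..(x + ((n + 1 : ℕ) : ℝ)), Real.exp (-l * (α - c)) * F α =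
          (∫ α in x..(x + (n : ℝ)), Real.exp (-l * (α - c)) * F α) +
            ∫ α in (x + (n : ℝ))..(x + (n : ℝ) + 1), Real.exp (-l * (α - c)) * F α := by
        rw [intervalIntegral.integral_add_adjacent_intervals (hcont.intervalIntegrable _ _) (hcont.intervalIntegrable _ _)]
        push_cast
        ring_nf
      have e2 : ∫ α in (x + (n : ℝ))..(x + (n : ℝ) + 1), Real.exp (-l * (α - c)) * F α ≤
          C * Real.exp (-l * (x - c)) * Real.exp (-l) ^ n := by
        have e3 : ∫ α in (x + (n : ℝ))..(x + (n : ℝ) + 1), Real.exp (-l * (α - c)) * F α ≤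
            ∫ α in (x + (n : ℝ))..(x + (n : ℝ) + 1), Real.exp (-l * (x - c)) * Real.exp (-l) ^ n * F α := by
          refine intervalIntegral.integral_mono_on (by linarith) (hcont.intervalIntegrable _ _)
            ((continuous_const.mul hF).intervalIntegrable _ _) fun α hα => ?_
          refine mul_le_mul_of_nonneg_right ?_ (h0 α)
          rw [← Real.exp_nat_mul, ← Real.exp_add]
          refine Real.exp_le_exp.2 ?_
          nlinarith [hα.1]
        refine e3.trans ?_
        rw [intervalIntegral.integral_const_mul]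
        have := mul_le_mul_of_nonneg_left (hm (x + n)) (show 0 ≤ Real.exp (-l * (x - c)) * Real.exp (-l) ^ n by positivity)
        linarith
      rw [e1, Finset.sum_range_succ]
      linarith
  refine (h2 n).trans ?_
  have hr1 : Real.exp (-l) < 1 := by
    rw [Real.exp_lt_one_iff]
    linarith
  have h3 : ∑ j ∈ Finset.range n, Real.exp (-l) ^ j ≤ 1 + 1 / l := by
    have h4 : ∑ j ∈ Finset.range n, Real.exp (-l) ^ j ≤ (1 - Real.exp (-l))⁻¹ := by
      rw [← tsum_geometric_of_lt_one (Real.exp_pos _).le hr1]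
      exact (summable_geometric_of_lt_one (Real.exp_pos _).le hr1).sum_le_tsum _ fun _ _ => by positivity
    refine h4.trans ?_
    have h5 : Real.exp (-l) ≤ 1 / (1 + l) := by
      rw [Real.exp_neg, ← one_div]
      exact one_div_le_one_div_of_le (by linarith) (by linarith [Real.add_one_le_exp l])
    have h6 : l / (1 + l) ≤ 1 - Real.exp (-l) := by
      have : l / (1 + l) = 1 - 1 / (1 + l) := by field_simp; ring
      linarith
    have h7 : (1 - Real.exp (-l))⁻¹ ≤ (l / (1 + l))⁻¹ := inv_anti₀ (by positivity) h6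
    refine h7.trans (le_of_eq ?_)
    field_simp
    ring
  have := mul_le_mul_of_nonneg_left h3 (show 0 ≤ C * Real.exp (-l * (x - c)) by positivity)
  linarith

end Pool.Agent.Lib.MP_00e05b_nt.Bar
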