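import Pool.Agent.Lib.MP_00e05b_nt.Bar.E6

/-!
# LEAF E7: the mean square of `C0` on horizontal lines
-/

open Complex Set Filter Topology MeasureTheory

namespace Pool.Agent.Lib.MP_00e05b_nt.Bar

open Pool.Agent.Lib.MP_00e05b_nt Pool.Agent.Lib.MP_00e05b_nt.Mont Pool.Agent.Lib.MP_00e05b_nt.Gap

theorem FF_bdd {T : ℝ} (hT : 1 < T) : ∃ B : ℝ, ∀ α : ℝ, ‖FF α T‖ ≤ B := by
  refine ⟨|(N0 T)⁻¹| * ∑ γ ∈ ordinates T, ∑ γ' ∈ ordinates T, |(mult γ : ℝ) * (mult γ' : ℝ)| * |weight (γ - γ')|, fun α => ?_⟩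
  rw [FF_cos (by linarith) α, norm_mul, Real.norm_eq_abs, Real.norm_eq_abs]
  refine mul_le_mul_of_nonneg_left ?_ (abs_nonneg _)
  refine (Finset.abs_sum_le_sum_abs _ _).trans (Finset.sum_le_sum fun γ _ => ?_)
  refine (Finset.abs_sum_le_sum_abs _ _).trans (Finset.sum_le_sum fun γ' _ => ?_)
  rw [abs_mul, abs_mul]
  refine mul_le_mul_of_nonneg_right ?_ (abs_nonneg _)
  exact mul_le_of_le_one_right (abs_nonneg _) (Real.abs_cos_le_one _)

theorem energy_pos (hRH : RiemannHypothesis) {ρ : ℝ → ℝ} (hρ : RR ρ) :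
    ∃ K : ℝ, 1 ≤ K ∧ ∀ h Y : ℝ, 1 / 4 ≤ h → 1 ≤ Y → ∃ η : ℝ, 0 < η ∧ ∀ᶠ T : ℝ in atTop, ∀ c : ℝ,
      (∫ α in (c - h)..(c + h), FF α T) ≤ η → ∀ y : ℝ, 0 < y → y ≤ Y →
        Integrable (fun t : ℝ => ‖C0 ρ c T t ((y : ℂ) * I)‖ ^ 2) ∧
        T⁻¹ * ∫ t : ℝ, ‖C0 ρ c T t ((y : ℂ) * I)‖ ^ 2 ≤ K * (1 + 1 / y) * Real.exp (-(4 * Real.pi * h * y)) := by
  obtain ⟨C, hC1, hC⟩ := unit_mass hRH
  obtain ⟨R, hR0, hR1, hR2⟩ := hρ.bdd
  have hpi := Real.pi_gt_three
  refine ⟨5 * Real.pi ^ 2 * (1 + C), by nlinarith, fun h Y hh hY => ?_⟩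
  refine ⟨Real.exp (-(Real.pi / 2 * Y)) * Real.exp (-(4 * Real.pi * h * Y)), by positivity, ?_⟩
  obtain ⟨M, hM⟩ : ∃ M : ℝ, M = 2 * R ^ 2 + 2 * R + 4 * (4 * Real.pi * Y) * R + (4 * Real.pi * Y) ^ 2 := ⟨_, rfl⟩
  have hlog : Tendsto (fun T : ℝ => Real.log T ^ 2) atTop atTop := (tendsto_pow_atTop two_ne_zero).comp Real.tendsto_log_atTop
  filter_upwards [hC, eventually_gt_atTop 1, hlog.eventually_ge_atTop M] with T hCT hT hLM c hmass y hy0 hyY
  have hL : 0 < Real.log T := Real.log_pos hT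
  obtain ⟨s1, s2⟩ := energy_id hT hρ hy0 c
  refine ⟨s1, ?_⟩
  rw [s2]
  obtain ⟨l, hl⟩ : ∃ l : ℝ, l = 4 * Real.pi * y := ⟨_, rfl⟩
  have hl0 : 0 < l := by
    rw [hl]
    positivity
  rw [← hl]
  have hlY : l ≤ 4 * Real.pi * Y := by
    rw [hl]
    nlinarith
  have hFc := FF_continuous (show (0 : ℝ) < T by linarith)
  have hF0 := FF_nonneg hT
  obtain ⟨B, hB⟩ := FF_bdd hT
  obtain ⟨c1, i1, c2, i2, -⟩ := hy_facts hρ hl0
  have hPa : ∀ v, |Pc ρ v| ≤ 1 := fun v => by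
    rw [abs_of_nonneg (Pc_nonneg hρ v)]
    exact Pc_le_one hρ v
  -- pointwise bounds
  have b1 : ∀ v, hy ρ l v ≤ Real.exp (-l * v) := fun v => by
    unfold hy
    refine mul_le_of_le_one_left (Real.exp_pos _).le ?_
    rw [← sq_abs]
    exact pow_le_one₀ (abs_nonneg _) (hPa v)
  have b2 : ∀ v, |hy2 ρ l v| ≤ M * Real.exp (-l * v) := fun v => by
    unfold hy2
    rw [abs_mul, abs_of_pos (Real.exp_pos _)]
    refine mul_le_mul_of_nonneg_right ?_ (Real.exp_pos _).le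
    refine (hy2_aux hl0.le hR0 (hR1 v) (hR2 v) (hPa v)).trans ?_
    rw [hM]
    have e1 : 4 * l * R ≤ 4 * (4 * Real.pi * Y) * R := by nlinarith
    have e2 : l ^ 2 ≤ (4 * Real.pi * Y) ^ 2 := pow_le_pow_left₀ hl0.le hlY 2
    linarith
  have z1 : ∀ v, v ≤ -(1 / 8) → hy ρ l v = 0 ∧ hy2 ρ l v = 0 := fun v hv => by
    unfold hy hy2
    rw [Pc_zero hρ hv, hρ.zero hv]
    constructor <;> ring
  have b3 : ∀ v, (2 * Real.pi) ^ 2 * hy ρ l v - (2 * Real.pi) ^ 2 * hy2 ρ l v / (4 * Real.log T ^ 2) ≤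
      5 * Real.pi ^ 2 * Real.exp (-l * v) := fun v => by
    have e1 : -(hy2 ρ l v / (4 * Real.log T ^ 2)) ≤ Real.exp (-l * v) / 4 := by
      have e2 : -(hy2 ρ l v / (4 * Real.log T ^ 2)) ≤ (M * Real.exp (-l * v)) / (4 * Real.log T ^ 2) := by
        rw [← neg_div]
        exact div_le_div_of_nonneg_right ((neg_le_abs _).trans (b2 v)) (by positivity)
      refine e2.trans ?_
      rw [div_le_div_iff₀ (by positivity) (by norm_num)]
      have := mul_le_mul_of_nonneg_right hLM (Real.exp_pos (-l * v)).le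
      linarith
    have e3 : (2 * Real.pi) ^ 2 * hy ρ l v - (2 * Real.pi) ^ 2 * hy2 ρ l v / (4 * Real.log T ^ 2) =
        (2 * Real.pi) ^ 2 * (hy ρ l v + -(hy2 ρ l v / (4 * Real.log T ^ 2))) := by ring
    rw [e3]
    have e4 : hy ρ l v + -(hy2 ρ l v / (4 * Real.log T ^ 2)) ≤ Real.exp (-l * v) + Real.exp (-l * v) / 4 := by linarith [b1 v]
    have e5 := mul_le_mul_of_nonneg_left e4 (show 0 ≤ (2 * Real.pi) ^ 2 by positivity)
    refine e5.trans (le_of_eq ?_)
    ring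
  -- the dominating function
  have iexp : IntegrableOn (fun α => Real.exp (-l * (α - c)) * FF α T) (Ioi (c + h)) := by
    have e1 : IntegrableOn (fun α : ℝ => Real.exp (-l * (α - c))) (Ioi (c + h)) := by
      have e2 : (fun α : ℝ => Real.exp (-l * (α - c))) = fun α : ℝ => Real.exp (l * c) * Real.exp (-l * α) := by
        funext α
        rw [← Real.exp_add]
        congr 1
        ring
      rw [e2]
      exact (exp_neg_integrableOn_Ioi (c + h) hl0).const_mul _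
    exact e1.mul_bdd (c := B) hFc.aestronglyMeasurable (Eventually.of_forall hB)
  have iwin : IntegrableOn (fun α => FF α T) (Ioc (c - 1 / 8) (c + h)) :=
    (hFc.integrableOn_Icc (a := c - 1 / 8) (b := c + h)).mono_set Ioc_subset_Icc_self
  have iQ : Integrable (fun α : ℝ => ((2 * Real.pi) ^ 2 * hy ρ l (α - c) -
        (2 * Real.pi) ^ 2 * hy2 ρ l (α - c) / (4 * Real.log T ^ 2)) * FF α T) := by
    refine Integrable.mul_bdd (c := B) ?_ hFc.aestronglyMeasurable (Eventually.of_forall hB)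
    exact ((i1.comp_sub_right c).const_mul _).sub (((i2.comp_sub_right c).const_mul _).div_const _)
  have iD1 : Integrable ((Ioc (c - 1 / 8) (c + h)).indicator fun α => 5 * Real.pi ^ 2 * Real.exp (l / 8) * FF α T) :=
    (integrable_indicator_iff measurableSet_Ioc).2 (iwin.const_mul _)
  have iD2 : Integrable ((Ioi (c + h)).indicator fun α => 5 * Real.pi ^ 2 * (Real.exp (-l * (α - c)) * FF α T)) :=
    (integrable_indicator_iff measurableSet_Ioi).2 (iexp.const_mul _)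
  have hdom : ∀ α : ℝ, ((2 * Real.pi) ^ 2 * hy ρ l (α - c) -
        (2 * Real.pi) ^ 2 * hy2 ρ l (α - c) / (4 * Real.log T ^ 2)) * FF α T ≤
      (Ioc (c - 1 / 8) (c + h)).indicator (fun α => 5 * Real.pi ^ 2 * Real.exp (l / 8) * FF α T) α +
        (Ioi (c + h)).indicator (fun α => 5 * Real.pi ^ 2 * (Real.exp (-l * (α - c)) * FF α T)) α := by
    intro α
    rcases le_or_gt (α - c) (-(1 / 8)) with h1 | h1
    · rw [(z1 _ h1).1, (z1 _ h1).2]
      have h2 : α ∉ Ioc (c - 1 / 8) (c + h) := fun h3 => by linarith [h3.1]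
      have h3 : α ∉ Ioi (c + h) := fun h3 => by
        rw [mem_Ioi] at h3
        linarith
      rw [indicator_of_notMem h2, indicator_of_notMem h3]
      simp
    · have h4 := mul_le_mul_of_nonneg_right (b3 (α - c)) (hF0 α)
      refine h4.trans ?_
      rcases le_or_gt α (c + h) with h5 | h5
      · have h6 : α ∉ Ioi (c + h) := fun h7 => by
          rw [mem_Ioi] at h7
          linarith
        rw [indicator_of_notMem h6, add_zero]
        rw [indicator_of_mem (show α ∈ Ioc (c - 1 / 8) (c + h) from ⟨by linarith, h5⟩)]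
        refine mul_le_mul_of_nonneg_right ?_ (hF0 α)
        refine mul_le_mul_of_nonneg_left ?_ (by positivity)
        refine Real.exp_le_exp.2 ?_
        nlinarith
      · rw [indicator_of_notMem (show α ∉ Ioc (c - 1 / 8) (c + h) from fun h6 => by linarith [h6.2]), zero_add,
          indicator_of_mem (show α ∈ Ioi (c + h) from h5)]
        refine le_of_eq ?_
        ring
  have hint := integral_mono iQ (iD1.add iD2) hdom
  refine hint.trans ?_
  have e1 : ∫ x, ((((Ioc (c - 1 / 8) (c + h)).indicator fun α => 5 * Real.pi ^ 2 * Real.exp (l / 8) * FF α T) +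
        ((Ioi (c + h)).indicator fun α => 5 * Real.pi ^ 2 * (Real.exp (-l * (α - c)) * FF α T)) : ℝ → ℝ)) x =
      5 * Real.pi ^ 2 * Real.exp (l / 8) * (∫ α in Ioc (c - 1 / 8) (c + h), FF α T) +
        5 * Real.pi ^ 2 * ∫ α in Ioi (c + h), Real.exp (-l * (α - c)) * FF α T := by
    rw [integral_add' iD1 iD2, integral_indicator measurableSet_Ioc, integral_indicator measurableSet_Ioi,
      integral_const_mul, integral_const_mul]
  rw [e1]
  have e2 : ∫ α in Ioc (c - 1 / 8) (c + h), FF α T ≤ Real.exp (-(Real.pi / 2 * Y)) * Real.exp (-(4 * Real.pi * h * Y)) := by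
    refine le_trans ?_ hmass
    rw [intervalIntegral.integral_of_le (by linarith)]
    exact setIntegral_mono_set ((hFc.integrableOn_Icc (a := c - h) (b := c + h)).mono_set Ioc_subset_Icc_self)
      (Eventually.of_forall hF0) (Ioc_subset_Ioc_left (by linarith)).eventuallyLE
  have e3 := exp_mass hFc hF0 (by linarith) hCT hl0 (c + h) c iexp
  have e4 : Real.exp (l / 8) * (Real.exp (-(Real.pi / 2 * Y)) * Real.exp (-(4 * Real.pi * h * Y))) ≤
      Real.exp (-(4 * Real.pi * h * y)) := by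
    rw [← Real.exp_add, ← Real.exp_add]
    refine Real.exp_le_exp.2 ?_
    rw [hl]
    have : 0 ≤ h * (Y - y) := mul_nonneg (by linarith) (by linarith)
    nlinarith
  have e5 : Real.exp (-l * (c + h - c)) = Real.exp (-(4 * Real.pi * h * y)) := by
    rw [hl]
    congr 1
    ring
  rw [e5] at e3
  have e6 : 1 / l ≤ 1 / y := by
    refine one_div_le_one_div_of_le hy0 ?_
    rw [hl]
    nlinarith
  have hy1 : 0 < 1 / y := by positivity
  have hE := Real.exp_pos (-(4 * Real.pi * h * y))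
  have hpp : 0 < 5 * Real.pi ^ 2 := by positivity
  have e7 : Real.exp (l / 8) * (∫ α in Ioc (c - 1 / 8) (c + h), FF α T) ≤ Real.exp (-(4 * Real.pi * h * y)) :=
    (mul_le_mul_of_nonneg_left e2 (Real.exp_pos _).le).trans e4
  have e8 : C * (1 + 1 / l) * Real.exp (-(4 * Real.pi * h * y)) ≤ C * (1 + 1 / y) * Real.exp (-(4 * Real.pi * h * y)) := by
    refine mul_le_mul_of_nonneg_right (mul_le_mul_of_nonneg_left (by linarith) (by linarith)) hE.le
  calc 5 * Real.pi ^ 2 * Real.exp (l / 8) * (∫ α in Ioc (c - 1 / 8) (c + h), FF α T) +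
        5 * Real.pi ^ 2 * ∫ α in Ioi (c + h), Real.exp (-l * (α - c)) * FF α T
      = 5 * Real.pi ^ 2 * (Real.exp (l / 8) * (∫ α in Ioc (c - 1 / 8) (c + h), FF α T) +
        ∫ α in Ioi (c + h), Real.exp (-l * (α - c)) * FF α T) := by ring
    _ ≤ 5 * Real.pi ^ 2 * (Real.exp (-(4 * Real.pi * h * y)) + C * (1 + 1 / y) * Real.exp (-(4 * Real.pi * h * y))) := by
        refine mul_le_mul_of_nonneg_left ?_ hpp.le
        linarith
    _ ≤ 5 * Real.pi ^ 2 * (1 + C) * (1 + 1 / y) * Real.exp (-(4 * Real.pi * h * y)) := by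
        have e9 : 0 ≤ 5 * Real.pi ^ 2 * (1 / y) * Real.exp (-(4 * Real.pi * h * y)) := by positivity
        nlinarith

end Pool.Agent.Lib.MP_00e05b_nt.Bar
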