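import Pool.Agent.Lib.MP_00e05b_nt.Bar.E7

/-!
# LEAF E8: both signs of `y`; the case `m = 0` of the mean square bound
-/

open Complex Set Filter Topology MeasureTheory

namespace Pool.Agent.Lib.MP_00e05b_nt.Bar

open Pool.Agent.Lib.MP_00e05b_nt Pool.Agent.Lib.MP_00e05b_nt.Mont Pool.Agent.Lib.MP_00e05b_nt.Gap

/-- `ψ` is real on the real line. -/
theorem Psi_conj {ρ : ℝ → ℝ} (hρ : RR ρ) (z : ℂ) : (starRingEnd ℂ) (Psi ρ z) = Psi ρ ((starRingEnd ℂ) z) := by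
  have h1 : Psi ρ ((starRingEnd ℂ) z) = ∫ β : ℝ, (ρ β : ℂ) * cexp (2 * (Real.pi : ℂ) * I * ((-β : ℝ) : ℂ) * (starRingEnd ℂ) z) := by
    unfold Psi
    rw [← integral_neg_eq_self (fun β : ℝ => (ρ β : ℂ) * cexp (2 * (Real.pi : ℂ) * I * (β : ℂ) * (starRingEnd ℂ) z))]
    refine integral_congr_ae (Eventually.of_forall fun β => ?_)
    simp only
    rw [hρ.es.even]
  rw [h1]
  unfold Psi
  rw [← integral_conj]
  refine integral_congr_ae (Eventually.of_forall fun β => ?_)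
  simp only
  rw [map_mul, Complex.conj_ofReal, ← Complex.exp_conj]
  congr 2
  simp only [map_mul, Complex.conj_ofReal, Complex.conj_I, map_ofNat]
  push_cast
  ring

/-- Complex conjugation exchanges the half planes. -/
theorem C0_conj {ρ : ℝ → ℝ} (hρ : RR ρ) (c T t y : ℝ) :
    ‖C0 ρ c T t (((-y : ℝ) : ℂ) * I)‖ = ‖C0 ρ (-c) T t ((y : ℂ) * I)‖ := by
  rw [← Complex.norm_conj]
  congr 1
  unfold C0
  rw [map_sum]
  refine Finset.sum_congr rfl fun γ _ => ?_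
  have h1 : (starRingEnd ℂ) (((-y : ℝ) : ℂ) * I - (xg T t γ : ℂ)) = (y : ℂ) * I - (xg T t γ : ℂ) := by
    rw [map_sub, map_mul, Complex.conj_ofReal, Complex.conj_ofReal, Complex.conj_I]
    push_cast
    ring
  rw [map_mul, map_mul, map_div₀, Psi_conj hρ, h1, Complex.conj_natCast, ← Complex.exp_conj]
  congr 3
  rw [map_mul, map_neg, Complex.conj_ofReal, Complex.conj_I]
  push_cast
  ring

theorem energy_C0 (hRH : RiemannHypothesis) {ρ : ℝ → ℝ} (hρ : RR ρ) :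
    ∃ K : ℝ, 1 ≤ K ∧ ∀ h Y : ℝ, 1 / 4 ≤ h → 1 ≤ Y → ∃ η : ℝ, 0 < η ∧ ∀ᶠ T : ℝ in atTop, ∀ c : ℝ,
      (∫ α in (c - h)..(c + h), FF α T) ≤ η → ∀ y : ℝ, y ≠ 0 → |y| ≤ Y →
        Integrable (fun t : ℝ => ‖C0 ρ c T t ((y : ℂ) * I)‖ ^ 2) ∧
        T⁻¹ * ∫ t : ℝ, ‖C0 ρ c T t ((y : ℂ) * I)‖ ^ 2 ≤ K * (1 + 1 / |y|) * Real.exp (-(4 * Real.pi * h * |y|)) := by
  obtain ⟨K, hK1, hK⟩ := energy_pos hRH hρ
  refine ⟨K, hK1, fun h Y hh hY => ?_⟩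
  obtain ⟨η, hη, hT⟩ := hK h Y hh hY
  refine ⟨η, hη, ?_⟩
  filter_upwards [hT, eventually_gt_atTop 1] with T hT hT1 c hm y hy0 hyY
  rcases lt_or_gt_of_ne hy0 with hneg | hpos
  · have h1 : (∫ α in (-c - h)..(-c + h), FF α T) ≤ η := by
      refine le_trans (le_of_eq ?_) hm
      have h2 := intervalIntegral.integral_comp_neg (a := -c - h) (b := -c + h) (fun α => FF α T)
      have h3 : ∫ α in (-c - h)..(-c + h), FF (-α) T = ∫ α in (-c - h)..(-c + h), FF α T :=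
        intervalIntegral.integral_congr fun α _ => FF_even (by linarith) α
      rw [← h3, h2]
      congr 1 <;> ring
    obtain ⟨y', hy'⟩ : ∃ y' : ℝ, y = -y' := ⟨-y, by ring⟩
    rw [hy'] at hneg hyY ⊢
    have hy'0 : 0 < y' := by linarith
    rw [abs_neg, abs_of_pos hy'0] at hyY ⊢
    have h4 := hT (-c) h1 y' hy'0 hyY
    simp only [C0_conj hρ]
    exact h4
  · rw [abs_of_pos hpos] at hyY ⊢
    exact hT c hm y hpos hyY

/-- The case `m = 0` of the transform `CF`. -/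
theorem CF_zero {ρ : ℝ → ℝ} (τ : ℝ) {a : ℕ → ℂ} (ha : a 0 = 1) (c T t : ℝ) (z : ℂ) :
    CF ρ 0 τ a c T t z = C0 ρ c T t z := by
  unfold CF C0 Th off
  refine Finset.sum_congr rfl fun γ _ => ?_
  simp [ha]

theorem energy_CF0 (hRH : RiemannHypothesis) {ρ : ℝ → ℝ} (hρ : RR ρ) :
    ∃ K : ℝ, 1 ≤ K ∧ ∀ h Y : ℝ, 1 / 4 ≤ h → 1 ≤ Y → ∃ η : ℝ, 0 < η ∧ ∀ᶠ T : ℝ in atTop, ∀ (c τ : ℝ) (a : ℕ → ℂ),
      a 0 = 1 → (∫ α in (c - h)..(c + h), FF α T) ≤ η → MS ρ 0 τ a c T K h Y := by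
  obtain ⟨K, hK1, hK⟩ := energy_C0 hRH hρ
  refine ⟨K, hK1, fun h Y hh hY => ?_⟩
  obtain ⟨η, hη, hT⟩ := hK h Y hh hY
  refine ⟨η, hη, ?_⟩
  filter_upwards [hT] with T hT c τ a ha hm y hy0 hyY
  simp only [CF_zero τ ha]
  exact hT c hm y hy0 hyY

end Pool.Agent.Lib.MP_00e05b_nt.Bar
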