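import Pool.Agent.Lib.MP_00e05b_nt.Bar.PM0

/-!
# PM4: fourth moments of the sums over primes
-/

open Complex Set Filter Topology MeasureTheory

namespace Pool.Agent.Lib.MP_00e05b_nt.Bar

open Pool.Agent.Lib.MP_00e05b_nt Pool.Agent.Lib.MP_00e05b_nt.Mont Pool.Agent.Lib.MP_00e05b_nt.Gap
open Pool.Agent.Lib.MP_00e05b_nt.Gap2 (cp cp_cont Mom_two Mom_four)

set_option linter.unusedVariables false in
theorem mom4 (hRH : RiemannHypothesis) {κ κ' : ℝ → ℝ} (hκ : ES κ (1 / 8)) (hκ' : ES κ' (1 / 8)) (h0 : ∀ u, 0 ≤ κ u)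
    (h0' : ∀ u, 0 ≤ κ' u) {ε : ℝ} (hε : 0 < ε) :
    ∀ᶠ T : ℝ in atTop, T⁻¹ * ∫ t in (0 : ℝ)..T, Pr κ T t ^ 2 * Pr κ' T t ^ 2 ≤
      (∫ α, |α| * (κ α * κ α)) * (∫ α, |α| * (κ' α * κ' α)) + 2 * (∫ α, |α| * (κ α * κ' α)) ^ 2 + ε := by
  obtain ⟨K, hK, hb⟩ := PM0_coef hκ
  obtain ⟨K', hK', hb'⟩ := PM0_coef hκ'
  have d1 := PM0_diag hRH hκ hκ
  have d2 := PM0_diag hRH hκ' hκ'
  have d3 := PM0_diag hRH hκ hκ'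
  have e1 := PM0_err (K := K + K') 4 (by norm_num)
  have hlim := ((d1.mul d2).add ((d3.pow 2).const_mul 2)).add e1
  rw [add_zero] at hlim
  have hlt : (∫ α, |α| * (κ α * κ α)) * (∫ α, |α| * (κ' α * κ' α)) + 2 * (∫ α, |α| * (κ α * κ' α)) ^ 2 <
      (∫ α, |α| * (κ α * κ α)) * (∫ α, |α| * (κ' α * κ' α)) + 2 * (∫ α, |α| * (κ α * κ' α)) ^ 2 + ε := by linarith
  filter_upwards [eventually_gt_atTop 1, hlim.eventually_lt_const hlt] with T hT hTl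
  have hT0 : 0 < T := by linarith
  have hL : 0 < Real.log T := Real.log_pos hT
  have h1 := Mom_four (S := PM0_S T) (X := PM0_X T) (fun n hn => PM0_mem hn)
    (a := PM0_a κ T) (b := PM0_a κ' T) (H := (K + K') / Real.log T)
    (fun n hn => (hb T hT n hn).trans (div_le_div_of_nonneg_right (by linarith) hL.le))
    (fun n hn => (hb' T hT n hn).trans (div_le_div_of_nonneg_right (by linarith) hL.le)) T
  have h2 : ∫ t in (0 : ℝ)..T, Pr κ T t ^ 2 * Pr κ' T t ^ 2 =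
      ∫ t in (0 : ℝ)..T, cp (PM0_S T) (PM0_a κ T) t ^ 2 * cp (PM0_S T) (PM0_a κ' T) t ^ 2 := by
    congr 1
    funext t
    rw [PM0_Pr hκ hT, PM0_Pr hκ' hT]
  rw [← h2] at h1
  have hX := PM0_pow hT
  have h3 := (abs_le.1 h1).2
  have h4 : ((K + K') / Real.log T) ^ 4 * (PM0_X T : ℝ) ^ 8 ≤ ((K + K') / Real.log T) ^ 4 * T :=
    mul_le_mul_of_nonneg_left hX (by positivity)
  have h5 : 0 ≤ ∑ n ∈ PM0_S T, PM0_a κ T n ^ 2 * PM0_a κ' T n ^ 2 := Finset.sum_nonneg fun n _ => by positivity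
  have h6 : ∀ f : ℕ → ℝ, ∑ n ∈ PM0_S T, f n * f n = ∑ n ∈ PM0_S T, f n ^ 2 := fun f =>
    Finset.sum_congr rfl fun n _ => (sq _).symm
  rw [h6, h6] at hTl
  refine le_trans ?_ hTl.le
  rw [inv_mul_le_iff₀ hT0]
  obtain ⟨I, hI⟩ : ∃ I, I = ∫ t in (0 : ℝ)..T, Pr κ T t ^ 2 * Pr κ' T t ^ 2 := ⟨_, rfl⟩
  obtain ⟨A, hA⟩ : ∃ A, A = ∑ n ∈ PM0_S T, PM0_a κ T n ^ 2 := ⟨_, rfl⟩
  obtain ⟨B, hB⟩ : ∃ A, A = ∑ n ∈ PM0_S T, PM0_a κ' T n ^ 2 := ⟨_, rfl⟩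
  obtain ⟨D, hD⟩ : ∃ A, A = ∑ n ∈ PM0_S T, PM0_a κ T n * PM0_a κ' T n := ⟨_, rfl⟩
  obtain ⟨Q, hQ⟩ : ∃ A, A = ∑ n ∈ PM0_S T, PM0_a κ T n ^ 2 * PM0_a κ' T n ^ 2 := ⟨_, rfl⟩
  rw [← hI, ← hA, ← hB, ← hD, ← hQ] at h3
  rw [← hQ] at h5
  rw [← hI, ← hA, ← hB, ← hD]
  have h7 : 0 ≤ T * Q := mul_nonneg hT0.le h5
  nlinarith

end Pool.Agent.Lib.MP_00e05b_nt.Bar
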