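import Pool.Agent.Lib.MP_00e05b_nt.Bar.PE
import Pool.Agent.Lib.MP_00e05b_nt.Bar.PM4
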