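import Pool.Agent.Lib.MP_00e05b_nt.Bar.K2

/-!
# LEAF V1: the variances

`kap W N α = W α * fT (kN N) α`, `W = 1` on `[-1/16, 1/16]`, `0 ≤ W ≤ 1`, supported in `[-1/8, 1/8]`; `K2`: `0 ≤ fT (kN N) ≤ min (2N, C/|α|)`, `≥ c/α` on
`[2/N, 1/16]`. Everything is even.
* `M ≤ N`: `∫ |α| kap_M kap_N ≤ 2 ∫_0^{1/M} α 2M (C/α) dα + 2 ∫_{1/M}^{1/8} α (C/α)² dα ≤ 4C + 2C² log M ≤ C' log M` for `M ≥ 2`.
* `∫ |α| kap_N² ≥ 2 ∫_{2/N}^{1/16} α (c/α)² dα = 2c² log (N/32) ≥ c² log N` for `N ≥ 1024`.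
-/

open Complex Set Filter Topology MeasureTheory

namespace Pool.Agent.Lib.MP_00e05b_nt.Bar

open Pool.Agent.Lib.MP_00e05b_nt Pool.Agent.Lib.MP_00e05b_nt.Mont Pool.Agent.Lib.MP_00e05b_nt.Gap

private theorem V1_half {g : ℝ → ℝ} (he : ∀ α, g (-α) = g α) (hs : ∀ α, 1 ≤ |α| → g α = 0) :
    ∫ α, g α = 2 * ∫ α in (0 : ℝ)..1, g α := by
  have h1 : ∀ α, g |α| = g α := by
    intro α
    rcases le_total 0 α with h | h
    · rw [abs_of_nonneg h]
    · rw [abs_of_nonpos h, he]
  have h2 : ∫ α, g α = ∫ α, g |α| := integral_congr_ae (Filter.Eventually.of_forall fun α => (h1 α).symm)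
  rw [h2, integral_comp_abs, intervalIntegral.integral_of_le zero_le_one]
  congr 1
  refine (setIntegral_eq_of_subset_of_forall_sdiff_eq_zero measurableSet_Ioi Ioc_subset_Ioi_self ?_)
  intro x hx
  apply hs
  have h3 : 0 < x := hx.1
  have h4 : ¬ x ≤ 1 := fun h => hx.2 ⟨h3, h⟩
  rw [abs_of_pos h3]
  linarith

private theorem V1_cont {W : ℝ → ℝ} (hW : EB W (1 / 8)) (M N : ℕ) :
    Continuous fun α : ℝ => |α| * (kap W M α * kap W N α) :=
  continuous_abs.mul ((kap_es hW M).smooth.continuous.mul (kap_es hW N).smooth.continuous)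

private theorem V1_eq {W : ℝ → ℝ} (hW : EB W (1 / 8)) (M N : ℕ) :
    ∫ α, |α| * (kap W M α * kap W N α) =
      2 * ∫ α in (0 : ℝ)..1, |α| * (kap W M α * kap W N α) := by
  apply V1_half
  · intro α
    rw [abs_neg, (kap_es hW M).even, (kap_es hW N).even]
  · intro α h
    rw [(kap_es hW M).supp α (by linarith), zero_mul, mul_zero]

private theorem V1_le {W : ℝ → ℝ} (hW : EB W (1 / 8)) (N : ℕ) (α : ℝ) :
    kap W N α ≤ fT (kN N) α := by
  unfold kap
  exact mul_le_of_le_one_left (fTk_nonneg N α) (hW.le_one α)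

theorem kap_cov {W : ℝ → ℝ} (hW : EB W (1 / 8)) : ∃ C : ℝ, 0 < C ∧ ∀ M N : ℕ, 2 ≤ M → M ≤ N →
    |∫ α, |α| * (kap W M α * kap W N α)| ≤ C * Real.log M := by
  obtain ⟨C, hC, hCk⟩ := fTk_le'
  have hlog2 : 0 < Real.log 2 := Real.log_pos (by norm_num)
  refine ⟨4 * C / Real.log 2 + 2 * C ^ 2, by positivity, fun M N hM hMN => ?_⟩
  have hM1 : 1 ≤ M := by omega
  have hN1 : 1 ≤ N := by omega
  have hMr : (2 : ℝ) ≤ M := by exact_mod_cast hM
  have hM0 : (0 : ℝ) < M := by linarith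
  have hlM : Real.log 2 ≤ Real.log M := Real.log_le_log (by norm_num) hMr
  have hc := V1_cont hW M N
  have hnn : ∀ α : ℝ, 0 ≤ |α| * (kap W M α * kap W N α) := fun α =>
    mul_nonneg (abs_nonneg α) (mul_nonneg (kap_nonneg hW M α) (kap_nonneg hW N α))
  rw [abs_of_nonneg (integral_nonneg hnn), V1_eq hW M N]
  have hi0 : (0 : ℝ) < 1 / M := by positivity
  have hi1 : (1 : ℝ) / M ≤ 1 := by
    rw [div_le_one hM0]
    linarith
  have hsplit : ∫ α in (0 : ℝ)..1, |α| * (kap W M α * kap W N α) =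
      (∫ α in (0 : ℝ)..(1 / M), |α| * (kap W M α * kap W N α)) +
        ∫ α in (1 / M : ℝ)..1, |α| * (kap W M α * kap W N α) :=
    (intervalIntegral.integral_add_adjacent_intervals (hc.intervalIntegrable _ _)
      (hc.intervalIntegrable _ _)).symm
  have hkN : ∀ α : ℝ, |α| * kap W N α ≤ C := by
    intro α
    calc |α| * kap W N α ≤ |α| * fT (kN N) α :=
          mul_le_mul_of_nonneg_left (V1_le hW N α) (abs_nonneg α)
      _ = fT (kN N) α * |α| := mul_comm _ _
      _ ≤ C := hCk N α hN1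
  have hkM : ∀ α : ℝ, |α| * kap W M α ≤ C := by
    intro α
    calc |α| * kap W M α ≤ |α| * fT (kN M) α :=
          mul_le_mul_of_nonneg_left (V1_le hW M α) (abs_nonneg α)
      _ = fT (kN M) α * |α| := mul_comm _ _
      _ ≤ C := hCk M α hM1
  have h1 : ∫ α in (0 : ℝ)..(1 / M), |α| * (kap W M α * kap W N α) ≤ 2 * C := by
    have h2 : ∫ α in (0 : ℝ)..(1 / M), |α| * (kap W M α * kap W N α) ≤
        ∫ _ in (0 : ℝ)..(1 / M), 2 * M * C := by
      refine intervalIntegral.integral_mono_on hi0.le (hc.intervalIntegrable _ _)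
        intervalIntegrable_const fun α _ => ?_
      have h3 : kap W M α ≤ 2 * M := (V1_le hW M α).trans (fTk_le hM1 α)
      calc |α| * (kap W M α * kap W N α) = kap W M α * (|α| * kap W N α) := by ring
        _ ≤ 2 * M * C := by
          refine mul_le_mul h3 (hkN α) (mul_nonneg (abs_nonneg α) (kap_nonneg hW N α)) (by positivity)
    refine h2.trans (le_of_eq ?_)
    rw [intervalIntegral.integral_const, sub_zero, smul_eq_mul]
    field_simp
  have h2 : ∫ α in (1 / M : ℝ)..1, |α| * (kap W M α * kap W N α) ≤ C ^ 2 * Real.log M := by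
    have hci : IntervalIntegrable (fun α : ℝ => C ^ 2 * (1 / α)) volume (1 / M : ℝ) 1 := by
      apply ContinuousOn.intervalIntegrable
      rw [uIcc_of_le hi1]
      refine continuousOn_const.mul (continuousOn_const.div continuousOn_id fun x hx => ?_)
      have : 0 < x := lt_of_lt_of_le hi0 hx.1
      exact this.ne'
    have h3 : ∫ α in (1 / M : ℝ)..1, |α| * (kap W M α * kap W N α) ≤
        ∫ α in (1 / M : ℝ)..1, C ^ 2 * (1 / α) := by
      refine intervalIntegral.integral_mono_on hi1 (hc.intervalIntegrable _ _) hci fun α hα => ?_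
      have hα0 : 0 < α := lt_of_lt_of_le hi0 hα.1
      have h4 := hkM α
      have h5 := hkN α
      rw [abs_of_pos hα0] at h4 h5 ⊢
      have h6 : (α * kap W M α) * (α * kap W N α) ≤ C * C :=
        mul_le_mul h4 h5 (mul_nonneg hα0.le (kap_nonneg hW N α)) hC.le
      calc α * (kap W M α * kap W N α) = (α * kap W M α) * (α * kap W N α) * (1 / α) := by
            field_simp
        _ ≤ C * C * (1 / α) := mul_le_mul_of_nonneg_right h6 (by positivity)
        _ = C ^ 2 * (1 / α) := by ring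
    refine h3.trans (le_of_eq ?_)
    rw [intervalIntegral.integral_const_mul, integral_one_div_of_pos hi0 one_pos, one_div_one_div]
  rw [hsplit]
  have h3 : 2 * C ≤ 2 * C / Real.log 2 * Real.log M := by
    rw [div_mul_eq_mul_div, le_div_iff₀ hlog2]
    exact mul_le_mul_of_nonneg_left hlM (by positivity)
  have h4 : (4 * C / Real.log 2 + 2 * C ^ 2) * Real.log M =
      2 * (2 * C / Real.log 2 * Real.log M + C ^ 2 * Real.log M) := by ring
  rw [h4]
  linarith

theorem kap_var {W : ℝ → ℝ} (hW : EB W (1 / 8)) : ∃ c : ℝ, 0 < c ∧ ∀ N : ℕ, 1024 ≤ N →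
    c * Real.log N ≤ ∫ α, |α| * (kap W N α * kap W N α) := by
  obtain ⟨c, hc, hck⟩ := fTk_ge
  refine ⟨c ^ 2, by positivity, fun N hN => ?_⟩
  have hNr : (1024 : ℝ) ≤ N := by exact_mod_cast hN
  have hN0 : (0 : ℝ) < N := by linarith
  have hN1 : 1 ≤ N := by omega
  have hcc := V1_cont hW N N
  have hnn : ∀ α : ℝ, 0 ≤ |α| * (kap W N α * kap W N α) := fun α =>
    mul_nonneg (abs_nonneg α) (mul_nonneg (kap_nonneg hW N α) (kap_nonneg hW N α))
  rw [V1_eq hW N N]
  have ha0 : (0 : ℝ) < 2 / N := by positivity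
  have hab : (2 : ℝ) / N ≤ 1 / 16 := by
    rw [div_le_div_iff₀ hN0 (by norm_num)]
    linarith
  have h1 : ∫ α in (2 / N : ℝ)..(1 / 16), |α| * (kap W N α * kap W N α) ≤
      ∫ α in (0 : ℝ)..1, |α| * (kap W N α * kap W N α) :=
    intervalIntegral.integral_mono_interval ha0.le hab (by norm_num)
      (Eventually.of_forall hnn) (hcc.intervalIntegrable _ _)
  have hci : IntervalIntegrable (fun α : ℝ => c ^ 2 * (1 / α)) volume (2 / N : ℝ) (1 / 16) := by
    apply ContinuousOn.intervalIntegrable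
    rw [uIcc_of_le hab]
    refine continuousOn_const.mul (continuousOn_const.div continuousOn_id fun x hx => ?_)
    have : 0 < x := lt_of_lt_of_le ha0 hx.1
    exact this.ne'
  have h2 : ∫ α in (2 / N : ℝ)..(1 / 16), c ^ 2 * (1 / α) ≤
      ∫ α in (2 / N : ℝ)..(1 / 16), |α| * (kap W N α * kap W N α) := by
    refine intervalIntegral.integral_mono_on hab hci (hcc.intervalIntegrable _ _) fun α hα => ?_
    have hα0 : 0 < α := lt_of_lt_of_le ha0 hα.1
    have h3 : kap W N α = fT (kN N) α := by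
      unfold kap
      rw [hW.one α (by rw [abs_of_pos hα0]; linarith [hα.2]), one_mul]
    have h4 := hck N α hN1 hα.1 hα.2
    rw [h3, abs_of_pos hα0]
    have h6 : c * c ≤ (fT (kN N) α * α) * (fT (kN N) α * α) :=
      mul_le_mul h4 h4 hc.le (hc.le.trans h4)
    calc c ^ 2 * (1 / α) = c * c * (1 / α) := by ring
      _ ≤ (fT (kN N) α * α) * (fT (kN N) α * α) * (1 / α) :=
        mul_le_mul_of_nonneg_right h6 (by positivity)
      _ = α * (fT (kN N) α * fT (kN N) α) := by field_simp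
  have h3 : ∫ α in (2 / N : ℝ)..(1 / 16), c ^ 2 * (1 / α) = c ^ 2 * (Real.log N - Real.log 32) := by
    rw [intervalIntegral.integral_const_mul, integral_one_div_of_pos ha0 (by norm_num)]
    congr 1
    rw [← Real.log_div hN0.ne' (by norm_num)]
    congr 1
    field_simp
    norm_num
  have h4 : Real.log 1024 = 2 * Real.log 32 := by
    rw [show (1024 : ℝ) = 32 ^ 2 by norm_num, Real.log_pow]
    norm_num
  have h5 : Real.log 1024 ≤ Real.log N := Real.log_le_log (by norm_num) hNr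
  have h6 : Real.log N ≤ 2 * (Real.log N - Real.log 32) := by linarith
  calc c ^ 2 * Real.log N ≤ c ^ 2 * (2 * (Real.log N - Real.log 32)) :=
        mul_le_mul_of_nonneg_left h6 (by positivity)
    _ = 2 * (c ^ 2 * (Real.log N - Real.log 32)) := by ring
    _ ≤ 2 * ∫ α in (0 : ℝ)..1, |α| * (kap W N α * kap W N α) := by
      rw [← h3]
      linarith

end Pool.Agent.Lib.MP_00e05b_nt.Bar
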