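import Pool.Agent.Lib.MP_00e05b_nt.Bar.E8
import Pool.Agent.Lib.MP_00e05b_nt.Bar.P9
import Pool.Agent.Lib.MP_00e05b_nt.Bar.AV
import Pool.Agent.Lib.MP_00e05b_nt.Bar.D3
import Pool.Agent.Lib.MP_00e05b_nt.Bar.B1
import Pool.Agent.Lib.MP_00e05b_nt.Bar.V1
import Pool.Agent.Lib.MP_00e05b_nt.Bar.AB

/-!
# FIN (helper40): assembly
-/

open Complex Set Filter Topology MeasureTheory

namespace Pool.Agent.Lib.MP_00e05b_nt.Bar

open Pool.Agent.Lib.MP_00e05b_nt Pool.Agent.Lib.MP_00e05b_nt.Mont Pool.Agent.Lib.MP_00e05b_nt.Gap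

private lemma FIN_Pr_cont (κ : ℝ → ℝ) (T : ℝ) : Continuous (Pr κ T) := by
  unfold Pr
  fun_prop

private lemma FIN_Pr_bdd (κ : ℝ → ℝ) (T : ℝ) : ∃ B : ℝ, ∀ t, |Pr κ T t| ≤ B := by
  refine ⟨|(-(2 / Real.log T))| * ∑ p ∈ (Finset.range (⌊T⌋₊ + 1)).filter Nat.Prime,
    |Real.log p / Real.sqrt p * κ (Real.log p / Real.log T)|, fun t => ?_⟩
  unfold Pr
  rw [abs_mul]
  refine mul_le_mul_of_nonneg_left ?_ (abs_nonneg _)
  refine (Finset.abs_sum_le_sum_abs _ _).trans (Finset.sum_le_sum fun p _ => ?_)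
  rw [abs_mul (Real.log p / Real.sqrt p * κ (Real.log p / Real.log T))]
  exact mul_le_of_le_one_right (abs_nonneg _) (Real.abs_cos_le_one _)

private lemma FIN_WR_cont {ψ : ℝ → ℝ} (hψ : Continuous ψ) (T : ℝ) : Continuous (fun t => WR ψ T t) := by
  unfold WR
  refine continuous_finsetSum _ fun γ _ => ?_
  refine continuous_const.mul (hψ.comp ?_)
  unfold xg
  fun_prop

private lemma FIN_fT_cont {κ : ℝ → ℝ} {s : ℝ} (hκ : ES κ s) : Continuous (fT κ) :=
  fT_cont hκ.continuous ⟨s, hκ.supp⟩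

/-- The normalised measure on `[0, T] × (-1, 1)`. -/
private noncomputable def FIN_mu (T : ℝ) : Measure (ℝ × ℝ) :=
  (ENNReal.ofReal (2 * T))⁻¹ • (volume.restrict (Icc 0 T ×ˢ Ioo (-1 : ℝ) 1))

private lemma FIN_vol {T : ℝ} (hT : 0 < T) : volume (Icc 0 T ×ˢ Ioo (-1 : ℝ) 1) = ENNReal.ofReal (2 * T) := by
  rw [Measure.volume_eq_prod, Measure.prod_prod, Real.volume_Icc, Real.volume_Ioo, ← ENNReal.ofReal_mul (by linarith)]
  congr 1
  ring

private lemma FIN_prob {T : ℝ} (hT : 0 < T) : IsProbabilityMeasure (FIN_mu T) := by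
  constructor
  unfold FIN_mu
  rw [Measure.smul_apply, Measure.restrict_apply_univ, FIN_vol hT, smul_eq_mul]
  exact ENNReal.inv_mul_cancel (by simpa using hT) ENNReal.ofReal_ne_top

private lemma FIN_int {T : ℝ} (hT : 0 < T) (f : ℝ → ℝ) :
    ∫ ω, f ω.1 ∂(FIN_mu T) = T⁻¹ * ∫ t in (0 : ℝ)..T, f t := by
  unfold FIN_mu
  rw [integral_smul_measure, Measure.volume_eq_prod, ← Measure.prod_restrict]
  have h1 : ∫ ω : ℝ × ℝ, f ω.1 ∂((volume.restrict (Icc 0 T)).prod (volume.restrict (Ioo (-1 : ℝ) 1))) =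
      (∫ t in Icc 0 T, f t) * ∫ _b in Ioo (-1 : ℝ) 1, (1 : ℝ) := by
    rw [← integral_prod_mul]
    simp
  have h2 : ∫ _b in Ioo (-1 : ℝ) 1, (1 : ℝ) = 2 := by
    rw [setIntegral_const, smul_eq_mul, mul_one, Real.volume_real_Ioo_of_le (by norm_num)]
    norm_num
  rw [h1, h2, integral_Icc_eq_integral_Ioc, ← intervalIntegral.integral_of_le hT.le, ENNReal.toReal_inv,
    ENNReal.toReal_ofReal (by linarith), smul_eq_mul]
  field_simp

private lemma FIN_lint {T : ℝ} (hT : 0 < T) {f : ℝ → ℝ} (hf : Continuous f) (h0 : ∀ t, 0 ≤ f t) :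
    ∫⁻ q in Icc 0 T ×ˢ Ioo (-1 : ℝ) 1, ENNReal.ofReal (f q.1) = ENNReal.ofReal (2 * ∫ t in (0 : ℝ)..T, f t) := by
  have h1 := FIN_int hT f
  have hi : Integrable (fun ω : ℝ × ℝ => f ω.1) (volume.restrict (Icc 0 T ×ˢ Ioo (-1 : ℝ) 1)) := by
    refine IntegrableOn.mono_set (t := Icc 0 T ×ˢ Icc (-1 : ℝ) 1) ?_ (prod_mono le_rfl Ioo_subset_Icc_self)
    exact (hf.comp continuous_fst).continuousOn.integrableOn_compact (isCompact_Icc.prod isCompact_Icc)
  rw [← ofReal_integral_eq_lintegral_ofReal hi (Eventually.of_forall fun ω => h0 _)]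
  congr 1
  unfold FIN_mu at h1
  rw [integral_smul_measure, ENNReal.toReal_inv, ENNReal.toReal_ofReal (by linarith), smul_eq_mul] at h1
  have : (2 * T) ≠ 0 := by positivity
  field_simp at h1
  linarith

private lemma FIN_MS {ρ : ℝ → ℝ} {m : ℕ} {τ : ℝ} {a : ℕ → ℂ} {c T K h Y Y' : ℝ} (hYY : Y' ≤ Y) (h1 : MS ρ m τ a c T K h Y) :
    MS ρ m τ a c T K h Y' := fun y hy hy' => h1 y hy (hy'.trans hYY)

private lemma FIN_AR_nonneg (ρ : ℝ → ℝ) (m : ℕ) (τ : ℝ) (a : ℕ → ℂ) (c T h : ℝ) (N : ℕ) (t b : ℝ) :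
    0 ≤ AR ρ m τ a c T h N t b := by
  unfold AR
  apply Real.circleAverage_nonneg_of_nonneg
  intro x _
  exact Real.posLog_nonneg

/-- The inequality at a point of the good set. -/
private lemma FIN_pt {A S B N m' h δ P e κ0 l : ℝ} (hm : 1 ≤ m') (hA : 0 ≤ A) (hB : 0 ≤ B) (hl : -1 ≤ l)
    (h1 : l + 4 * h * N ≤ A + S) (h2 : S ≤ m' * (κ0 + P + e) + B) (hκ : κ0 ≤ 2 * N) (hh : 2 * h = m' - δ)
    (hδ : 2 * δ * N ≤ 1) : -P ≤ A + (B + (|e| + 2)) := by
  have h3 : -1 + (2 * m' - 2 * δ) * N ≤ A + B + m' * (2 * N + P + e) := by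
    have : m' * (κ0 + P + e) ≤ m' * (2 * N + P + e) := by gcongr
    have h4 : 4 * h * N = (2 * m' - 2 * δ) * N := by
      have : 4 * h = 2 * m' - 2 * δ := by linarith
      rw [this]
    linarith
  have h5 : m' * (-P) ≤ 2 + A + B + m' * e := by nlinarith
  have h6 : m' * (-P) ≤ m' * (A + (B + (|e| + 2))) := by
    have h7 : m' * e ≤ m' * |e| := by gcongr; exact le_abs_self e
    have h8 : 2 + A + B ≤ m' * (2 + A + B) := by nlinarith
    nlinarith
  exact le_of_mul_le_mul_left h6 (by linarith)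

theorem barrier (hRH : RiemannHypothesis) : ∃ δ : ℝ, 0 < δ ∧ δ < 1 ∧ ∀ᶠ T : ℝ in atTop, ∀ b : ℝ,
    δ ≤ ∫ α in b..(b + 1 - δ), FF α T := by
  obtain ⟨ρ, hρ⟩ := exists_RR
  obtain ⟨W, hW⟩ := exists_EB (1 / 8) (by norm_num)
  obtain ⟨r, hr0, hr1, hiso⟩ := iso_card hRH
  obtain ⟨K, hK, hE⟩ := energy_CF0 hRH hρ
  obtain ⟨p, hp, hG⟩ := good_set hρ hr0 hr1 hiso 0 hK
  obtain ⟨K1, hK1, hAV⟩ := AR_avg hK
  obtain ⟨K2, hK2, hB⟩ := log_sum hRH hW 0
  obtain ⟨C, hC, hcov⟩ := kap_cov hW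
  obtain ⟨c, hc, hvar⟩ := kap_var hW
  obtain ⟨τ, hτ⟩ : ∃ τ : ℝ, τ = r / (((0 : ℕ) : ℝ) + 1) := ⟨_, rfl⟩
  have hτr : τ = r := by rw [hτ]; norm_num
  have hτ0 : 0 < τ := by rw [hτr]; exact hr0
  have hτ1 : τ ≤ 1 := by rw [hτr]; exact hr1
  rw [← hτ] at hG
  have hl2 : 0 < Real.log 2 := Real.log_pos (by norm_num)
  -- the scales
  obtain ⟨N, hN⟩ : ∃ N : ℕ → ℕ, N = fun j => 2 ^ (4 ^ (j + 2)) := ⟨_, rfl⟩
  have hNlog : ∀ j, Real.log (N j) = 4 ^ j * (16 * Real.log 2) := by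
    intro j
    rw [hN]
    push_cast
    rw [Real.log_pow]
    push_cast
    ring
  have hNge : ∀ j, 1024 ≤ N j := by
    intro j
    rw [hN]
    show 1024 ≤ 2 ^ (4 ^ (j + 2))
    calc 1024 = 2 ^ 10 := by norm_num
      _ ≤ 2 ^ (4 ^ (j + 2)) := by
          apply Nat.pow_le_pow_right (by norm_num)
          calc 10 ≤ 4 ^ 2 := by norm_num
            _ ≤ 4 ^ (j + 2) := Nat.pow_le_pow_right (by norm_num) (by omega)
  have hNmono : ∀ i j, i ≤ j → N i ≤ N j := by
    intro i j hij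
    rw [hN]
    exact Nat.pow_le_pow_right (by norm_num) (Nat.pow_le_pow_right (by norm_num) (by omega))
  obtain ⟨v, hv⟩ : ∃ v : ℕ → ℕ → ℝ, v = fun i j => ∫ α, |α| * (kap W (N i) α * kap W (N j) α) := ⟨_, rfl⟩
  have hvsymm : ∀ i j, v i j = v j i := by
    intro i j
    rw [hv]
    simp only
    congr 1
    funext α
    ring
  have hvup : ∀ i j, |v i j| ≤ C * (16 * Real.log 2) * 4 ^ (min i j) := by
    have key : ∀ i j, i ≤ j → |v i j| ≤ C * (16 * Real.log 2) * 4 ^ i := by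
      intro i j hij
      have := hcov (N i) (N j) (by have := hNge i; omega) (hNmono i j hij)
      rw [hNlog] at this
      rw [hv]
      simp only
      refine this.trans (le_of_eq ?_)
      ring
    intro i j
    rcases le_total i j with h | h
    · rw [min_eq_left h]
      exact key i j h
    · rw [min_eq_right h, hvsymm]
      exact key j i h
  have hvlow : ∀ j, c * (16 * Real.log 2) * 4 ^ j ≤ v j j := by
    intro j
    have := hvar (N j) (hNge j)
    rw [hNlog] at this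
    rw [hv]
    simp only
    refine le_trans (le_of_eq ?_) this
    ring
  obtain ⟨J, ε, hJ, hε, hbes⟩ := bessel_abs (p := p / 2) (K := (K1 + K2 + 8) / 2) (c := c * (16 * Real.log 2))
    (C := C * (16 * Real.log 2)) (by positivity) (by positivity) (by positivity) (by positivity)
  -- the parameters
  obtain ⟨δ0, hδ0⟩ : ∃ δ0 : ℝ, δ0 = 1 / (4 * (N J : ℝ)) := ⟨_, rfl⟩
  have hNJ : (1024 : ℝ) ≤ N J := by exact_mod_cast hNge J
  have hδ0pos : 0 < δ0 := by rw [hδ0]; positivity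
  have hδ0le : δ0 ≤ 1 / 4 := by
    rw [hδ0]
    apply one_div_le_one_div_of_le (by norm_num)
    linarith
  have hδN : ∀ j, j < J → 2 * δ0 * (N j : ℝ) ≤ 1 := by
    intro j hj
    have h1 : (N j : ℝ) ≤ N J := by exact_mod_cast hNmono j J hj.le
    have h2 : (0 : ℝ) < N J := by linarith
    calc 2 * δ0 * (N j : ℝ) ≤ 2 * δ0 * (N J : ℝ) := by gcongr
      _ = 1 / 2 := by rw [hδ0]; field_simp; norm_num
      _ ≤ 1 := by norm_num
  obtain ⟨h, hh⟩ : ∃ h : ℝ, h = (1 - δ0) / 2 := ⟨_, rfl⟩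
  have hh1 : 1 / 4 ≤ h := by rw [hh]; linarith
  obtain ⟨η, hη, hT⟩ := hE h ((N J : ℝ) + 1) hh1 (by linarith)
  refine ⟨min δ0 η, lt_min hδ0pos hη, lt_of_le_of_lt (min_le_left _ _) (by linarith), ?_⟩
  have hBJ : ∀ᶠ T : ℝ in atTop, ∀ j ∈ Finset.range J, ∃ B : ℝ × ℝ → ℝ, Measurable B ∧ (∀ q, 0 ≤ B q) ∧
      (∀ t b : ℝ, b ≠ 0 → ∑ γ ∈ ordinates T, ∑ k ∈ Finset.range (0 + 1),
          Real.posLog ((N j : ℝ) / ‖(b : ℂ) * I - ((xg T t γ + off 0 τ k : ℝ) : ℂ)‖) ≤
        (((0 : ℕ) : ℝ) + 1) * WR (fT (kap W (N j))) T t + B (t, b)) ∧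
      ∫⁻ q in Icc 0 T ×ˢ Ioo (-1 : ℝ) 1, ENNReal.ofReal (B q) ≤ ENNReal.ofReal (K2 * T) := by
    rw [Filter.eventually_all_finset]
    intro j _
    exact hB τ hτ0 hτ1 (N j) (by have := hNge j; omega)
  have hefJ : ∀ᶠ T : ℝ in atTop, ∀ j ∈ Finset.range J, T⁻¹ * ∫ t in (0 : ℝ)..T,
      (WR (fT (kap W (N j))) T t - kap W (N j) 0 - Pr (kap W (N j)) T t) ^ 2 ≤ 1 := by
    rw [Filter.eventually_all_finset]
    intro j _
    exact ef_pr hRH (kap_es hW (N j)) one_pos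
  have hm2 : ∀ᶠ T : ℝ in atTop, ∀ i ∈ Finset.range J, ∀ j ∈ Finset.range J,
      |T⁻¹ * (∫ t in (0 : ℝ)..T, Pr (kap W (N i)) T t * Pr (kap W (N j)) T t) - v i j| ≤ ε := by
    rw [Filter.eventually_all_finset]
    intro i _
    rw [Filter.eventually_all_finset]
    intro j _
    have h1 := mom2 hRH (kap_es hW (N i)) (kap_es hW (N j))
    have h2 := (Metric.tendsto_nhds.1 h1) ε hε
    filter_upwards [h2] with T h3
    rw [Real.dist_eq] at h3
    rw [hv]
    exact h3.le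
  have hm4 : ∀ᶠ T : ℝ in atTop, ∀ i ∈ Finset.range J, ∀ j ∈ Finset.range J,
      T⁻¹ * (∫ t in (0 : ℝ)..T, Pr (kap W (N i)) T t ^ 2 * Pr (kap W (N j)) T t ^ 2) ≤
        v i i * v j j + 2 * v i j ^ 2 + ε := by
    rw [Filter.eventually_all_finset]
    intro i _
    rw [Filter.eventually_all_finset]
    intro j _
    rw [hv]
    exact mom4 hRH (kap_es hW (N i)) (kap_es hW (N j)) (kap_nonneg hW (N i)) (kap_nonneg hW (N j)) hε
  filter_upwards [hT, hG, hBJ, hefJ, hm2, hm4, eventually_ge_atTop (2 : ℝ)] with T gT gG gB gef gm2 gm4 hT2 b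
  by_contra hlt
  push Not at hlt
  have hT0 : 0 < T := by linarith
  have hT1 : 1 < T := by linarith
  -- the mass hypothesis
  have hmass : (∫ α in ((b + h) - h)..((b + h) + h), FF α T) ≤ η := by
    refine le_trans ?_ (hlt.le.trans (min_le_right _ _))
    have e1 : b + h - h = b := by ring
    have e2 : b + h + h = b + 1 - δ0 := by rw [hh]; ring
    rw [e1, e2, intervalIntegral.integral_of_le (by linarith),
      intervalIntegral.integral_of_le (by have := min_le_left δ0 η; linarith)]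
    refine setIntegral_mono_set ?_ (Eventually.of_forall fun α => FF_nonneg hT1 α) (Eventually.of_forall ?_)
    · exact ((FF_continuous hT0).continuousOn.integrableOn_Icc).mono_set Ioc_subset_Icc_self
    · intro x hx
      exact ⟨hx.1, hx.2.trans (by have := min_le_left δ0 η; linarith)⟩
  obtain ⟨a, ha⟩ : ∃ a : ℕ → ℂ, a = fun _ => 1 := ⟨_, rfl⟩
  have ha0 : a 0 = 1 := by rw [ha]
  have hMS := gT (b + h) τ a ha0 hmass
  obtain ⟨G, hGm, hGs, hGv, hGq⟩ := gG (b + h) h a (by linarith) ha0 (FIN_MS (by linarith) hMS)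
  have := FIN_prob hT0
  refine hbes (FIN_mu T) (fun j ω => Pr (kap W (N j)) T ω.1) v G hGm ?_ ?_ ?_ ?_ ?_ ?_ ?_ ?_
  · -- measure of G
    unfold FIN_mu
    rw [Measure.smul_apply, Measure.restrict_apply hGm, inter_eq_left.2 hGs, smul_eq_mul]
    have h1 : ENNReal.ofReal (p / 2) = (ENNReal.ofReal (2 * T))⁻¹ * ENNReal.ofReal (p * T) := by
      rw [← ENNReal.ofReal_inv_of_pos (by positivity), ← ENNReal.ofReal_mul (by positivity)]
      congr 1
      field_simp
    rw [h1]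
    gcongr
  · intro j
    exact ((FIN_Pr_cont _ T).comp continuous_fst).measurable
  · intro j
    obtain ⟨B, hB'⟩ := FIN_Pr_bdd (kap W (N j)) T
    exact ⟨B, fun ω => hB' ω.1⟩
  · intro i hi j hj
    have := gm2 i (Finset.mem_range.2 hi) j (Finset.mem_range.2 hj)
    rw [FIN_int hT0 (fun t => Pr (kap W (N i)) T t * Pr (kap W (N j)) T t)]
    exact this
  · intro i hi j hj
    have := gm4 i (Finset.mem_range.2 hi) j (Finset.mem_range.2 hj)
    rw [FIN_int hT0 (fun t => Pr (kap W (N i)) T t ^ 2 * Pr (kap W (N j)) T t ^ 2)]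
    exact this
  · intro i _ j _
    exact hvup i j
  · intro j _
    exact hvlow j
  · intro j hj
    obtain ⟨B, hBm, hB0, hB1, hB2⟩ := gB j (Finset.mem_range.2 hj)
    have hef := gef j (Finset.mem_range.2 hj)
    obtain ⟨er, her⟩ : ∃ er : ℝ → ℝ, er = fun t => WR (fT (kap W (N j))) T t - kap W (N j) 0 - Pr (kap W (N j)) T t := ⟨_, rfl⟩
    have herc : Continuous er := by
      rw [her]
      exact ((FIN_WR_cont (FIN_fT_cont (kap_es hW (N j))) T).sub continuous_const).sub (FIN_Pr_cont _ T)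
    have hNj1 : 1 ≤ N j := by have := hNge j; omega
    have hNjJ : (N j : ℝ) ≤ N J := by exact_mod_cast hNmono j J hj.le
    have hpt : ∀ q ∈ G, ENNReal.ofReal (-(Pr (kap W (N j)) T q.1)) ≤
        ENNReal.ofReal (AR ρ 0 τ a (b + h) T h (N j) q.1 q.2) + (ENNReal.ofReal (B q) + ENNReal.ofReal (|er q.1| + 2)) := by
      intro q hq
      obtain ⟨hq1, hq2⟩ := hGq q hq
      have hCF : 0 < ‖CF ρ 0 τ a (b + h) T q.1 ((q.2 : ℂ) * I)‖ := lt_of_lt_of_le (Real.exp_pos _) hq2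
      have hlog : -1 ≤ Real.log ‖CF ρ 0 τ a (b + h) T q.1 ((q.2 : ℂ) * I)‖ := by
        rw [Real.le_log_iff_exp_le hCF]
        exact hq2
      have hA0 := FIN_AR_nonneg ρ 0 τ a (b + h) T h (N j) q.1 q.2
      have hj1 := jensen_CF hρ 0 τ a (b + h) T (by linarith : (0 : ℝ) ≤ h) hNj1 q.1 hq1 (norm_pos_iff.1 hCF)
      have hj2 := hB1 q.1 q.2 hq1
      have hWR : WR (fT (kap W (N j))) T q.1 = kap W (N j) 0 + Pr (kap W (N j)) T q.1 + er q.1 := by
        rw [her]
        ring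
      rw [hWR] at hj2
      have hfin := FIN_pt (m' := ((0 : ℕ) : ℝ) + 1) (by norm_num) hA0 (hB0 q) hlog hj1 hj2 (kap_zero hW hNj1)
        (by rw [hh]; push_cast; ring) (hδN j hj)
      rw [← ENNReal.ofReal_add (hB0 q) (by positivity), ← ENNReal.ofReal_add hA0 (by have := hB0 q; positivity)]
      exact ENNReal.ofReal_le_ofReal hfin
    have hI1 : ∫⁻ q in G, ENNReal.ofReal (-(Pr (kap W (N j)) T q.1)) ≤ ENNReal.ofReal ((K1 + K2 + 8) * T) := by
      calc ∫⁻ q in G, ENNReal.ofReal (-(Pr (kap W (N j)) T q.1))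
          ≤ ∫⁻ q in G, (ENNReal.ofReal (AR ρ 0 τ a (b + h) T h (N j) q.1 q.2) +
              (ENNReal.ofReal (B q) + ENNReal.ofReal (|er q.1| + 2))) := setLIntegral_mono' hGm hpt
        _ ≤ ∫⁻ q in Icc 0 T ×ˢ Ioo (-1 : ℝ) 1, (ENNReal.ofReal (AR ρ 0 τ a (b + h) T h (N j) q.1 q.2) +
              (ENNReal.ofReal (B q) + ENNReal.ofReal (|er q.1| + 2))) := lintegral_mono_set hGs
        _ = (∫⁻ q in Icc 0 T ×ˢ Ioo (-1 : ℝ) 1, ENNReal.ofReal (AR ρ 0 τ a (b + h) T h (N j) q.1 q.2)) +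
              ((∫⁻ q in Icc 0 T ×ˢ Ioo (-1 : ℝ) 1, ENNReal.ofReal (B q)) +
                ∫⁻ q in Icc 0 T ×ˢ Ioo (-1 : ℝ) 1, ENNReal.ofReal (|er q.1| + 2)) := by
            have hm1 : Measurable (fun q : ℝ × ℝ => ENNReal.ofReal (|er q.1| + 2)) := by
              have := herc.measurable
              fun_prop
            have hm2 : Measurable (fun q : ℝ × ℝ => ENNReal.ofReal (B q) + ENNReal.ofReal (|er q.1| + 2)) :=
              hBm.ennreal_ofReal.add hm1
            rw [lintegral_add_right _ hm2, lintegral_add_right _ hm1]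
        _ ≤ ENNReal.ofReal (K1 * T) + (ENNReal.ofReal (K2 * T) + ENNReal.ofReal (8 * T)) := by
            gcongr
            · exact hAV ρ 0 τ a (b + h) T h (N j) hρ hT1 (by linarith) hNj1 (FIN_MS (by linarith) hMS)
            · calc ∫⁻ q in Icc 0 T ×ˢ Ioo (-1 : ℝ) 1, ENNReal.ofReal (|er q.1| + 2)
                  ≤ ∫⁻ q in Icc 0 T ×ˢ Ioo (-1 : ℝ) 1, ENNReal.ofReal (er q.1 ^ 2 + 3) := by
                    refine lintegral_mono fun q => ENNReal.ofReal_le_ofReal ?_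
                    nlinarith [sq_nonneg (|er q.1| - 1), sq_abs (er q.1), abs_nonneg (er q.1)]
                _ = ENNReal.ofReal (2 * ∫ t in (0 : ℝ)..T, (er t ^ 2 + 3)) :=
                    FIN_lint hT0 (f := fun t => er t ^ 2 + 3) (by fun_prop) (fun t => by positivity)
                _ ≤ ENNReal.ofReal (8 * T) := by
                    apply ENNReal.ofReal_le_ofReal
                    have hi1 : IntervalIntegrable (fun t => er t ^ 2) volume 0 T := (herc.pow 2).intervalIntegrable _ _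
                    rw [intervalIntegral.integral_add hi1 intervalIntegrable_const, intervalIntegral.integral_const,
                      smul_eq_mul]
                    have h3 : ∫ t in (0 : ℝ)..T, er t ^ 2 ≤ T := by
                      have h4 : T⁻¹ * ∫ t in (0 : ℝ)..T, er t ^ 2 ≤ 1 := by
                        rw [her]
                        exact hef
                      rwa [inv_mul_le_iff₀ hT0, mul_one] at h4
                    linarith
        _ = ENNReal.ofReal ((K1 + K2 + 8) * T) := by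
            rw [← ENNReal.ofReal_add (by positivity) (by positivity), ← ENNReal.ofReal_add (by positivity) (by positivity)]
            congr 1
            ring
    have hres : (FIN_mu T).restrict G = (ENNReal.ofReal (2 * T))⁻¹ • volume.restrict G := by
      unfold FIN_mu
      rw [Measure.restrict_smul, Measure.restrict_restrict hGm, inter_eq_left.2 hGs]
    rw [hres, lintegral_smul_measure, smul_eq_mul]
    have h1 : ENNReal.ofReal ((K1 + K2 + 8) / 2) = (ENNReal.ofReal (2 * T))⁻¹ * ENNReal.ofReal ((K1 + K2 + 8) * T) := by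
      rw [← ENNReal.ofReal_inv_of_pos (by positivity), ← ENNReal.ofReal_mul (by positivity)]
      congr 1
      field_simp
    rw [h1]
    gcongr

end Pool.Agent.Lib.MP_00e05b_nt.Bar
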