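import Pool.Agent.Lib.MP_00e05b_nt.Gap.J

/-!
# LEAF J1: Jensen's inequality for a finite sum of simple poles with an entire numerator

`C z = ∑_{i ∈ s} w i * ψ (z - p i) / (z - p i)`, `g z = ∑_i w i ψ(z - p i) ∏_{j ≠ i} (z - p j)` is entire and `g z = C z ∏_i (z - p i)` off the
poles (the points `p i` need not be distinct: the product is over the indices). `Gap.J.avg_le` for `g` with
`z ↦ B z + ∑_i log ‖z - p i‖`; circle average of `log ‖z - p‖` around `z0`: `log R + log⁺ (R⁻¹ ‖z0 - p‖)`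
(`circleAverage_log_norm_sub_const_eq_log_radius_add_posLog` in Mathlib, compare the proofs of `jensen_iso_le`, `int_log_sub` in `Gap.J`), and
`log R + log⁺ (R⁻¹ v) - log v = log⁺ (R/v)` for `v > 0`. On the circle the points where `z` is a pole are finitely many: if `g z ≠ 0` and `z` is
a pole the bound of `avg_le` must be arranged (e.g. enlarge `B` only through `log ‖z - p‖ = log 0 = 0` is not enough): choose `avg_le` for a
modified `B` on the finite set of poles (a function that differs from `B` at finitely many points of the circle has the same average), or use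
directly the Mathlib inequality for `circleAverage` with a.e. comparison (`circleAverage_mono` up to a finite set / codiscrete).
-/

open Complex Set Filter Topology MeasureTheory Metric

namespace Pool.Agent.Lib.MP_00e05b_nt.Bar

private theorem j1_alg {ι : Type*} [DecidableEq ι] (s : Finset ι) (p : ι → ℝ) (v : ι → ℂ) (z : ℂ)
    (hz : ∀ i ∈ s, z ≠ (p i : ℂ)) :
    ∑ i ∈ s, v i * ∏ j ∈ s.erase i, (z - (p j : ℂ)) =
      (∑ i ∈ s, v i / (z - (p i : ℂ))) * ∏ i ∈ s, (z - (p i : ℂ)) := by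
  rw [Finset.sum_mul]
  refine Finset.sum_congr rfl fun i hi => ?_
  rw [← Finset.mul_prod_erase s _ hi]
  have : z - (p i : ℂ) ≠ 0 := sub_ne_zero.2 (hz i hi)
  field_simp

private theorem j1_int (c : ℂ) (R p : ℝ) :
    CircleIntegrable (fun z : ℂ => Real.log ‖z - (p : ℂ)‖) c R :=
  (analyticOnNhd_id.sub analyticOnNhd_const).meromorphicOn.circleIntegrable_log_norm

private theorem j1_log {R v : ℝ} (hR : 0 < R) (hv : 0 < v) :
    Real.log R + Real.posLog (R⁻¹ * v) - Real.log v = Real.posLog (R / v) := by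
  have h1 := Real.posLog_sub_posLog_inv (x := R / v)
  rw [Real.log_div hR.ne' hv.ne', inv_div] at h1
  have h2 : R⁻¹ * v = v / R := by
    rw [div_eq_mul_inv, mul_comm]
  rw [h2]
  linarith

private theorem j1_diff {ι : Type*} (s : Finset ι) (p : ι → ℝ) :
    Differentiable ℂ (fun z : ℂ => ∏ i ∈ s, (z - (p i : ℂ))) := by
  apply Differentiable.fun_finsetProd
  intro i _
  fun_prop

theorem jensen_gen {ι : Type*} (s : Finset ι) (p : ι → ℝ) (w : ι → ℂ) {ψ : ℂ → ℂ} (hψ : Differentiable ℂ ψ) {z0 : ℂ} {R : ℝ}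
    (hR : 0 < R) (h0 : ∀ i ∈ s, z0 ≠ (p i : ℂ)) (hC : ∑ i ∈ s, w i * ψ (z0 - (p i : ℂ)) / (z0 - (p i : ℂ)) ≠ 0)
    {B : ℂ → ℝ} (hB : CircleIntegrable B z0 R)
    (hb : ∀ z ∈ sphere z0 R, (∀ i ∈ s, z ≠ (p i : ℂ)) → ∑ i ∈ s, w i * ψ (z - (p i : ℂ)) / (z - (p i : ℂ)) ≠ 0 →
      Real.log ‖∑ i ∈ s, w i * ψ (z - (p i : ℂ)) / (z - (p i : ℂ))‖ ≤ B z) :
    Real.log ‖∑ i ∈ s, w i * ψ (z0 - (p i : ℂ)) / (z0 - (p i : ℂ))‖ ≤
      Real.circleAverage B z0 R + ∑ i ∈ s, Real.posLog (R / ‖z0 - (p i : ℂ)‖) := by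
  classical
  have hR' : |R| = R := abs_of_pos hR
  obtain ⟨C, hCd⟩ : ∃ C : ℂ → ℂ, ∀ z, C z =
      ∑ i ∈ s, w i * ψ (z - (p i : ℂ)) / (z - (p i : ℂ)) := ⟨_, fun _ => rfl⟩
  obtain ⟨D, hDd⟩ : ∃ D : ℂ → ℂ, ∀ z, D z = ∏ i ∈ s, (z - (p i : ℂ)) := ⟨_, fun _ => rfl⟩
  obtain ⟨g, hgd⟩ : ∃ g : ℂ → ℂ, ∀ z, g z =
      ∑ i ∈ s, w i * ψ (z - (p i : ℂ)) * ∏ j ∈ s.erase i, (z - (p j : ℂ)) := ⟨_, fun _ => rfl⟩
  simp only [← hCd] at hC hb ⊢
  have hDz : ∀ z, D z ≠ 0 ↔ ∀ i ∈ s, z ≠ (p i : ℂ) := by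
    intro z
    rw [hDd, Finset.prod_ne_zero_iff]
    exact forall₂_congr fun i _ => sub_ne_zero
  have hgC : ∀ z, D z ≠ 0 → g z = C z * D z := by
    intro z hz
    rw [hgd, hCd, hDd]
    exact j1_alg s p (fun i => w i * ψ (z - (p i : ℂ))) z ((hDz z).1 hz)
  have hD0 : D z0 ≠ 0 := (hDz z0).2 h0
  have hDdiff : Differentiable ℂ D := by
    have : D = fun z : ℂ => ∏ i ∈ s, (z - (p i : ℂ)) := funext hDd
    rw [this]
    exact j1_diff s p
  have hgdiff : Differentiable ℂ g := by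
    have : g = fun z : ℂ => ∑ i ∈ s, w i * ψ (z - (p i : ℂ)) * ∏ j ∈ s.erase i, (z - (p j : ℂ)) :=
      funext hgd
    rw [this]
    apply Differentiable.fun_sum
    intro i _
    have h1 : Differentiable ℂ (fun z : ℂ => ψ (z - (p i : ℂ))) :=
      hψ.comp (differentiable_id.sub_const _)
    exact (h1.const_mul (w i)).mul (j1_diff (s.erase i) p)
  have hDan : AnalyticOnNhd ℂ D (closedBall z0 R) := fun z _ => hDdiff.analyticAt z
  have hgan : AnalyticOnNhd ℂ g (closedBall z0 R) := fun z _ => hgdiff.analyticAt z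
  have hcod : ∀ᶠ x in codiscreteWithin (closedBall z0 R), D x ≠ 0 := by
    rcases hDan.eqOn_zero_or_eventually_ne_zero_of_preconnected
      (convex_closedBall z0 R).isPreconnected with h | h
    · exact absurd (h (mem_closedBall_self hR.le)) hD0
    · exact h
  have hcod2 : ∀ᶠ x in codiscreteWithin (sphere z0 |R|), D x ≠ 0 := by
    rw [hR']
    exact hcod.filter_mono (codiscreteWithin_mono sphere_subset_closedBall)
  have hg0 : g z0 ≠ 0 := by
    rw [hgC z0 hD0]
    exact mul_ne_zero hC hD0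
  obtain ⟨B1, hB1⟩ : ∃ B1 : ℂ → ℝ, B1 = B + ∑ i ∈ s, fun z => Real.log ‖z - (p i : ℂ)‖ := ⟨_, rfl⟩
  have hS : CircleIntegrable (∑ i ∈ s, fun z => Real.log ‖z - (p i : ℂ)‖) z0 R :=
    CircleIntegrable.sum s fun i _ => j1_int z0 R (p i)
  have hB1i : CircleIntegrable B1 z0 R := by
    rw [hB1]
    exact hB.add hS
  have hlogD : ∀ z, D z ≠ 0 → Real.log ‖D z‖ = ∑ i ∈ s, Real.log ‖z - (p i : ℂ)‖ := by
    intro z hz
    rw [hDd, norm_prod, Real.log_prod]
    intro i hi
    exact norm_ne_zero_iff.2 (sub_ne_zero.2 ((hDz z).1 hz i hi))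
  have hB1z : ∀ z, B1 z = B z + ∑ i ∈ s, Real.log ‖z - (p i : ℂ)‖ := by
    intro z
    rw [hB1, Pi.add_apply, Finset.sum_apply]
  have heq : B1 =ᶠ[codiscreteWithin (sphere z0 |R|)]
      (fun z => if D z = 0 then Real.log ‖g z‖ else B1 z) := by
    filter_upwards [hcod2] with z hz
    rw [if_neg hz]
  have hmain := Gap.Jx.avg_le (B := fun z => if D z = 0 then Real.log ‖g z‖ else B1 z) hR hgan hg0
    (hB1i.congr_codiscreteWithin heq) (by
      intro z hz hgz
      by_cases hDz0 : D z = 0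
      · simp only [hDz0, if_true]
        exact le_refl _
      · simp only [hDz0, if_false]
        have hCz : C z ≠ 0 := by
          intro h
          apply hgz
          rw [hgC z hDz0, h, zero_mul]
        have h1 := hb z hz ((hDz z).1 hDz0) hCz
        rw [hgC z hDz0, norm_mul, Real.log_mul (norm_ne_zero_iff.2 hCz) (norm_ne_zero_iff.2 hDz0),
          hlogD z hDz0, hB1z]
        linarith)
  rw [← Real.circleAverage_congr_codiscreteWithin heq hR.ne', hB1,
    Real.circleAverage_add hB hS, Real.circleAverage_sum (fun i _ => j1_int z0 R (p i)), hgC z0 hD0,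
    norm_mul, Real.log_mul (norm_ne_zero_iff.2 hC) (norm_ne_zero_iff.2 hD0), hlogD z0 hD0] at hmain
  have hsum : ∑ i ∈ s, Real.circleAverage (fun z => Real.log ‖z - (p i : ℂ)‖) z0 R -
      ∑ i ∈ s, Real.log ‖z0 - (p i : ℂ)‖ = ∑ i ∈ s, Real.posLog (R / ‖z0 - (p i : ℂ)‖) := by
    rw [← Finset.sum_sub_distrib]
    refine Finset.sum_congr rfl fun i hi => ?_
    have h2 : Real.circleAverage (fun z => Real.log ‖z - (p i : ℂ)‖) z0 R =
        Real.log R + Real.posLog (R⁻¹ * ‖z0 - (p i : ℂ)‖) :=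
      circleAverage_log_norm_sub_const_eq_log_radius_add_posLog hR.ne'
    rw [h2]
    exact j1_log hR (norm_pos_iff.2 (sub_ne_zero.2 (h0 i hi)))
  linarith

/-- `C` is meromorphic, hence `log⁺ ‖C‖` is circle integrable (`circleIntegrable_posLog_norm_meromorphicOn` or similar). -/
theorem posLog_int {ι : Type*} (s : Finset ι) (p : ι → ℝ) (w : ι → ℂ) {ψ : ℂ → ℂ} (hψ : Differentiable ℂ ψ) (z0 : ℂ) (R : ℝ) :
    CircleIntegrable (fun z => Real.posLog ‖∑ i ∈ s, w i * ψ (z - (p i : ℂ)) / (z - (p i : ℂ))‖) z0 R := by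
  have h : MeromorphicOn (fun z => ∑ i ∈ s, w i * ψ (z - (p i : ℂ)) / (z - (p i : ℂ)))
      (sphere z0 |R|) := by
    intro z _
    apply MeromorphicAt.fun_sum
    intro i _
    have h1 : Differentiable ℂ (fun z : ℂ => w i * ψ (z - (p i : ℂ))) :=
      (hψ.comp (differentiable_id.sub_const _)).const_mul (w i)
    have h2 : Differentiable ℂ (fun z : ℂ => z - (p i : ℂ)) := differentiable_id.sub_const _
    exact (h1.analyticAt z).meromorphicAt.fun_div (h2.analyticAt z).meromorphicAt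
  exact h.circleIntegrable_posLog_norm

end Pool.Agent.Lib.MP_00e05b_nt.Bar
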