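import Pool.Agent.Lib.MP_00e05b_nt.Bar.S1
import Pool.Agent.Lib.MP_00e05b_nt.Bar.J1

/-!
# LEAF J2: Jensen for `CF`

* `AR_int`: `log⁺ (‖CF z‖ e^{2πh|Im z|})` is nonnegative, at most `log⁺ ‖CF z‖ + 2πh|Im z|` (`h ≥ 0`), measurable on the circle
  (`CF_meas`), and the bound is circle integrable (`J1.posLog_int` through `CF_poles`).
* `jensen_CF`: `J1.jensen_gen` with `z0 = ib` (`b ≠ 0`: not real), `R = N`, `B z = log⁺ (‖CF z‖ e^{2πh|Im z|}) - 2πh|Im z|`; circle average of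
  `|Im z|` around `ib` is `(1/2π) ∫ |b + N sin θ| dθ ≥ 2N/π` (add the values at `θ` and `-θ`: `|b + u| + |b - u| ≥ 2|u|`; for centre `0` it is
  `Gap.J.avg_abs_im`).
-/

open Complex Set Filter Topology MeasureTheory

namespace Pool.Agent.Lib.MP_00e05b_nt.Bar

open Pool.Agent.Lib.MP_00e05b_nt Pool.Agent.Lib.MP_00e05b_nt.Mont Pool.Agent.Lib.MP_00e05b_nt.Gap

private theorem J2_meas (f : ℝ → ℂ → ℂ) (hf : Measurable fun q : ℝ × ℂ => f q.1 q.2) (N : ℕ)
    (t b : ℝ) : Measurable fun θ : ℝ => f t (circleMap ((b : ℂ) * I) (N : ℝ) θ) :=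
  hf.comp (g := fun q : ℝ × ℂ => f q.1 q.2)
    (measurable_const.prodMk (continuous_circleMap _ _).measurable)

private theorem J2_posLog_exp {x s : ℝ} (hs : 0 ≤ s) :
    Real.posLog (x * Real.exp s) ≤ Real.posLog x + s := by
  refine Real.posLog_mul.trans ?_
  have h : Real.posLog (Real.exp s) = s := by
    rw [Real.posLog_apply, Real.log_exp, max_eq_right hs]
  rw [h]

theorem AR_int {ρ : ℝ → ℝ} (hρ : RR ρ) (m : ℕ) (τ : ℝ) (a : ℕ → ℂ) (c T : ℝ) {h : ℝ} (hh : 0 ≤ h) (N : ℕ) (t b : ℝ) :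
    CircleIntegrable (fun z : ℂ => Real.posLog (‖CF ρ m τ a c T t z‖ * Real.exp (2 * Real.pi * h * |z.im|)))
      ((b : ℂ) * I) (N : ℝ) := by
  have hC : Measurable fun θ : ℝ => CF ρ m τ a c T t (circleMap ((b : ℂ) * I) (N : ℝ) θ) :=
    J2_meas (fun t z => CF ρ m τ a c T t z) (CF_meas hρ m τ a c T) N t b
  have hM : Measurable fun θ : ℝ => Real.posLog
      (‖CF ρ m τ a c T t (circleMap ((b : ℂ) * I) (N : ℝ) θ)‖ *
        Real.exp (2 * Real.pi * h * |(circleMap ((b : ℂ) * I) (N : ℝ) θ).im|)) := by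
    refine Real.continuous_posLog.measurable.comp (hC.norm.mul ?_)
    exact (Real.continuous_exp.comp (continuous_const.mul
      ((Complex.continuous_im.comp (continuous_circleMap _ _)).abs))).measurable
  have hB : CircleIntegrable (fun z : ℂ => Real.posLog ‖CF ρ m τ a c T t z‖)
      ((b : ℂ) * I) (N : ℝ) := by
    have h1 := posLog_int (ordinates T ×ˢ Finset.range (m + 1))
      (fun q : ℝ × ℕ => xg T t q.1 + off m τ q.2)
      (fun q : ℝ × ℕ => (mult q.1 : ℂ) *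
        cexp (-((2 * Real.pi * c * xg T t q.1 : ℝ) : ℂ) * I) * a q.2) (Psi_diff hρ)
      ((b : ℂ) * I) (N : ℝ)
    have h2 : (fun z : ℂ => Real.posLog ‖CF ρ m τ a c T t z‖) = fun z : ℂ => Real.posLog
        ‖∑ q ∈ ordinates T ×ˢ Finset.range (m + 1),
          ((mult q.1 : ℂ) * cexp (-((2 * Real.pi * c * xg T t q.1 : ℝ) : ℂ) * I) * a q.2) *
          Psi ρ (z - ((xg T t q.1 + off m τ q.2 : ℝ) : ℂ)) /
            (z - ((xg T t q.1 + off m τ q.2 : ℝ) : ℂ))‖ := by
      funext z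
      rw [CF_poles]
    rw [h2]
    exact h1
  have hI : CircleIntegrable (fun z : ℂ => 2 * Real.pi * h * |z.im|) ((b : ℂ) * I) (N : ℝ) :=
    ((continuous_const.mul Complex.continuous_im.abs).continuousOn).circleIntegrable'
  have hBI : IntervalIntegrable (fun θ : ℝ =>
      Real.posLog ‖CF ρ m τ a c T t (circleMap ((b : ℂ) * I) (N : ℝ) θ)‖ +
        2 * Real.pi * h * |(circleMap ((b : ℂ) * I) (N : ℝ) θ).im|) volume 0 (2 * Real.pi) :=
    IntervalIntegrable.add hB hI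
  show IntervalIntegrable (fun θ : ℝ => Real.posLog
      (‖CF ρ m τ a c T t (circleMap ((b : ℂ) * I) (N : ℝ) θ)‖ *
        Real.exp (2 * Real.pi * h * |(circleMap ((b : ℂ) * I) (N : ℝ) θ).im|))) volume 0 (2 * Real.pi)
  refine IntervalIntegrable.mono_fun' hBI hM.aestronglyMeasurable ?_
  refine Filter.Eventually.of_forall fun θ => ?_
  have h0 : 0 ≤ 2 * Real.pi * h * |(circleMap ((b : ℂ) * I) (N : ℝ) θ).im| := by positivity
  show ‖Real.posLog (‖CF ρ m τ a c T t (circleMap ((b : ℂ) * I) (N : ℝ) θ)‖ *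
    Real.exp (2 * Real.pi * h * |(circleMap ((b : ℂ) * I) (N : ℝ) θ).im|))‖ ≤
    Real.posLog ‖CF ρ m τ a c T t (circleMap ((b : ℂ) * I) (N : ℝ) θ)‖ +
      2 * Real.pi * h * |(circleMap ((b : ℂ) * I) (N : ℝ) θ).im|
  rw [Real.norm_of_nonneg Real.posLog_nonneg]
  exact J2_posLog_exp h0

theorem avg_abs_im_ge (b : ℝ) {R : ℝ} (hR : 0 < R) :
    2 * R / Real.pi ≤ Real.circleAverage (fun z : ℂ => |z.im|) ((b : ℂ) * I) R := by
  have him : ∀ θ : ℝ, (circleMap ((b : ℂ) * I) R θ).im = b + R * Real.sin θ := by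
    intro θ
    simp [circleMap, Complex.exp_ofReal_mul_I_im]
  have him0 : ∀ θ : ℝ, (circleMap (((0 : ℝ) : ℂ)) R θ).im = R * Real.sin θ := by
    intro θ
    simp [circleMap, Complex.exp_ofReal_mul_I_im]
  have h0 := Gap.Jx.avg_abs_im 0 hR
  rw [Real.circleAverage_def] at h0 ⊢
  simp_rw [him0] at h0
  simp_rw [him]
  have hi : ∀ s : ℝ, IntervalIntegrable (fun θ => |b + s * Real.sin θ|) volume 0 (2 * Real.pi) :=
    fun s => (by fun_prop : Continuous fun θ : ℝ => |b + s * Real.sin θ|).intervalIntegrable _ _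
  have hi0 : IntervalIntegrable (fun θ => |R * Real.sin θ|) volume 0 (2 * Real.pi) :=
    (by fun_prop : Continuous fun θ : ℝ => |R * Real.sin θ|).intervalIntegrable _ _
  have hsym : (∫ θ in (0 : ℝ)..(2 * Real.pi), |b + (-R) * Real.sin θ|) =
      ∫ θ in (0 : ℝ)..(2 * Real.pi), |b + R * Real.sin θ| := by
    have h1 := intervalIntegral.integral_comp_sub_left (a := 0) (b := 2 * Real.pi)
      (fun θ => |b + R * Real.sin θ|) (2 * Real.pi)
    rw [sub_self, sub_zero] at h1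
    rw [← h1]
    refine intervalIntegral.integral_congr fun θ _ => ?_
    simp only [Real.sin_two_pi_sub]
    congr 1
    ring
  have hsum : 2 * (∫ θ in (0 : ℝ)..(2 * Real.pi), |R * Real.sin θ|) ≤
      2 * ∫ θ in (0 : ℝ)..(2 * Real.pi), |b + R * Real.sin θ| := by
    have h2 : 2 * (∫ θ in (0 : ℝ)..(2 * Real.pi), |b + R * Real.sin θ|) =
        ∫ θ in (0 : ℝ)..(2 * Real.pi), (|b + R * Real.sin θ| + |b + (-R) * Real.sin θ|) := by
      rw [intervalIntegral.integral_add (hi R) (hi (-R)), hsym]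
      ring
    rw [h2, ← intervalIntegral.integral_const_mul]
    refine intervalIntegral.integral_mono_on (by positivity) (hi0.const_mul 2)
      ((hi R).add (hi (-R))) fun θ _ => ?_
    have h3 : 2 * |R * Real.sin θ| = |(b + R * Real.sin θ) - (b + (-R) * Real.sin θ)| := by
      have h4 : (b + R * Real.sin θ) - (b + (-R) * Real.sin θ) = 2 * (R * Real.sin θ) := by ring
      rw [h4, abs_mul 2 (R * Real.sin θ), abs_two]
    rw [h3]
    exact abs_sub _ _
  rw [← h0, smul_eq_mul, smul_eq_mul]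
  refine mul_le_mul_of_nonneg_left ?_ (by positivity)
  linarith

theorem jensen_CF {ρ : ℝ → ℝ} (hρ : RR ρ) (m : ℕ) (τ : ℝ) (a : ℕ → ℂ) (c T : ℝ) {h : ℝ} (hh : 0 ≤ h) {N : ℕ} (hN : 1 ≤ N)
    (t : ℝ) {b : ℝ} (hb : b ≠ 0) (hC : CF ρ m τ a c T t ((b : ℂ) * I) ≠ 0) :
    Real.log ‖CF ρ m τ a c T t ((b : ℂ) * I)‖ + 4 * h * N ≤ AR ρ m τ a c T h N t b +
      ∑ γ ∈ ordinates T, ∑ k ∈ Finset.range (m + 1),
        Real.posLog ((N : ℝ) / ‖(b : ℂ) * I - ((xg T t γ + off m τ k : ℝ) : ℂ)‖) := by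
  have hN0 : (0 : ℝ) < N := by exact_mod_cast hN
  have hz : ∀ x : ℝ, (b : ℂ) * I ≠ (x : ℂ) := by
    intro x hx
    have h1 := congrArg Complex.im hx
    simp at h1
    exact hb h1
  have hCp := CF_poles ρ m τ a c T t
  have hC' := hC
  rw [hCp] at hC'
  have hI : CircleIntegrable (fun z : ℂ => 2 * Real.pi * h * |z.im|) ((b : ℂ) * I) (N : ℝ) :=
    ((continuous_const.mul Complex.continuous_im.abs).continuousOn).circleIntegrable'
  have hA := AR_int hρ m τ a c T hh N t b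
  have key := jensen_gen (ordinates T ×ˢ Finset.range (m + 1))
    (fun q : ℝ × ℕ => xg T t q.1 + off m τ q.2)
    (fun q : ℝ × ℕ => (mult q.1 : ℂ) *
      cexp (-((2 * Real.pi * c * xg T t q.1 : ℝ) : ℂ) * I) * a q.2) (Psi_diff hρ)
    (z0 := (b : ℂ) * I) (R := (N : ℝ)) hN0 (fun q _ => hz _) hC'
    (B := fun z => Real.posLog (‖CF ρ m τ a c T t z‖ * Real.exp (2 * Real.pi * h * |z.im|)) -
      2 * Real.pi * h * |z.im|) (hA.sub hI) ?_
  · rw [← hCp] at key
    have hav : Real.circleAverage (fun z => Real.posLog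
        (‖CF ρ m τ a c T t z‖ * Real.exp (2 * Real.pi * h * |z.im|)) - 2 * Real.pi * h * |z.im|)
        ((b : ℂ) * I) (N : ℝ) = AR ρ m τ a c T h N t b -
          2 * Real.pi * h * Real.circleAverage (fun z : ℂ => |z.im|) ((b : ℂ) * I) (N : ℝ) := by
      rw [Real.circleAverage_fun_sub hA hI]
      unfold AR
      congr 1
      have h5 := Real.circleAverage_fun_smul (a := 2 * Real.pi * h) (f := fun z : ℂ => |z.im|)
        (c := (b : ℂ) * I) (R := (N : ℝ))
      simp only [smul_eq_mul] at h5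
      exact h5
    rw [hav] at key
    have hge := avg_abs_im_ge b hN0
    have h6 : 4 * h * N ≤ 2 * Real.pi * h *
        Real.circleAverage (fun z : ℂ => |z.im|) ((b : ℂ) * I) (N : ℝ) := by
      have h7 : 2 * Real.pi * h * (2 * (N : ℝ) / Real.pi) ≤ 2 * Real.pi * h *
          Real.circleAverage (fun z : ℂ => |z.im|) ((b : ℂ) * I) (N : ℝ) :=
        mul_le_mul_of_nonneg_left hge (by positivity)
      have h8 : 2 * Real.pi * h * (2 * (N : ℝ) / Real.pi) = 4 * h * N := by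
        have := Real.pi_pos
        field_simp
        ring
      rwa [h8] at h7
    rw [Finset.sum_product] at key
    linarith
  · intro z _ _ hne
    rw [← hCp] at hne ⊢
    have h9 : 0 < ‖CF ρ m τ a c T t z‖ := norm_pos_iff.2 hne
    have h10 : Real.log (‖CF ρ m τ a c T t z‖ * Real.exp (2 * Real.pi * h * |z.im|)) =
        Real.log ‖CF ρ m τ a c T t z‖ + 2 * Real.pi * h * |z.im| := by
      rw [Real.log_mul h9.ne' (Real.exp_pos _).ne', Real.log_exp]
    have h11 : Real.log (‖CF ρ m τ a c T t z‖ * Real.exp (2 * Real.pi * h * |z.im|)) ≤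
        Real.posLog (‖CF ρ m τ a c T t z‖ * Real.exp (2 * Real.pi * h * |z.im|)) := by
      rw [Real.posLog_apply]
      exact le_max_right _ _
    rw [h10] at h11
    linarith

end Pool.Agent.Lib.MP_00e05b_nt.Bar
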