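import Pool.Agent.Lib.MP_00e05b_nt.Bar.Defs

/-!
# LEAF K1: the kernel `kN`

`kN N x = ∑_{j=2}^N max 0 (j - |x|)/(j² - 1) + max 0 (N - |x|)/N`. `1/(j² - 1) = (1/2)(1/(j-1) - 1/(j+1))`, `∑_{j ≥ 2} 1/(j² - 1) = 3/4 < 1`.
* `∫ max 0 (j - |x|) dx = j²`, so `∫ kN = ∑_{j=2}^N j²/(j² - 1) + N ≤ (N - 1) + 3/4 + N ≤ 2N`.
* `kN_ge`: for integers `1 ≤ i < N`: `kN(i) - kN(i+1) = ∑_{j=i+1}^N 1/(j² - 1) + 1/N = (1/2)(1/i + 1/(i+1) - 1/N - 1/(N+1)) + 1/N ≥
  (1/2)(1/i + 1/(i+1)) ≥ log ((i+1)/i)` (`log x ≤ (x - 1/x)/2` for `x ≥ 1`: for instance `Real.log_le_sub_one_of_pos` is too weak; derive it from the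
  derivative or from the trapezoid rule), so `kN(i) ≥ log (N/i)` for `1 ≤ i ≤ N` by downward induction (`kN(N) = 0`); between integers `kN` is
  affine and `x ↦ -log x` is convex (`strictConcaveOn_log_Ioi`); `kN` is decreasing in `|x|` (so `kN x ≥ kN 1 ≥ log N` for `|x| ≤ 1`), and the
  right side is `0` for `|x| ≥ N`.
-/

open Complex Set Filter Topology MeasureTheory

namespace Pool.Agent.Lib.MP_00e05b_nt.Bar

open Pool.Agent.Lib.MP_00e05b_nt Pool.Agent.Lib.MP_00e05b_nt.Mont Pool.Agent.Lib.MP_00e05b_nt.Gap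

private theorem K1_max (a b : ℝ) : 0 ≤ max 0 (a - b) := le_max_left _ _

private theorem K1_den {N j : ℕ} (hj : j ∈ Finset.Icc 2 N) : (0 : ℝ) < (j : ℝ) ^ 2 - 1 := by
  have h1 : 2 ≤ j := (Finset.mem_Icc.1 hj).1
  have h2 : (2 : ℝ) ≤ (j : ℝ) := by exact_mod_cast h1
  nlinarith

theorem kN_nonneg (N : ℕ) (x : ℝ) : 0 ≤ kN N x := by
  unfold kN
  refine add_nonneg (Finset.sum_nonneg fun j hj => ?_) ?_
  · exact div_nonneg (K1_max _ _) (K1_den hj).le
  · exact div_nonneg (K1_max _ _) (Nat.cast_nonneg _)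

theorem kN_even (N : ℕ) (x : ℝ) : kN N (-x) = kN N x := by
  unfold kN
  rw [abs_neg]

private theorem K1_tcont (a : ℝ) : Continuous fun x : ℝ => max 0 (a - |x|) :=
  continuous_const.max (continuous_const.sub continuous_abs)

theorem kN_cont (N : ℕ) : Continuous (kN N) := by
  unfold kN
  refine (continuous_finsetSum _ fun j _ => ?_).add ?_
  · exact (K1_tcont _).div_const _
  · exact (K1_tcont _).div_const _

theorem kN_supp {N : ℕ} {x : ℝ} (hx : (N : ℝ) ≤ |x|) : kN N x = 0 := by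
  unfold kN
  rw [Finset.sum_eq_zero, zero_add, max_eq_left (by linarith), zero_div]
  intro j hj
  have h1 : (j : ℝ) ≤ N := by exact_mod_cast (Finset.mem_Icc.1 hj).2
  rw [max_eq_left (by linarith), zero_div]

private theorem K1_tsupp (a : ℝ) : HasCompactSupport fun x : ℝ => max 0 (a - |x|) := by
  refine HasCompactSupport.of_support_subset_isCompact (isCompact_Icc (a := -a) (b := a)) ?_
  intro x hx
  rw [Function.mem_support] at hx
  have h1 : |x| ≤ a := by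
    by_contra h
    rw [not_le] at h
    exact hx (max_eq_left (by linarith))
  exact abs_le.1 h1

private theorem K1_tint (a : ℝ) : Integrable fun x : ℝ => max 0 (a - |x|) :=
  (K1_tcont a).integrable_of_hasCompactSupport (K1_tsupp a)

private theorem K1_tval {a : ℝ} (ha : 0 ≤ a) : ∫ x : ℝ, max 0 (a - |x|) = a ^ 2 := by
  have h1 : ∫ x : ℝ, max 0 (a - |x|) = 2 * ∫ x in Ioi (0 : ℝ), max 0 (a - x) :=
    integral_comp_abs (f := fun x => max 0 (a - x))
  have h2 : ∫ x in Ioi (0 : ℝ), max 0 (a - x) = ∫ x in Ioc (0 : ℝ) a, max 0 (a - x) := by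
    refine setIntegral_eq_of_subset_of_forall_sdiff_eq_zero measurableSet_Ioi
      Ioc_subset_Ioi_self fun x hx => ?_
    have h3 : a < x := by
      by_contra h
      exact hx.2 ⟨hx.1, not_lt.1 h⟩
    exact max_eq_left (by linarith)
  have h3 : ∫ x in Ioc (0 : ℝ) a, max 0 (a - x) = ∫ x in (0 : ℝ)..a, (a - x) := by
    rw [intervalIntegral.integral_of_le ha]
    refine setIntegral_congr_fun measurableSet_Ioc fun x hx => ?_
    exact max_eq_right (by linarith [hx.2])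
  have h4 : ∫ x in (0 : ℝ)..a, (a - x) = a ^ 2 / 2 := by
    rw [intervalIntegral.integral_sub (by simp) (by simp)]
    simp
    ring
  rw [h1, h2, h3, h4]
  ring

private theorem K1_tel {i : ℕ} (hi : 1 ≤ i) : ∀ N : ℕ, i ≤ N →
    ∑ j ∈ Finset.Icc (i + 1) N, (1 : ℝ) / ((j : ℝ) ^ 2 - 1) =
      (1 / 2) * (1 / (i : ℝ) + 1 / ((i : ℝ) + 1)) - (1 / 2) * (1 / (N : ℝ) + 1 / ((N : ℝ) + 1)) := by
  intro N hN
  induction N, hN using Nat.le_induction with
  | base =>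
    rw [Finset.Icc_eq_empty (by omega)]
    simp
  | succ N hN ih =>
    rw [Finset.sum_Icc_succ_top (by omega), ih]
    have h1 : (0 : ℝ) < N := by
      have : 0 < N := by omega
      exact_mod_cast this
    push_cast
    have h2 : ((N : ℝ) + 1) ^ 2 - 1 = (N : ℝ) * ((N : ℝ) + 2) := by ring
    rw [h2]
    field_simp
    ring

theorem kN_int {N : ℕ} (hN : 1 ≤ N) : Integrable (kN N) ∧ ∫ x, kN N x ≤ 2 * N := by
  have hI : ∀ j : ℕ, Integrable fun x : ℝ => max 0 ((j : ℝ) - |x|) / ((j : ℝ) ^ 2 - 1) :=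
    fun j => (K1_tint _).div_const _
  have hI2 : Integrable fun x : ℝ => max 0 ((N : ℝ) - |x|) / (N : ℝ) := (K1_tint _).div_const _
  have hI3 : Integrable fun x : ℝ => ∑ j ∈ Finset.Icc 2 N,
      max 0 ((j : ℝ) - |x|) / ((j : ℝ) ^ 2 - 1) := integrable_finsetSum _ fun j _ => hI j
  have hN0 : (1 : ℝ) ≤ N := by exact_mod_cast hN
  refine ⟨hI3.add hI2, ?_⟩
  have h1 : ∫ x, kN N x = ∑ j ∈ Finset.Icc 2 N, (j : ℝ) ^ 2 / ((j : ℝ) ^ 2 - 1) +
      (N : ℝ) ^ 2 / N := by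
    unfold kN
    rw [integral_add hI3 hI2, integral_finsetSum _ fun j _ => hI j]
    congr 1
    · refine Finset.sum_congr rfl fun j _ => ?_
      rw [integral_div, K1_tval (Nat.cast_nonneg _)]
    · rw [integral_div, K1_tval (Nat.cast_nonneg _)]
  have h2 : ∑ j ∈ Finset.Icc 2 N, (j : ℝ) ^ 2 / ((j : ℝ) ^ 2 - 1) =
      ∑ j ∈ Finset.Icc 2 N, (1 : ℝ) + ∑ j ∈ Finset.Icc 2 N, (1 : ℝ) / ((j : ℝ) ^ 2 - 1) := by
    rw [← Finset.sum_add_distrib]
    refine Finset.sum_congr rfl fun j hj => ?_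
    have h3 := K1_den hj
    field_simp
    ring
  have h3 := K1_tel (le_refl 1) N hN
  have h4 : ∑ j ∈ Finset.Icc 2 N, (1 : ℝ) = (N : ℝ) - 1 := by
    rw [Finset.sum_const, Nat.card_Icc, nsmul_eq_mul, mul_one]
    have h5 : N + 1 - 2 = N - 1 := by omega
    rw [h5, Nat.cast_sub hN, Nat.cast_one]
  have h5 : (N : ℝ) ^ 2 / N = N := by
    field_simp
  have h6 : (0 : ℝ) ≤ 1 / (N : ℝ) + 1 / ((N : ℝ) + 1) := by positivity
  rw [h1, h2, h4, h5]
  have h7 : (1 : ℕ) + 1 = 2 := rfl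
  rw [h7] at h3
  rw [h3]
  norm_num at h6 ⊢
  linarith

private theorem K1_log {i : ℕ} (hi : 1 ≤ i) :
    Real.log (((i : ℝ) + 1) / i) ≤ (1 / 2) * (1 / (i : ℝ) + 1 / ((i : ℝ) + 1)) := by
  have h0 : (0 : ℝ) < i := by exact_mod_cast hi
  have h1 : (1 : ℝ) ≤ ((i : ℝ) + 1) / i := by
    rw [le_div_iff₀ h0]
    linarith
  have h2 := Real.self_le_sinh_iff.2 (Real.log_nonneg h1)
  rw [Real.sinh_log (by linarith)] at h2
  refine h2.trans (le_of_eq ?_)
  field_simp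
  ring

private theorem K1_step {N i : ℕ} (hi : 1 ≤ i) (hiN : i < N) :
    kN N i - kN N ((i : ℝ) + 1) = ∑ j ∈ Finset.Icc (i + 1) N, (1 : ℝ) / ((j : ℝ) ^ 2 - 1) +
      1 / (N : ℝ) := by
  have hi0 : (0 : ℝ) ≤ i := Nat.cast_nonneg _
  have hN : (0 : ℝ) < N := by
    have : 0 < N := by omega
    exact_mod_cast this
  unfold kN
  rw [abs_of_nonneg hi0, abs_of_nonneg (by linarith : (0 : ℝ) ≤ (i : ℝ) + 1)]
  have h1 : ∑ j ∈ Finset.Icc 2 N, max 0 ((j : ℝ) - i) / ((j : ℝ) ^ 2 - 1) -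
      ∑ j ∈ Finset.Icc 2 N, max 0 ((j : ℝ) - ((i : ℝ) + 1)) / ((j : ℝ) ^ 2 - 1) =
      ∑ j ∈ Finset.Icc (i + 1) N, (1 : ℝ) / ((j : ℝ) ^ 2 - 1) := by
    rw [← Finset.sum_sub_distrib]
    have h2 : Finset.Icc (i + 1) N ⊆ Finset.Icc 2 N := Finset.Icc_subset_Icc (by omega) le_rfl
    rw [← Finset.sum_subset h2 (f := fun j : ℕ => max 0 ((j : ℝ) - i) / ((j : ℝ) ^ 2 - 1) -
      max 0 ((j : ℝ) - ((i : ℝ) + 1)) / ((j : ℝ) ^ 2 - 1))]
    · refine Finset.sum_congr rfl fun j hj => ?_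
      have h3 : ((i : ℝ) + 1) ≤ j := by exact_mod_cast (Finset.mem_Icc.1 hj).1
      rw [max_eq_right (by linarith), max_eq_right (by linarith), ← sub_div]
      congr 1
      ring
    · intro j hj hj2
      have h3 : j ≤ i := by
        by_contra h
        exact hj2 (Finset.mem_Icc.2 ⟨by omega, (Finset.mem_Icc.1 hj).2⟩)
      have h4 : (j : ℝ) ≤ i := by exact_mod_cast h3
      rw [max_eq_left (by linarith), max_eq_left (by linarith)]
      simp
  have h5 : ((i : ℝ) + 1) ≤ N := by exact_mod_cast hiN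
  have h6 : max 0 ((N : ℝ) - i) / N - max 0 ((N : ℝ) - ((i : ℝ) + 1)) / N = 1 / (N : ℝ) := by
    rw [max_eq_right (by linarith), max_eq_right (by linarith), ← sub_div]
    congr 1
    ring
  linarith

private theorem K1_nat {N : ℕ} (hN : 1 ≤ N) : ∀ m i : ℕ, 1 ≤ i → i + m = N →
    Real.log ((N : ℝ) / i) ≤ kN N i := by
  intro m
  induction m with
  | zero =>
    intro i hi h
    have h1 : i = N := by omega
    subst h1
    have h0 : (i : ℝ) ≠ 0 := by
      have : i ≠ 0 := by omega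
      exact_mod_cast this
    rw [div_self h0, Real.log_one]
    exact kN_nonneg _ _
  | succ m ih =>
    intro i hi h
    have h1 := ih (i + 1) (by omega) (by omega)
    have h2 := K1_step (N := N) hi (by omega)
    have h3 := K1_tel hi N (by omega)
    have h4 := K1_log hi
    have h0 : (0 : ℝ) < i := by exact_mod_cast hi
    have hN0 : (0 : ℝ) < N := by exact_mod_cast hN
    push_cast at h1
    rw [Real.log_div (by positivity) (by positivity)] at h1 h4 ⊢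
    have h5 : 1 / ((N : ℝ) + 1) ≤ 1 / N := by
      apply one_div_le_one_div_of_le hN0
      linarith
    linarith

private theorem K1_aff (j i : ℕ) {θ : ℝ} (h0 : 0 ≤ θ) (h1 : θ ≤ 1) :
    max 0 ((j : ℝ) - (i + θ)) = (1 - θ) * max 0 ((j : ℝ) - i) + θ * max 0 ((j : ℝ) - (i + 1)) := by
  rcases le_or_gt j i with h | h
  · have h2 : (j : ℝ) ≤ i := by exact_mod_cast h
    rw [max_eq_left (by linarith), max_eq_left (by linarith), max_eq_left (by linarith)]
    ring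
  · have h2 : (i : ℝ) + 1 ≤ j := by exact_mod_cast h
    rw [max_eq_right (by linarith), max_eq_right (by linarith), max_eq_right (by linarith)]
    ring

private theorem K1_lin (N i : ℕ) {θ : ℝ} (h0 : 0 ≤ θ) (h1 : θ ≤ 1) :
    kN N (i + θ) = (1 - θ) * kN N i + θ * kN N ((i : ℝ) + 1) := by
  have hi : (0 : ℝ) ≤ i := Nat.cast_nonneg _
  unfold kN
  rw [abs_of_nonneg hi, abs_of_nonneg (by linarith : (0 : ℝ) ≤ (i : ℝ) + 1),
    abs_of_nonneg (by linarith : (0 : ℝ) ≤ (i : ℝ) + θ), K1_aff N i h0 h1]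
  have h2 : ∑ j ∈ Finset.Icc 2 N, max 0 ((j : ℝ) - (i + θ)) / ((j : ℝ) ^ 2 - 1) =
      (1 - θ) * ∑ j ∈ Finset.Icc 2 N, max 0 ((j : ℝ) - i) / ((j : ℝ) ^ 2 - 1) +
      θ * ∑ j ∈ Finset.Icc 2 N, max 0 ((j : ℝ) - (i + 1)) / ((j : ℝ) ^ 2 - 1) := by
    rw [Finset.mul_sum, Finset.mul_sum, ← Finset.sum_add_distrib]
    refine Finset.sum_congr rfl fun j _ => ?_
    rw [K1_aff j i h0 h1]
    ring
  rw [h2]
  ring

private theorem K1_real {N : ℕ} (hN : 1 ≤ N) {y : ℝ} (h1 : 1 ≤ y) (h2 : y ≤ N) :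
    Real.log ((N : ℝ) / y) ≤ kN N y := by
  obtain ⟨i, hi⟩ : ∃ i, i = ⌊y⌋₊ := ⟨_, rfl⟩
  have h3 : (i : ℝ) ≤ y := by
    rw [hi]
    exact Nat.floor_le (by linarith)
  have h4 : y < i + 1 := by
    rw [hi]
    exact Nat.lt_floor_add_one y
  have h5 : 1 ≤ i := by
    rw [hi]
    exact Nat.le_floor (by exact_mod_cast h1)
  have hi0 : (0 : ℝ) < i := by exact_mod_cast h5
  have hN0 : (0 : ℝ) < N := by exact_mod_cast hN
  have h6 : i ≤ N := by
    have : (i : ℝ) ≤ N := h3.trans h2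
    exact_mod_cast this
  rcases h6.eq_or_lt with h7 | h7
  · have h8 : y = N := le_antisymm h2 (by rw [← h7]; exact h3)
    rw [h8, div_self hN0.ne', Real.log_one]
    exact kN_nonneg _ _
  · obtain ⟨θ, hθ⟩ : ∃ θ, θ = y - i := ⟨_, rfl⟩
    have hy : y = i + θ := by rw [hθ]; ring
    have hθ0 : 0 ≤ θ := by rw [hθ]; linarith
    have hθ1 : θ ≤ 1 := by rw [hθ]; linarith
    have h8 := K1_nat hN (N - i) i h5 (by omega)
    have h9 := K1_nat hN (N - (i + 1)) (i + 1) (by omega) (by omega)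
    push_cast at h9
    rw [Real.log_div hN0.ne' (by positivity)] at h8 h9 ⊢
    have h10 := strictConcaveOn_log_Ioi.concaveOn.2 (mem_Ioi.2 hi0)
      (mem_Ioi.2 (by linarith : (0 : ℝ) < (i : ℝ) + 1)) (by linarith : (0 : ℝ) ≤ 1 - θ) hθ0
      (by ring)
    simp only [smul_eq_mul] at h10
    have h11 : (1 - θ) * (i : ℝ) + θ * ((i : ℝ) + 1) = y := by rw [hy]; ring
    rw [h11] at h10
    rw [hy, K1_lin N i hθ0 hθ1, ← hy]
    nlinarith

theorem kN_ge {N : ℕ} (hN : 1 ≤ N) (x : ℝ) : Real.posLog ((N : ℝ) / max 1 |x|) ≤ kN N x := by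
  have hN0 : (0 : ℝ) < N := by exact_mod_cast hN
  have hm : (0 : ℝ) < max 1 |x| := lt_of_lt_of_le one_pos (le_max_left _ _)
  rw [Real.posLog]
  refine max_le (kN_nonneg _ _) ?_
  rcases le_or_gt (N : ℝ) (max 1 |x|) with h | h
  · refine le_trans (Real.log_nonpos (by positivity) ?_) (kN_nonneg _ _)
    rw [div_le_one hm]
    exact h
  · refine (K1_real hN (le_max_left _ _) h.le).trans ?_
    unfold kN
    have h1 : |x| ≤ abs (max 1 |x|) := by
      rw [abs_of_pos hm]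
      exact le_max_right _ _
    refine add_le_add (Finset.sum_le_sum fun j hj => ?_) ?_
    · refine div_le_div_of_nonneg_right ?_ (K1_den hj).le
      exact max_le_max le_rfl (by linarith)
    · refine div_le_div_of_nonneg_right ?_ hN0.le
      exact max_le_max le_rfl (by linarith)

end Pool.Agent.Lib.MP_00e05b_nt.Bar
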