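import Pool.Agent.Lib.MP_00e05b_nt.Bar.K1
import Pool.Agent.Lib.MP_00e05b_nt.Mont.G1

/-!
# LEAF K2: the Fourier transform of `kN`

`fT (fun x => max 0 (j - |x|)) u = (sin (π j u)/(π u))²` for `u ≠ 0` (scaling of `Mont.G1`/`Mont.Fejer` `tent_hat`: `max 0 (j - |x|) = j max 0 (1 - |x/j|)`),
so `fT (kN N) u = ∑_{j=2}^N (j² - 1)⁻¹ (sin πju/(πu))² + N⁻¹ (sin πNu/(πu))² ≥ 0`.
* upper bounds: `≤ ∫ kN ≤ 2N`; and `(sin πju/(πu))² ≤ min (j², 1/(π²u²))`: `∑_{j ≥ 2} min (j², 1/(πu)²)/(j² - 1) ≤ C/|u|` (split at `j ≤ 1/|u|`), and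
  `N⁻¹ (sin πNu/πu)² = |sin πNu/(πu)| |sin πNu|/(N π|u|) ≤ 1/(π|u|)` (`|sin y| ≤ |y|`).
* lower bound for `2/N ≤ u ≤ 1/16`: the terms `2 ≤ j ≤ 1/(2u)` (`≤ N`): `sin πju ≥ 2ju`, so each is at least `4/π²`, and there are at least `1/(2u) - 2 ≥ 1/(4u)`
  of them: `fT (kN N) u ≥ (1/π²)/u`.
* `fT (kN N)` is smooth: compare `MJ_chi_smooth` in `Gap.MJ` (`kN` continuous with compact support; `Real.contDiff_fourier`/`contDiff_fourierIntegral`).
* `kap`: `W` is smooth, even, supported in `[-1/8, 1/8]`, `0 ≤ W ≤ 1`, `W 0 = 1`.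
-/

open Complex Set Filter Topology MeasureTheory
open scoped ContDiff

namespace Pool.Agent.Lib.MP_00e05b_nt.Bar

open Pool.Agent.Lib.MP_00e05b_nt Pool.Agent.Lib.MP_00e05b_nt.Mont Pool.Agent.Lib.MP_00e05b_nt.Gap

private theorem K2_tent_int (j : ℝ) : Integrable (fun x : ℝ => max 0 (j - |x|)) := by
  have hc : Continuous (fun x : ℝ => max 0 (j - |x|)) := by fun_prop
  refine hc.integrable_of_hasCompactSupport ?_
  refine HasCompactSupport.intro (isCompact_Icc (a := (-j : ℝ)) (b := j)) fun x hx => ?_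
  rw [max_eq_left]
  by_contra h
  rw [not_le] at h
  have h2 : |x| ≤ j := by linarith
  exact hx (abs_le.1 h2)

private theorem K2_cos_int {φ : ℝ → ℝ} (hφ : Integrable φ) (u : ℝ) :
    Integrable (fun x : ℝ => φ x * Real.cos (2 * Real.pi * u * x)) := by
  refine hφ.mul_bdd (c := 1) (by fun_prop) (Filter.Eventually.of_forall fun v => ?_)
  rw [Real.norm_eq_abs]
  exact Real.abs_cos_le_one _

private theorem K2_tent (j : ℕ) {u : ℝ} (hu : u ≠ 0) :
    fT (fun x : ℝ => max 0 ((j : ℝ) - |x|)) u = (Real.sin (Real.pi * j * u) / (Real.pi * u)) ^ 2 := by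
  rcases Nat.eq_zero_or_pos j with hj | hj
  · subst hj
    have h1 : ∀ x : ℝ, max 0 (((0 : ℕ) : ℝ) - |x|) = 0 := fun x => by
      rw [max_eq_left]
      simp
    simp only [fT, h1]
    simp
  · have hj0 : (0 : ℝ) < j := by exact_mod_cast hj
    have h2 := Measure.integral_comp_mul_left
      (fun x : ℝ => max 0 ((j : ℝ) - |x|) * Real.cos (2 * Real.pi * u * x)) (j : ℝ)
    have h3 : ∀ β : ℝ, max 0 ((j : ℝ) - |(j : ℝ) * β|) * Real.cos (2 * Real.pi * u * ((j : ℝ) * β)) =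
        (j : ℝ) * (max 0 (1 - |β|) * Real.cos (2 * Real.pi * (j * u) * β)) := by
      intro β
      rw [abs_mul, abs_of_pos hj0, show (j : ℝ) - j * |β| = j * (1 - |β|) by ring,
        show 2 * Real.pi * u * ((j : ℝ) * β) = 2 * Real.pi * (j * u) * β by ring]
      have h4 : max 0 ((j : ℝ) * (1 - |β|)) = j * max 0 (1 - |β|) := by
        rw [mul_max_of_nonneg _ _ hj0.le, mul_zero]
      rw [h4]
      ring
    simp only [h3] at h2
    rw [integral_const_mul, tent_hat _ (mul_ne_zero hj0.ne' hu), smul_eq_mul, abs_of_pos (inv_pos.2 hj0)] at h2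
    have h5 : fT (fun x : ℝ => max 0 ((j : ℝ) - |x|)) u =
        (j : ℝ) * ((j : ℝ) * (Real.sin (Real.pi * (j * u)) / (Real.pi * (j * u))) ^ 2) := by
      rw [h2, ← mul_assoc, mul_inv_cancel₀ hj0.ne', one_mul]
      rfl
    rw [h5, show Real.pi * (j * u) = Real.pi * j * u by ring]
    have hπ := Real.pi_ne_zero
    field_simp

/-- the Fourier transform of `kN` -/
private theorem K2_form (N : ℕ) {u : ℝ} (hu : u ≠ 0) :
    fT (kN N) u = ∑ j ∈ Finset.Icc 2 N, (Real.sin (Real.pi * j * u) / (Real.pi * u)) ^ 2 / ((j : ℝ) ^ 2 - 1) +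
      (Real.sin (Real.pi * N * u) / (Real.pi * u)) ^ 2 / (N : ℝ) := by
  have h1 : ∀ x : ℝ, kN N x * Real.cos (2 * Real.pi * u * x) =
      (∑ j ∈ Finset.Icc 2 N, (max 0 ((j : ℝ) - |x|) * Real.cos (2 * Real.pi * u * x)) / ((j : ℝ) ^ 2 - 1)) +
        (max 0 ((N : ℝ) - |x|) * Real.cos (2 * Real.pi * u * x)) / (N : ℝ) := by
    intro x
    unfold kN
    rw [add_mul, Finset.sum_mul]
    congr 1
    · exact Finset.sum_congr rfl fun j _ => by ring
    · ring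
  have hI : ∀ j : ℕ, Integrable fun x : ℝ => max 0 ((j : ℝ) - |x|) * Real.cos (2 * Real.pi * u * x) :=
    fun j => K2_cos_int (K2_tent_int _) u
  have h2 : ∀ j : ℕ, ∫ x : ℝ, max 0 ((j : ℝ) - |x|) * Real.cos (2 * Real.pi * u * x) =
      (Real.sin (Real.pi * j * u) / (Real.pi * u)) ^ 2 := fun j => K2_tent j hu
  unfold fT
  simp only [h1]
  rw [integral_add (integrable_finsetSum _ fun j _ => (hI j).div_const _) ((hI N).div_const _),
    integral_finsetSum _ fun j _ => (hI j).div_const _, integral_div, h2]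
  congr 1
  refine Finset.sum_congr rfl fun j _ => ?_
  rw [integral_div, h2]

private theorem K2_int (N : ℕ) : Integrable (kN N) := by
  have h1 : kN N = fun x : ℝ => (∑ j ∈ Finset.Icc 2 N, (max 0 ((j : ℝ) - |x|)) / ((j : ℝ) ^ 2 - 1)) +
        (max 0 ((N : ℝ) - |x|)) / (N : ℝ) := rfl
  rw [h1]
  exact (integrable_finsetSum _ fun j _ => (K2_tent_int _).div_const _).add ((K2_tent_int _).div_const _)

private theorem K2_den {j N : ℕ} (hj : j ∈ Finset.Icc 2 N) : (3 / 4 : ℝ) * (j : ℝ) ^ 2 ≤ (j : ℝ) ^ 2 - 1 ∧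
    (2 : ℝ) ≤ j := by
  have h1 : (2 : ℝ) ≤ j := by exact_mod_cast (Finset.mem_Icc.1 hj).1
  exact ⟨by nlinarith, h1⟩

theorem fTk_nonneg (N : ℕ) (u : ℝ) : 0 ≤ fT (kN N) u := by
  by_cases hu : u = 0
  · subst hu
    rw [fT_zero]
    exact integral_nonneg (kN_nonneg N)
  · rw [K2_form N hu]
    refine add_nonneg (Finset.sum_nonneg fun j hj => ?_) (by positivity)
    obtain ⟨h1, h2⟩ := K2_den hj
    exact div_nonneg (by positivity) (le_trans (by positivity) h1)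

theorem fTk_le {N : ℕ} (hN : 1 ≤ N) (u : ℝ) : fT (kN N) u ≤ 2 * N := by
  refine le_trans ?_ (kN_int hN).2
  unfold fT
  refine integral_mono (K2_cos_int (K2_int N) u) (K2_int N) fun x => ?_
  exact mul_le_of_le_one_right (kN_nonneg N x) (Real.cos_le_one _)

private theorem K2_term {a s j : ℝ} (ha : 0 < a) (hj : 2 ≤ j) (h1 : s ^ 2 ≤ 1) (h2 : s ^ 2 ≤ (a * j) ^ 2) :
    s ^ 2 / a ^ 2 / (j ^ 2 - 1) ≤ 16 / 3 * (1 / ((1 + a * (j - 1)) * (1 + a * j))) := by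
  have hj0 : 0 < j := by linarith
  have haj : 0 < a * j := mul_pos ha hj0
  have haj1 : 0 ≤ a * (j - 1) := mul_nonneg ha.le (by linarith)
  have h3 : s ^ 2 * (1 + a * j) ^ 2 ≤ 4 * (a * j) ^ 2 := by
    rcases le_total (a * j) 1 with h | h
    · have h4 : (1 + a * j) ^ 2 ≤ 4 := by nlinarith
      calc s ^ 2 * (1 + a * j) ^ 2 ≤ (a * j) ^ 2 * 4 := by gcongr
        _ = 4 * (a * j) ^ 2 := by ring
    · have h4 : (1 + a * j) ^ 2 ≤ 4 * (a * j) ^ 2 := by nlinarith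
      calc s ^ 2 * (1 + a * j) ^ 2 ≤ 1 * (4 * (a * j) ^ 2) := by gcongr
        _ = 4 * (a * j) ^ 2 := by ring
  have h5 : (1 + a * (j - 1)) * (1 + a * j) ≤ (1 + a * j) ^ 2 := by
    rw [sq]
    have : 1 + a * (j - 1) ≤ 1 + a * j := by nlinarith
    gcongr
  have h6 : s ^ 2 * ((1 + a * (j - 1)) * (1 + a * j)) ≤ 4 * (a * j) ^ 2 :=
    (mul_le_mul_of_nonneg_left h5 (sq_nonneg s)).trans h3
  have h7 : (3 / 4 : ℝ) * j ^ 2 ≤ j ^ 2 - 1 := by nlinarith
  have h8 : 0 < j ^ 2 - 1 := lt_of_lt_of_le (by positivity) h7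
  rw [div_div, div_le_iff₀ (by positivity), mul_one_div, div_mul_eq_mul_div, le_div_iff₀ (by positivity)]
  have h9 : 4 * (a * j) ^ 2 ≤ 16 / 3 * (a ^ 2 * (j ^ 2 - 1)) := by
    have : a ^ 2 * (3 / 4 * j ^ 2) ≤ a ^ 2 * (j ^ 2 - 1) := by gcongr
    nlinarith
  exact h6.trans h9

private theorem K2_tel {a : ℝ} (ha : 0 < a) (w : ℕ → ℝ) (hw : ∀ j : ℕ, 2 ≤ j →
    w j ≤ 16 / 3 * (1 / ((1 + a * ((j : ℝ) - 1)) * (1 + a * j)))) (N : ℕ) :
    a * ∑ j ∈ Finset.Icc 2 (N + 1), w j ≤ 16 / 3 * (1 / (1 + a) - 1 / (1 + a * ((N : ℝ) + 1))) := by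
  induction N with
  | zero => simp
  | succ N ih =>
    rw [Finset.sum_Icc_succ_top (by omega), mul_add]
    have h1 := hw (N + 1 + 1) (by omega)
    have hx : 0 < 1 + a * ((N : ℝ) + 1) := by positivity
    have hy : 0 < 1 + a * ((N : ℝ) + 1 + 1) := by positivity
    have h2 : a * (16 / 3 * (1 / ((1 + a * (((N + 1 + 1 : ℕ) : ℝ) - 1)) * (1 + a * ((N + 1 + 1 : ℕ) : ℝ))))) =
        16 / 3 * (1 / (1 + a * ((N : ℝ) + 1)) - 1 / (1 + a * ((N : ℝ) + 1 + 1))) := by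
      push_cast
      rw [show (N : ℝ) + 1 + 1 - 1 = (N : ℝ) + 1 by ring, div_sub_div _ _ hx.ne' hy.ne']
      rw [show 1 * (1 + a * ((N : ℝ) + 1 + 1)) - (1 + a * ((N : ℝ) + 1)) * 1 = a by ring]
      ring
    have h3 := mul_le_mul_of_nonneg_left h1 ha.le
    rw [h2] at h3
    push_cast
    linarith

theorem fTk_le' : ∃ C : ℝ, 0 < C ∧ ∀ (N : ℕ) (u : ℝ), 1 ≤ N → fT (kN N) u * |u| ≤ C := by
  refine ⟨3, by norm_num, fun N u hN => ?_⟩
  by_cases hu : u = 0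
  · subst hu
    simp
  have hπ := Real.pi_pos
  have hπ3 := Real.pi_gt_three
  have hu0 : 0 < |u| := abs_pos.2 hu
  obtain ⟨a, ha⟩ : ∃ a : ℝ, a = Real.pi * |u| := ⟨_, rfl⟩
  have ha0 : 0 < a := by rw [ha]; positivity
  have hsq : (Real.pi * u) ^ 2 = a ^ 2 := by
    rw [ha, mul_pow, mul_pow, sq_abs]
  have hs2 : ∀ j : ℕ, Real.sin (Real.pi * j * u) ^ 2 ≤ (a * j) ^ 2 := by
    intro j
    have h1 : |Real.sin (Real.pi * j * u)| ≤ |Real.pi * j * u| := Real.abs_sin_le_abs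
    have h2 : Real.sin (Real.pi * j * u) ^ 2 ≤ (Real.pi * j * u) ^ 2 := sq_le_sq.2 h1
    refine h2.trans_eq ?_
    rw [show Real.pi * j * u = (Real.pi * u) * j by ring, mul_pow, hsq, mul_pow]
  have hs1 : ∀ j : ℕ, Real.sin (Real.pi * j * u) ^ 2 ≤ 1 := fun j => Real.sin_sq_le_one _
  obtain ⟨M, rfl⟩ : ∃ M, N = M + 1 := ⟨N - 1, by omega⟩
  rw [K2_form _ hu]
  simp only [div_pow, hsq]
  have h1 := K2_tel ha0 (fun j => Real.sin (Real.pi * j * u) ^ 2 / a ^ 2 / ((j : ℝ) ^ 2 - 1))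
    (fun j hj => K2_term ha0 (by exact_mod_cast hj) (hs1 j) (hs2 j)) M
  have h2 : 1 / (1 + a) - 1 / (1 + a * ((M : ℝ) + 1)) ≤ 1 := by
    have e1 : 1 / (1 + a) ≤ 1 := by
      rw [div_le_one (by positivity)]
      linarith
    have e2 : 0 ≤ 1 / (1 + a * ((M : ℝ) + 1)) := by positivity
    linarith
  have hN0 : (0 : ℝ) < ((M + 1 : ℕ) : ℝ) := by positivity
  have h3 : a * (Real.sin (Real.pi * ((M + 1 : ℕ) : ℝ) * u) ^ 2 / a ^ 2 / ((M + 1 : ℕ) : ℝ)) ≤ 1 := by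
    have e1 : |Real.sin (Real.pi * ((M + 1 : ℕ) : ℝ) * u)| ≤ a * ((M + 1 : ℕ) : ℝ) := by
      have h1 : |Real.sin (Real.pi * ((M + 1 : ℕ) : ℝ) * u)| ≤ |Real.pi * ((M + 1 : ℕ) : ℝ) * u| := Real.abs_sin_le_abs
      refine h1.trans_eq ?_
      rw [abs_mul, abs_mul, abs_of_pos hπ, abs_of_pos hN0, ha]
      ring
    have e2 : |Real.sin (Real.pi * ((M + 1 : ℕ) : ℝ) * u)| ≤ 1 := Real.abs_sin_le_one _
    have e3 : Real.sin (Real.pi * ((M + 1 : ℕ) : ℝ) * u) ^ 2 ≤ a * ((M + 1 : ℕ) : ℝ) := by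
      rw [← sq_abs, sq]
      calc |Real.sin (Real.pi * ((M + 1 : ℕ) : ℝ) * u)| * |Real.sin (Real.pi * ((M + 1 : ℕ) : ℝ) * u)| ≤
            (a * ((M + 1 : ℕ) : ℝ)) * 1 := by gcongr
        _ = _ := mul_one _
    rw [div_div, ← mul_div_assoc, div_le_one (by positivity)]
    have e4 := mul_le_mul_of_nonneg_left e3 ha0.le
    nlinarith
  have h4 : a * (∑ j ∈ Finset.Icc 2 (M + 1), Real.sin (Real.pi * j * u) ^ 2 / a ^ 2 / ((j : ℝ) ^ 2 - 1) +
      Real.sin (Real.pi * ((M + 1 : ℕ) : ℝ) * u) ^ 2 / a ^ 2 / ((M + 1 : ℕ) : ℝ)) ≤ 16 / 3 + 1 := by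
    rw [mul_add]
    have e1 := mul_le_mul_of_nonneg_left h2 (by norm_num : (0 : ℝ) ≤ 16 / 3)
    linarith
  set Q : ℝ := ∑ j ∈ Finset.Icc 2 (M + 1), Real.sin (Real.pi * j * u) ^ 2 / a ^ 2 / ((j : ℝ) ^ 2 - 1) +
      Real.sin (Real.pi * ((M + 1 : ℕ) : ℝ) * u) ^ 2 / a ^ 2 / ((M + 1 : ℕ) : ℝ) with hQ
  rw [ha] at h4
  have h5 : Real.pi * (Q * |u|) ≤ 16 / 3 + 1 := by
    refine le_trans (le_of_eq ?_) h4
    ring
  by_contra hcon
  push Not at hcon
  have h6 : 3 * 3 < Real.pi * (Q * |u|) := by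
    calc (3 : ℝ) * 3 < Real.pi * 3 := by nlinarith
      _ < Real.pi * (Q * |u|) := by gcongr
  linarith

theorem fTk_ge : ∃ c : ℝ, 0 < c ∧ ∀ (N : ℕ) (u : ℝ), 1 ≤ N → 2 / (N : ℝ) ≤ u → u ≤ 1 / 16 → c ≤ fT (kN N) u * u := by
  have hπ := Real.pi_pos
  refine ⟨1 / Real.pi ^ 2, by positivity, fun N u hN h1 h2 => ?_⟩
  have hN0 : (0 : ℝ) < N := by exact_mod_cast hN
  have hu : 0 < u := lt_of_lt_of_le (by positivity) h1
  obtain ⟨M, hM⟩ : ∃ M : ℕ, M = ⌊1 / (2 * u)⌋₊ := ⟨_, rfl⟩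
  have hMle : (M : ℝ) ≤ 1 / (2 * u) := by
    rw [hM]
    exact Nat.floor_le (by positivity)
  have hMge : 1 / (2 * u) < (M : ℝ) + 1 := by
    rw [hM]
    exact Nat.lt_floor_add_one _
  have hu2 : 8 ≤ 1 / (2 * u) := by
    rw [le_div_iff₀ (by positivity)]
    linarith
  have hMN : M ≤ N := by
    have h3 : (M : ℝ) ≤ N := by
      refine hMle.trans ?_
      rw [div_le_iff₀ (by positivity)]
      rw [div_le_iff₀ hN0] at h1
      nlinarith
    exact_mod_cast h3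
  have hM2 : 2 ≤ M := by
    have h3 : (7 : ℝ) < M := by linarith
    have h4 : 7 < M := by exact_mod_cast h3
    omega
  rw [K2_form N hu.ne']
  have hterm : ∀ j ∈ Finset.Icc 2 N, 0 ≤ (Real.sin (Real.pi * j * u) / (Real.pi * u)) ^ 2 / ((j : ℝ) ^ 2 - 1) := by
    intro j hj
    obtain ⟨h3, h4⟩ := K2_den hj
    exact div_nonneg (by positivity) (le_trans (by positivity) h3)
  have hlow : ∀ j ∈ Finset.Icc 2 M, 4 / Real.pi ^ 2 ≤
      (Real.sin (Real.pi * j * u) / (Real.pi * u)) ^ 2 / ((j : ℝ) ^ 2 - 1) := by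
    intro j hj
    obtain ⟨h3, h4⟩ := K2_den hj
    have h5 : (j : ℝ) ≤ M := by exact_mod_cast (Finset.mem_Icc.1 hj).2
    have h6 : (j : ℝ) * u ≤ 1 / 2 := by
      have h7 := h5.trans hMle
      rw [le_div_iff₀ (by positivity)] at h7
      linarith
    have h8 : 2 / Real.pi * (Real.pi * j * u) ≤ Real.sin (Real.pi * j * u) := by
      refine Real.mul_le_sin (by positivity) ?_
      nlinarith
    have h9 : 2 / Real.pi * (Real.pi * j * u) = 2 * (j * u) := by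
      field_simp
    rw [h9] at h8
    have h10 : 2 * j / Real.pi ≤ Real.sin (Real.pi * j * u) / (Real.pi * u) := by
      rw [div_le_div_iff₀ hπ (by positivity)]
      nlinarith
    have h11 : (2 * j / Real.pi) ^ 2 ≤ (Real.sin (Real.pi * j * u) / (Real.pi * u)) ^ 2 :=
      pow_le_pow_left₀ (by positivity) h10 2
    have h12 : (0 : ℝ) < (j : ℝ) ^ 2 - 1 := lt_of_lt_of_le (by positivity) h3
    rw [le_div_iff₀ h12]
    refine le_trans ?_ h11
    rw [div_pow, div_mul_eq_mul_div]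
    gcongr
    nlinarith
  have hsum : ((M : ℝ) - 1) * (4 / Real.pi ^ 2) ≤
      ∑ j ∈ Finset.Icc 2 N, (Real.sin (Real.pi * j * u) / (Real.pi * u)) ^ 2 / ((j : ℝ) ^ 2 - 1) := by
    calc ((M : ℝ) - 1) * (4 / Real.pi ^ 2) = ∑ j ∈ Finset.Icc 2 M, 4 / Real.pi ^ 2 := by
          rw [Finset.sum_const, Nat.card_Icc, nsmul_eq_mul, Nat.cast_sub (by omega)]
          push_cast
          ring
      _ ≤ ∑ j ∈ Finset.Icc 2 M, (Real.sin (Real.pi * j * u) / (Real.pi * u)) ^ 2 / ((j : ℝ) ^ 2 - 1) :=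
          Finset.sum_le_sum hlow
      _ ≤ _ := by
          refine Finset.sum_le_sum_of_subset_of_nonneg (Finset.Icc_subset_Icc_right hMN) fun j hj _ => hterm j hj
  have hlast : 0 ≤ (Real.sin (Real.pi * N * u) / (Real.pi * u)) ^ 2 / (N : ℝ) := by positivity
  have hcount : 1 / (4 * u) ≤ (M : ℝ) - 1 := by
    have e1 : 1 / (2 * u) = 1 / (4 * u) + 1 / (4 * u) := by
      field_simp
      norm_num
    have e2 : 4 ≤ 1 / (4 * u) := by
      rw [le_div_iff₀ (by positivity)]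
      linarith
    linarith
  have hfin : 1 / (4 * u) * (4 / Real.pi ^ 2) * u = 1 / Real.pi ^ 2 := by
    field_simp
  calc 1 / Real.pi ^ 2 = 1 / (4 * u) * (4 / Real.pi ^ 2) * u := hfin.symm
    _ ≤ ((M : ℝ) - 1) * (4 / Real.pi ^ 2) * u := by gcongr
    _ ≤ _ := by
        gcongr
        linarith

/-- the transform of an integrable function with bounded support is smooth -/
private theorem K2_smooth {φ : ℝ → ℝ} (hc : Continuous φ) (hI0 : Integrable φ) (a : ℝ)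
    (hs : ∀ x : ℝ, a ≤ |x| → φ x = 0) : ContDiff ℝ ∞ (fT φ) := by
  have hI : Integrable (fun y : ℝ => (φ y : ℂ)) := hI0.ofReal
  have h1 : ContDiff ℝ ∞ (FourierTransform.fourier (fun y : ℝ => (φ y : ℂ))) := by
    refine Real.contDiff_fourier (N := ⊤) fun n _ => ?_
    have h2 : Integrable (fun v : ℝ => |a| ^ n * φ v) := hI0.const_mul _
    refine h2.mono ?_ (Eventually.of_forall fun v => ?_)
    · have h3 := hc.measurable
      exact ((measurable_norm.pow_const n).mul (Complex.measurable_ofReal.comp h3).norm).aestronglyMeasurable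
    · rw [norm_mul, norm_norm, norm_pow, norm_norm, Complex.norm_real, norm_mul, norm_pow]
      by_cases hv : a ≤ |v|
      · rw [hs v hv, norm_zero, mul_zero, mul_zero]
      · have h4 : ‖v‖ ≤ ‖|a|‖ := by
          rw [Real.norm_eq_abs, Real.norm_eq_abs, abs_abs]
          exact (not_le.1 hv).le.trans (le_abs_self a)
        exact mul_le_mul_of_nonneg_right (pow_le_pow_left₀ (norm_nonneg _) h4 n) (norm_nonneg _)
  have h6 : fT φ = fun x => (FourierTransform.fourier (fun y : ℝ => (φ y : ℂ)) x).re := by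
    funext x
    have h7 : Integrable (fun v : ℝ => Complex.exp (((-2 * Real.pi * v * x : ℝ) : ℂ) * Complex.I) • (φ v : ℂ)) := by
      refine hI.bdd_mul (c := 1) (by fun_prop) (Eventually.of_forall fun v => ?_)
      rw [Complex.norm_exp_ofReal_mul_I]
    have h8 : (∫ v : ℝ, Complex.exp (((-2 * Real.pi * v * x : ℝ) : ℂ) * Complex.I) • (φ v : ℂ)).re =
        ∫ v : ℝ, (Complex.exp (((-2 * Real.pi * v * x : ℝ) : ℂ) * Complex.I) • (φ v : ℂ)).re :=
      (integral_re h7).symm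
    rw [Real.fourier_real_eq_integral_exp_smul, h8]
    refine integral_congr_ae (Eventually.of_forall fun v => ?_)
    simp only [smul_eq_mul]
    rw [Complex.re_mul_ofReal, Complex.exp_ofReal_mul_I_re, mul_comm,
      show -2 * Real.pi * v * x = -(2 * Real.pi * x * v) by ring, Real.cos_neg]
  rw [h6]
  exact Complex.reCLM.contDiff.comp h1

theorem kap_es {W : ℝ → ℝ} (hW : EB W (1 / 8)) (N : ℕ) : ES (kap W N) (1 / 8) := by
  refine ⟨?_, fun u => ?_, fun u hu => ?_⟩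
  · exact hW.smooth.mul (K2_smooth (kN_cont N) (K2_int N) N fun x hx => kN_supp hx)
  · unfold kap
    rw [hW.even, fT_even]
  · unfold kap
    rw [hW.supp u hu, zero_mul]

theorem kap_nonneg {W : ℝ → ℝ} (hW : EB W (1 / 8)) (N : ℕ) (u : ℝ) : 0 ≤ kap W N u :=
  mul_nonneg (hW.nonneg u) (fTk_nonneg N u)

theorem kap_zero {W : ℝ → ℝ} (hW : EB W (1 / 8)) {N : ℕ} (hN : 1 ≤ N) : kap W N 0 ≤ 2 * N := by
  unfold kap
  exact (mul_le_of_le_one_left (fTk_nonneg N 0) (hW.le_one 0)).trans (fTk_le hN 0)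

end Pool.Agent.Lib.MP_00e05b_nt.Bar
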