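import Pool.Agent.Lib.MP_00e05b_nt.Bar.K1
import Pool.Agent.Lib.MP_00e05b_nt.Mont.G1

/-!
# LEAF K3: second differences and smoothing of `kN`

* `max 0 (j - |x|) = (|x - j| + |x + j|)/2 - |x|` (`j ≥ 0`) and `|x + v| + |x - v| - 2|x| = 2 max 0 (|v| - |x|)`, so the second difference of the tent is
  `max 0 (|v| - |x - j|) + max 0 (|v| - |x + j|) - 2 max 0 (|v| - |x|)`, of `L¹` norm at most `4 v²`; weights `∑ 1/(j² - 1) + 1/N ≤ 2`: `kN_second`.
* `Φ = fT W` is even, `∫ Φ = W 0 = 1` (`fT_int`), `|Φ x| ≤ C/(1 + x²)²` (`fT_smooth`). `fT (kap W N) x = ∫ W(u) fT (kN N) u cos 2πxu du =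
  ∫ kN(y) (Φ (x - y) + Φ (x + y))/2 dy = ∫ Φ(v) kN(x - v) dv` (Fubini, as `MJ_formula` in `Gap.MJ`), hence
  `kN x - fT (kap W N) x = (1/2) ∫ Φ(v) (2 kN x - kN (x - v) - kN (x + v)) dv` and `∫ |kN - fT (kap W N)| ≤ (1/2) ∫ |Φ(v)| 8 v² dv` (Tonelli).
-/

open Complex Set Filter Topology MeasureTheory

namespace Pool.Agent.Lib.MP_00e05b_nt.Bar

open Pool.Agent.Lib.MP_00e05b_nt Pool.Agent.Lib.MP_00e05b_nt.Mont Pool.Agent.Lib.MP_00e05b_nt.Gap

private lemma K3_abs (x v : ℝ) : |x + v| + |x - v| - 2 * |x| = 2 * max 0 (|v| - |x|) := by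
  rcases abs_cases (x + v) with ⟨h1, h1'⟩ | ⟨h1, h1'⟩ <;>
  rcases abs_cases (x - v) with ⟨h2, h2'⟩ | ⟨h2, h2'⟩ <;>
  rcases abs_cases x with ⟨h3, h3'⟩ | ⟨h3, h3'⟩ <;>
  rcases abs_cases v with ⟨h4, h4'⟩ | ⟨h4, h4'⟩ <;>
  rcases le_total (|v| - |x|) 0 with h5 | h5 <;>
  first
  | rw [max_eq_left h5]
    linarith
  | rw [max_eq_right h5]
    linarith

/-- The second difference of a tent. -/
private noncomputable def K3_d (v j x : ℝ) : ℝ :=
  max 0 (|v| - |x - j|) + max 0 (|v| - |x + j|) - 2 * max 0 (|v| - |x|)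

private lemma K3_dd {j : ℝ} (hj : 0 ≤ j) (v x : ℝ) :
    max 0 (j - |x + v|) + max 0 (j - |x - v|) - 2 * max 0 (j - |x|) = K3_d v j x := by
  have h0 : ∀ y : ℝ, max 0 (j - |y|) = (|y + j| + |y - j|) / 2 - |y| := by
    intro y
    have h := K3_abs y j
    rw [abs_of_nonneg hj] at h
    linarith
  have h1 := K3_abs (x - j) v
  have h2 := K3_abs (x + j) v
  have h3 := K3_abs x v
  rw [h0, h0, h0, K3_d]
  rw [show x - j + v = x + v - j by ring, show x - j - v = x - v - j by ring] at h1
  rw [show x + j + v = x + v + j by ring, show x + j - v = x - v + j by ring] at h2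
  linarith

private lemma K3_w_int (a : ℝ) : Integrable fun y : ℝ => max 0 (a - |y|) := by
  refine (by fun_prop : Continuous fun y : ℝ => max 0 (a - |y|)).integrable_of_hasCompactSupport ?_
  refine HasCompactSupport.intro (isCompact_Icc (a := (-a : ℝ)) (b := a)) fun x hx => ?_
  refine max_eq_left ?_
  by_contra h
  rw [not_le, sub_pos, abs_lt] at h
  exact hx ⟨h.1.le, h.2.le⟩

private lemma K3_w {a : ℝ} (ha : 0 ≤ a) : ∫ y : ℝ, max 0 (a - |y|) = a ^ 2 := by
  rw [integral_comp_abs (f := fun y => max 0 (a - y))]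
  have h1 : ∫ y in Ioi (0 : ℝ), max 0 (a - y) = ∫ y in Ioc (0 : ℝ) a, max 0 (a - y) := by
    refine setIntegral_eq_of_subset_of_forall_sdiff_eq_zero measurableSet_Ioi Ioc_subset_Ioi_self ?_
    intro y hy
    have h : a < y := by
      by_contra h
      exact hy.2 ⟨hy.1, not_lt.1 h⟩
    exact max_eq_left (by linarith)
  have h2 : ∫ y in Ioc (0 : ℝ) a, max 0 (a - y) = ∫ y in Ioc (0 : ℝ) a, (a - y) := by
    refine setIntegral_congr_fun measurableSet_Ioc fun y hy => ?_
    exact max_eq_right (by linarith [hy.2])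
  rw [h1, h2, ← intervalIntegral.integral_of_le ha, intervalIntegral.integral_sub (by simp) (by simp),
    intervalIntegral.integral_const, integral_id, smul_eq_mul]
  ring

private lemma K3_d_int (v j : ℝ) : Integrable (K3_d v j) := by
  have h := K3_w_int |v|
  exact ((h.comp_sub_right j).add (h.comp_add_right j)).sub (h.const_mul 2)

private lemma K3_d_le (v j : ℝ) : ∫ x, |K3_d v j x| ≤ 4 * v ^ 2 := by
  have h := K3_w_int |v|
  have h1 : Integrable fun x : ℝ => max 0 (|v| - |x - j|) := h.comp_sub_right j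
  have h2 : Integrable fun x : ℝ => max 0 (|v| - |x + j|) := h.comp_add_right j
  have h3 : ∫ x, (max 0 (|v| - |x - j|) + max 0 (|v| - |x + j|) + 2 * max 0 (|v| - |x|)) = 4 * v ^ 2 := by
    have h12 : Integrable fun x : ℝ => max 0 (|v| - |x - j|) + max 0 (|v| - |x + j|) := h1.add h2
    rw [integral_add h12 (h.const_mul 2), integral_add h1 h2, integral_const_mul,
      integral_sub_right_eq_self (fun y : ℝ => max 0 (|v| - |y|)) j,
      integral_add_right_eq_self (fun y : ℝ => max 0 (|v| - |y|)) j, K3_w (abs_nonneg v), sq_abs]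
    ring
  rw [← h3]
  refine integral_mono (K3_d_int v j).abs ((h1.add h2).add (h.const_mul 2)) fun x => ?_
  simp only [K3_d]
  have e1 : 0 ≤ max 0 (|v| - |x - j|) := le_max_left _ _
  have e2 : 0 ≤ max 0 (|v| - |x + j|) := le_max_left _ _
  have e3 : 0 ≤ max 0 (|v| - |x|) := le_max_left _ _
  rw [abs_le]
  constructor <;> linarith

private lemma K3_kN (N : ℕ) (v x : ℝ) : kN N (x + v) + kN N (x - v) - 2 * kN N x =
    ∑ j ∈ Finset.Icc 2 N, K3_d v j x / ((j : ℝ) ^ 2 - 1) + K3_d v N x / N := by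
  have h1 : ∀ j ∈ Finset.Icc 2 N, K3_d v j x / ((j : ℝ) ^ 2 - 1) =
      max 0 ((j : ℝ) - |x + v|) / ((j : ℝ) ^ 2 - 1) + max 0 ((j : ℝ) - |x - v|) / ((j : ℝ) ^ 2 - 1) -
        2 * (max 0 ((j : ℝ) - |x|) / ((j : ℝ) ^ 2 - 1)) := by
    intro j _
    rw [← K3_dd (Nat.cast_nonneg j)]
    ring
  rw [Finset.sum_congr rfl h1, Finset.sum_sub_distrib, Finset.sum_add_distrib, ← Finset.mul_sum,
    ← K3_dd (Nat.cast_nonneg N)]
  unfold kN
  ring

private lemma K3_sum {N : ℕ} (hN : 1 ≤ N) :
    ∑ j ∈ Finset.Icc 2 N, 1 / ((j : ℝ) ^ 2 - 1) =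
      3 / 4 - 1 / (2 * (N : ℝ)) - 1 / (2 * ((N : ℝ) + 1)) := by
  induction N, hN using Nat.le_induction with
  | base =>
    rw [Finset.Icc_eq_empty (by norm_num), Finset.sum_empty]
    norm_num
  | succ n hn ih =>
    rw [Finset.sum_Icc_succ_top (by omega), ih]
    have h1 : (1 : ℝ) ≤ n := by exact_mod_cast hn
    push_cast
    have h2 : ((n : ℝ) + 1) ^ 2 - 1 = n * (n + 2) := by ring
    rw [h2]
    field_simp
    ring

theorem kN_second {N : ℕ} (hN : 1 ≤ N) (v : ℝ) :
    Integrable (fun x => kN N (x + v) + kN N (x - v) - 2 * kN N x) ∧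
    ∫ x, |kN N (x + v) + kN N (x - v) - 2 * kN N x| ≤ 8 * v ^ 2 := by
  have hN1 : (1 : ℝ) ≤ N := by exact_mod_cast hN
  simp only [K3_kN]
  have hI : Integrable fun x => ∑ j ∈ Finset.Icc 2 N, K3_d v j x / ((j : ℝ) ^ 2 - 1) :=
    integrable_finsetSum _ fun j _ => (K3_d_int v j).div_const _
  have hJ : Integrable fun x => ∑ j ∈ Finset.Icc 2 N, |K3_d v j x| / ((j : ℝ) ^ 2 - 1) :=
    integrable_finsetSum _ fun j _ => (K3_d_int v j).abs.div_const _
  have hpos : ∀ j ∈ Finset.Icc 2 N, 0 < (j : ℝ) ^ 2 - 1 := by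
    intro j hj
    have h2 : (2 : ℝ) ≤ j := by exact_mod_cast (Finset.mem_Icc.1 hj).1
    nlinarith
  refine ⟨hI.add ((K3_d_int v N).div_const _), ?_⟩
  calc ∫ x, |∑ j ∈ Finset.Icc 2 N, K3_d v j x / ((j : ℝ) ^ 2 - 1) + K3_d v N x / N|
      ≤ ∫ x, (∑ j ∈ Finset.Icc 2 N, |K3_d v j x| / ((j : ℝ) ^ 2 - 1) + |K3_d v N x| / N) := by
        refine integral_mono (hI.add ((K3_d_int v N).div_const _)).abs
          (hJ.add ((K3_d_int v N).abs.div_const _)) fun x => ?_
        refine (abs_add_le _ _).trans (add_le_add ?_ ?_)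
        · refine (Finset.abs_sum_le_sum_abs _ _).trans (Finset.sum_le_sum fun j hj => ?_)
          rw [abs_div, abs_of_pos (hpos j hj)]
        · rw [abs_div, Nat.abs_cast]
    _ = ∑ j ∈ Finset.Icc 2 N, (∫ x, |K3_d v j x|) / ((j : ℝ) ^ 2 - 1) + (∫ x, |K3_d v N x|) / N := by
        rw [integral_add hJ ((K3_d_int v N).abs.div_const _), integral_div]
        congr 1
        rw [integral_finsetSum _ fun (j : ℕ) _ => (K3_d_int v j).abs.div_const ((j : ℝ) ^ 2 - 1)]
        exact Finset.sum_congr rfl fun j _ => integral_div _ _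
    _ ≤ ∑ j ∈ Finset.Icc 2 N, 4 * v ^ 2 / ((j : ℝ) ^ 2 - 1) + 4 * v ^ 2 / N := by
        refine add_le_add (Finset.sum_le_sum fun j hj => ?_) ?_
        · exact div_le_div_of_nonneg_right (K3_d_le v j) (hpos j hj).le
        · exact div_le_div_of_nonneg_right (K3_d_le v N) (Nat.cast_nonneg N)
    _ = 4 * v ^ 2 * (∑ j ∈ Finset.Icc 2 N, 1 / ((j : ℝ) ^ 2 - 1) + 1 / N) := by
        rw [mul_add, Finset.mul_sum]
        congr 1
        · exact Finset.sum_congr rfl fun j _ => by ring
        · ring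
    _ ≤ 4 * v ^ 2 * 2 := by
        refine mul_le_mul_of_nonneg_left ?_ (by positivity)
        rw [K3_sum hN]
        have h1 : 0 ≤ 1 / (2 * (N : ℝ)) := by positivity
        have h2 : 0 ≤ 1 / (2 * ((N : ℝ) + 1)) := by positivity
        have h3 : 1 / (N : ℝ) ≤ 1 := by
          rw [div_le_one (by linarith)]
          exact hN1
        linarith
    _ = 8 * v ^ 2 := by ring

private lemma K3_formula {h : ℝ → ℝ} {s : ℝ} (hE : ES h s) {N : ℕ} (hc : Integrable (kN N)) (x : ℝ) :
    fT (kap h N) x = ∫ y, kN N y * ((fT h (x - y) + fT h (x + y)) / 2) := by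
  have hI := hE.integrable
  have h1 : ∀ α, kap h N α * Real.cos (2 * Real.pi * x * α) =
      ∫ y, h α * kN N y * (Real.cos (2 * Real.pi * α * y) * Real.cos (2 * Real.pi * x * α)) := by
    intro α
    rw [kap, fT, ← integral_const_mul, ← integral_mul_const]
    refine integral_congr_ae (Eventually.of_forall fun y => ?_)
    simp only
    ring
  have h2 : Integrable (Function.uncurry fun α y : ℝ => h α * kN N y *
      (Real.cos (2 * Real.pi * α * y) * Real.cos (2 * Real.pi * x * α))) (volume.prod volume) := by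
    have h3 : Integrable (fun z : ℝ × ℝ => h z.1 * kN N z.2) (volume.prod volume) := hI.mul_prod hc
    have h4 := h3.mul_bdd (c := 1) (g := fun z : ℝ × ℝ =>
      Real.cos (2 * Real.pi * z.1 * z.2) * Real.cos (2 * Real.pi * x * z.1)) (by fun_prop)
      (Eventually.of_forall fun z => by
        rw [norm_mul, Real.norm_eq_abs, Real.norm_eq_abs]
        exact mul_le_one₀ (Real.abs_cos_le_one _) (abs_nonneg _) (Real.abs_cos_le_one _))
    exact h4
  rw [fT, integral_congr_ae (Eventually.of_forall h1), integral_integral_swap h2]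
  refine integral_congr_ae (Eventually.of_forall fun y => ?_)
  simp only
  have h5 : ∀ z : ℝ, Integrable fun α => h α * Real.cos (2 * Real.pi * z * α) := by
    intro z
    refine hI.mul_bdd (c := 1) (by fun_prop) (Eventually.of_forall fun v => ?_)
    rw [Real.norm_eq_abs]
    exact Real.abs_cos_le_one _
  have h6 : ∀ α, h α * kN N y * (Real.cos (2 * Real.pi * α * y) * Real.cos (2 * Real.pi * x * α)) =
      kN N y / 2 * (h α * Real.cos (2 * Real.pi * (x - y) * α) +
        h α * Real.cos (2 * Real.pi * (x + y) * α)) := by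
    intro α
    have e1 : 2 * Real.pi * (x - y) * α = 2 * Real.pi * x * α - 2 * Real.pi * α * y := by ring
    have e2 : 2 * Real.pi * (x + y) * α = 2 * Real.pi * x * α + 2 * Real.pi * α * y := by ring
    rw [e1, e2, Real.cos_sub, Real.cos_add]
    ring
  rw [integral_congr_ae (Eventually.of_forall h6), integral_const_mul, integral_add (h5 _) (h5 _)]
  unfold fT
  ring

theorem kN_smooth {W : ℝ → ℝ} (hW : EB W (1 / 8)) : ∃ C : ℝ, 0 ≤ C ∧ ∀ N : ℕ, 1 ≤ N →
    Integrable (fun x => kN N x - fT (kap W N) x) ∧ ∫ x, |kN N x - fT (kap W N) x| ≤ C := by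
  obtain ⟨hCE, -, C0, hC0, hdec⟩ := fT_smooth hW.smooth hW.even ⟨1 / 8, hW.supp⟩
  have hcont : Continuous (fT W) := fT_cont hCE.cont hCE.supp
  have hone : ∫ v, fT W v = 1 := by
    rw [fT_int hCE]
    exact hW.one 0 (by rw [abs_zero]; norm_num)
  have hM : Integrable fun v => |fT W v| * (8 * v ^ 2) := by
    have h1 : Integrable fun v : ℝ => 8 * C0 * (1 + v ^ 2)⁻¹ := (integrable_inv_one_add_sq).const_mul _
    refine h1.mono' (by fun_prop : Continuous fun v => |fT W v| * (8 * v ^ 2)).aestronglyMeasurable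
      (Eventually.of_forall fun v => ?_)
    have h2 := hdec v
    rw [Real.norm_eq_abs, abs_of_nonneg (by positivity)]
    calc |fT W v| * (8 * v ^ 2) ≤ C0 / (1 + v ^ 2) ^ 2 * (8 * (1 + v ^ 2)) := by
          gcongr
          linarith
      _ = 8 * C0 * (1 + v ^ 2)⁻¹ := by
          have : 1 + v ^ 2 ≠ 0 := by positivity
          field_simp
  refine ⟨∫ v, |fT W v| * (8 * v ^ 2), integral_nonneg fun v => by positivity, fun N hN => ?_⟩
  have hk := (kN_int hN).1
  have hkc := kN_cont N
  have hbd : ∀ v, ‖fT W v‖ ≤ C0 := by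
    intro v
    rw [Real.norm_eq_abs]
    refine (hdec v).trans (div_le_self hC0 ?_)
    nlinarith [sq_nonneg v, sq_nonneg (v ^ 2)]
  have hA : ∀ x, Integrable fun v => fT W v * kN N (x - v) := fun x =>
    (hk.comp_sub_left x).bdd_mul (c := C0) hcont.aestronglyMeasurable (Eventually.of_forall hbd)
  have hB : ∀ x, Integrable fun v => fT W v * kN N (x + v) := fun x =>
    (hk.comp_add_left x).bdd_mul (c := C0) hcont.aestronglyMeasurable (Eventually.of_forall hbd)
  have e1 : ∀ x, ∫ y, kN N y * fT W (x - y) = ∫ v, fT W v * kN N (x - v) := by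
    intro x
    rw [← integral_sub_left_eq_self (fun y => kN N y * fT W (x - y)) volume x]
    refine integral_congr_ae (Eventually.of_forall fun v => ?_)
    simp only
    rw [sub_sub_cancel, mul_comm]
  have e2 : ∀ x, ∫ y, kN N y * fT W (x + y) = ∫ v, fT W v * kN N (x - v) := by
    intro x
    rw [← integral_sub_right_eq_self (fun y => kN N y * fT W (x + y)) x]
    refine integral_congr_ae (Eventually.of_forall fun v => ?_)
    simp only
    rw [add_sub_cancel, mul_comm, ← kN_even N (v - x), neg_sub]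
  have e3 : ∀ x, ∫ v, fT W v * kN N (x + v) = ∫ v, fT W v * kN N (x - v) := by
    intro x
    rw [← integral_neg_eq_self (fun v => fT W v * kN N (x - v)) volume]
    refine integral_congr_ae (Eventually.of_forall fun v => ?_)
    simp only
    rw [fT_even, sub_neg_eq_add]
  have e4 : ∀ x, fT (kap W N) x = ∫ v, fT W v * kN N (x - v) := by
    intro x
    have i1 : Integrable fun y => kN N y * fT W (x - y) := by
      have := hA x
      have h := this.comp_sub_left x
      refine h.congr (Eventually.of_forall fun v => ?_)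
      simp only
      rw [sub_sub_cancel, mul_comm]
    have i2 : Integrable fun y => kN N y * fT W (x + y) := by
      have h := (hA x).comp_add_left x
      refine h.congr (Eventually.of_forall fun v => ?_)
      simp only
      rw [show x - (x + v) = -v by ring, kN_even, mul_comm]
    rw [K3_formula hW.es hk]
    have h1 : ∀ y, kN N y * ((fT W (x - y) + fT W (x + y)) / 2) =
        (kN N y * fT W (x - y) + kN N y * fT W (x + y)) / 2 := fun y => by ring
    rw [integral_congr_ae (Eventually.of_forall h1), integral_div, integral_add i1 i2, e1, e2]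
    ring
  have e5 : ∀ x, kN N x - fT (kap W N) x =
      -(1 / 2) * ∫ v, fT W v * (kN N (x + v) + kN N (x - v) - 2 * kN N x) := by
    intro x
    have h1 : ∀ v, fT W v * (kN N (x + v) + kN N (x - v) - 2 * kN N x) =
        fT W v * kN N (x + v) + fT W v * kN N (x - v) - fT W v * (2 * kN N x) := fun v => by ring
    have h2 : Integrable fun v => fT W v * kN N (x + v) + fT W v * kN N (x - v) := (hB x).add (hA x)
    rw [integral_congr_ae (Eventually.of_forall h1), integral_sub h2 (hCE.int.mul_const _),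
      integral_add (hB x) (hA x), e3, e4, integral_mul_const, hone]
    ring
  -- Tonelli
  have hG : Integrable (Function.uncurry fun v x : ℝ =>
      fT W v * (kN N (x + v) + kN N (x - v) - 2 * kN N x)) (volume.prod volume) := by
    have hm : AEStronglyMeasurable (Function.uncurry fun v x : ℝ =>
        fT W v * (kN N (x + v) + kN N (x - v) - 2 * kN N x)) (volume.prod volume) := by
      refine Continuous.aestronglyMeasurable ?_
      simp only [Function.uncurry_def]
      fun_prop
    rw [integrable_prod_iff hm]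
    refine ⟨Eventually.of_forall fun v => (kN_second hN v).1.const_mul (fT W v), ?_⟩
    refine hM.mono' hm.norm.integral_prod_right' (Eventually.of_forall fun v => ?_)
    rw [Real.norm_eq_abs, abs_of_nonneg (integral_nonneg fun x => norm_nonneg _)]
    simp only [Function.uncurry_apply_pair, norm_mul, Real.norm_eq_abs]
    rw [integral_const_mul]
    exact mul_le_mul_of_nonneg_left (kN_second hN v).2 (abs_nonneg _)
  have hGx : Integrable fun x => ∫ v, fT W v * (kN N (x + v) + kN N (x - v) - 2 * kN N x) :=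
    hG.integral_prod_right
  simp only [e5]
  refine ⟨hGx.const_mul _, ?_⟩
  have hGn := hG.norm
  calc ∫ x, |-(1 / 2) * ∫ v, fT W v * (kN N (x + v) + kN N (x - v) - 2 * kN N x)|
      ≤ ∫ x, ∫ v, |fT W v * (kN N (x + v) + kN N (x - v) - 2 * kN N x)| := by
        refine integral_mono (hGx.const_mul _).abs hGn.integral_prod_right fun x => ?_
        simp only
        rw [abs_mul]
        have h1 : |∫ v, fT W v * (kN N (x + v) + kN N (x - v) - 2 * kN N x)| ≤
            ∫ v, |fT W v * (kN N (x + v) + kN N (x - v) - 2 * kN N x)| := abs_integral_le_integral_abs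
        have h2 : |(-(1 / 2) : ℝ)| = 1 / 2 := by norm_num
        rw [h2]
        have h3 := abs_nonneg (∫ v, fT W v * (kN N (x + v) + kN N (x - v) - 2 * kN N x))
        linarith
    _ = ∫ v, ∫ x, |fT W v * (kN N (x + v) + kN N (x - v) - 2 * kN N x)| :=
        (integral_integral_swap hGn).symm
    _ ≤ ∫ v, |fT W v| * (8 * v ^ 2) := by
        refine integral_mono hGn.integral_prod_left hM fun v => ?_
        simp only [abs_mul]
        rw [integral_const_mul]
        exact mul_le_mul_of_nonneg_left (kN_second hN v).2 (abs_nonneg _)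

end Pool.Agent.Lib.MP_00e05b_nt.Bar
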