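import Pool.Agent.Lib.MP_00e05b_nt.Bar.Defs
import Pool.Agent.Lib.MP_2c5684_nt.Mertens

/-!
# P9 / PD: the diagonal limit
-/

open Complex Set Filter Topology MeasureTheory

namespace Pool.Agent.Lib.MP_00e05b_nt.Bar

open Pool.Agent.Lib.MP_00e05b_nt Pool.Agent.Lib.MP_00e05b_nt.Mont Pool.Agent.Lib.MP_00e05b_nt.Gap

private theorem PD_np {n : ℕ} (hn : ¬ n.Prime) :
    ArithmeticFunction.vonMangoldt n * Real.log 2 ≤
      ArithmeticFunction.vonMangoldt n * Real.log n - ArithmeticFunction.vonMangoldt n ^ 2 := by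
  by_cases h : IsPrimePow n
  · obtain ⟨p, k, hp, hk, rfl⟩ := h
    have hp' : p.Prime := hp.nat_prime
    have hk2 : 2 ≤ k := by
      by_contra hlt
      have h1 : k = 1 := by omega
      subst h1
      rw [pow_one] at hn
      exact hn hp'
    rw [ArithmeticFunction.vonMangoldt_apply_pow (by omega), ArithmeticFunction.vonMangoldt_apply_prime hp']
    push_cast
    rw [Real.log_pow]
    have h2 : Real.log 2 ≤ Real.log p := by
      apply Real.log_le_log (by norm_num)
      exact_mod_cast hp'.two_le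
    have h3 : 0 < Real.log 2 := Real.log_pos (by norm_num)
    have hk' : (2 : ℝ) ≤ k := by exact_mod_cast hk2
    have h4 : 2 * Real.log p ≤ k * Real.log p := mul_le_mul_of_nonneg_right hk' (by linarith)
    nlinarith
  · have h0 : ArithmeticFunction.vonMangoldt n = 0 := by
      rw [ArithmeticFunction.vonMangoldt_eq_zero_iff]
      exact h
    rw [h0]
    simp

private theorem PD_mertens : ∃ C : ℝ, 0 ≤ C ∧ ∀ x : ℝ, 1 ≤ x →
    |∑ p ∈ (Finset.range (⌊x⌋₊ + 1)).filter Nat.Prime, Real.log p / p - Real.log x| ≤ C := by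
  set D := ∑' n : ℕ, (ArithmeticFunction.vonMangoldt n * Real.log n -
    ArithmeticFunction.vonMangoldt n ^ 2) / n with hD
  have hD0 : 0 ≤ D := tsum_nonneg fun n => div_nonneg (pp_nonneg n) (Nat.cast_nonneg n)
  have hl2 : 0 < Real.log 2 := Real.log_pos (by norm_num)
  have hl4 : 0 < Real.log 4 := Real.log_pos (by norm_num)
  refine ⟨1 + D / Real.log 2 + Real.log 4 + 4 + Real.log 2, by positivity, fun x hx => ?_⟩
  set N := ⌊x⌋₊ with hN
  have hN1 : 1 ≤ N := Nat.le_floor (by exact_mod_cast hx)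
  have hNpos : (0 : ℝ) < N := by exact_mod_cast hN1
  have hNx : (N : ℝ) ≤ x := Nat.floor_le (by linarith)
  have hxN : x ≤ 2 * N := by
    have h1 := Nat.lt_floor_add_one x
    have h2 : (1 : ℝ) ≤ N := by exact_mod_cast hN1
    linarith
  have hlx1 : Real.log N ≤ Real.log x := Real.log_le_log hNpos hNx
  have hlx2 : Real.log x ≤ Real.log 2 + Real.log N := by
    rw [← Real.log_mul (by norm_num) hNpos.ne']
    exact Real.log_le_log (by linarith) hxN
  have hA1 := Pool.Agent.Lib.MP_2c5684_nt.sum_vM_le N hN1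
  have hA2 := Pool.Agent.Lib.MP_2c5684_nt.le_sum_vM N hN1
  have hsplit : ∑ n ∈ Finset.Icc 1 N, ArithmeticFunction.vonMangoldt n / (n : ℝ) =
      ∑ p ∈ (Finset.range (N + 1)).filter Nat.Prime, Real.log p / p +
        ∑ n ∈ (Finset.Icc 1 N).filter (fun n => ¬ n.Prime),
          ArithmeticFunction.vonMangoldt n / (n : ℝ) := by
    rw [← Finset.sum_filter_add_sum_filter_not (Finset.Icc 1 N) Nat.Prime]
    congr 1
    have hE : (Finset.Icc 1 N).filter Nat.Prime = (Finset.range (N + 1)).filter Nat.Prime := by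
      ext p
      simp only [Finset.mem_filter, Finset.mem_Icc, Finset.mem_range]
      constructor
      · rintro ⟨⟨_, h2⟩, h3⟩
        exact ⟨by omega, h3⟩
      · rintro ⟨h2, h3⟩
        exact ⟨⟨h3.one_lt.le, by omega⟩, h3⟩
    rw [hE]
    refine Finset.sum_congr rfl fun p hp => ?_
    rw [Finset.mem_filter] at hp
    rw [ArithmeticFunction.vonMangoldt_apply_prime hp.2]
  have hB0 : 0 ≤ ∑ n ∈ (Finset.Icc 1 N).filter (fun n => ¬ n.Prime),
      ArithmeticFunction.vonMangoldt n / (n : ℝ) :=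
    Finset.sum_nonneg fun n _ => div_nonneg ArithmeticFunction.vonMangoldt_nonneg (Nat.cast_nonneg n)
  have hB1 : ∑ n ∈ (Finset.Icc 1 N).filter (fun n => ¬ n.Prime),
      ArithmeticFunction.vonMangoldt n / (n : ℝ) ≤ D / Real.log 2 := by
    rw [le_div_iff₀ hl2, Finset.sum_mul]
    refine (Finset.sum_le_sum fun n hn => ?_).trans (pp_summable.sum_le_tsum
      ((Finset.Icc 1 N).filter (fun n => ¬ n.Prime))
      fun n _ => div_nonneg (pp_nonneg n) (Nat.cast_nonneg n))
    rw [Finset.mem_filter] at hn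
    rw [div_mul_eq_mul_div]
    exact div_le_div_of_nonneg_right (PD_np hn.2) (Nat.cast_nonneg n)
  have hA1' : ∑ n ∈ Finset.Icc 1 N, ArithmeticFunction.vonMangoldt n / (n : ℝ) ≤
      Real.log N + (Real.log 4 + 4) := hA1
  have hA2' : Real.log N - 1 ≤ ∑ n ∈ Finset.Icc 1 N, ArithmeticFunction.vonMangoldt n / (n : ℝ) := hA2
  rw [hsplit] at hA1' hA2'
  rw [abs_le]
  constructor
  · linarith
  · linarith [div_nonneg hD0 hl2.le]

/-- the mass of the primes up to `T^u` -/
private theorem PD_mass : ∃ C : ℝ, 0 ≤ C ∧ ∀ T : ℝ, 1 < T → ∀ u : ℝ, 0 ≤ u → u ≤ 1 →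
    |∑ p ∈ ((Finset.range (⌊T⌋₊ + 1)).filter Nat.Prime).filter
      (fun p : ℕ => Real.log p / Real.log T ≤ u), Real.log p / (p * Real.log T) - u| ≤
      C / Real.log T := by
  obtain ⟨C, hC0, hC⟩ := PD_mertens
  refine ⟨C, hC0, fun T hT u hu0 hu1 => ?_⟩
  have hL : 0 < Real.log T := Real.log_pos hT
  have hT0 : 0 < T := by linarith
  have hx : 1 ≤ Real.exp (u * Real.log T) := Real.one_le_exp (by positivity)
  have h1 := hC _ hx
  rw [Real.log_exp] at h1
  have hE : ((Finset.range (⌊T⌋₊ + 1)).filter Nat.Prime).filter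
      (fun p : ℕ => Real.log p / Real.log T ≤ u) =
      (Finset.range (⌊Real.exp (u * Real.log T)⌋₊ + 1)).filter Nat.Prime := by
    ext p
    simp only [Finset.mem_filter, Finset.mem_range, Nat.lt_succ_iff]
    constructor
    · rintro ⟨⟨_, h3⟩, h4⟩
      refine ⟨?_, h3⟩
      have hp : (0 : ℝ) < p := by exact_mod_cast h3.pos
      rw [Nat.le_floor_iff (Real.exp_pos _).le, ← Real.log_le_iff_le_exp hp]
      rwa [div_le_iff₀ hL] at h4
    · rintro ⟨h2, h3⟩
      have hp : (0 : ℝ) < p := by exact_mod_cast h3.pos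
      rw [Nat.le_floor_iff (Real.exp_pos _).le, ← Real.log_le_iff_le_exp hp] at h2
      refine ⟨⟨?_, h3⟩, ?_⟩
      · rw [Nat.le_floor_iff hT0.le]
        rw [← Real.log_le_log_iff hp hT0]
        have h5 : u * Real.log T ≤ 1 * Real.log T := mul_le_mul_of_nonneg_right hu1 hL.le
        linarith
      · rw [div_le_iff₀ hL]
        exact h2
  rw [hE]
  have hS : ∑ p ∈ (Finset.range (⌊Real.exp (u * Real.log T)⌋₊ + 1)).filter Nat.Prime,
      Real.log p / (p * Real.log T) =
      (∑ p ∈ (Finset.range (⌊Real.exp (u * Real.log T)⌋₊ + 1)).filter Nat.Prime,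
        Real.log p / p) / Real.log T := by
    rw [Finset.sum_div]
    refine Finset.sum_congr rfl fun p _ => ?_
    rw [div_div]
  rw [hS]
  have hu : (∑ p ∈ (Finset.range (⌊Real.exp (u * Real.log T)⌋₊ + 1)).filter Nat.Prime,
      Real.log p / p) / Real.log T - u =
      (∑ p ∈ (Finset.range (⌊Real.exp (u * Real.log T)⌋₊ + 1)).filter Nat.Prime,
        Real.log p / p - u * Real.log T) / Real.log T := by
    field_simp
  rw [hu, abs_div, abs_of_pos hL]
  exact div_le_div_of_nonneg_right h1 hL.le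

/-- step functions -/
private noncomputable def PD_c (h : ℝ → ℝ) (K j : ℕ) : ℝ := h (j / K) - h (((j + 1 : ℕ) : ℝ) / K)

private theorem PD_step {h : ℝ → ℝ} {K : ℕ} (hK : 0 < K) (h1 : h 1 = 0) {u : ℝ}
    (hu1 : u ≤ 1) : ∑ j ∈ Finset.range K, (if u ≤ (j : ℝ) / K then PD_c h K j else 0) =
      h ((⌈K * u⌉₊ : ℝ) / K) := by
  have hK' : (0 : ℝ) < K := by exact_mod_cast hK
  set m := ⌈K * u⌉₊ with hm
  have hmK : m ≤ K := by
    rw [hm, Nat.ceil_le]
    have := mul_le_mul_of_nonneg_left hu1 hK'.le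
    linarith
  have hcond : ∀ j : ℕ, (u ≤ (j : ℝ) / K) ↔ m ≤ j := by
    intro j
    rw [le_div_iff₀ hK', hm, Nat.ceil_le, mul_comm]
  simp only [hcond]
  rw [← Finset.sum_filter]
  have hE : (Finset.range K).filter (fun j => m ≤ j) = Finset.Ico m K := by
    ext j
    simp only [Finset.mem_filter, Finset.mem_range, Finset.mem_Ico]
    exact and_comm
  rw [hE]
  have hT : ∀ n : ℕ, m ≤ n → ∑ j ∈ Finset.Ico m n, PD_c h K j = h ((m : ℝ) / K) - h ((n : ℝ) / K) := by
    intro n hn
    induction n, hn using Nat.le_induction with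
    | base => simp
    | succ n hn ih =>
      rw [Finset.sum_Ico_succ_top hn, ih]
      unfold PD_c
      ring
  rw [hT K hmK, div_self hK'.ne', h1, sub_zero]

/-- LEAF PD. `(1/L²) ∑_{p ≤ T} (log² p/p) g(log p/L) → ∫_0^∞ u g(u) du`. Proof with `Mont.prime_sq` (Mont/Prime.lean): for a bump `W` (`exists_EB (1/2)`),
`J = ∫ W²`, `Q y = ∑_n (Λ(n) n^{-1/2} W(log n - y))² = y J + O(1)` for `y ≥ 0`. Multiply by `g(y/L)/(J L²)` and integrate over `y > 0`:
the right side is `∫_0^∞ u g(u) du + O(1/L)` (substitution `y = L u`, `g` bounded with bounded support). The left side is `∑_n (Λ(n)²/n)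
(1/(J L²)) ∫_{y > 0} W(log n - y)² g(y/L) dy` (finite sum: `n ≤ e^{L/8 + 1}`), and for `n ≥ 2` (`log n ≥ log 2 > 1/2`, so `y > 0` is automatic) the inner
integral is `J (g(log n/L) + O(ω(1/L)))`, `ω` the modulus of continuity of `g` (uniformly continuous). `∑_{n ≤ e^{L/8 + 1}} Λ(n)²/n = O(L²)`: the same with
`prime_sq` (or `Λ(n)² ≤ Λ(n) log n ≤ log² n` and the library). Prime powers (`n` not prime): `Λ(n)² ≤ Λ(n) log n - Λ(n)²`, and `pp_summable` (Mont/Prime0.lean) gives `O(1/L²)`.
For primes `Λ(p) = log p`; `g(log p/L) = 0` for `p > T^{1/8}`, so `p ≤ T` is no restriction. (Any other proof is welcome, e.g. Abel summation with the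
bound for `ψ` in PsiRH.lean or BaseF.lean.) -/
theorem diag_lim (hRH : RiemannHypothesis) {g : ℝ → ℝ} (hg : Continuous g) (hs : ∀ u, 1 / 8 ≤ |u| → g u = 0) :
    Tendsto (fun T : ℝ => (1 / Real.log T ^ 2) * ∑ p ∈ (Finset.range (⌊T⌋₊ + 1)).filter Nat.Prime,
      Real.log p ^ 2 / p * g (Real.log p / Real.log T)) atTop (𝓝 (∫ u in Ioi (0 : ℝ), u * g u)) := by
  classical
  set h : ℝ → ℝ := fun u => u * g u with hh
  have hhc : Continuous h := continuous_id.mul hg
  have hz : ∀ u : ℝ, 1 ≤ u → h u = 0 := by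
    intro u hu
    have : g u = 0 := hs u (by rw [abs_of_nonneg (by linarith)]; linarith)
    simp only [hh, this, mul_zero]
  have hcs : HasCompactSupport h := by
    refine HasCompactSupport.intro (isCompact_Icc (a := (-1 : ℝ)) (b := 1)) fun u hu => ?_
    have h2 : 1 / 8 ≤ |u| := by
      by_contra hc
      rw [not_le, abs_lt] at hc
      exact hu ⟨by linarith, by linarith⟩
    simp only [hh, hs u h2, mul_zero]
  have huc : UniformContinuous h := hcs.uniformContinuous_of_continuous hhc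
  obtain ⟨C, hC0, hC⟩ := PD_mass
  -- the integral
  have hint : ∫ u in Ioi (0 : ℝ), u * g u = ∫ u in Ioc (0 : ℝ) 1, h u := by
    have h1 : ∫ u in Ioi (0 : ℝ), h u = ∫ u in Ioc (0 : ℝ) 1, h u := by
      refine setIntegral_eq_of_subset_of_forall_sdiff_eq_zero measurableSet_Ioi
        (fun u hu => hu.1) fun u hu => ?_
      apply hz
      by_contra hc
      exact hu.2 ⟨hu.1, (not_le.1 hc).le⟩
    exact h1
  rw [hint, Metric.tendsto_atTop]
  intro ε hε
  obtain ⟨δ, hδ, hδh⟩ := Metric.uniformContinuous_iff.1 huc (ε / 8) (by positivity)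
  obtain ⟨K0, hK0⟩ := exists_nat_gt (1 / δ)
  set K := K0 + 1 with hKdef
  have hK : 0 < K := by omega
  have hK' : (0 : ℝ) < K := by exact_mod_cast hK
  have hKδ : 1 / (K : ℝ) < δ := by
    rw [div_lt_iff₀ hK']
    have h2 : 1 / δ < K := hK0.trans (by rw [hKdef]; push_cast; linarith)
    rw [div_lt_iff₀ hδ] at h2
    linarith
  set hKf : ℝ → ℝ := fun u => ∑ j ∈ Finset.range K, (if u ≤ (j : ℝ) / K then PD_c h K j else 0)
    with hhK
  have hclose : ∀ u : ℝ, 0 < u → u ≤ 1 → |h u - hKf u| ≤ ε / 8 := by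
    intro u hu0 hu1
    rw [hhK]
    dsimp only
    rw [PD_step hK (hz 1 le_rfl) hu1]
    have h2 := hδh (a := u) (b := (⌈K * u⌉₊ : ℝ) / K) (by
      rw [Real.dist_eq]
      have h3 := Nat.le_ceil (K * u)
      have h4 := Nat.ceil_lt_add_one (a := K * u) (by positivity)
      have h5 : u - (⌈K * u⌉₊ : ℝ) / K = -(((⌈K * u⌉₊ : ℝ) - K * u) / K) := by
        field_simp
        ring
      rw [h5, abs_neg, abs_of_nonneg (div_nonneg (by linarith) hK'.le)]
      refine lt_of_le_of_lt ?_ hKδ
      exact div_le_div_of_nonneg_right (by linarith) hK'.le)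
    rw [Real.dist_eq] at h2
    exact h2.le
  -- the integral of the step function
  have hstep : ∫ u in Ioc (0 : ℝ) 1, hKf u = ∑ j ∈ Finset.range K, PD_c h K j * (j / K) := by
    rw [hhK]
    have hj1 : ∀ j ∈ Finset.range K, (j : ℝ) / K ≤ 1 := by
      intro j hj
      rw [div_le_one hK']
      exact_mod_cast (Finset.mem_range.1 hj).le
    have hind : ∀ j : ℕ, (fun u : ℝ => if u ≤ (j : ℝ) / K then PD_c h K j else 0) =
        (Set.Iic ((j : ℝ) / K)).indicator (fun _ => PD_c h K j) := by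
      intro j
      funext u
      by_cases hu : u ≤ (j : ℝ) / K
      · rw [if_pos hu, Set.indicator_of_mem (by exact hu)]
      · rw [if_neg hu, Set.indicator_of_notMem (by exact hu)]
    rw [integral_finsetSum]
    · refine Finset.sum_congr rfl fun j hj => ?_
      rw [hind j, setIntegral_indicator measurableSet_Iic]
      have h3 : Ioc (0 : ℝ) 1 ∩ Iic ((j : ℝ) / K) = Ioc 0 ((j : ℝ) / K) := by
        ext u
        simp only [Set.mem_inter_iff, Set.mem_Ioc, Set.mem_Iic]
        constructor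
        · rintro ⟨⟨a1, _⟩, a3⟩
          exact ⟨a1, a3⟩
        · rintro ⟨a1, a3⟩
          exact ⟨⟨a1, a3.trans (hj1 j hj)⟩, a3⟩
      rw [h3, setIntegral_const, smul_eq_mul, Measure.real, Real.volume_Ioc, sub_zero,
        ENNReal.toReal_ofReal (by positivity), mul_comm]
    · intro j _
      rw [hind j]
      exact (integrable_const _).indicator measurableSet_Iic
  have hKfint : IntegrableOn hKf (Ioc (0 : ℝ) 1) := by
    rw [hhK]
    refine integrable_finsetSum _ fun j _ => ?_
    have hind : (fun u : ℝ => if u ≤ (j : ℝ) / K then PD_c h K j else 0) =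
        (Set.Iic ((j : ℝ) / K)).indicator (fun _ => PD_c h K j) := by
      funext u
      by_cases hu : u ≤ (j : ℝ) / K
      · rw [if_pos hu, Set.indicator_of_mem (by exact hu)]
      · rw [if_neg hu, Set.indicator_of_notMem (by exact hu)]
    rw [hind]
    exact (integrable_const _).indicator measurableSet_Iic
  have hhint : IntegrableOn h (Ioc (0 : ℝ) 1) :=
    (hhc.integrable_of_hasCompactSupport hcs).integrableOn
  have hI : |(∫ u in Ioc (0 : ℝ) 1, h u) - ∑ j ∈ Finset.range K, PD_c h K j * (j / K)| ≤ ε / 8 := by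
    rw [← hstep, ← integral_sub hhint hKfint]
    have h2 := norm_setIntegral_le_of_norm_le_const (μ := volume) (s := Ioc (0 : ℝ) 1)
      (f := fun u => h u - hKf u) (C := ε / 8) (by simp) (fun u hu => by
        rw [Real.norm_eq_abs]
        exact hclose u hu.1 hu.2)
    rw [Real.norm_eq_abs] at h2
    refine h2.trans (le_of_eq ?_)
    rw [Measure.real, Real.volume_Ioc]
    simp
  -- the size of T
  set B := ∑ j ∈ Finset.range K, |PD_c h K j| with hB
  have hB0 : 0 ≤ B := Finset.sum_nonneg fun _ _ => abs_nonneg _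
  have hlog : Tendsto Real.log atTop atTop := Real.tendsto_log_atTop
  obtain ⟨T0, hT0⟩ := Filter.eventually_atTop.1
    (hlog.eventually_ge_atTop (C + 8 * B * C / ε + 1))
  refine ⟨max T0 2, fun T hT => ?_⟩
  have hT2 : 1 < T := by
    have := (le_max_right T0 2).trans hT
    linarith
  have hLge := hT0 T ((le_max_left T0 2).trans hT)
  set L := Real.log T with hL
  have hLpos : 0 < L := Real.log_pos hT2
  have hx0 : 0 ≤ 8 * B * C / ε := by positivity
  have hCL : C / L ≤ 1 := by
    rw [div_le_one hLpos]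
    linarith
  have hBC : B * (C / L) ≤ ε / 8 := by
    have h3 : 8 * B * C / ε ≤ L := by linarith
    rw [div_le_iff₀ hε] at h3
    rw [← mul_div_assoc, div_le_iff₀ hLpos]
    linarith
  set S := (Finset.range (⌊T⌋₊ + 1)).filter Nat.Prime with hS
  have hpS : ∀ p ∈ S, 0 < Real.log p / L ∧ Real.log p / L ≤ 1 := by
    intro p hp
    rw [hS, Finset.mem_filter, Finset.mem_range, Nat.lt_succ_iff] at hp
    have hp0 : (1 : ℝ) < p := by exact_mod_cast hp.2.one_lt
    have hpT : (p : ℝ) ≤ T := (Nat.le_floor_iff (by linarith)).1 hp.1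
    refine ⟨div_pos (Real.log_pos hp0) hLpos, ?_⟩
    rw [div_le_one hLpos]
    exact Real.log_le_log (by linarith) hpT
  have hw0 : ∀ p ∈ S, 0 ≤ Real.log p / (p * L) := by
    intro p hp
    rw [hS, Finset.mem_filter] at hp
    have hp0 : (1 : ℝ) < p := by exact_mod_cast hp.2.one_lt
    exact div_nonneg (Real.log_pos hp0).le (by positivity)
  have hrew : (1 / L ^ 2) * ∑ p ∈ S, Real.log p ^ 2 / p * g (Real.log p / L) =
      ∑ p ∈ S, Real.log p / (p * L) * h (Real.log p / L) := by
    rw [Finset.mul_sum]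
    refine Finset.sum_congr rfl fun p hp => ?_
    rw [hS, Finset.mem_filter] at hp
    have hp0 : (p : ℝ) ≠ 0 := by exact_mod_cast hp.2.pos.ne'
    simp only [hh]
    field_simp
  rw [hrew, Real.dist_eq]
  -- step function sum
  have hsumK : ∑ p ∈ S, Real.log p / (p * L) * hKf (Real.log p / L) =
      ∑ j ∈ Finset.range K, PD_c h K j *
        ∑ p ∈ S.filter (fun p : ℕ => Real.log p / L ≤ (j : ℝ) / K), Real.log p / (p * L) := by
    rw [hhK]
    simp only [Finset.mul_sum]
    rw [Finset.sum_comm]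
    refine Finset.sum_congr rfl fun j _ => ?_
    refine Eq.trans ?_ (Finset.sum_filter (s := S) (fun p : ℕ => Real.log p / L ≤ (j : ℝ) / K)
      (fun p : ℕ => PD_c h K j * (Real.log p / (p * L)))).symm
    refine Finset.sum_congr rfl fun p _ => ?_
    split_ifs
    · ring
    · ring
  have h1 : |∑ p ∈ S, Real.log p / (p * L) * h (Real.log p / L) -
      ∑ p ∈ S, Real.log p / (p * L) * hKf (Real.log p / L)| ≤ ε / 4 := by
    rw [← Finset.sum_sub_distrib]
    have h2 : ∀ p ∈ S, |Real.log p / (p * L) * h (Real.log p / L) -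
        Real.log p / (p * L) * hKf (Real.log p / L)| ≤ Real.log p / (p * L) * (ε / 8) := by
      intro p hp
      rw [← mul_sub, abs_mul, abs_of_nonneg (hw0 p hp)]
      exact mul_le_mul_of_nonneg_left (hclose _ (hpS p hp).1 (hpS p hp).2) (hw0 p hp)
    refine (Finset.abs_sum_le_sum_abs _ _).trans ((Finset.sum_le_sum h2).trans ?_)
    rw [← Finset.sum_mul]
    have h3 := hC T hT2 1 zero_le_one le_rfl
    have h4 : S.filter (fun p : ℕ => Real.log p / L ≤ 1) = S := by
      rw [Finset.filter_eq_self]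
      exact fun p hp => (hpS p hp).2
    rw [h4] at h3
    have h5 := (abs_le.1 h3).2
    have h6 : ∑ p ∈ S, Real.log p / (p * L) ≤ 2 := by linarith
    have h7 := mul_le_mul_of_nonneg_right h6 (by positivity : (0 : ℝ) ≤ ε / 8)
    linarith
  have h2 : |∑ p ∈ S, Real.log p / (p * L) * hKf (Real.log p / L) -
      ∑ j ∈ Finset.range K, PD_c h K j * (j / K)| ≤ ε / 8 := by
    rw [hsumK, ← Finset.sum_sub_distrib]
    have h3 : ∀ j ∈ Finset.range K, |PD_c h K j *
        (∑ p ∈ S.filter (fun p : ℕ => Real.log p / L ≤ (j : ℝ) / K), Real.log p / (p * L)) -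
        PD_c h K j * (j / K)| ≤ |PD_c h K j| * (C / L) := by
      intro j hj
      rw [← mul_sub, abs_mul]
      refine mul_le_mul_of_nonneg_left ?_ (abs_nonneg _)
      refine hC T hT2 ((j : ℝ) / K) (by positivity) ?_
      rw [div_le_one hK']
      exact_mod_cast (Finset.mem_range.1 hj).le
    refine (Finset.abs_sum_le_sum_abs _ _).trans ((Finset.sum_le_sum h3).trans ?_)
    rw [← Finset.sum_mul]
    exact hBC
  rw [abs_le] at h1 h2 hI
  rw [abs_lt]
  constructor
  · linarith
  · linarith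

end Pool.Agent.Lib.MP_00e05b_nt.Bar
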