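import Pool.Agent.Lib.MP_00e05b_nt.Bar.PE0

/-!
# P9 / PEb: truncation
-/

open Complex Set Filter Topology MeasureTheory

namespace Pool.Agent.Lib.MP_00e05b_nt.Bar

open Pool.Agent.Lib.MP_00e05b_nt Pool.Agent.Lib.MP_00e05b_nt.Mont Pool.Agent.Lib.MP_00e05b_nt.Gap

/-- The decay of the transform in terms of `|t - x|`. -/
private theorem PEb_dec {κ : ℝ → ℝ} (hκ : ES κ (1 / 8)) :
    ∃ C : ℝ, 0 ≤ C ∧ ∀ T t x : ℝ, 2 ≤ T → |fT κ (xg T t x)| ≤ C / (1 + |t - x|) ^ 3 := by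
  obtain ⟨-, -, C0, hC0, h0⟩ := fT_smooth hκ.smooth hκ.even ⟨1 / 8, hκ.supp⟩
  have hlog2 : 0 < Real.log 2 := Real.log_pos (by norm_num)
  have hpi : 0 < Real.pi := Real.pi_pos
  obtain ⟨c, hc⟩ : ∃ c : ℝ, c = (Real.log 2 / (2 * Real.pi)) ^ 2 := ⟨_, rfl⟩
  have hc0 : 0 < c := by rw [hc]; positivity
  have hc1 : c ≤ 1 := by
    rw [hc]
    have h1 : Real.log 2 ≤ 1 := by
      have := Real.log_le_sub_one_of_pos (by norm_num : (0 : ℝ) < 2)
      linarith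
    have h2 : Real.log 2 / (2 * Real.pi) ≤ 1 := by
      rw [div_le_one (by positivity)]
      have := Real.pi_gt_three
      linarith
    exact pow_le_one₀ (by positivity) h2
  refine ⟨4 * C0 / c ^ 2, by positivity, fun T t x hT => ?_⟩
  have hL : Real.log 2 ≤ Real.log T := Real.log_le_log (by norm_num) hT
  obtain ⟨v, hv⟩ : ∃ v : ℝ, v = |t - x| := ⟨_, rfl⟩
  have hv0 : 0 ≤ v := by rw [hv]; exact abs_nonneg _
  have h1 : c * v ^ 2 ≤ xg T t x ^ 2 := by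
    have e1 : xg T t x ^ 2 = (Real.log T / (2 * Real.pi)) ^ 2 * v ^ 2 := by
      rw [hv, sq_abs]
      unfold xg
      ring
    rw [e1, hc]
    have e2 : Real.log 2 / (2 * Real.pi) ≤ Real.log T / (2 * Real.pi) := by gcongr
    have e3 : (0 : ℝ) ≤ Real.log 2 / (2 * Real.pi) := by positivity
    gcongr
  have h2 : c * (1 + v) ^ 2 / 2 ≤ 1 + xg T t x ^ 2 := by
    nlinarith [sq_nonneg (v - 1), mul_nonneg hc0.le (sq_nonneg (v - 1))]
  have h3 : c ^ 2 * (1 + v) ^ 3 / 4 ≤ (1 + xg T t x ^ 2) ^ 2 := by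
    have e1 : (c * (1 + v) ^ 2 / 2) ^ 2 ≤ (1 + xg T t x ^ 2) ^ 2 := pow_le_pow_left₀ (by positivity) h2 2
    have e2 : (1 + v) ^ 3 ≤ (1 + v) ^ 4 := pow_le_pow_right₀ (by linarith) (by norm_num)
    have e3 : (c * (1 + v) ^ 2 / 2) ^ 2 = c ^ 2 * (1 + v) ^ 4 / 4 := by ring
    rw [e3] at e1
    refine le_trans ?_ e1
    gcongr
  refine (h0 (xg T t x)).trans ?_
  rw [← hv]
  calc C0 / (1 + xg T t x ^ 2) ^ 2 ≤ C0 / (c ^ 2 * (1 + v) ^ 3 / 4) :=
        div_le_div_of_nonneg_left hC0 (by positivity) h3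
    _ = 4 * C0 / c ^ 2 / (1 + v) ^ 3 := by
        field_simp

/-- The pointwise bound. -/
private theorem PEb_pt (hRH : RiemannHypothesis) {κ : ℝ → ℝ} (hκ : ES κ (1 / 8)) :
    ∃ C : ℝ, 0 ≤ C ∧ ∀ T t : ℝ, 2 ≤ T → 0 ≤ t → t ≤ T →
      |WR (fT κ) T t - WA κ T t| ≤ C * Real.log (2 + t) * (1 / (1 + t) + 1 / (1 + (T - t))) := by
  obtain ⟨C, hC, hb'⟩ := PEb_dec hκ
  obtain ⟨C₂, hC₂, hloc⟩ := local_count hRH
  refine ⟨C * C₂, mul_nonneg hC hC₂, fun T t hT ht0 htT => ?_⟩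
  obtain ⟨hsum, hle⟩ := hloc t
  rw [abs_of_nonneg ht0] at hle
  obtain ⟨f, hf⟩ : ∃ f : ℝ → ℝ, f = fun x => fT κ (xg T t x) := ⟨_, rfl⟩
  have hb : ∀ x : ℝ, |f x| ≤ C / (1 + |t - x|) ^ 3 := by
    intro x
    rw [hf]
    exact hb' T t x hT
  have hWR : ((WR (fT κ) T t : ℝ) : ℂ) = ∑' a : ℂ, (mx a : ℂ) * (if 0 < a.im ∧ a.im ≤ T then
      (fun x : ℝ => (f x : ℂ)) a.im else 0) := by
    rw [ord_sum hRH T (fun x : ℝ => (f x : ℂ)), hf]
    unfold WR
    push_cast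
    rfl
  have hWA : ((WA κ T t : ℝ) : ℂ) = ∑' a : ℂ, (mx a : ℂ) * (f a.im : ℂ) := by
    unfold WA
    rw [Complex.ofReal_tsum, hf]
    refine tsum_congr fun a => ?_
    push_cast
    rfl
  have hn : ∀ a : ℂ, ‖(mx a : ℂ) * (f a.im : ℂ)‖ = (mx a : ℝ) * |f a.im| := fun a => by
    rw [norm_mul, Complex.norm_natCast, Complex.norm_real, Real.norm_eq_abs]
  have hpw : ∀ a : ℂ, (mx a : ℝ) * |f a.im| ≤ C * ((mx a : ℝ) * (1 / (1 + |t - a.im|) ^ 2)) := by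
    intro a
    have h1 := hb a.im
    have h2 : (0 : ℝ) ≤ mx a := Nat.cast_nonneg _
    have h7 : 0 ≤ |t - a.im| := abs_nonneg _
    have h3 : 1 / (1 + |t - a.im|) ^ 3 ≤ 1 / (1 + |t - a.im|) ^ 2 :=
      one_div_le_one_div_of_le (by positivity) (pow_le_pow_right₀ (by linarith) (by norm_num))
    calc (mx a : ℝ) * |f a.im| ≤ (mx a : ℝ) * (C / (1 + |t - a.im|) ^ 3) := mul_le_mul_of_nonneg_left h1 h2
      _ = (C * mx a) * (1 / (1 + |t - a.im|) ^ 3) := by ring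
      _ ≤ (C * mx a) * (1 / (1 + |t - a.im|) ^ 2) := mul_le_mul_of_nonneg_left h3 (mul_nonneg hC h2)
      _ = C * ((mx a : ℝ) * (1 / (1 + |t - a.im|) ^ 2)) := by ring
  have hAs : Summable (fun a : ℂ => (mx a : ℂ) * (f a.im : ℂ)) := by
    refine Summable.of_norm_bounded (hsum.mul_left C) fun a => ?_
    rw [hn]
    exact hpw a
  have hBs : Summable (fun a : ℂ => (mx a : ℂ) * (if 0 < a.im ∧ a.im ≤ T then
      (fun x : ℝ => (f x : ℂ)) a.im else 0)) := by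
    refine Summable.of_norm_bounded hAs.norm fun a => ?_
    split_ifs
    · exact le_rfl
    · rw [mul_zero, norm_zero]
      exact norm_nonneg _
  have hTt : 0 ≤ T - t := by linarith
  have hK : 0 ≤ 1 / (1 + t) + 1 / (1 + (T - t)) := by positivity
  have h1 : ‖∑' a : ℂ, ((mx a : ℂ) * (if 0 < a.im ∧ a.im ≤ T then (fun x : ℝ => (f x : ℂ)) a.im else 0) -
      (mx a : ℂ) * (f a.im : ℂ))‖ ≤
      ∑' a : ℂ, (C * (1 / (1 + t) + 1 / (1 + (T - t)))) * ((mx a : ℝ) * (1 / (1 + |t - a.im|) ^ 2)) := by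
    refine tsum_of_norm_bounded (hsum.mul_left _).hasSum fun a => ?_
    have h2 : (0 : ℝ) ≤ mx a := Nat.cast_nonneg _
    have h7 : 0 ≤ |t - a.im| := abs_nonneg _
    split_ifs with hif
    · have e : (mx a : ℂ) * (fun x : ℝ => (f x : ℂ)) a.im - (mx a : ℂ) * (f a.im : ℂ) = 0 := sub_self _
      rw [e, norm_zero]
      exact mul_nonneg (mul_nonneg hC hK) (mul_nonneg h2 (by positivity))
    · rw [mul_zero, zero_sub, norm_neg, hn]
      have h1 := hb a.im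
      have h3 : 1 / (1 + |t - a.im|) ≤ 1 / (1 + t) + 1 / (1 + (T - t)) := by
        rw [not_and_or, not_lt, not_le] at hif
        rcases hif with hif | hif
        · have h4 : t ≤ |t - a.im| := le_trans (by linarith) (le_abs_self _)
          have h5 : 1 / (1 + |t - a.im|) ≤ 1 / (1 + t) := one_div_le_one_div_of_le (by linarith) (by linarith)
          have h6 : 0 ≤ 1 / (1 + (T - t)) := by positivity
          linarith
        · have h4 : T - t ≤ |t - a.im| := le_trans (by linarith) (neg_le_abs _)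
          have h5 : 1 / (1 + |t - a.im|) ≤ 1 / (1 + (T - t)) := one_div_le_one_div_of_le (by linarith) (by linarith)
          have h6 : 0 ≤ 1 / (1 + t) := by positivity
          linarith
      have h8 : 0 ≤ C * mx a * (1 / (1 + |t - a.im|) ^ 2) := mul_nonneg (mul_nonneg hC h2) (by positivity)
      calc (mx a : ℝ) * |f a.im| ≤ (mx a : ℝ) * (C / (1 + |t - a.im|) ^ 3) := mul_le_mul_of_nonneg_left h1 h2
        _ = (C * mx a * (1 / (1 + |t - a.im|) ^ 2)) * (1 / (1 + |t - a.im|)) := by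
            have hne : 1 + |t - a.im| ≠ 0 := by positivity
            field_simp
        _ ≤ (C * mx a * (1 / (1 + |t - a.im|) ^ 2)) * (1 / (1 + t) + 1 / (1 + (T - t))) := mul_le_mul_of_nonneg_left h3 h8
        _ = (C * (1 / (1 + t) + 1 / (1 + (T - t)))) * ((mx a : ℝ) * (1 / (1 + |t - a.im|) ^ 2)) := by ring
  have h2 : |WR (fT κ) T t - WA κ T t| = ‖∑' a : ℂ, ((mx a : ℂ) * (if 0 < a.im ∧ a.im ≤ T then
      (fun x : ℝ => (f x : ℂ)) a.im else 0) - (mx a : ℂ) * (f a.im : ℂ))‖ := by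
    rw [hBs.tsum_sub hAs, ← hWR, ← hWA, ← Complex.ofReal_sub, Complex.norm_real, Real.norm_eq_abs]
  rw [h2]
  refine h1.trans ?_
  rw [tsum_mul_left]
  calc (C * (1 / (1 + t) + 1 / (1 + (T - t)))) * ∑' a : ℂ, (mx a : ℝ) * (1 / (1 + |t - a.im|) ^ 2)
      ≤ (C * (1 / (1 + t) + 1 / (1 + (T - t)))) * (C₂ * Real.log (2 + t)) := mul_le_mul_of_nonneg_left hle (mul_nonneg hC hK)
    _ = C * C₂ * Real.log (2 + t) * (1 / (1 + t) + 1 / (1 + (T - t))) := by ring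

/-- The integral of the majorant. -/
private theorem PEb_maj {T : ℝ} (hT : 0 ≤ T) :
    IntervalIntegrable (fun t : ℝ => 1 / (1 + t) ^ 2 + 1 / (1 + (T - t)) ^ 2) volume 0 T ∧
      ∫ t in (0 : ℝ)..T, (1 / (1 + t) ^ 2 + 1 / (1 + (T - t)) ^ 2) ≤ 2 := by
  have hpos : ∀ t ∈ uIcc 0 T, 0 < 1 + t ∧ 0 < 1 + (T - t) := by
    intro t ht
    rw [uIcc_of_le hT] at ht
    exact ⟨by linarith [ht.1], by linarith [ht.2]⟩
  have hi : IntervalIntegrable (fun t : ℝ => 1 / (1 + t) ^ 2 + 1 / (1 + (T - t)) ^ 2) volume 0 T := by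
    refine ContinuousOn.intervalIntegrable fun t ht => ?_
    obtain ⟨h1, h2⟩ := hpos t ht
    have h3 : (1 + t) ^ 2 ≠ 0 := by positivity
    have h4 : (1 + (T - t)) ^ 2 ≠ 0 := by positivity
    refine ContinuousAt.continuousWithinAt ?_
    fun_prop (disch := assumption)
  refine ⟨hi, ?_⟩
  have hd : ∀ t ∈ uIcc 0 T, HasDerivAt (fun t : ℝ => -(1 + t)⁻¹ + (1 + (T - t))⁻¹)
      (1 / (1 + t) ^ 2 + 1 / (1 + (T - t)) ^ 2) t := by
    intro t ht
    obtain ⟨h1, h2⟩ := hpos t ht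
    have e1 : HasDerivAt (fun t : ℝ => 1 + t) 1 t := (hasDerivAt_id t).const_add 1
    have e2 : HasDerivAt (fun t : ℝ => 1 + (T - t)) (-1) t := ((hasDerivAt_id t).const_sub T).const_add 1
    refine ((e1.inv h1.ne').neg.add (e2.inv h2.ne')).congr_deriv ?_
    ring
  rw [intervalIntegral.integral_eq_sub_of_hasDerivAt hd hi]
  have h1 : 0 < (1 + T)⁻¹ := by positivity
  simp only [sub_self, add_zero, sub_zero, inv_one]
  linarith

/-- LEAF PEb (adapt `AB_diff` in Mont/Trunc0.lean). `|fT κ x| ≤ C/(1 + x²)²` (`fT_smooth`), so with `v = |t - γ|`, `x = xg T t γ`, `|x| = L v/2π`, `L ≥ log 2`: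
`|fT κ x| ≤ C'/(1 + v)³`. The zeros which are not in `(0, T]` have `v ≥ t` or `v ≥ T - t`: `|fT κ x| ≤ C' (1/(1 + t) + 1/(1 + (T - t)))/(1 + v)²`; `local_count` and `ord_sum` (as in
`AB_diff`): `|WR - WA| ≤ C'' log(2 + t) (1/(1 + t) + 1/(1 + (T - t)))` for `0 ≤ t ≤ T`. Squares: `∫_0^T 1/(1 + t)² dt ≤ 1`. (Summability of the sum in `WA`: by `local_count`.) -/
theorem peb (hRH : RiemannHypothesis) {κ : ℝ → ℝ} (hκ : ES κ (1 / 8)) :
    ∃ C : ℝ, 0 ≤ C ∧ ∀ T : ℝ, 2 ≤ T → ∫ t in (0 : ℝ)..T, (WR (fT κ) T t - WA κ T t) ^ 2 ≤ C * Real.log T ^ 2 := by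
  obtain ⟨C, hC, hpt⟩ := PEb_pt hRH hκ
  refine ⟨16 * C ^ 2, by positivity, fun T hT => ?_⟩
  have hT0 : 0 ≤ T := by linarith
  obtain ⟨hmi, hmle⟩ := PEb_maj hT0
  have hL : 0 < Real.log T := Real.log_pos (by linarith)
  by_cases hi : IntervalIntegrable (fun t : ℝ => (WR (fT κ) T t - WA κ T t) ^ 2) volume 0 T
  · have h1 : ∫ t in (0 : ℝ)..T, (WR (fT κ) T t - WA κ T t) ^ 2 ≤
        ∫ t in (0 : ℝ)..T, (8 * C ^ 2 * Real.log T ^ 2) * (1 / (1 + t) ^ 2 + 1 / (1 + (T - t)) ^ 2) := by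
      refine intervalIntegral.integral_mono_on hT0 hi (hmi.const_mul _) fun t ht => ?_
      have h2 := hpt T t hT ht.1 ht.2
      have h3 : Real.log (2 + t) ≤ 2 * Real.log T := by
        have e1 : Real.log (2 + t) ≤ Real.log (T ^ 2) := Real.log_le_log (by linarith [ht.1]) (by nlinarith [ht.2])
        rwa [Real.log_pow] at e1
      have h4 : 0 ≤ Real.log (2 + t) := Real.log_nonneg (by linarith [ht.1])
      have h5 : 0 < 1 + t := by linarith [ht.1]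
      have h6 : 0 < 1 + (T - t) := by linarith [ht.2]
      have h7 : |WR (fT κ) T t - WA κ T t| ≤ C * (2 * Real.log T) * (1 / (1 + t) + 1 / (1 + (T - t))) := by
        refine h2.trans ?_
        have h8 : 0 ≤ 1 / (1 + t) + 1 / (1 + (T - t)) := by positivity
        exact mul_le_mul_of_nonneg_right (mul_le_mul_of_nonneg_left h3 hC) h8
      have h9 : (WR (fT κ) T t - WA κ T t) ^ 2 ≤ (C * (2 * Real.log T) * (1 / (1 + t) + 1 / (1 + (T - t)))) ^ 2 := by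
        rw [← sq_abs]
        exact pow_le_pow_left₀ (abs_nonneg _) h7 2
      refine h9.trans ?_
      have h10 : (1 / (1 + t) + 1 / (1 + (T - t))) ^ 2 ≤ 2 * (1 / (1 + t) ^ 2 + 1 / (1 + (T - t)) ^ 2) := by
        have e1 : 1 / (1 + t) ^ 2 = (1 / (1 + t)) ^ 2 := by rw [div_pow, one_pow]
        have e2 : 1 / (1 + (T - t)) ^ 2 = (1 / (1 + (T - t))) ^ 2 := by rw [div_pow, one_pow]
        rw [e1, e2]
        nlinarith [sq_nonneg (1 / (1 + t) - 1 / (1 + (T - t)))]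
      calc (C * (2 * Real.log T) * (1 / (1 + t) + 1 / (1 + (T - t)))) ^ 2
          = 4 * C ^ 2 * Real.log T ^ 2 * (1 / (1 + t) + 1 / (1 + (T - t))) ^ 2 := by ring
        _ ≤ 4 * C ^ 2 * Real.log T ^ 2 * (2 * (1 / (1 + t) ^ 2 + 1 / (1 + (T - t)) ^ 2)) :=
            mul_le_mul_of_nonneg_left h10 (by positivity)
        _ = (8 * C ^ 2 * Real.log T ^ 2) * (1 / (1 + t) ^ 2 + 1 / (1 + (T - t)) ^ 2) := by ring
    refine h1.trans ?_
    rw [intervalIntegral.integral_const_mul]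
    calc (8 * C ^ 2 * Real.log T ^ 2) * ∫ t in (0 : ℝ)..T, (1 / (1 + t) ^ 2 + 1 / (1 + (T - t)) ^ 2)
        ≤ (8 * C ^ 2 * Real.log T ^ 2) * 2 := mul_le_mul_of_nonneg_left hmle (by positivity)
      _ = 16 * C ^ 2 * Real.log T ^ 2 := by ring
  · rw [intervalIntegral.integral_undef hi]
    positivity

end Pool.Agent.Lib.MP_00e05b_nt.Bar
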