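import Pool.Agent.Lib.MP_00e05b_nt.Bar.PE0
import Pool.Agent.Lib.MP_00e05b_nt.Mont.MV
import Pool.Agent.Lib.MP_00e05b_nt.Mont.Prime0

/-!
# P9 / PEc: prime powers
-/

open Complex Set Filter Topology MeasureTheory

namespace Pool.Agent.Lib.MP_00e05b_nt.Bar

open Pool.Agent.Lib.MP_00e05b_nt Pool.Agent.Lib.MP_00e05b_nt.Mont Pool.Agent.Lib.MP_00e05b_nt.Gap

/-- for `n` not prime -/
private lemma PEc_le {n : ℕ} (hn : ¬ n.Prime) : ArithmeticFunction.vonMangoldt n ^ 2 ≤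
    ArithmeticFunction.vonMangoldt n * Real.log n - ArithmeticFunction.vonMangoldt n ^ 2 := by
  by_cases h0 : IsPrimePow n
  · obtain ⟨p, k, hp, hk, rfl⟩ := (isPrimePow_nat_iff n).1 h0
    have hk2 : 2 ≤ k := by
      rcases Nat.lt_or_ge k 2 with h | h
      · have : k = 1 := by omega
        subst this
        rw [pow_one] at hn
        exact absurd hp hn
      · exact h
    rw [ArithmeticFunction.vonMangoldt_apply_pow (by omega), ArithmeticFunction.vonMangoldt_apply_prime hp]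
    push_cast
    rw [Real.log_pow]
    have h1 : 0 ≤ Real.log p := Real.log_natCast_nonneg p
    have h2 : (2 : ℝ) ≤ k := by exact_mod_cast hk2
    nlinarith [mul_nonneg h1 h1, mul_nonneg (mul_nonneg h1 h1) (by linarith : (0 : ℝ) ≤ (k : ℝ) - 2)]
  · rw [ArithmeticFunction.vonMangoldt_eq_zero_iff.2 h0]
    simp

private lemma PEc_bd {κ : ℝ → ℝ} (hκ : ES κ (1 / 8)) : ∃ K : ℝ, 0 ≤ K ∧ ∀ u, |κ u| ≤ K := by
  obtain ⟨C, hC⟩ := (isCompact_Icc (a := (-(1 / 8) : ℝ)) (b := 1 / 8)).exists_bound_of_continuousOn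
    hκ.continuous.continuousOn
  refine ⟨max C 0, le_max_right _ _, fun u => ?_⟩
  by_cases hu : |u| ≤ 1 / 8
  · obtain ⟨h1, h2⟩ := abs_le.1 hu
    exact (hC u ⟨h1, h2⟩).trans (le_max_left _ _)
  · rw [hκ.supp u (by linarith), abs_zero]
    exact le_max_right _ _

private noncomputable def PEc_a (κ : ℝ → ℝ) (T : ℝ) (n : ℕ) : ℝ :=
  ArithmeticFunction.vonMangoldt n / Real.sqrt n * κ (Real.log n / Real.log T)

private noncomputable def PEc_S (T : ℝ) : Finset ℕ :=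
  ((Finset.range (⌊T⌋₊ + 1)).filter fun n => ¬ Nat.Prime n).erase 0

private lemma PEc_diff (κ : ℝ → ℝ) (T t : ℝ) : Lb κ T t - Pr κ T t =
    -(2 / Real.log T) * ∑ n ∈ PEc_S T, PEc_a κ T n * Real.cos (t * Real.log n) := by
  have h1 : ∑ n ∈ Finset.range (⌊T⌋₊ + 1), PEc_a κ T n * Real.cos (t * Real.log n) =
      ∑ n ∈ (Finset.range (⌊T⌋₊ + 1)).filter Nat.Prime, PEc_a κ T n * Real.cos (t * Real.log n) +
      ∑ n ∈ (Finset.range (⌊T⌋₊ + 1)).filter (fun n => ¬ Nat.Prime n),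
        PEc_a κ T n * Real.cos (t * Real.log n) := by
    rw [Finset.sum_filter_add_sum_filter_not]
  have h2 : ∑ n ∈ (Finset.range (⌊T⌋₊ + 1)).filter (fun n => ¬ Nat.Prime n),
        PEc_a κ T n * Real.cos (t * Real.log n) =
      ∑ n ∈ PEc_S T, PEc_a κ T n * Real.cos (t * Real.log n) := by
    unfold PEc_S
    rw [Finset.sum_erase]
    simp [PEc_a]
  have h3 : ∑ p ∈ (Finset.range (⌊T⌋₊ + 1)).filter Nat.Prime,
      Real.log p / Real.sqrt p * κ (Real.log p / Real.log T) * Real.cos (t * Real.log p) =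
      ∑ n ∈ (Finset.range (⌊T⌋₊ + 1)).filter Nat.Prime, PEc_a κ T n * Real.cos (t * Real.log n) := by
    refine Finset.sum_congr rfl fun p hp => ?_
    unfold PEc_a
    rw [ArithmeticFunction.vonMangoldt_apply_prime (Finset.mem_filter.1 hp).2]
  have h4 : Lb κ T t = -(2 / Real.log T) * ∑ n ∈ Finset.range (⌊T⌋₊ + 1),
      PEc_a κ T n * Real.cos (t * Real.log n) := rfl
  unfold Pr
  rw [h3, h4, h1, h2]
  ring

private lemma PEc_re (S : Finset ℕ) (a : ℕ → ℝ) (t : ℝ) :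
    (∑ n ∈ S, a n * Real.cos (t * Real.log n)) ^ 2 ≤
      ‖∑ n ∈ S, (a n : ℂ) * cexp (((-(t * Real.log n) : ℝ) : ℂ) * I)‖ ^ 2 := by
  have h1 : (∑ n ∈ S, (a n : ℂ) * cexp (((-(t * Real.log n) : ℝ) : ℂ) * I)).re =
      ∑ n ∈ S, a n * Real.cos (t * Real.log n) := by
    rw [Complex.re_sum]
    refine Finset.sum_congr rfl fun n _ => ?_
    rw [Complex.re_ofReal_mul, Complex.exp_ofReal_mul_I_re, Real.cos_neg]
  rw [← h1, ← sq_abs]
  exact pow_le_pow_left₀ (abs_nonneg _) (Complex.abs_re_le_norm _) 2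

/-- LEAF PEc. `Lb - Pr = -(2/L) ∑_{n ≤ T, n not prime} a_n cos(t log n)`, `a_n = Λ(n) n^{-1/2} κ(log n/L)` (`Λ p = log p`), which is the real part of
`-(2/L) ∑ a_n e^{-it log n}`. `Mont.mv1` (Mont/MV.lean) with `X = T`: `∫_0^T |∑ a_n e^{-it log n}|² ≤ (T + 4T(1 + log T)) ∑ a_n²`, and `∑_{n not prime} a_n² ≤ K² D`,
`K = sup |κ|`, `D = ∑_n (Λ(n) log n - Λ(n)²)/n` (`pp_summable`, `pp_nonneg`; for `n = p^k`, `k ≥ 2`: `Λ(n)² ≤ Λ(n) log n - Λ(n)²`). So the integral is at most `C T/L` for `T ≥ 2`. -/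
theorem pec {κ : ℝ → ℝ} (hκ : ES κ (1 / 8)) :
    ∃ C : ℝ, 0 ≤ C ∧ ∀ T : ℝ, 2 ≤ T → ∫ t in (0 : ℝ)..T, (Lb κ T t - Pr κ T t) ^ 2 ≤ C * T / Real.log T := by
  obtain ⟨K, hK, hKb⟩ := PEc_bd hκ
  set D : ℝ := ∑' n : ℕ, (ArithmeticFunction.vonMangoldt n * Real.log n -
    ArithmeticFunction.vonMangoldt n ^ 2) / n with hD
  have hD0 : 0 ≤ D := tsum_nonneg fun n => div_nonneg (pp_nonneg n) (Nat.cast_nonneg n)
  refine ⟨48 * (K ^ 2 * D), by positivity, fun T hT => ?_⟩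
  have hT0 : 0 < T := by linarith
  have hL2 : Real.log 2 ≤ Real.log T := Real.log_le_log (by norm_num) hT
  have hl2 := Real.log_two_gt_d9
  have hL : 0 < Real.log T := by linarith
  set L := Real.log T with hLd
  have hS : ∀ n ∈ PEc_S T, 1 ≤ n ∧ (n : ℝ) ≤ T := by
    intro n hn
    obtain ⟨h1, h2⟩ := Finset.mem_erase.1 hn
    obtain ⟨h3, -⟩ := Finset.mem_filter.1 h2
    have h4 : n ≤ ⌊T⌋₊ := Nat.lt_succ_iff.1 (Finset.mem_range.1 h3)
    exact ⟨Nat.one_le_iff_ne_zero.2 h1, (Nat.cast_le.2 h4).trans (Nat.floor_le hT0.le)⟩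
  have hsum : ∑ n ∈ PEc_S T, PEc_a κ T n ^ 2 ≤ K ^ 2 * D := by
    have h1 : ∀ n ∈ PEc_S T, PEc_a κ T n ^ 2 ≤ K ^ 2 * ((ArithmeticFunction.vonMangoldt n * Real.log n -
        ArithmeticFunction.vonMangoldt n ^ 2) / n) := by
      intro n hn
      have h2 := PEc_le (Finset.mem_filter.1 (Finset.mem_erase.1 hn).2).2
      have h3 : κ (Real.log n / Real.log T) ^ 2 ≤ K ^ 2 := by
        rw [← sq_abs]
        exact pow_le_pow_left₀ (abs_nonneg _) (hKb _) 2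
      have h4 : PEc_a κ T n ^ 2 = κ (Real.log n / Real.log T) ^ 2 *
          (ArithmeticFunction.vonMangoldt n ^ 2 / n) := by
        unfold PEc_a
        rw [mul_pow, div_pow, Real.sq_sqrt (Nat.cast_nonneg n)]
        ring
      rw [h4]
      refine mul_le_mul h3 ?_ (div_nonneg (sq_nonneg _) (Nat.cast_nonneg n)) (sq_nonneg K)
      exact div_le_div_of_nonneg_right h2 (Nat.cast_nonneg n)
    refine (Finset.sum_le_sum h1).trans ?_
    rw [← Finset.mul_sum]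
    refine mul_le_mul_of_nonneg_left ?_ (sq_nonneg K)
    exact pp_summable.sum_le_tsum _ fun n _ => div_nonneg (pp_nonneg n) (Nat.cast_nonneg n)
  have hmv := mv1 (PEc_S T) (PEc_a κ T) T T (by linarith) hT0.le hS
  have hmv2 : ∫ t in (0 : ℝ)..T, ‖∑ n ∈ PEc_S T, (PEc_a κ T n : ℂ) *
      cexp (((-(t * Real.log n) : ℝ) : ℂ) * I)‖ ^ 2 ≤ (T + 4 * T * (1 + L)) * (K ^ 2 * D) := by
    have h1 := (abs_le.1 hmv).2
    have h2 : (T + 4 * T * (1 + L)) * ∑ n ∈ PEc_S T, PEc_a κ T n ^ 2 ≤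
        (T + 4 * T * (1 + L)) * (K ^ 2 * D) :=
      mul_le_mul_of_nonneg_left hsum (by positivity)
    nlinarith
  have hc1 : Continuous fun t : ℝ => (Lb κ T t - Pr κ T t) ^ 2 :=
    ((Lb_cont κ T).sub (Pr_cont κ T)).pow 2
  have hc2 : Continuous fun t : ℝ => (2 / L) ^ 2 * ‖∑ n ∈ PEc_S T, (PEc_a κ T n : ℂ) *
      cexp (((-(t * Real.log n) : ℝ) : ℂ) * I)‖ ^ 2 := by fun_prop
  have h1 : ∫ t in (0 : ℝ)..T, (Lb κ T t - Pr κ T t) ^ 2 ≤ ∫ t in (0 : ℝ)..T,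
      (2 / L) ^ 2 * ‖∑ n ∈ PEc_S T, (PEc_a κ T n : ℂ) *
        cexp (((-(t * Real.log n) : ℝ) : ℂ) * I)‖ ^ 2 := by
    refine intervalIntegral.integral_mono hT0.le (hc1.intervalIntegrable _ _)
      (hc2.intervalIntegrable _ _) fun t => ?_
    show (Lb κ T t - Pr κ T t) ^ 2 ≤ _
    rw [PEc_diff, mul_pow, neg_sq]
    exact mul_le_mul_of_nonneg_left (PEc_re _ _ t) (sq_nonneg _)
  refine h1.trans ?_
  rw [intervalIntegral.integral_const_mul]
  refine (mul_le_mul_of_nonneg_left hmv2 (sq_nonneg _)).trans ?_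
  have h2 : (2 / L) ^ 2 * ((T + 4 * T * (1 + L)) * (K ^ 2 * D)) =
      (K ^ 2 * D * T / L) * (4 * (5 / L + 4)) := by
    field_simp
    ring
  have h3 : 5 / L ≤ 8 := by
    rw [div_le_iff₀ hL]
    linarith
  have h4 : 0 ≤ K ^ 2 * D * T / L := by positivity
  rw [h2]
  calc (K ^ 2 * D * T / L) * (4 * (5 / L + 4)) ≤ (K ^ 2 * D * T / L) * 48 :=
        mul_le_mul_of_nonneg_left (by linarith) h4
    _ = 48 * (K ^ 2 * D) * T / L := by ring

end Pool.Agent.Lib.MP_00e05b_nt.Bar
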