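import Pool.Agent.Lib.MP_00e05b_nt.Bar.PE0

/-!
# P9 / PEd: decomposition
-/

open Complex Set Filter Topology MeasureTheory
open scoped ContDiff

namespace Pool.Agent.Lib.MP_00e05b_nt.Bar

open Pool.Agent.Lib.MP_00e05b_nt Pool.Agent.Lib.MP_00e05b_nt.Mont Pool.Agent.Lib.MP_00e05b_nt.Gap

private theorem PEd_small {f : ℝ → ℝ} {s M : ℝ} (hs : 0 ≤ s) (hM : ∀ u, |f u| ≤ M)
    (hsupp : ∀ u, s ≤ |u| → f u = 0) : (∫ α, |α| * f α ^ 2) ≤ 2 * s ^ 2 * M ^ 2 := by
  have hM0 : 0 ≤ M := (abs_nonneg _).trans (hM 0)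
  have h1 : ∫ α, (Icc (-s) s).indicator (fun _ => s * M ^ 2) α = 2 * s ^ 2 * M ^ 2 := by
    rw [integral_indicator measurableSet_Icc, setIntegral_const, smul_eq_mul, Measure.real, Real.volume_Icc,
      ENNReal.toReal_ofReal (by linarith)]
    ring
  rw [← h1]
  refine integral_mono_of_nonneg (Eventually.of_forall fun α => by positivity) ?_ (Eventually.of_forall fun α => ?_)
  · rw [integrable_indicator_iff measurableSet_Icc]
    exact integrableOn_const (by rw [Real.volume_Icc]; exact ENNReal.ofReal_ne_top)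
  · by_cases hα : α ∈ Icc (-s) s
    · rw [indicator_of_mem hα]
      have h2 : |α| ≤ s := abs_le.2 hα
      have h3 : f α ^ 2 ≤ M ^ 2 := by
        rw [← sq_abs]
        exact pow_le_pow_left₀ (abs_nonneg _) (hM α) 2
      exact mul_le_mul h2 h3 (sq_nonneg _) hs
    · rw [indicator_of_notMem hα]
      have h2 : s ≤ |α| := by
        by_contra hcon
        exact hα (abs_le.1 (not_le.1 hcon).le)
      simp only [hsupp α h2]
      simp

private theorem PEd_bdd {f : ℝ → ℝ} {s : ℝ} (hf : ES f s) : ∃ M : ℝ, 0 < M ∧ ∀ u, |f u| ≤ M := by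
  obtain ⟨M, hM⟩ := (isCompact_Icc (a := (-s : ℝ)) (b := s)).exists_bound_of_continuousOn hf.continuous.continuousOn
  refine ⟨max M 1, lt_of_lt_of_le one_pos (le_max_right _ _), fun u => ?_⟩
  by_cases hu : u ∈ Icc (-s) s
  · exact (hM u hu).trans (le_max_left _ _)
  · have h2 : s ≤ |u| := by
      by_contra hcon
      exact hu (abs_le.1 (not_le.1 hcon).le)
    rw [hf.supp u h2, abs_zero]
    exact le_trans zero_le_one (le_max_right _ _)

/-- a smooth even function with nonnegative transform and value one at zero -/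
private theorem PEd_chi : ∃ h : ℝ → ℝ, ES h (1 / 2) ∧ (∀ x, 0 ≤ fT h x) ∧ h 0 = 1 := by
  obtain ⟨h, c, hh, hc, h0, h1⟩ := exists_posdef
  have hfT : ∀ x, fT h x = ck h (2 * Real.pi * x) := fun x => rfl
  have hCE : CE h := (fT_smooth hh.smooth hh.even ⟨1 / 2, hh.supp⟩).1
  have hint : Integrable (fT h) := hCE.int
  have hinv := fT_inv hCE 0
  simp only [mul_zero, Real.cos_zero, mul_one] at hinv
  have hπ := Real.pi_pos
  have hpos : 0 < h 0 := by
    rw [← hinv]
    have h2 : ∫ x, (Icc (-(1 / (2 * Real.pi))) (1 / (2 * Real.pi))).indicator (fun _ => c) x ≤ ∫ x, fT h x := by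
      refine integral_mono_of_nonneg (Eventually.of_forall fun x => ?_) hint (Eventually.of_forall fun x => ?_)
      · exact indicator_nonneg (fun _ _ => hc.le) _
      · by_cases hx : x ∈ Icc (-(1 / (2 * Real.pi))) (1 / (2 * Real.pi))
        · rw [indicator_of_mem hx, hfT]
          refine h1 _ ?_
          have h3 : |x| ≤ 1 / (2 * Real.pi) := abs_le.2 hx
          rw [abs_mul, abs_of_pos (by positivity : (0 : ℝ) < 2 * Real.pi)]
          rw [le_div_iff₀ (by positivity)] at h3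
          linarith
        · rw [indicator_of_notMem hx, hfT]
          exact h0 _
    rw [integral_indicator measurableSet_Icc, setIntegral_const, smul_eq_mul, Measure.real, Real.volume_Icc,
      ENNReal.toReal_ofReal (by
        have : 0 < 1 / (2 * Real.pi) := by positivity
        linarith)] at h2
    refine lt_of_lt_of_le ?_ h2
    have : 0 < 1 / (2 * Real.pi) := by positivity
    nlinarith
  refine ⟨fun u => h u / h 0, ⟨hh.smooth.div_const _, fun u => ?_, fun u hu => ?_⟩, fun x => ?_, div_self hpos.ne'⟩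
  · simp only [hh.even]
  · simp only [hh.supp u hu, zero_div]
  · have h4 : fT (fun u => h u / h 0) x = fT h x / h 0 := by
      unfold fT
      rw [← integral_div]
      refine integral_congr_ae (Eventually.of_forall fun u => ?_)
      simp only
      ring
    rw [h4, hfT]
    exact div_nonneg (h0 _) hpos.le

/-- LEAF PEd. `χ` = a small dilate (`u ↦ χ (u/δ)`) of a smooth even function of compact support with nonnegative cosine transform and value 1 at 0 (self-convolution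
of a bump: see `exists_posdef`, used in Mont/LC.lean, or `autocorr` in Gap/B1a.lean); `∫ |α| χ(α/δ)² dα = δ² ∫ |α| χ²`. `κ' = κ - κ(0) χ`, `κ' 0 = 0`. `χ₁` = bump (`exists_EB (δ₁)`: equal to `1` on
`[-δ₁/2, δ₁/2]`); `κ₁ = κ' χ₁`, `∫ |α| κ₁² ≤ (sup |κ'|)² δ₁²`; `κ₂ = κ' (1 - χ₁)`, `η = δ₁/2`. -/
theorem ped {κ : ℝ → ℝ} (hκ : ES κ (1 / 8)) {ε : ℝ} (hε : 0 < ε) :
    ∃ (χ κ₁ κ₂ : ℝ → ℝ) (η : ℝ), ES χ (1 / 8) ∧ ES κ₁ (1 / 8) ∧ ES κ₂ (1 / 8) ∧ 0 < η ∧ (∀ x, 0 ≤ fT χ x) ∧ χ 0 = 1 ∧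
      κ₁ 0 = 0 ∧ (∀ u, |u| ≤ η → κ₂ u = 0) ∧ (∀ u, κ u = κ 0 * χ u + κ₁ u + κ₂ u) ∧
      (∫ α, |α| * χ α ^ 2) ≤ ε ∧ (∫ α, |α| * κ₁ α ^ 2) ≤ ε := by
  obtain ⟨h, hh, hh1, hh0⟩ := PEd_chi
  obtain ⟨M, hM0, hM⟩ := PEd_bdd hh
  -- the first dilate
  obtain ⟨δ, hδ0, hδ1, hδ2⟩ : ∃ δ : ℝ, 0 < δ ∧ δ ≤ 1 / 4 ∧ 2 * (δ / 2) ^ 2 * M ^ 2 ≤ ε := by
    refine ⟨min (1 / 4) (min 1 (ε / M ^ 2)), by positivity, min_le_left _ _, ?_⟩
    have h1 : min (1 / 4) (min 1 (ε / M ^ 2)) ≤ 1 := (min_le_right _ _).trans (min_le_left _ _)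
    have h2 : min (1 / 4) (min 1 (ε / M ^ 2)) ≤ ε / M ^ 2 := (min_le_right _ _).trans (min_le_right _ _)
    have h3 : 0 < min (1 / 4) (min 1 (ε / M ^ 2)) := by positivity
    set δ := min (1 / 4) (min 1 (ε / M ^ 2))
    have h4 : δ ^ 2 ≤ ε / M ^ 2 := by nlinarith
    rw [le_div_iff₀ (by positivity)] at h4
    nlinarith
  have hdiv : ∀ u : ℝ, |u / δ| = |u| / δ := fun u => by rw [abs_div, abs_of_pos hδ0]
  have hχ : ES (fun u => h (u / δ)) (1 / 8) := by
    refine ⟨hh.smooth.comp (contDiff_id.div_const _), fun u => ?_, fun u hu => ?_⟩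
    · simp only [neg_div, hh.even]
    · refine hh.supp _ ?_
      rw [hdiv, le_div_iff₀ hδ0]
      linarith
  have hχT : ∀ x, 0 ≤ fT (fun u => h (u / δ)) x := by
    intro x
    have h1 : fT (fun u => h (u / δ)) x = δ * fT h (δ * x) := by
      have h2 := Measure.integral_comp_div (fun α : ℝ => h α * Real.cos (2 * Real.pi * (δ * x) * α)) δ
      rw [smul_eq_mul, abs_of_pos hδ0] at h2
      unfold fT
      rw [← h2]
      refine integral_congr_ae (Eventually.of_forall fun u => ?_)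
      simp only
      congr 2
      field_simp
    rw [h1]
    exact mul_nonneg hδ0.le (hh1 _)
  have hχ0 : h (0 / δ) = 1 := by rw [zero_div, hh0]
  have hκ' : ES (fun u => κ u - κ 0 * h (u / δ)) (1 / 8) := by
    refine ⟨hκ.smooth.sub (contDiff_const.mul hχ.smooth), fun u => ?_, fun u hu => ?_⟩
    · simp only [hκ.even, neg_div, hh.even]
    · have h1 := hχ.supp u hu
      simp only [hκ.supp u hu, h1, mul_zero, sub_zero]
  obtain ⟨M', hM0', hM'⟩ := PEd_bdd hκ'
  obtain ⟨δ₁, hd0, hd1, hd2⟩ : ∃ δ₁ : ℝ, 0 < δ₁ ∧ δ₁ ≤ 1 ∧ 2 * δ₁ ^ 2 * M' ^ 2 ≤ ε := by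
    refine ⟨min 1 (ε / (2 * M' ^ 2)), by positivity, min_le_left _ _, ?_⟩
    have h1 : min 1 (ε / (2 * M' ^ 2)) ≤ 1 := min_le_left _ _
    have h2 : min 1 (ε / (2 * M' ^ 2)) ≤ ε / (2 * M' ^ 2) := min_le_right _ _
    have h3 : 0 < min 1 (ε / (2 * M' ^ 2)) := by positivity
    set δ₁ := min 1 (ε / (2 * M' ^ 2))
    have h4 : δ₁ ^ 2 ≤ ε / (2 * M' ^ 2) := by nlinarith
    rw [le_div_iff₀ (by positivity)] at h4
    nlinarith
  obtain ⟨W, hW⟩ := exists_EB δ₁ hd0
  refine ⟨fun u => h (u / δ), fun u => (κ u - κ 0 * h (u / δ)) * W u, fun u => (κ u - κ 0 * h (u / δ)) * (1 - W u),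
    δ₁ / 2, hχ, ?_, ?_, by positivity, hχT, hχ0, ?_, ?_, ?_, ?_, ?_⟩
  · refine ⟨hκ'.smooth.mul hW.smooth, fun u => ?_, fun u hu => ?_⟩
    · have h1 := hκ'.even u
      simp only [h1, hW.even]
    · have h1 := hκ'.supp u hu
      simp only [h1, zero_mul]
  · refine ⟨hκ'.smooth.mul (contDiff_const.sub hW.smooth), fun u => ?_, fun u hu => ?_⟩
    · have h1 := hκ'.even u
      simp only [h1, hW.even]
    · have h1 := hκ'.supp u hu
      simp only [h1, zero_mul]
  · simp only [hχ0]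
    ring
  · intro u hu
    simp only [hW.one u hu, sub_self, mul_zero]
  · intro u
    ring
  · refine (PEd_small (s := δ / 2) (M := M) (by positivity) (fun u => hM _) fun u hu => hh.supp _ ?_).trans hδ2
    rw [hdiv, le_div_iff₀ hδ0]
    linarith
  · refine (PEd_small (s := δ₁) (M := M') hd0.le (fun u => ?_) fun u hu => ?_).trans hd2
    · rw [abs_mul, abs_of_nonneg (hW.nonneg u)]
      exact (mul_le_of_le_one_right (abs_nonneg _) (hW.le_one u)).trans (hM' u)
    · simp only [hW.supp u hu, mul_zero]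

end Pool.Agent.Lib.MP_00e05b_nt.Bar
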