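import Pool.Agent.Lib.MP_00e05b_nt.Bar.PM0

/-!
# PM2: second moments of the sums over primes
-/

open Complex Set Filter Topology MeasureTheory

namespace Pool.Agent.Lib.MP_00e05b_nt.Bar

open Pool.Agent.Lib.MP_00e05b_nt Pool.Agent.Lib.MP_00e05b_nt.Mont Pool.Agent.Lib.MP_00e05b_nt.Gap
open Pool.Agent.Lib.MP_00e05b_nt.Gap2 (cp cp_cont Mom_two Mom_four)

theorem mom2 (hRH : RiemannHypothesis) {κ κ' : ℝ → ℝ} (hκ : ES κ (1 / 8)) (hκ' : ES κ' (1 / 8)) :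
    Tendsto (fun T : ℝ => T⁻¹ * ∫ t in (0 : ℝ)..T, Pr κ T t * Pr κ' T t) atTop (𝓝 (∫ α, |α| * (κ α * κ' α))) := by
  obtain ⟨K, hK, hb⟩ := PM0_coef hκ
  obtain ⟨K', hK', hb'⟩ := PM0_coef hκ'
  have hd := PM0_diag hRH hκ hκ'
  rw [← add_zero (∫ α, |α| * (κ α * κ' α))]
  have h0 : Tendsto (fun T : ℝ => (T⁻¹ * ∫ t in (0 : ℝ)..T, Pr κ T t * Pr κ' T t) -
      (∑ n ∈ PM0_S T, PM0_a κ T n * PM0_a κ' T n) / 2) atTop (𝓝 0) := by
    refine squeeze_zero_norm' ?_ (PM0_err (K := K + K') 2 (by norm_num))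
    filter_upwards [eventually_gt_atTop 1] with T hT
    have hT0 : 0 < T := by linarith
    have hL : 0 < Real.log T := Real.log_pos hT
    have h1 := Mom_two (S := PM0_S T) (X := PM0_X T) (fun n hn => ⟨(PM0_mem hn).1.two_le, (PM0_mem hn).2⟩)
      (a := PM0_a κ T) (b := PM0_a κ' T) (H := (K + K') / Real.log T)
      (fun n hn => (hb T hT n hn).trans (div_le_div_of_nonneg_right (by linarith) hL.le))
      (fun n hn => (hb' T hT n hn).trans (div_le_div_of_nonneg_right (by linarith) hL.le)) T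
    have h2 : ∫ t in (0 : ℝ)..T, Pr κ T t * Pr κ' T t = ∫ t in (0 : ℝ)..T, cp (PM0_S T) (PM0_a κ T) t * cp (PM0_S T) (PM0_a κ' T) t := by
      congr 1
      funext t
      rw [PM0_Pr hκ hT, PM0_Pr hκ' hT]
    rw [← h2] at h1
    have hX : (PM0_X T : ℝ) ^ 4 ≤ T := by
      have h3 := PM0_pow hT
      have h4 := PM0_one hT
      exact (pow_le_pow_right₀ h4 (by norm_num : 4 ≤ 8)).trans h3
    rw [Real.norm_eq_abs]
    have h5 : (T⁻¹ * ∫ t in (0 : ℝ)..T, Pr κ T t * Pr κ' T t) - (∑ n ∈ PM0_S T, PM0_a κ T n * PM0_a κ' T n) / 2 =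
        T⁻¹ * ((∫ t in (0 : ℝ)..T, Pr κ T t * Pr κ' T t) - T / 2 * ∑ n ∈ PM0_S T, PM0_a κ T n * PM0_a κ' T n) := by
      field_simp
    rw [h5, abs_mul, abs_of_pos (inv_pos.2 hT0), inv_mul_le_iff₀ hT0]
    calc _ ≤ ((K + K') / Real.log T) ^ 2 * (PM0_X T : ℝ) ^ 4 := h1
      _ ≤ ((K + K') / Real.log T) ^ 2 * T := mul_le_mul_of_nonneg_left hX (by positivity)
      _ = T * ((K + K') / Real.log T) ^ 2 := mul_comm _ _
  have h6 := hd.add h0
  refine h6.congr fun T => ?_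
  ring

end Pool.Agent.Lib.MP_00e05b_nt.Bar
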