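import Pool.Agent.Lib.MP_00e05b_nt.Bar.PEa
import Pool.Agent.Lib.MP_00e05b_nt.Bar.PEb
import Pool.Agent.Lib.MP_00e05b_nt.Bar.PEc
import Pool.Agent.Lib.MP_00e05b_nt.Bar.PEd
import Pool.Agent.Lib.MP_00e05b_nt.Bar.PM2
import Pool.Agent.Lib.MP_00e05b_nt.Gap.B2

/-!
# P9 / PE: the explicit formula for all band-limited kernels, in mean square

`κ = κ(0) χ + κ₁ + κ₂` (`ped`): `χ` and `κ₁` live near `0` and have small variance (`variance`, `PE_second`), their prime sums have small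
second moment (`mom2`); `κ₂` vanishes near `0` and the explicit formula applies (`pea`, `peb`, `pec`).
-/

open Complex Set Filter Topology MeasureTheory

namespace Pool.Agent.Lib.MP_00e05b_nt.Bar

open Pool.Agent.Lib.MP_00e05b_nt Pool.Agent.Lib.MP_00e05b_nt.Mont Pool.Agent.Lib.MP_00e05b_nt.Gap

private lemma PE_WS_zero (ψ : ℝ → ℝ) (T t : ℝ) : WS ψ T t 0 = (WR ψ T t : ℂ) := by
  unfold WS WR
  push_cast
  refine Finset.sum_congr rfl fun γ _ => ?_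
  simp

private lemma PE_PS_add (T : ℝ) (f g : ℝ → ℝ) : PS T (fun x => f x + g x) = PS T f + PS T g := by
  unfold PS
  rw [← mul_add, ← Finset.sum_add_distrib]
  congr 1
  refine Finset.sum_congr rfl fun γ _ => ?_
  rw [← Finset.sum_add_distrib]
  refine Finset.sum_congr rfl fun γ' _ => ?_
  ring

private lemma PE_frac {C x : ℝ} (hC : 0 ≤ C) : x ^ 2 * (C / (1 + x ^ 2) ^ 2) ≤ C / (1 + x ^ 2) := by
  have h1 : (0 : ℝ) < 1 + x ^ 2 := by positivity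
  rw [mul_div_assoc', div_le_div_iff₀ (by positivity) h1]
  nlinarith [mul_nonneg hC h1.le, mul_nonneg hC (sq_nonneg x), sq_nonneg x, mul_nonneg (mul_nonneg hC h1.le) h1.le]

/-- The mean square over the whole line is asymptotically at most `ρ(0)² + ∫ |α| ρ²`. (Copy of a private lemma of Gap/B2.) -/
private lemma PE_second (hRH : RiemannHypothesis) {ρ : ℝ → ℝ} (hρ : ES ρ 1) {ε : ℝ} (hε : 0 < ε) :
    ∀ᶠ T : ℝ in atTop, Integrable (fun t => WR (fT ρ) T t ^ 2) ∧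
      T⁻¹ * ∫ t, WR (fT ρ) T t ^ 2 ≤ ρ 0 ^ 2 + (∫ α, |α| * ρ α ^ 2) + ε := by
  have hq : ContDiff ℝ (⊤ : ℕ∞) (fun α => ρ α ^ 2) := hρ.smooth.pow 2
  have hq0 : ∀ x : ℝ, 1 ≤ |x| → ρ x ^ 2 = 0 := fun x hx => by rw [hρ.supp x hx]; norm_num
  obtain ⟨-, -, C, hC, hCq⟩ := fT_smooth (φ := fun α => ρ α ^ 2) hq (fun α => by rw [hρ.even]) ⟨1, hq0⟩
  have hlim := base_sym hRH (r := fun α => ρ α ^ 2) hq.continuous hq0
  obtain ⟨D, hD, hPS⟩ := PS_bound hRH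
  have hlog : Tendsto (fun T : ℝ => D * ((Real.pi / Real.log T) ^ 2 * C)) atTop (𝓝 0) := by
    have h1 : Tendsto (fun T : ℝ => Real.pi / Real.log T) atTop (𝓝 0) :=
      Real.tendsto_log_atTop.const_div_atTop Real.pi
    have h2 := ((h1.pow 2).mul_const C).const_mul D
    simpa using h2
  have e1 := hlim.eventually (gt_mem_nhds (show (fun α => ρ α ^ 2) 0 + ∫ x : ℝ, |x| * (fun α => ρ α ^ 2) x <
    ρ 0 ^ 2 + (∫ α, |α| * ρ α ^ 2) + ε / 2 by simp only; linarith))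
  have e2 := hlog.eventually (gt_mem_nhds (half_pos hε))
  filter_upwards [e1, e2, hPS, eventually_gt_atTop 1] with T h1 h2 h3 hT
  obtain ⟨hi, he⟩ := energy_pt hT hρ 0
  have hsq : ∀ t, ‖WS (fT ρ) T t 0‖ ^ 2 = WR (fT ρ) T t ^ 2 := by
    intro t
    rw [PE_WS_zero, Complex.norm_real, Real.norm_eq_abs, sq_abs]
  simp_rw [hsq] at hi he
  refine ⟨hi, ?_⟩
  rw [he]
  have h4 : (fun x => (1 + (Real.pi / Real.log T) ^ 2 * x ^ 2) * (fT (fun α => ρ α ^ 2) x * Real.cos (2 * Real.pi * 0 * x))) =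
      fun x => fT (fun α => ρ α ^ 2) x + (Real.pi / Real.log T) ^ 2 * (x ^ 2 * fT (fun α => ρ α ^ 2) x) := by
    funext x
    rw [mul_zero, zero_mul, Real.cos_zero]
    ring
  rw [h4, PE_PS_add, ← PS_FF hT hq.continuous ⟨1, hq0⟩]
  have h5 := h3 ((Real.pi / Real.log T) ^ 2 * C) (fun x => (Real.pi / Real.log T) ^ 2 * (x ^ 2 * fT (fun α => ρ α ^ 2) x)) (by
    intro x
    rw [abs_mul, abs_of_nonneg (sq_nonneg (Real.pi / Real.log T)), mul_div_assoc]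
    refine mul_le_mul_of_nonneg_left ?_ (sq_nonneg _)
    rw [abs_mul, abs_of_nonneg (sq_nonneg x)]
    exact (mul_le_mul_of_nonneg_left (hCq x) (sq_nonneg x)).trans (PE_frac hC))
  have h6 := le_abs_self (PS T (fun x => (Real.pi / Real.log T) ^ 2 * (x ^ 2 * fT (fun α => ρ α ^ 2) x)))
  linarith

private lemma PE_es {κ : ℝ → ℝ} (h : ES κ (1 / 8)) : ES κ 1 :=
  ⟨h.smooth, h.even, fun u hu => h.supp u (by linarith)⟩

/-- Linearity of `fT`. -/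
private lemma PE_fT {f g h : ℝ → ℝ} {s : ℝ} (hf : ES f s) (hg : ES g s) (hh : ES h s) (c x : ℝ) :
    fT (fun u => c * f u + g u + h u) x = c * fT f x + fT g x + fT h x := by
  have hi : ∀ k : ℝ → ℝ, ES k s → Integrable (fun α : ℝ => k α * Real.cos (2 * Real.pi * x * α)) := by
    intro k hk
    refine hk.integrable.mul_bdd (c := 1) (by fun_prop) (Filter.Eventually.of_forall fun v => ?_)
    rw [Real.norm_eq_abs]
    exact Real.abs_cos_le_one _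
  unfold fT
  have h1 : ∫ α : ℝ, (c * (f α * Real.cos (2 * Real.pi * x * α)) + g α * Real.cos (2 * Real.pi * x * α) +
      h α * Real.cos (2 * Real.pi * x * α)) = c * (∫ α : ℝ, f α * Real.cos (2 * Real.pi * x * α)) +
      (∫ α : ℝ, g α * Real.cos (2 * Real.pi * x * α)) + ∫ α : ℝ, h α * Real.cos (2 * Real.pi * x * α) := by
    have i1 : Integrable (fun α : ℝ => c * (f α * Real.cos (2 * Real.pi * x * α)) + g α * Real.cos (2 * Real.pi * x * α)) :=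
      ((hi f hf).const_mul c).add (hi g hg)
    rw [integral_add i1 (hi h hh), integral_add ((hi f hf).const_mul c) (hi g hg), integral_const_mul]
  rw [← h1]
  refine integral_congr_ae (Filter.Eventually.of_forall fun α => ?_)
  simp only
  ring

private lemma PE_WR {f g h : ℝ → ℝ} {s : ℝ} (hf : ES f s) (hg : ES g s) (hh : ES h s) (c T t : ℝ) :
    WR (fT (fun u => c * f u + g u + h u)) T t = c * WR (fT f) T t + WR (fT g) T t + WR (fT h) T t := by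
  unfold WR
  rw [Finset.mul_sum, ← Finset.sum_add_distrib, ← Finset.sum_add_distrib]
  refine Finset.sum_congr rfl fun γ _ => ?_
  rw [PE_fT hf hg hh]
  ring

private lemma PE_Pr (f g h : ℝ → ℝ) (c T t : ℝ) :
    Pr (fun u => c * f u + g u + h u) T t = c * Pr f T t + Pr g T t + Pr h T t := by
  unfold Pr
  have h1 : ∑ p ∈ (Finset.range (⌊T⌋₊ + 1)).filter Nat.Prime,
      Real.log p / Real.sqrt p * (fun u => c * f u + g u + h u) (Real.log p / Real.log T) * Real.cos (t * Real.log p) =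
      c * (∑ p ∈ (Finset.range (⌊T⌋₊ + 1)).filter Nat.Prime,
        Real.log p / Real.sqrt p * f (Real.log p / Real.log T) * Real.cos (t * Real.log p)) +
      (∑ p ∈ (Finset.range (⌊T⌋₊ + 1)).filter Nat.Prime,
        Real.log p / Real.sqrt p * g (Real.log p / Real.log T) * Real.cos (t * Real.log p)) +
      ∑ p ∈ (Finset.range (⌊T⌋₊ + 1)).filter Nat.Prime,
        Real.log p / Real.sqrt p * h (Real.log p / Real.log T) * Real.cos (t * Real.log p) := by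
    rw [Finset.mul_sum, ← Finset.sum_add_distrib, ← Finset.sum_add_distrib]
    refine Finset.sum_congr rfl fun p _ => ?_
    simp only
    ring
  rw [h1]
  ring

/-- The second moment of the prime sum in mean. -/
private lemma PE_pr2 (hRH : RiemannHypothesis) {κ : ℝ → ℝ} (hκ : ES κ (1 / 8)) {ε : ℝ} (hε : 0 < ε)
    (h : (∫ α, |α| * κ α ^ 2) ≤ ε) : ∀ᶠ T : ℝ in atTop, T⁻¹ * ∫ t in (0 : ℝ)..T, Pr κ T t ^ 2 ≤ 2 * ε := by
  have h1 := mom2 hRH hκ hκ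
  have h2 : (∫ α, |α| * (κ α * κ α)) < 2 * ε := by
    have : (fun α : ℝ => |α| * (κ α * κ α)) = fun α => |α| * κ α ^ 2 := by
      funext α
      ring
    rw [this]
    linarith
  filter_upwards [h1.eventually (gt_mem_nhds h2)] with T hT
  have h3 : (fun t => Pr κ T t ^ 2) = fun t => Pr κ T t * Pr κ T t := by
    funext t
    ring
  rw [h3]
  exact le_of_lt hT

/-- The part which vanishes near `0`. -/
private lemma PE_far (hRH : RiemannHypothesis) {κ : ℝ → ℝ} (hκ : ES κ (1 / 8)) {η : ℝ} (hη : 0 < η)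
    (hz : ∀ u, |u| ≤ η → κ u = 0) {ε : ℝ} (hε : 0 < ε) :
    ∀ᶠ T : ℝ in atTop, T⁻¹ * ∫ t in (0 : ℝ)..T, (WR (fT κ) T t - Pr κ T t) ^ 2 ≤ ε := by
  obtain ⟨Ca, hCa, ha⟩ := pea hRH hκ hη hz
  obtain ⟨Cb, hCb, hb⟩ := peb hRH hκ
  obtain ⟨Cc, hCc, hc⟩ := pec hκ
  have e1 : Tendsto (fun T : ℝ => 3 * Cb * (Real.log T ^ 2 / T)) atTop (𝓝 0) := by
    have h1 : Tendsto (fun T : ℝ => Real.log T ^ 2 / T) atTop (𝓝 0) := by
      have h2 := (isLittleO_log_rpow_atTop (r := 1 / 2) (by norm_num)).tendsto_div_nhds_zero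
      have h3 : Tendsto (fun x : ℝ => (Real.log x / x ^ (1 / 2 : ℝ)) ^ 2) atTop (𝓝 0) := by
        have h4 := h2.pow 2
        rw [zero_pow (by norm_num)] at h4
        exact h4
      refine h3.congr' ?_
      filter_upwards [eventually_gt_atTop 0] with T hT
      rw [div_pow, ← Real.sqrt_eq_rpow, Real.sq_sqrt hT.le]
    simpa using h1.const_mul (3 * Cb)
  have e2 : Tendsto (fun T : ℝ => 3 * Ca * (Real.sqrt T)⁻¹) atTop (𝓝 0) := by
    have h1 : Tendsto (fun T : ℝ => (Real.sqrt T)⁻¹) atTop (𝓝 0) :=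
      tendsto_inv_atTop_zero.comp Real.tendsto_sqrt_atTop
    simpa using h1.const_mul (3 * Ca)
  have e3 : Tendsto (fun T : ℝ => 3 * Cc * (Real.log T)⁻¹) atTop (𝓝 0) := by
    have h1 : Tendsto (fun T : ℝ => (Real.log T)⁻¹) atTop (𝓝 0) :=
      tendsto_inv_atTop_zero.comp Real.tendsto_log_atTop
    simpa using h1.const_mul (3 * Cc)
  have hε3 : 0 < ε / 3 := by positivity
  filter_upwards [e1.eventually (gt_mem_nhds hε3), e2.eventually (gt_mem_nhds hε3), e3.eventually (gt_mem_nhds hε3),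
    eventually_ge_atTop 2] with T h1 h2 h3 hT
  have hT0 : 0 < T := by linarith
  obtain ⟨hcont, ha'⟩ := ha T hT
  have hb' := hb T hT
  have hc' := hc T hT
  have cWR := WR_cont hκ T
  have cPr := Pr_cont κ T
  have cLb := Lb_cont κ T
  have k1 : IntervalIntegrable (fun t => (WR (fT κ) T t - WA κ T t) ^ 2) volume 0 T :=
    ((cWR.sub hcont).pow 2).intervalIntegrable _ _
  have k2 : IntervalIntegrable (fun t => (WA κ T t - Lb κ T t) ^ 2) volume 0 T :=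
    ((hcont.sub cLb).pow 2).intervalIntegrable _ _
  have k3 : IntervalIntegrable (fun t => (Lb κ T t - Pr κ T t) ^ 2) volume 0 T :=
    ((cLb.sub cPr).pow 2).intervalIntegrable _ _
  have h4 : ∫ t in (0 : ℝ)..T, (WR (fT κ) T t - Pr κ T t) ^ 2 ≤
      ∫ t in (0 : ℝ)..T, (3 * (WR (fT κ) T t - WA κ T t) ^ 2 + 3 * (WA κ T t - Lb κ T t) ^ 2 +
        3 * (Lb κ T t - Pr κ T t) ^ 2) := by
    refine intervalIntegral.integral_mono_on hT0.le (((cWR.sub cPr).pow 2).intervalIntegrable _ _)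
      (((k1.const_mul 3).add (k2.const_mul 3)).add (k3.const_mul 3)) fun t _ => ?_
    nlinarith [sq_nonneg ((WR (fT κ) T t - WA κ T t) - (WA κ T t - Lb κ T t)),
      sq_nonneg ((WR (fT κ) T t - WA κ T t) - (Lb κ T t - Pr κ T t)), sq_nonneg ((WA κ T t - Lb κ T t) - (Lb κ T t - Pr κ T t))]
  have h5 : ∫ t in (0 : ℝ)..T, (3 * (WR (fT κ) T t - WA κ T t) ^ 2 + 3 * (WA κ T t - Lb κ T t) ^ 2 +
        3 * (Lb κ T t - Pr κ T t) ^ 2) =
      3 * (∫ t in (0 : ℝ)..T, (WR (fT κ) T t - WA κ T t) ^ 2) + 3 * (∫ t in (0 : ℝ)..T, (WA κ T t - Lb κ T t) ^ 2) +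
        3 * ∫ t in (0 : ℝ)..T, (Lb κ T t - Pr κ T t) ^ 2 := by
    rw [intervalIntegral.integral_add ((k1.const_mul 3).add (k2.const_mul 3)) (k3.const_mul 3),
      intervalIntegral.integral_add (k1.const_mul 3) (k2.const_mul 3), intervalIntegral.integral_const_mul,
      intervalIntegral.integral_const_mul, intervalIntegral.integral_const_mul]
  have hTi : 0 < T⁻¹ := inv_pos.2 hT0
  have h6 : T⁻¹ * (3 * (Cb * Real.log T ^ 2)) = 3 * Cb * (Real.log T ^ 2 / T) := by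
    field_simp
  have h7 : T⁻¹ * (3 * (Ca * Real.sqrt T)) = 3 * Ca * (Real.sqrt T)⁻¹ := by
    have h8 : T = Real.sqrt T * Real.sqrt T := (Real.mul_self_sqrt hT0.le).symm
    have h9 : 0 < Real.sqrt T := Real.sqrt_pos.2 hT0
    rw [show T⁻¹ = (Real.sqrt T)⁻¹ * (Real.sqrt T)⁻¹ by rw [← mul_inv, ← h8]]
    field_simp
  have h8 : T⁻¹ * (3 * (Cc * T / Real.log T)) = 3 * Cc * (Real.log T)⁻¹ := by
    field_simp
  have h9 : T⁻¹ * (∫ t in (0 : ℝ)..T, (WR (fT κ) T t - Pr κ T t) ^ 2) ≤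
      T⁻¹ * (3 * (Cb * Real.log T ^ 2) + 3 * (Ca * Real.sqrt T) + 3 * (Cc * T / Real.log T)) := by
    refine mul_le_mul_of_nonneg_left ?_ hTi.le
    rw [h5] at h4
    linarith
  rw [mul_add, mul_add, h6, h7, h8] at h9
  linarith

theorem ef_pr (hRH : RiemannHypothesis) {κ : ℝ → ℝ} (hκ : ES κ (1 / 8)) {ε : ℝ} (hε : 0 < ε) :
    ∀ᶠ T : ℝ in atTop, T⁻¹ * ∫ t in (0 : ℝ)..T, (WR (fT κ) T t - κ 0 - Pr κ T t) ^ 2 ≤ ε := by
  obtain ⟨ε₁, hε₁⟩ : ∃ ε₁ : ℝ, ε₁ = ε / (25 * (κ 0 ^ 2 + 1)) := ⟨_, rfl⟩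
  have hε₁0 : 0 < ε₁ := by rw [hε₁]; positivity
  have hε₁1 : 25 * (κ 0 ^ 2 + 1) * ε₁ = ε := by
    rw [hε₁]
    have : κ 0 ^ 2 + 1 ≠ 0 := by positivity
    field_simp
  obtain ⟨χ, κ₁, κ₂, η, hχ, hκ₁, hκ₂, hη, hpos, hχ0, hκ₁0, hz, hdec, hsχ, hs₁⟩ := ped hκ hε₁0
  have b1 := variance hRH (PE_es hχ) hpos hε₁0
  have b2 := PE_pr2 hRH hχ hε₁0 hsχ
  have b3 := PE_second hRH (PE_es hκ₁) hε₁0
  have b4 := PE_pr2 hRH hκ₁ hε₁0 hs₁
  have b5 := PE_far hRH hκ₂ hη hz hε₁0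
  filter_upwards [b1, b2, b3, b4, b5, eventually_gt_atTop 0] with T c1 c2 c3 c4 c5 hT0
  obtain ⟨c3i, c3⟩ := c3
  have hTi : 0 < T⁻¹ := inv_pos.2 hT0
  have cχ := WR_cont hχ T
  have c₁ := WR_cont hκ₁ T
  have c₂ := WR_cont hκ₂ T
  have pχ := Pr_cont χ T
  have p₁ := Pr_cont κ₁ T
  have p₂ := Pr_cont κ₂ T
  have c3' : T⁻¹ * ∫ t in (0 : ℝ)..T, WR (fT κ₁) T t ^ 2 ≤ 2 * ε₁ := by
    have h5 : ∫ t in (0 : ℝ)..T, WR (fT κ₁) T t ^ 2 ≤ ∫ t, WR (fT κ₁) T t ^ 2 := by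
      rw [intervalIntegral.integral_of_le hT0.le]
      exact setIntegral_le_integral c3i (Filter.Eventually.of_forall fun t => sq_nonneg _)
    have h6 := (mul_le_mul_of_nonneg_left h5 hTi.le).trans c3
    rw [hκ₁0] at h6
    nlinarith
  have c1' : T⁻¹ * ∫ t in (0 : ℝ)..T, (WR (fT χ) T t - 1) ^ 2 ≤ 2 * ε₁ := by
    rw [hχ0] at c1
    linarith
  have hκe : κ = fun u => κ 0 * χ u + κ₁ u + κ₂ u := funext hdec
  have hD : ∀ t, WR (fT κ) T t - κ 0 - Pr κ T t = κ 0 * (WR (fT χ) T t - 1) - κ 0 * Pr χ T t + WR (fT κ₁) T t -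
      Pr κ₁ T t + (WR (fT κ₂) T t - Pr κ₂ T t) := by
    intro t
    have h1 : WR (fT κ) T t = κ 0 * WR (fT χ) T t + WR (fT κ₁) T t + WR (fT κ₂) T t := by
      rw [← PE_WR hχ hκ₁ hκ₂, ← hκe]
    have h2 : Pr κ T t = κ 0 * Pr χ T t + Pr κ₁ T t + Pr κ₂ T t := by
      rw [← PE_Pr, ← hκe]
    rw [h1, h2]
    ring
  have k1 : IntervalIntegrable (fun t => (WR (fT χ) T t - 1) ^ 2) volume 0 T :=
    ((cχ.sub continuous_const).pow 2).intervalIntegrable _ _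
  have k2 : IntervalIntegrable (fun t => Pr χ T t ^ 2) volume 0 T := (pχ.pow 2).intervalIntegrable _ _
  have k3 : IntervalIntegrable (fun t => WR (fT κ₁) T t ^ 2) volume 0 T := (c₁.pow 2).intervalIntegrable _ _
  have k4 : IntervalIntegrable (fun t => Pr κ₁ T t ^ 2) volume 0 T := (p₁.pow 2).intervalIntegrable _ _
  have k5 : IntervalIntegrable (fun t => (WR (fT κ₂) T t - Pr κ₂ T t) ^ 2) volume 0 T :=
    ((c₂.sub p₂).pow 2).intervalIntegrable _ _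
  have k6 : IntervalIntegrable (fun t => (κ 0 * (WR (fT χ) T t - 1) - κ 0 * Pr χ T t + WR (fT κ₁) T t -
      Pr κ₁ T t + (WR (fT κ₂) T t - Pr κ₂ T t)) ^ 2) volume 0 T :=
    ((((((cχ.sub continuous_const).const_mul (κ 0)).sub (pχ.const_mul (κ 0))).add c₁).sub p₁).add (c₂.sub p₂)).pow 2
      |>.intervalIntegrable _ _
  have h4 : ∫ t in (0 : ℝ)..T, (κ 0 * (WR (fT χ) T t - 1) - κ 0 * Pr χ T t + WR (fT κ₁) T t -
      Pr κ₁ T t + (WR (fT κ₂) T t - Pr κ₂ T t)) ^ 2 ≤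
      ∫ t in (0 : ℝ)..T, (5 * κ 0 ^ 2 * (WR (fT χ) T t - 1) ^ 2 + 5 * κ 0 ^ 2 * Pr χ T t ^ 2 + 5 * WR (fT κ₁) T t ^ 2 +
        5 * Pr κ₁ T t ^ 2 + 5 * (WR (fT κ₂) T t - Pr κ₂ T t) ^ 2) := by
    refine intervalIntegral.integral_mono_on hT0.le k6
      (((((k1.const_mul _).add (k2.const_mul _)).add (k3.const_mul _)).add (k4.const_mul _)).add (k5.const_mul _)) fun t _ => ?_
    have key : ∀ a b c d e : ℝ, (a - b + c - d + e) ^ 2 ≤ 5 * a ^ 2 + 5 * b ^ 2 + 5 * c ^ 2 + 5 * d ^ 2 + 5 * e ^ 2 := by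
      intro a b c d e
      nlinarith [sq_nonneg (a + b), sq_nonneg (a - c), sq_nonneg (a + d), sq_nonneg (a - e), sq_nonneg (b + c),
        sq_nonneg (b - d), sq_nonneg (b + e), sq_nonneg (c + d), sq_nonneg (c - e), sq_nonneg (d + e)]
    have h := key (κ 0 * (WR (fT χ) T t - 1)) (κ 0 * Pr χ T t) (WR (fT κ₁) T t) (Pr κ₁ T t) (WR (fT κ₂) T t - Pr κ₂ T t)
    rw [mul_pow, mul_pow] at h
    linarith
  have h5 : ∫ t in (0 : ℝ)..T, (5 * κ 0 ^ 2 * (WR (fT χ) T t - 1) ^ 2 + 5 * κ 0 ^ 2 * Pr χ T t ^ 2 + 5 * WR (fT κ₁) T t ^ 2 +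
        5 * Pr κ₁ T t ^ 2 + 5 * (WR (fT κ₂) T t - Pr κ₂ T t) ^ 2) =
      5 * κ 0 ^ 2 * (∫ t in (0 : ℝ)..T, (WR (fT χ) T t - 1) ^ 2) + 5 * κ 0 ^ 2 * (∫ t in (0 : ℝ)..T, Pr χ T t ^ 2) +
        5 * (∫ t in (0 : ℝ)..T, WR (fT κ₁) T t ^ 2) + 5 * (∫ t in (0 : ℝ)..T, Pr κ₁ T t ^ 2) +
        5 * ∫ t in (0 : ℝ)..T, (WR (fT κ₂) T t - Pr κ₂ T t) ^ 2 := by
    rw [intervalIntegral.integral_add ((((k1.const_mul _).add (k2.const_mul _)).add (k3.const_mul _)).add (k4.const_mul _))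
        (k5.const_mul _),
      intervalIntegral.integral_add (((k1.const_mul _).add (k2.const_mul _)).add (k3.const_mul _)) (k4.const_mul _),
      intervalIntegral.integral_add ((k1.const_mul _).add (k2.const_mul _)) (k3.const_mul _),
      intervalIntegral.integral_add (k1.const_mul _) (k2.const_mul _), intervalIntegral.integral_const_mul,
      intervalIntegral.integral_const_mul, intervalIntegral.integral_const_mul, intervalIntegral.integral_const_mul,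
      intervalIntegral.integral_const_mul]
  have h6 : ∫ t in (0 : ℝ)..T, (WR (fT κ) T t - κ 0 - Pr κ T t) ^ 2 = ∫ t in (0 : ℝ)..T, (κ 0 * (WR (fT χ) T t - 1) -
      κ 0 * Pr χ T t + WR (fT κ₁) T t - Pr κ₁ T t + (WR (fT κ₂) T t - Pr κ₂ T t)) ^ 2 := by
    refine intervalIntegral.integral_congr fun t _ => ?_
    simp only [hD]
  rw [h6]
  have h7 := mul_le_mul_of_nonneg_left (h4.trans (le_of_eq h5)) hTi.le
  refine h7.trans ?_
  have h8 : 0 ≤ κ 0 ^ 2 := sq_nonneg _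
  have m1 := mul_le_mul_of_nonneg_left c1' h8
  have m2 := mul_le_mul_of_nonneg_left c2 h8
  have m3 : T⁻¹ * (5 * κ 0 ^ 2 * (∫ t in (0 : ℝ)..T, (WR (fT χ) T t - 1) ^ 2) +
      5 * κ 0 ^ 2 * (∫ t in (0 : ℝ)..T, Pr χ T t ^ 2) +
        5 * (∫ t in (0 : ℝ)..T, WR (fT κ₁) T t ^ 2) + 5 * (∫ t in (0 : ℝ)..T, Pr κ₁ T t ^ 2) +
        5 * ∫ t in (0 : ℝ)..T, (WR (fT κ₂) T t - Pr κ₂ T t) ^ 2) =
      5 * (κ 0 ^ 2 * (T⁻¹ * ∫ t in (0 : ℝ)..T, (WR (fT χ) T t - 1) ^ 2)) +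
      5 * (κ 0 ^ 2 * (T⁻¹ * ∫ t in (0 : ℝ)..T, Pr χ T t ^ 2)) +
        5 * (T⁻¹ * ∫ t in (0 : ℝ)..T, WR (fT κ₁) T t ^ 2) + 5 * (T⁻¹ * ∫ t in (0 : ℝ)..T, Pr κ₁ T t ^ 2) +
        5 * (T⁻¹ * ∫ t in (0 : ℝ)..T, (WR (fT κ₂) T t - Pr κ₂ T t) ^ 2) := by ring
  rw [m3]
  have m4 : 0 ≤ κ 0 ^ 2 * ε₁ := mul_nonneg h8 hε₁0.le
  nlinarith

end Pool.Agent.Lib.MP_00e05b_nt.Bar
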