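import Pool.Agent.Lib.MP_00e05b_nt.Bar.Defs

/-!
# P9, definitions for the explicit formula

`WA κ T t = ∑_a m_a fT κ (x_γ)`: the sum over all nontrivial zeros `a = 1/2 + iγ`; `Lb κ T t` is `Pr κ T t` with all prime powers.
-/

open Complex Set Filter Topology MeasureTheory

namespace Pool.Agent.Lib.MP_00e05b_nt.Bar

open Pool.Agent.Lib.MP_00e05b_nt Pool.Agent.Lib.MP_00e05b_nt.Mont Pool.Agent.Lib.MP_00e05b_nt.Gap

/-- The sum over all zeros. -/
noncomputable def WA (κ : ℝ → ℝ) (T t : ℝ) : ℝ := ∑' a : ℂ, (mx a : ℝ) * fT κ (xg T t a.im)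

/-- The sum over all prime powers. -/
noncomputable def Lb (κ : ℝ → ℝ) (T t : ℝ) : ℝ :=
  -(2 / Real.log T) * ∑ n ∈ Finset.range (⌊T⌋₊ + 1),
    ArithmeticFunction.vonMangoldt n / Real.sqrt n * κ (Real.log n / Real.log T) * Real.cos (t * Real.log n)

theorem Pr_cont (κ : ℝ → ℝ) (T : ℝ) : Continuous (fun t => Pr κ T t) := by
  unfold Pr
  fun_prop

theorem Lb_cont (κ : ℝ → ℝ) (T : ℝ) : Continuous (fun t => Lb κ T t) := by
  unfold Lb
  fun_prop

theorem WR_cont {κ : ℝ → ℝ} {s : ℝ} (hκ : ES κ s) (T : ℝ) : Continuous (fun t => WR (fT κ) T t) := by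
  have h : Continuous (fT κ) := fT_cont hκ.continuous ⟨s, hκ.supp⟩
  unfold WR xg
  fun_prop

end Pool.Agent.Lib.MP_00e05b_nt.Bar
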