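import Pool.Agent.Lib.MP_00e05b_nt.Bar.PE0

/-!
# P9 / PEa: the explicit formula in mean square
-/

open Complex Set Filter Topology MeasureTheory
open scoped ContDiff

namespace Pool.Agent.Lib.MP_00e05b_nt.Bar

open Pool.Agent.Lib.MP_00e05b_nt Pool.Agent.Lib.MP_00e05b_nt.Mont Pool.Agent.Lib.MP_00e05b_nt.Gap

/-- the half of the kernel on the positive axis, scaled -/
private noncomputable def PEk (κ : ℝ → ℝ) (L u : ℝ) : ℝ := if 0 < u then κ (u / L) else 0

private noncomputable def PEF (κ : ℝ → ℝ) (L u : ℝ) : ℝ :=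
  PEk κ L u * (Real.exp (u / 2) - Real.exp (-(u / 2)) * rt u)

private noncomputable def PEg (κ : ℝ → ℝ) (L t u : ℝ) : ℂ :=
  ((PEk κ L u * Real.exp (-(u / 2)) : ℝ) : ℂ) * cexp (((-(t * u) : ℝ) : ℂ) * I)

private noncomputable def PEh (κ : ℝ → ℝ) (L t : ℝ) : ℂ :=
  ∫ u, ((PEF κ L u : ℝ) : ℂ) * cexp (((-(t * u) : ℝ) : ℂ) * I)

private theorem PE_rt_pos {u : ℝ} (hu : 0 < u) : 0 < 1 - Real.exp (-(2 * u)) := by
  have : Real.exp (-(2 * u)) < 1 := by rw [Real.exp_lt_one_iff]; linarith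
  linarith

private theorem PE_rt_nonneg {u : ℝ} (hu : 0 < u) : 0 ≤ rt u := by
  unfold rt
  exact div_nonneg (Real.exp_pos _).le (PE_rt_pos hu).le

private theorem PE_rt_anti {u v : ℝ} (hu : 0 < u) (huv : u ≤ v) : rt v ≤ rt u := by
  unfold rt
  have h1 : Real.exp (-(2 * v)) ≤ Real.exp (-(2 * u)) := Real.exp_le_exp.2 (by linarith)
  have h2 := PE_rt_pos hu
  gcongr

private theorem PEk_of_pos (κ : ℝ → ℝ) {L u : ℝ} (hu : 0 < u) : PEk κ L u = κ (u / L) := if_pos hu

private theorem PEk_small {κ : ℝ → ℝ} {η : ℝ} (hz : ∀ u, |u| ≤ η → κ u = 0) {L : ℝ} (hL : 0 < L)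
    {u : ℝ} (hu : u ≤ η * L) : PEk κ L u = 0 := by
  unfold PEk
  split_ifs with h
  · apply hz
    rw [abs_of_pos (by positivity), div_le_iff₀ hL]
    exact hu
  · rfl

private theorem PEk_large {κ : ℝ → ℝ} (hκ : ES κ (1 / 8)) {L : ℝ} (hL : 0 < L)
    {u : ℝ} (hu : L / 8 ≤ u) : PEk κ L u = 0 := by
  have h0 : 0 < u := by linarith [div_pos hL (by norm_num : (0 : ℝ) < 8)]
  rw [PEk_of_pos κ h0]
  apply hκ.supp
  rw [abs_of_pos (by positivity), le_div_iff₀ hL]
  linarith

private theorem PEk_icc {κ : ℝ → ℝ} (hκ : ES κ (1 / 8)) {η : ℝ}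
    (hz : ∀ u, |u| ≤ η → κ u = 0) {L : ℝ} (hL : 0 < L) {u : ℝ} (hu : u ∉ Icc (η * L) (L / 8)) :
    PEk κ L u = 0 := by
  rw [mem_Icc, not_and_or, not_le, not_le] at hu
  rcases hu with h | h
  · exact PEk_small hz hL h.le
  · exact PEk_large hκ hL h.le

private theorem PEF_smooth {κ : ℝ → ℝ} (hκ : ES κ (1 / 8)) {η : ℝ} (hη : 0 < η)
    (hz : ∀ u, |u| ≤ η → κ u = 0) {L : ℝ} (hL : 0 < L) : ContDiff ℝ ∞ (fun u => PEF κ L u) := by
  rw [contDiff_iff_contDiffAt]
  intro x
  by_cases hx : 0 < x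
  · have hev : (fun u => PEF κ L u) =ᶠ[𝓝 x]
        fun u => κ (u / L) * (Real.exp (u / 2) - Real.exp (-(u / 2)) * rt u) := by
      filter_upwards [Ioi_mem_nhds hx] with u hu
      unfold PEF
      rw [PEk_of_pos κ hu]
    refine ContDiffAt.congr_of_eventuallyEq ?_ hev
    have hks : ContDiff ℝ ∞ (fun u => κ (u / L)) := hκ.smooth.comp (contDiff_id.div_const L)
    refine hks.contDiffAt.mul (ContDiffAt.sub ?_ (ContDiffAt.mul ?_ ?_))
    · exact (Real.contDiff_exp.comp (contDiff_id.div_const 2)).contDiffAt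
    · exact (Real.contDiff_exp.comp (contDiff_id.div_const 2).neg).contDiffAt
    · unfold rt
      have h1 : ContDiffAt ℝ ∞ (fun u : ℝ => Real.exp (-(2 * u))) x :=
        (Real.contDiff_exp.comp (contDiff_const.mul contDiff_id).neg).contDiffAt
      exact h1.div (contDiffAt_const.sub h1) (PE_rt_pos hx).ne'
  · have hev : (fun u => PEF κ L u) =ᶠ[𝓝 x] fun _ => 0 := by
      have : Iio (η * L) ∈ 𝓝 x := Iio_mem_nhds (lt_of_le_of_lt (not_lt.1 hx) (by positivity))
      filter_upwards [this] with u hu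
      unfold PEF
      rw [PEk_small hz hL (le_of_lt hu), zero_mul]
    exact contDiffAt_const.congr_of_eventuallyEq hev

private theorem PEk_smooth {κ : ℝ → ℝ} (hκ : ES κ (1 / 8)) {η : ℝ} (hη : 0 < η)
    (hz : ∀ u, |u| ≤ η → κ u = 0) {L : ℝ} (hL : 0 < L) : ContDiff ℝ ∞ (fun u => PEk κ L u) := by
  rw [contDiff_iff_contDiffAt]
  intro x
  by_cases hx : 0 < x
  · have hev : (fun u => PEk κ L u) =ᶠ[𝓝 x] fun u => κ (u / L) := by
      filter_upwards [Ioi_mem_nhds hx] with u hu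
      rw [PEk_of_pos κ hu]
    have hks : ContDiff ℝ ∞ (fun u => κ (u / L)) := hκ.smooth.comp (contDiff_id.div_const L)
    exact hks.contDiffAt.congr_of_eventuallyEq hev
  · have hev : (fun u => PEk κ L u) =ᶠ[𝓝 x] fun _ => 0 := by
      have : Iio (η * L) ∈ 𝓝 x := Iio_mem_nhds (lt_of_le_of_lt (not_lt.1 hx) (by positivity))
      filter_upwards [this] with u hu
      rw [PEk_small hz hL (le_of_lt hu)]
    exact contDiffAt_const.congr_of_eventuallyEq hev

private theorem PEF_cpt {κ : ℝ → ℝ} (hκ : ES κ (1 / 8)) {η : ℝ}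
    (hz : ∀ u, |u| ≤ η → κ u = 0) {L : ℝ} (hL : 0 < L) :
    HasCompactSupport (fun u => ((PEF κ L u : ℝ) : ℂ)) := by
  apply HasCompactSupport.of_support_subset_isCompact (isCompact_Icc (a := η * L) (b := L / 8))
  intro u hu
  by_contra hcon
  apply hu
  simp only
  unfold PEF
  rw [PEk_icc hκ hz hL hcon, zero_mul, Complex.ofReal_zero]

private theorem PEg_supp {κ : ℝ → ℝ} (hκ : ES κ (1 / 8)) {η : ℝ}
    (hz : ∀ u, |u| ≤ η → κ u = 0) {L : ℝ} (hL : 0 < L) (t : ℝ) :
    Function.support (PEg κ L t) ⊆ Icc (η * L) (L / 8) := by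
  intro u hu
  by_contra hcon
  apply hu
  unfold PEg
  rw [PEk_icc hκ hz hL hcon, zero_mul, Complex.ofReal_zero, zero_mul]

private theorem PEg_test {κ : ℝ → ℝ} (hκ : ES κ (1 / 8)) {η : ℝ} (hη : 0 < η)
    (hz : ∀ u, |u| ≤ η → κ u = 0) {L : ℝ} (hL : 0 < L) (t : ℝ) : Test (PEg κ L t) := by
  refine ⟨?_, ?_, ?_⟩
  · have h1 : ContDiff ℝ ∞ (fun u : ℝ => PEk κ L u * Real.exp (-(u / 2))) :=
      (PEk_smooth hκ hη hz hL).mul (Real.contDiff_exp.comp (contDiff_id.div_const 2).neg)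
    have h2 : ContDiff ℝ ∞ (fun u : ℝ => ((PEk κ L u * Real.exp (-(u / 2)) : ℝ) : ℂ)) :=
      Complex.ofRealCLM.contDiff.comp h1
    have h3 : ContDiff ℝ ∞ (fun u : ℝ => (((-(t * u) : ℝ) : ℂ) * I)) :=
      (Complex.ofRealCLM.contDiff.comp (contDiff_const.mul contDiff_id).neg).mul contDiff_const
    exact h2.mul (Complex.contDiff_exp.comp h3)
  · exact HasCompactSupport.of_support_subset_isCompact isCompact_Icc (PEg_supp hκ hz hL t)
  · have h1 : tsupport (PEg κ L t) ⊆ Icc (η * L) (L / 8) :=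
      closure_minimal (PEg_supp hκ hz hL t) isClosed_Icc
    intro u hu
    have h2 := (h1 hu).1
    rw [mem_Ioi]
    exact lt_of_lt_of_le (by positivity) h2

private theorem PE_exp_re (x : ℝ) : (cexp ((x : ℂ) * I)).re = Real.cos x := by
  rw [Complex.exp_ofReal_mul_I_re]

/-- half of the cosine transform -/
private theorem PE_half {κ : ℝ → ℝ} (hκ : ES κ (1 / 8)) {L : ℝ} (hL : 0 < L) (c : ℝ) :
    ∫ u, PEk κ L u * Real.cos (c * u) = L / 2 * fT κ (L * c / (2 * Real.pi)) := by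
  have hpi := Real.pi_pos
  have h1 : ∫ u, PEk κ L u * Real.cos (c * u) = ∫ u in Ioi (0 : ℝ), κ (u / L) * Real.cos (c * u) := by
    rw [← integral_indicator measurableSet_Ioi]
    refine integral_congr_ae (Eventually.of_forall fun u => ?_)
    simp only
    by_cases hu : 0 < u
    · rw [PEk_of_pos κ hu, indicator_of_mem (show u ∈ Ioi (0 : ℝ) from hu)]
    · rw [indicator_of_notMem (show u ∉ Ioi (0 : ℝ) from hu)]
      unfold PEk
      rw [if_neg hu, zero_mul]
  have h2 := integral_comp_abs (f := fun u : ℝ => κ (u / L) * Real.cos (c * u))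
  have h3 : ∫ u : ℝ, κ (|u| / L) * Real.cos (c * |u|) = ∫ u : ℝ, κ (u / L) * Real.cos (c * u) := by
    refine integral_congr_ae (Eventually.of_forall fun u => ?_)
    simp only
    rcases abs_choice u with h | h
    · rw [h]
    · rw [h, neg_div, hκ.even, mul_neg, Real.cos_neg]
  have h4 : ∫ u : ℝ, κ (u / L) * Real.cos (c * u) = L * fT κ (L * c / (2 * Real.pi)) := by
    have h5 := Measure.integral_comp_div (fun α : ℝ => κ α * Real.cos (c * (L * α))) L
    rw [abs_of_pos hL, smul_eq_mul] at h5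
    have h6 : ∫ u : ℝ, κ (u / L) * Real.cos (c * u) = ∫ u : ℝ, κ (u / L) * Real.cos (c * (L * (u / L))) := by
      refine integral_congr_ae (Eventually.of_forall fun u => ?_)
      simp only
      rw [mul_div_cancel₀ u hL.ne']
    rw [h6, h5]
    congr 1
    unfold fT
    refine integral_congr_ae (Eventually.of_forall fun α => ?_)
    simp only
    congr 2
    field_simp
  rw [h1]
  rw [h3, h4] at h2
  linarith

/-- the transform at a zero -/
private theorem PE_zero_int {κ : ℝ → ℝ} (hκ : ES κ (1 / 8)) {η : ℝ} (hη : 0 < η)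
    (hz : ∀ u, |u| ≤ η → κ u = 0) {T : ℝ} (hL : 0 < Real.log T) (t γ : ℝ) :
    (∫ u : ℝ, PEg κ (Real.log T) t u * cexp ((1 / 2 + γ * I) * u)).re =
      Real.log T / 2 * fT κ (xg T t γ) := by
  set L := Real.log T with hLdef
  have hkc : Continuous (fun u => PEk κ L u) := (PEk_smooth hκ hη hz hL).continuous
  have hkcpt : HasCompactSupport (fun u => PEk κ L u) := by
    apply HasCompactSupport.of_support_subset_isCompact (isCompact_Icc (a := η * L) (b := L / 8))
    intro u hu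
    by_contra hcon
    exact hu (PEk_icc hκ hz hL hcon)
  have h1 : (fun u : ℝ => PEg κ L t u * cexp ((1 / 2 + γ * I) * u)) =
      fun u : ℝ => ((PEk κ L u : ℝ) : ℂ) * cexp ((((γ - t) * u : ℝ) : ℂ) * I) := by
    funext u
    unfold PEg
    push_cast
    have e1 : cexp (-(↑u / 2)) * cexp (-(↑t * ↑u) * I) * cexp ((1 / 2 + ↑γ * I) * ↑u)
        = cexp ((↑γ - ↑t) * ↑u * I) := by
      rw [← Complex.exp_add, ← Complex.exp_add]
      congr 1
      ring
    calc (PEk κ L u : ℂ) * cexp (-(↑u / 2)) * cexp (-(↑t * ↑u) * I) * cexp ((1 / 2 + ↑γ * I) * ↑u)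
        = (PEk κ L u : ℂ) * (cexp (-(↑u / 2)) * cexp (-(↑t * ↑u) * I) * cexp ((1 / 2 + ↑γ * I) * ↑u)) := by
          ring
      _ = _ := by rw [e1]
  have hi : Integrable (fun u : ℝ => ((PEk κ L u : ℝ) : ℂ) * cexp ((((γ - t) * u : ℝ) : ℂ) * I)) := by
    apply Continuous.integrable_of_hasCompactSupport
    · have : Continuous (fun u => ((PEk κ L u : ℝ) : ℂ)) := Complex.continuous_ofReal.comp hkc
      fun_prop
    · exact (hkcpt.comp_left (g := fun x : ℝ => (x : ℂ)) (by simp)).mul_right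
  have h2 : (∫ u : ℝ, ((PEk κ L u : ℝ) : ℂ) * cexp ((((γ - t) * u : ℝ) : ℂ) * I)).re
      = ∫ u : ℝ, PEk κ L u * Real.cos ((γ - t) * u) := by
    have h3 := integral_re hi
    simp only [RCLike.re_eq_complex_re] at h3
    rw [← h3]
    refine integral_congr_ae (Eventually.of_forall fun u => ?_)
    simp only
    rw [Complex.re_ofReal_mul, PE_exp_re]
  rw [h1, h2, PE_half hκ hL]
  rfl

private theorem PE_main (hRH : RiemannHypothesis) {κ : ℝ → ℝ} (hκ : ES κ (1 / 8)) {η : ℝ} (hη : 0 < η)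
    (hz : ∀ u, |u| ≤ η → κ u = 0) {T : ℝ} (hT : 2 ≤ T) (t : ℝ) :
    WA κ T t = Lb κ T t + 2 / Real.log T * (PEh κ (Real.log T) t).re := by
  have hL : 0 < Real.log T := Real.log_pos (by linarith)
  set L := Real.log T with hLdef
  have hTest := PEg_test hκ hη hz hL t
  have hsum := (explicit_formula hTest).mapL Complex.reCLM
  have hterm : ∀ a : ℂ, Complex.reCLM ((mx a : ℂ) * ∫ u : ℝ, PEg κ L t u * cexp (a * u)) =
      L / 2 * ((mx a : ℝ) * fT κ (xg T t a.im)) := by
    intro a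
    rw [Complex.reCLM_apply, ← Complex.ofReal_natCast, Complex.re_ofReal_mul]
    by_cases ha : xi a = 0
    · have h1 := re_of_RH hRH ha
      have h2 : ∫ u : ℝ, PEg κ L t u * cexp (a * u) = ∫ u : ℝ, PEg κ L t u * cexp ((1 / 2 + a.im * I) * u) := by
        rw [← h1]
      rw [h2, PE_zero_int hκ hη hz hL t a.im]
      ring
    · rw [mx_eq_zero ha]
      simp
  simp only [hterm] at hsum
  have h2 := hsum.tsum_eq
  rw [tsum_mul_left] at h2
  have hcF : Continuous (fun u => ((PEF κ L u : ℝ) : ℂ)) :=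
    Complex.continuous_ofReal.comp (PEF_smooth hκ hη hz hL).continuous
  have hi1 : Integrable (fun u : ℝ => PEg κ L t u * cexp u) := by
    apply Continuous.integrable_of_hasCompactSupport
    · have := hTest.smooth.continuous
      fun_prop
    · exact hTest.cpt.mul_right
  have hi3 : Integrable (fun u : ℝ => ((PEF κ L u : ℝ) : ℂ) * cexp (((-(t * u) : ℝ) : ℂ) * I)) := by
    apply Continuous.integrable_of_hasCompactSupport
    · fun_prop
    · exact (PEF_cpt hκ hz hL).mul_right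
  have hpt : ∀ u : ℝ, PEg κ L t u * (rt u : ℂ)
      = PEg κ L t u * cexp u - ((PEF κ L u : ℝ) : ℂ) * cexp (((-(t * u) : ℝ) : ℂ) * I) := by
    intro u
    unfold PEg PEF
    push_cast
    have e2 : cexp (-(↑u / 2)) * cexp ↑u = cexp (↑u / 2) := by
      rw [← Complex.exp_add]
      congr 1
      ring
    rw [← e2]
    ring
  have h4 : (∫ u : ℝ, PEg κ L t u * cexp u) - ∫ u : ℝ, PEg κ L t u * (rt u : ℂ) = PEh κ L t := by
    have h5 : ∫ u : ℝ, PEg κ L t u * (rt u : ℂ) = (∫ u : ℝ, PEg κ L t u * cexp u) -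
        ∫ u, ((PEF κ L u : ℝ) : ℂ) * cexp (((-(t * u) : ℝ) : ℂ) * I) := by
      rw [← integral_sub hi1 hi3]
      exact integral_congr_ae (Eventually.of_forall hpt)
    rw [h5]
    unfold PEh
    ring
  rw [h4] at h2
  -- the prime sum is finite
  have hz0 : ∀ n : ℕ, n ∉ Finset.range (⌊T⌋₊ + 1) →
      ((ArithmeticFunction.vonMangoldt n : ℝ) : ℂ) * PEg κ L t (Real.log n) = 0 := by
    intro n hn
    rw [Finset.mem_range, not_lt] at hn
    have h5 : T < n := by
      have h6 := Nat.lt_floor_add_one T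
      have h7 : ((⌊T⌋₊ + 1 : ℕ) : ℝ) ≤ (n : ℝ) := by exact_mod_cast hn
      push_cast at h7
      linarith
    have h6 : L ≤ Real.log n := Real.log_le_log (by linarith) h5.le
    unfold PEg
    rw [PEk_large hκ hL (by linarith), zero_mul, Complex.ofReal_zero, zero_mul, mul_zero]
  have h5 : Complex.reCLM (∑' n : ℕ, ((ArithmeticFunction.vonMangoldt n : ℝ) : ℂ) * PEg κ L t (Real.log n))
      = ∑ n ∈ Finset.range (⌊T⌋₊ + 1),
        ArithmeticFunction.vonMangoldt n / Real.sqrt n * κ (Real.log n / L) * Real.cos (t * Real.log n) := by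
    rw [tsum_eq_sum (s := Finset.range (⌊T⌋₊ + 1)) hz0, map_sum]
    refine Finset.sum_congr rfl fun n _ => ?_
    rw [Complex.reCLM_apply]
    unfold PEg
    rw [Complex.re_ofReal_mul, Complex.re_ofReal_mul, PE_exp_re, Real.cos_neg]
    rcases Nat.lt_or_ge n 2 with hn | hn
    · have h0 : ArithmeticFunction.vonMangoldt n = (0 : ℝ) := by
        interval_cases n
        · simp
        · exact ArithmeticFunction.vonMangoldt_apply_one
      rw [h0]
      ring
    · have hn1 : (1 : ℝ) < n := by exact_mod_cast hn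
      have hn0 : (0 : ℝ) < n := by linarith
      rw [PEk_of_pos κ (Real.log_pos hn1)]
      have h7 : Real.exp (-(Real.log n / 2)) = 1 / Real.sqrt n := by
        rw [Real.exp_neg, Real.exp_half, Real.exp_log hn0, one_div]
      rw [h7]
      ring
  rw [map_sub, h5] at h2
  unfold WA Lb
  rw [Complex.reCLM_apply] at h2
  rw [← hLdef]
  have h6 : ∑' a : ℂ, (mx a : ℝ) * fT κ (xg T t a.im)
      = 2 / L * (L / 2 * ∑' a : ℂ, (mx a : ℝ) * fT κ (xg T t a.im)) := by
    field_simp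
  rw [h6, h2]
  ring

private theorem PEh_cont {κ : ℝ → ℝ} (hκ : ES κ (1 / 8)) {η : ℝ} (hη : 0 < η)
    (hz : ∀ u, |u| ≤ η → κ u = 0) {L : ℝ} (hL : 0 < L) : Continuous (PEh κ L) := by
  have hcF : Continuous (fun u => ((PEF κ L u : ℝ) : ℂ)) :=
    Complex.continuous_ofReal.comp (PEF_smooth hκ hη hz hL).continuous
  have hI : Integrable (fun u => ((PEF κ L u : ℝ) : ℂ)) :=
    hcF.integrable_of_hasCompactSupport (PEF_cpt hκ hz hL)
  unfold PEh
  refine continuous_of_dominated (bound := fun u => ‖((PEF κ L u : ℝ) : ℂ)‖) ?_ ?_ hI.norm ?_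
  · intro t
    exact (by fun_prop : Continuous fun u => ((PEF κ L u : ℝ) : ℂ)
      * cexp (((-(t * u) : ℝ) : ℂ) * I)).aestronglyMeasurable
  · intro t
    refine Filter.Eventually.of_forall fun u => ?_
    rw [norm_mul, Complex.norm_exp_ofReal_mul_I, mul_one]
  · refine Filter.Eventually.of_forall fun u => ?_
    fun_prop

/-- LEAF PEa (adapt Mont/EF.lean, 300 lines; the private lemmas may be copied). `L = log T`, `h u = κ(u/L)` for `u > 0`, `0` otherwise: smooth with compact support in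
`[ηL, L/8] ⊂ (0, ∞)`. `explicit_formula` (Explicit2.lean) for `g u = h u e^{-u/2} e^{-itu}` (`Test g`). Under RH (`re_of_RH`, `mx_eq_zero`) for a zero
`a = 1/2 + iγ`: `∫ g e^{au} = ∫_{u > 0} κ(u/L) e^{i(γ - t)u} du`, its real part is `(1/2) ∫_ℝ κ(u/L) cos((γ - t) u) du = (L/2) fT κ (xg T t γ)` (`κ` even; substitution).
Real parts of the explicit formula: `(L/2) WA = Re F̂(t) - ∑ Λ(n) n^{-1/2} κ(log n/L) cos(t log n)`, `F̂ t = ∫ F u e^{-itu} du`, `F u = h u (e^{u/2} - e^{-u/2} rt u)`; the sum over `n`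
is the one in `Lb` (`κ(log n/L) = 0` for `n > T`, `Λ 0 = Λ 1 = 0`). So `WA - Lb = (2/L) Re F̂`, continuous in `t`; `plancherel_cs`: `∫_ℝ |F̂|² = 2π ∫ F² ≤ 2π K² (1 + rt (η log 2))² ∫_0^{L/8} e^u du ≤ C T^{1/8}`,
`K = sup |κ|`, `L ≥ log 2`. -/
theorem pea (hRH : RiemannHypothesis) {κ : ℝ → ℝ} (hκ : ES κ (1 / 8)) {η : ℝ} (hη : 0 < η)
    (hz : ∀ u, |u| ≤ η → κ u = 0) :
    ∃ C : ℝ, 0 ≤ C ∧ ∀ T : ℝ, 2 ≤ T → Continuous (fun t => WA κ T t) ∧
      ∫ t in (0 : ℝ)..T, (WA κ T t - Lb κ T t) ^ 2 ≤ C * Real.sqrt T := by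
  obtain ⟨K, hK⟩ := hκ.compact.exists_bound_of_continuous hκ.continuous
  have hK0 : 0 ≤ K := (norm_nonneg _).trans (hK 0)
  have hl2 : 0 < Real.log 2 := Real.log_pos (by norm_num)
  set ρ : ℝ := rt (η * Real.log 2) with hρ
  have hρ0 : 0 ≤ ρ := PE_rt_nonneg (by positivity)
  have hpi := Real.pi_pos
  refine ⟨Real.pi * (K * (1 + ρ)) ^ 2 / Real.log 2, by positivity, fun T hT => ?_⟩
  have hLT : Real.log 2 ≤ Real.log T := Real.log_le_log (by norm_num) hT
  have hL : 0 < Real.log T := lt_of_lt_of_le hl2 hLT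
  have hmain : ∀ t, WA κ T t = Lb κ T t + 2 / Real.log T * (PEh κ (Real.log T) t).re := fun t =>
    PE_main hRH hκ hη hz hT t
  have hhc := PEh_cont hκ hη hz hL
  constructor
  · simp only [hmain]
    exact (Lb_cont κ T).add (continuous_const.mul (Complex.continuous_re.comp hhc))
  set L := Real.log T with hLdef
  obtain ⟨hint, hpl⟩ := plancherel_cs (f := fun u => ((PEF κ L u : ℝ) : ℂ))
    (Complex.ofRealCLM.contDiff.comp (PEF_smooth hκ hη hz hL)) (PEF_cpt hκ hz hL)
  have h1 : ∫ t in (0 : ℝ)..T, (WA κ T t - Lb κ T t) ^ 2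
      ≤ ∫ t in (0 : ℝ)..T, (2 / L) ^ 2 * ‖PEh κ L t‖ ^ 2 := by
    refine intervalIntegral.integral_mono_on (by linarith) ?_ ?_ fun t _ => ?_
    · apply Continuous.intervalIntegrable
      have e : (fun t => (WA κ T t - Lb κ T t) ^ 2) = fun t => (2 / L * (PEh κ L t).re) ^ 2 := by
        funext t
        rw [hmain t]
        ring
      rw [e]
      fun_prop
    · apply Continuous.intervalIntegrable
      fun_prop
    · rw [hmain t]
      have e : (Lb κ T t + 2 / L * (PEh κ L t).re - Lb κ T t) ^ 2 = (2 / L) ^ 2 * |(PEh κ L t).re| ^ 2 := by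
        rw [sq_abs]
        ring
      rw [e]
      have h2 := Complex.abs_re_le_norm (PEh κ L t)
      gcongr
  have h2 : ∫ t in (0 : ℝ)..T, (2 / L) ^ 2 * ‖PEh κ L t‖ ^ 2
      ≤ (2 / L) ^ 2 * (2 * Real.pi * ∫ u, ‖((PEF κ L u : ℝ) : ℂ)‖ ^ 2) := by
    rw [intervalIntegral.integral_const_mul]
    refine mul_le_mul_of_nonneg_left ?_ (by positivity)
    rw [← hpl, intervalIntegral.integral_of_le (by linarith)]
    exact setIntegral_le_integral hint (Eventually.of_forall fun t => by positivity)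
  have h3 : ∫ u, ‖((PEF κ L u : ℝ) : ℂ)‖ ^ 2 ≤ L / 8 * ((K * (1 + ρ)) ^ 2 * Real.exp (L / 8)) := by
    have hzr : ∀ u, u ∉ Icc 0 (L / 8) → ‖((PEF κ L u : ℝ) : ℂ)‖ ^ 2 = 0 := by
      intro u hu
      have : PEk κ L u = 0 := by
        apply PEk_icc hκ hz hL
        intro h
        exact hu ⟨le_trans (by positivity) h.1, h.2⟩
      unfold PEF
      rw [this]
      simp
    rw [← setIntegral_eq_integral_of_forall_compl_eq_zero hzr]
    have hcF : Continuous (fun u => ((PEF κ L u : ℝ) : ℂ)) :=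
      Complex.continuous_ofReal.comp (PEF_smooth hκ hη hz hL).continuous
    calc ∫ u in Icc 0 (L / 8), ‖((PEF κ L u : ℝ) : ℂ)‖ ^ 2
        ≤ ∫ _u in Icc 0 (L / 8), (K * (1 + ρ)) ^ 2 * Real.exp (L / 8) := by
          refine setIntegral_mono_on (hcF.norm.pow 2).integrableOn_Icc continuous_const.integrableOn_Icc
            measurableSet_Icc fun u hu => ?_
          by_cases hu1 : u ≤ η * L
          · unfold PEF
            rw [PEk_small hz hL hu1]
            simp only [zero_mul, Complex.ofReal_zero, norm_zero, ne_eq, OfNat.ofNat_ne_zero,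
              not_false_eq_true, zero_pow]
            positivity
          rw [not_le] at hu1
          have hηL : η * Real.log 2 ≤ η * L := by gcongr
          have hpos : 0 < η * Real.log 2 := by positivity
          have hu0' : 0 < u := by linarith
          have h4 : 0 ≤ rt u := PE_rt_nonneg hu0'
          have h5 : rt u ≤ ρ := PE_rt_anti hpos (by linarith)
          have h6 : Real.exp (-(u / 2)) ≤ 1 := Real.exp_le_one_iff.2 (by linarith)
          have h7 : 1 ≤ Real.exp (u / 2) := Real.one_le_exp (by linarith)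
          have h8 : 0 ≤ Real.exp (-(u / 2)) * rt u := by positivity
          have h9 : Real.exp (-(u / 2)) * rt u ≤ ρ := by
            calc Real.exp (-(u / 2)) * rt u ≤ 1 * ρ := by gcongr
              _ = ρ := one_mul _
          have h10 : |Real.exp (u / 2) - Real.exp (-(u / 2)) * rt u| ≤ (1 + ρ) * Real.exp (u / 2) := by
            rw [abs_le]
            constructor <;> nlinarith
          have h11 : |PEF κ L u| ≤ K * ((1 + ρ) * Real.exp (u / 2)) := by
            unfold PEF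
            rw [abs_mul, PEk_of_pos κ hu0']
            have := hK (u / L)
            rw [Real.norm_eq_abs] at this
            gcongr
          rw [Complex.norm_real, Real.norm_eq_abs]
          calc |PEF κ L u| ^ 2 ≤ (K * ((1 + ρ) * Real.exp (u / 2))) ^ 2 := by gcongr
            _ = (K * (1 + ρ)) ^ 2 * Real.exp u := by
                rw [← mul_assoc, mul_pow, ← Real.exp_nat_mul]
                congr 2
                push_cast
                ring
            _ ≤ (K * (1 + ρ)) ^ 2 * Real.exp (L / 8) := by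
                gcongr
                exact hu.2
      _ = L / 8 * ((K * (1 + ρ)) ^ 2 * Real.exp (L / 8)) := by
          rw [setIntegral_const, smul_eq_mul, Real.volume_real_Icc_of_le (by positivity), sub_zero]
  have h4 : Real.exp (L / 8) ≤ Real.sqrt T := by
    have e : Real.sqrt T = Real.exp (L / 2) := by
      rw [Real.exp_half, hLdef, Real.exp_log (by linarith)]
    rw [e]
    exact Real.exp_le_exp.2 (by linarith)
  refine h1.trans (h2.trans ?_)
  calc (2 / L) ^ 2 * (2 * Real.pi * ∫ u, ‖((PEF κ L u : ℝ) : ℂ)‖ ^ 2)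
      ≤ (2 / L) ^ 2 * (2 * Real.pi * (L / 8 * ((K * (1 + ρ)) ^ 2 * Real.exp (L / 8)))) := by gcongr
    _ = Real.pi * (K * (1 + ρ)) ^ 2 / L * Real.exp (L / 8) := by
        field_simp
        ring
    _ ≤ Real.pi * (K * (1 + ρ)) ^ 2 / Real.log 2 * Real.sqrt T := by gcongr

end Pool.Agent.Lib.MP_00e05b_nt.Bar
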