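import Pool.Agent.Lib.MP_00e05b_nt.Bar.Defs

/-!
# PG: from windows of length `1 - δ` to long windows without short intervals

`d0 = 3δ`, `l = 1 - d0`. The `n` closed windows `[b + j (l + 2δ), b + j (l + 2δ) + l]`, `j < n`, are separated by gaps of length `2δ` and lie in
`[b, b + n (1 - δ)]`; an open interval of length `2δ` meets at most one of them, so at least `n - k` of them are free.
-/

open Complex Set Filter Topology MeasureTheory

namespace Pool.Agent.Lib.MP_00e05b_nt.Bar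

open Pool.Agent.Lib.MP_00e05b_nt Pool.Agent.Lib.MP_00e05b_nt.Mont Pool.Agent.Lib.MP_00e05b_nt.Gap

/-- At least `n - k` of the `n` windows are free. -/
theorem free_windows (n k : ℕ) {l d x : ℝ} (hd : 0 ≤ d) (hl : 0 ≤ l) (β : ℕ → ℝ) :
    ∃ s : Finset ℕ, s ⊆ Finset.range n ∧ n ≤ s.card + k ∧ ∀ j ∈ s, ∀ i ∈ Finset.range k,
      ∀ α ∈ Icc (x + j * (l + 2 * d)) (x + j * (l + 2 * d) + l), α ∉ Ioo (β i - d) (β i + d) := by
  classical
  let P : ℕ → Prop := fun j => ∀ i ∈ Finset.range k,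
      ∀ α ∈ Icc (x + j * (l + 2 * d)) (x + j * (l + 2 * d) + l), α ∉ Ioo (β i - d) (β i + d)
  refine ⟨(Finset.range n).filter P, Finset.filter_subset _ _, ?_, fun j hj => (Finset.mem_filter.1 hj).2⟩
  have h0 := Finset.card_filter_add_card_filter_not (s := Finset.range n) P
  rw [Finset.card_range] at h0
  have h1 : ∀ j ∈ (Finset.range n).filter fun j => ¬ P j, ∃ i ∈ Finset.range k,
      ∃ α ∈ Icc (x + j * (l + 2 * d)) (x + j * (l + 2 * d) + l), α ∈ Ioo (β i - d) (β i + d) := by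
    intro j hj
    have h2 := (Finset.mem_filter.1 hj).2
    by_contra hcon
    push Not at hcon
    exact h2 hcon
  choose! f hf α hα hαβ using h1
  have key : ∀ j ∈ (Finset.range n).filter (fun j => ¬ P j), ∀ j' ∈ (Finset.range n).filter (fun j => ¬ P j), j < j' → f j ≠ f j' := by
    intro j hj j' hj' hlt heq
    have a1 := (hα j hj).2
    have a2 := (hα j' hj').1
    have b1 := (hαβ j hj).1
    have b2 := (hαβ j' hj').2
    rw [heq] at b1
    have h3 : (j : ℝ) + 1 ≤ j' := by exact_mod_cast hlt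
    have h4 : ((j : ℝ) + 1) * (l + 2 * d) ≤ j' * (l + 2 * d) := mul_le_mul_of_nonneg_right h3 (by positivity)
    nlinarith
  have hinj : Set.InjOn f ((Finset.range n).filter (fun j => ¬ P j) : Finset ℕ) := by
    intro j hj j' hj' heq
    rcases lt_trichotomy j j' with h | h | h
    · exact absurd heq (key j hj j' hj' h)
    · exact h
    · exact absurd heq.symm (key j' hj' j hj h)
  have hcard := Finset.card_le_card_of_injOn f (t := Finset.range k) hf hinj
  rw [Finset.card_range] at hcard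
  omega

theorem barrier_off (h0 : ∃ δ : ℝ, 0 < δ ∧ δ < 1 ∧ ∀ᶠ T : ℝ in atTop, ∀ b : ℝ, δ ≤ ∫ α in b..(b + 1 - δ), FF α T) :
    ∃ δ : ℝ, 0 < δ ∧ δ < 1 ∧ ∀ᶠ T : ℝ in atTop, ∀ (n k : ℕ) (b : ℝ) (β : ℕ → ℝ),
      δ * ((n : ℝ) - k) ≤ ∫ α in Icc b (b + n * (1 - δ)) \ ⋃ i ∈ Finset.range k, Ioo (β i - δ) (β i + δ), FF α T := by
  obtain ⟨D, hD0, hD1, hT⟩ := h0
  refine ⟨D / 3, by linarith, by linarith, ?_⟩
  filter_upwards [hT, eventually_gt_atTop 1] with T hT hT1 n k b β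
  have hFc := FF_continuous (show (0 : ℝ) < T by linarith)
  have hF0 := FF_nonneg hT1
  obtain ⟨s, hs1, hs2, hs3⟩ := free_windows n k (l := 1 - D) (d := D / 3) (x := b) (by linarith) (by linarith) β
  obtain ⟨u, hu⟩ : ∃ u : ℕ → ℝ, u = fun j : ℕ => b + (j : ℝ) * (1 - D + 2 * (D / 3)) := ⟨_, rfl⟩
  have hu' : ∀ j : ℕ, b + (j : ℝ) * (1 - D + 2 * (D / 3)) = u j := fun j => by rw [hu]
  simp only [hu'] at hs3
  have hstep : ∀ j j' : ℕ, j < j' → u j + (1 - D) < u j' := by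
    intro j j' hlt
    have h3 : (j : ℝ) + 1 ≤ j' := by exact_mod_cast hlt
    have h4 : ((j : ℝ) + 1) * (1 - D + 2 * (D / 3)) ≤ j' * (1 - D + 2 * (D / 3)) :=
      mul_le_mul_of_nonneg_right h3 (by linarith)
    rw [hu]
    simp only
    nlinarith
  have hdisj : (s : Set ℕ).Pairwise (Function.onFun Disjoint fun j => Icc (u j) (u j + (1 - D))) := by
    intro j _ j' _ hne
    show Disjoint (Icc (u j) (u j + (1 - D))) (Icc (u j') (u j' + (1 - D)))
    rw [Set.disjoint_left]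
    intro α h1 h2
    rcases lt_or_gt_of_ne hne with h | h
    · linarith [hstep j j' h, h1.2, h2.1]
    · linarith [hstep j' j h, h2.2, h1.1]
  have hw : ∀ j ∈ s, D ≤ ∫ α in Icc (u j) (u j + (1 - D)), FF α T := by
    intro j _
    have h1 := hT (u j)
    rwa [show u j + 1 - D = u j + (1 - D) by ring, intervalIntegral.integral_of_le (by linarith),
      ← integral_Icc_eq_integral_Ioc] at h1
  have h1 : ∑ j ∈ s, ∫ α in Icc (u j) (u j + (1 - D)), FF α T = ∫ α in ⋃ j ∈ s, Icc (u j) (u j + (1 - D)), FF α T :=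
    (integral_biUnion_finset s (fun _ _ => measurableSet_Icc) hdisj fun _ _ => hFc.integrableOn_Icc).symm
  have h2 : ∫ α in ⋃ j ∈ s, Icc (u j) (u j + (1 - D)), FF α T ≤
      ∫ α in Icc b (b + n * (1 - D / 3)) \ ⋃ i ∈ Finset.range k, Ioo (β i - D / 3) (β i + D / 3), FF α T := by
    refine setIntegral_mono_set ((hFc.integrableOn_Icc).mono_set Set.sdiff_subset) (Eventually.of_forall hF0) ?_
    refine LE.le.eventuallyLE ?_
    intro α hα
    rw [mem_iUnion₂] at hα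
    obtain ⟨j, hj, hα1, hα2⟩ := hα
    have hjn : (j : ℝ) + 1 ≤ n := by exact_mod_cast Finset.mem_range.1 (hs1 hj)
    have hpos : 0 ≤ (j : ℝ) * (1 - D + 2 * (D / 3)) := mul_nonneg (Nat.cast_nonneg _) (by linarith)
    have h4 : ((j : ℝ) + 1) * (1 - D + 2 * (D / 3)) ≤ n * (1 - D + 2 * (D / 3)) := mul_le_mul_of_nonneg_right hjn (by linarith)
    refine ⟨⟨?_, ?_⟩, ?_⟩
    · rw [hu] at hα1
      simp only at hα1
      linarith
    · rw [hu] at hα2
      simp only at hα2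
      linarith
    · intro h3
      rw [mem_iUnion₂] at h3
      obtain ⟨i, hi, hi'⟩ := h3
      exact hs3 j hj i hi α ⟨hα1, hα2⟩ hi'
  have h3 : (s.card : ℝ) * D ≤ ∑ j ∈ s, ∫ α in Icc (u j) (u j + (1 - D)), FF α T := by
    rw [← nsmul_eq_mul]
    exact Finset.card_nsmul_le_sum _ _ _ hw
  have h4 : (n : ℝ) - k ≤ s.card := by
    have : (n : ℝ) ≤ s.card + k := by exact_mod_cast hs2
    linarith
  have h5 : D / 3 * ((n : ℝ) - k) ≤ s.card * D := by
    have h6 : D / 3 * ((n : ℝ) - k) ≤ D / 3 * s.card := mul_le_mul_of_nonneg_left h4 (by linarith)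
    have h7 : 0 ≤ (s.card : ℝ) * D := by positivity
    nlinarith
  linarith

/-- The uniform form for `m` short intervals. -/
theorem barrier_m (h0 : ∃ δ : ℝ, 0 < δ ∧ δ < 1 ∧ ∀ᶠ T : ℝ in atTop, ∀ b : ℝ, δ ≤ ∫ α in b..(b + 1 - δ), FF α T) :
    ∃ δ : ℝ, 0 < δ ∧ δ < 1 ∧ ∀ᶠ T : ℝ in atTop, ∀ (m : ℕ) (b : ℝ) (β : ℕ → ℝ),
      δ ≤ ∫ α in Icc b (b + (m + 1) * (1 - δ)) \ ⋃ i ∈ Finset.range m, Ioo (β i - δ) (β i + δ), FF α T := by
  obtain ⟨δ, h1, h2, hT⟩ := barrier_off h0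
  refine ⟨δ, h1, h2, ?_⟩
  filter_upwards [hT] with T hT m b β
  have := hT (m + 1) m b β
  push_cast at this
  linarith

end Pool.Agent.Lib.MP_00e05b_nt.Bar
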