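import Pool.Agent.Lib.MP_00e05b_nt.Bar.PD
import Pool.Agent.Lib.MP_00e05b_nt.Gap2.Mom

/-!
# PM0: the sum `Pr κ T` as a short cosine polynomial over primes

`κ` lives on `[-1/8, 1/8]`, so `Pr κ T = cp (S T) (coef κ T)`, `S T` the primes up to `T^(1/8)`; the coefficients are `O(1/L)`; half the scalar product of
the coefficients tends to `∫ |α| κ κ'` (`diag_lim`).
-/

open Complex Set Filter Topology MeasureTheory

namespace Pool.Agent.Lib.MP_00e05b_nt.Bar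

open Pool.Agent.Lib.MP_00e05b_nt Pool.Agent.Lib.MP_00e05b_nt.Mont Pool.Agent.Lib.MP_00e05b_nt.Gap
open Pool.Agent.Lib.MP_00e05b_nt.Gap2 (cp cp_cont Mom_two Mom_four)

/-- The length `T^(1/8)`. -/
noncomputable def PM0_X (T : ℝ) : ℕ := ⌊T ^ (1 / 8 : ℝ)⌋₊

/-- The primes up to `T^(1/8)`. -/
noncomputable def PM0_S (T : ℝ) : Finset ℕ := (Finset.range (PM0_X T + 1)).filter Nat.Prime

/-- The coefficients. -/
noncomputable def PM0_a (κ : ℝ → ℝ) (T : ℝ) (n : ℕ) : ℝ :=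
  -(2 / Real.log T) * (Real.log n / Real.sqrt n * κ (Real.log n / Real.log T))

theorem PM0_mem {T : ℝ} {n : ℕ} (hn : n ∈ PM0_S T) : n.Prime ∧ n ≤ PM0_X T := by
  unfold PM0_S at hn
  rw [Finset.mem_filter, Finset.mem_range] at hn
  exact ⟨hn.2, by omega⟩

theorem PM0_pow {T : ℝ} (hT : 1 < T) : (PM0_X T : ℝ) ^ 8 ≤ T := by
  have h0 : (0 : ℝ) ≤ T ^ (1 / 8 : ℝ) := Real.rpow_nonneg (by linarith) _
  have h1 : (PM0_X T : ℝ) ≤ T ^ (1 / 8 : ℝ) := Nat.floor_le h0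
  calc (PM0_X T : ℝ) ^ 8 ≤ (T ^ (1 / 8 : ℝ)) ^ 8 := pow_le_pow_left₀ (Nat.cast_nonneg _) h1 8
    _ = T := by
        rw [← Real.rpow_natCast, ← Real.rpow_mul (by linarith)]
        norm_num

theorem PM0_one {T : ℝ} (hT : 1 < T) : (1 : ℝ) ≤ PM0_X T := by
  have h1 : (1 : ℝ) ≤ T ^ (1 / 8 : ℝ) := Real.one_le_rpow hT.le (by norm_num)
  have h2 : 1 ≤ PM0_X T := by
    unfold PM0_X
    rw [Nat.one_le_floor_iff]
    exact h1
  exact_mod_cast h2

/-- cutting sums over primes. -/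
theorem PM0_cut {f : ℕ → ℝ} {T : ℝ} (hT : 1 < T)
    (hf : ∀ n : ℕ, n.Prime → 1 / 8 ≤ |Real.log n / Real.log T| → f n = 0) :
    ∑ p ∈ (Finset.range (⌊T⌋₊ + 1)).filter Nat.Prime, f p = ∑ p ∈ PM0_S T, f p := by
  symm
  have hL : 0 < Real.log T := Real.log_pos hT
  apply Finset.sum_subset
  · intro n hn
    obtain ⟨h1, h2⟩ := PM0_mem hn
    rw [Finset.mem_filter, Finset.mem_range]
    refine ⟨?_, h1⟩
    have h3 : PM0_X T ≤ ⌊T⌋₊ := by
      unfold PM0_X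
      apply Nat.floor_le_floor
      calc T ^ (1 / 8 : ℝ) ≤ T ^ (1 : ℝ) := Real.rpow_le_rpow_of_exponent_le hT.le (by norm_num)
        _ = T := Real.rpow_one T
    omega
  · intro n hn hn'
    rw [Finset.mem_filter, Finset.mem_range] at hn
    apply hf n hn.2
    have h1 : PM0_X T < n := by
      by_contra h2
      apply hn'
      unfold PM0_S
      rw [Finset.mem_filter, Finset.mem_range]
      exact ⟨by omega, hn.2⟩
    have h2 : T ^ (1 / 8 : ℝ) < n := Nat.lt_of_floor_lt h1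
    have h3 : 1 / 8 * Real.log T ≤ Real.log n := by
      rw [← Real.log_rpow (by linarith)]
      exact Real.log_le_log (Real.rpow_pos_of_pos (by linarith) _) h2.le
    have h4 : 1 / 8 ≤ Real.log n / Real.log T := by
      rw [le_div_iff₀ hL]
      exact h3
    exact h4.trans (le_abs_self _)

theorem PM0_Pr {κ : ℝ → ℝ} (hκ : ES κ (1 / 8)) {T : ℝ} (hT : 1 < T) (t : ℝ) :
    Pr κ T t = cp (PM0_S T) (PM0_a κ T) t := by
  unfold Pr cp
  rw [PM0_cut hT (fun n _ h => by rw [hκ.supp _ h]; ring), Finset.mul_sum]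
  refine Finset.sum_congr rfl fun n _ => ?_
  unfold PM0_a
  ring

private theorem PM0_bdd {κ : ℝ → ℝ} (hκ : ES κ (1 / 8)) : ∃ K : ℝ, 0 ≤ K ∧ ∀ u, |κ u| ≤ K := by
  obtain ⟨C, hC⟩ := hκ.compact.exists_bound_of_continuous hκ.continuous
  exact ⟨C, (norm_nonneg _).trans (hC 0), fun u => hC u⟩

private theorem PM0_logsqrt {n : ℕ} (hn : 1 ≤ n) : 0 ≤ Real.log n / Real.sqrt n ∧ Real.log n / Real.sqrt n ≤ 1 := by
  have h0 : (1 : ℝ) ≤ n := by exact_mod_cast hn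
  have h1 : 0 < Real.sqrt n := Real.sqrt_pos.2 (by linarith)
  refine ⟨div_nonneg (Real.log_nonneg h0) h1.le, ?_⟩
  rw [div_le_one h1]
  obtain ⟨y, hy⟩ : ∃ y : ℝ, y = Real.sqrt (Real.sqrt n) := ⟨_, rfl⟩
  have hy0 : 0 < y := by rw [hy]; exact Real.sqrt_pos.2 h1
  have hy2 : y ^ 2 = Real.sqrt n := by rw [hy]; exact Real.sq_sqrt h1.le
  have hy4 : y ^ 4 = n := by
    have : y ^ 4 = (y ^ 2) ^ 2 := by ring
    rw [this, hy2, Real.sq_sqrt (by linarith)]
  rw [← hy2, ← hy4, Real.log_pow]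
  have h2 := Real.log_le_sub_one_of_pos hy0
  push_cast
  nlinarith [sq_nonneg (y - 2)]

theorem PM0_coef {κ : ℝ → ℝ} (hκ : ES κ (1 / 8)) : ∃ K : ℝ, 0 ≤ K ∧ ∀ T : ℝ, 1 < T → ∀ n ∈ PM0_S T,
    |PM0_a κ T n| ≤ K / Real.log T := by
  obtain ⟨K, hK, hb⟩ := PM0_bdd hκ
  refine ⟨2 * K, by positivity, fun T hT n hn => ?_⟩
  have hL : 0 < Real.log T := Real.log_pos hT
  obtain ⟨h1, h2⟩ := PM0_logsqrt (PM0_mem hn).1.pos
  unfold PM0_a
  rw [abs_mul, abs_neg, abs_of_pos (by positivity : (0 : ℝ) < 2 / Real.log T), abs_mul, abs_of_nonneg h1]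
  calc 2 / Real.log T * (Real.log n / Real.sqrt n * |κ (Real.log n / Real.log T)|) ≤ 2 / Real.log T * (1 * K) := by
        apply mul_le_mul_of_nonneg_left _ (by positivity)
        exact mul_le_mul h2 (hb _) (abs_nonneg _) (by norm_num)
    _ = 2 * K / Real.log T := by ring

theorem PM0_diag (hRH : RiemannHypothesis) {κ κ' : ℝ → ℝ} (hκ : ES κ (1 / 8)) (hκ' : ES κ' (1 / 8)) :
    Tendsto (fun T : ℝ => (∑ n ∈ PM0_S T, PM0_a κ T n * PM0_a κ' T n) / 2) atTop (𝓝 (∫ α, |α| * (κ α * κ' α))) := by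
  have h1 := diag_lim hRH (g := fun u => κ u * κ' u) (hκ.continuous.mul hκ'.continuous) (fun u hu => by rw [hκ.supp u hu, zero_mul])
  have h2 : ∫ α, |α| * (κ α * κ' α) = 2 * ∫ u in Ioi (0 : ℝ), u * (κ u * κ' u) := by
    rw [← integral_comp_abs (f := fun u => u * (κ u * κ' u))]
    refine integral_congr_ae (Eventually.of_forall fun u => ?_)
    rcases le_total 0 u with h | h
    · simp only [abs_of_nonneg h]
    · simp only [abs_of_nonpos h, hκ.even, hκ'.even]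
  rw [h2]
  refine (h1.const_mul 2).congr' ?_
  filter_upwards [eventually_gt_atTop 1] with T hT
  have hL : 0 < Real.log T := Real.log_pos hT
  rw [PM0_cut hT (fun n _ h => by rw [hκ.supp _ h]; ring), Finset.mul_sum, Finset.mul_sum, Finset.sum_div]
  refine Finset.sum_congr rfl fun n hn => ?_
  have hn0 : (0 : ℝ) < n := by exact_mod_cast (PM0_mem hn).1.pos
  unfold PM0_a
  have h3 : Real.sqrt n * Real.sqrt n = n := Real.mul_self_sqrt hn0.le
  have h4 : Real.log n ^ 2 / (n : ℝ) = Real.log n / Real.sqrt n * (Real.log n / Real.sqrt n) := by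
    rw [div_mul_div_comm, h3, sq]
  rw [h4]
  ring

theorem PM0_err {K : ℝ} (m : ℕ) (hm : 1 ≤ m) : Tendsto (fun T : ℝ => (K / Real.log T) ^ m) atTop (𝓝 0) := by
  have h1 : Tendsto (fun T : ℝ => K / Real.log T) atTop (𝓝 0) := Real.tendsto_log_atTop.const_div_atTop K
  have h2 := h1.pow m
  rwa [zero_pow (by omega)] at h2

end Pool.Agent.Lib.MP_00e05b_nt.Bar
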