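import Pool.Agent.Lib.MP_00e05b_nt.Bar.Defs

/-!
# LEAF S1: the function `ψ` and the shift covariance of `CF`

* `Psi_zero`: `ψ 0 = ∫ ρ = 1`. `Psi_diff`: entire (`hasDerivAt_integral_of_dominated_loc_of_deriv_le` on balls; `ρ` is continuous with
  compact support, `ES.integrable`, `ES.compact` in `Mont.BasA`).
* `CF_shift`: `xg T (t + 2πx/log T) γ = xg T t γ - x` (`log T ≠ 0`), and `‖e(cx)‖ = 1`, factored out of the sum.
* `CF_meas`: `CF` is jointly measurable in `(t, z)`: finite sum of compositions of continuous functions and divisions (division by zero is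
  zero: `Measurable.div`).
* `CF_poles`: `CF` as one sum over the pairs `(γ, k)`.
-/

open Complex Set Filter Topology MeasureTheory

namespace Pool.Agent.Lib.MP_00e05b_nt.Bar

open Pool.Agent.Lib.MP_00e05b_nt Pool.Agent.Lib.MP_00e05b_nt.Mont Pool.Agent.Lib.MP_00e05b_nt.Gap

theorem Psi_zero {ρ : ℝ → ℝ} (hρ : RR ρ) : Psi ρ 0 = 1 := by
  unfold Psi
  simp only [mul_zero, Complex.exp_zero, mul_one]
  rw [integral_complex_ofReal, hρ.one]
  simp

theorem Psi_diff {ρ : ℝ → ℝ} (hρ : RR ρ) : Differentiable ℂ (Psi ρ) := by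
  intro z0
  have hcont : Continuous ρ := hρ.es.continuous
  have hcomp : HasCompactSupport ρ := hρ.es.compact
  have hF : ∀ z : ℂ, Continuous fun β : ℝ =>
      (ρ β : ℂ) * cexp (2 * (Real.pi : ℂ) * I * (β : ℂ) * z) := by
    intro z
    fun_prop
  have hF' : ∀ z : ℂ, Continuous fun β : ℝ =>
      (ρ β : ℂ) * (cexp (2 * (Real.pi : ℂ) * I * (β : ℂ) * z) *
        (2 * (Real.pi : ℂ) * I * (β : ℂ))) := by
    intro z
    fun_prop
  have hint : Integrable fun β : ℝ => |ρ β| * (Real.exp (2 * Real.pi * |β| * (‖z0‖ + 1)) *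
      (2 * Real.pi * |β|)) := by
    refine Continuous.integrable_of_hasCompactSupport ?_ ?_
    · fun_prop
    · exact (HasCompactSupport.comp_left (g := fun u : ℝ => |u|) hcomp abs_zero).mul_right
  have key := hasDerivAt_integral_of_dominated_loc_of_deriv_le (μ := volume) (𝕜 := ℂ)
    (F := fun (z : ℂ) (β : ℝ) => (ρ β : ℂ) * cexp (2 * (Real.pi : ℂ) * I * (β : ℂ) * z))
    (F' := fun (z : ℂ) (β : ℝ) => (ρ β : ℂ) * (cexp (2 * (Real.pi : ℂ) * I * (β : ℂ) * z) *
        (2 * (Real.pi : ℂ) * I * (β : ℂ))))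
    (x₀ := z0) (s := Metric.ball z0 1)
    (bound := fun β : ℝ => |ρ β| * (Real.exp (2 * Real.pi * |β| * (‖z0‖ + 1)) *
      (2 * Real.pi * |β|)))
    (Metric.ball_mem_nhds z0 one_pos)
    (Eventually.of_forall fun z => (hF z).aestronglyMeasurable)
    ((hF z0).integrable_of_hasCompactSupport ?_)
    (hF' z0).aestronglyMeasurable
    (Eventually.of_forall fun β z hz => ?_) hint
    (Eventually.of_forall fun β z hz => ?_)
  · exact key.2.differentiableAt
  · exact (HasCompactSupport.comp_left (g := fun u : ℝ => (u : ℂ)) hcomp ofReal_zero).mul_right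
  · have hz1 : ‖z‖ ≤ ‖z0‖ + 1 := by
      rw [Metric.mem_ball, dist_eq_norm] at hz
      calc ‖z‖ = ‖z0 + (z - z0)‖ := by ring_nf
        _ ≤ ‖z0‖ + ‖z - z0‖ := norm_add_le _ _
        _ ≤ _ := by linarith
    have h2π : ‖(2 * (Real.pi : ℂ) * I * (β : ℂ))‖ = 2 * Real.pi * |β| := by
      rw [norm_mul, norm_mul, norm_mul, norm_I, mul_one, Complex.norm_real, Complex.norm_real,
        Complex.norm_ofNat, Real.norm_eq_abs, Real.norm_eq_abs, abs_of_pos Real.pi_pos]
    show ‖(ρ β : ℂ) * (cexp (2 * (Real.pi : ℂ) * I * (β : ℂ) * z) *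
        (2 * (Real.pi : ℂ) * I * (β : ℂ)))‖ ≤ _
    rw [norm_mul, norm_mul, h2π, Complex.norm_real, Real.norm_eq_abs]
    refine mul_le_mul_of_nonneg_left (mul_le_mul_of_nonneg_right ?_ (by positivity)) (abs_nonneg _)
    refine (Complex.norm_exp_le_exp_norm _).trans (Real.exp_le_exp.2 ?_)
    rw [norm_mul, h2π]
    exact mul_le_mul_of_nonneg_left hz1 (by positivity)
  · have h1 : HasDerivAt (fun z : ℂ => cexp (2 * (Real.pi : ℂ) * I * (β : ℂ) * z))
        (cexp (2 * (Real.pi : ℂ) * I * (β : ℂ) * z) * (2 * (Real.pi : ℂ) * I * (β : ℂ))) z := by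
      have h2 : HasDerivAt (fun z : ℂ => 2 * (Real.pi : ℂ) * I * (β : ℂ) * z)
          (2 * (Real.pi : ℂ) * I * (β : ℂ)) z := by
        simpa using (hasDerivAt_id z).const_mul (2 * (Real.pi : ℂ) * I * (β : ℂ))
      exact h2.cexp
    exact h1.const_mul _

theorem exists_RR : ∃ ρ : ℝ → ℝ, RR ρ := by
  obtain ⟨W, hW⟩ := exists_EB (1 / 8) (by norm_num)
  have hcont : Continuous W := hW.smooth.continuous
  have hes : ES W (1 / 8) := ⟨hW.smooth, hW.even, hW.supp⟩
  have hint : Integrable W := hes.integrable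
  have hpos : 0 < ∫ u, W u := by
    refine hcont.integral_pos_of_hasCompactSupport_nonneg_nonzero hes.compact hW.nonneg (x := 0) ?_
    rw [hW.one 0 (by norm_num)]
    exact one_ne_zero
  refine ⟨fun u => (∫ v, W v)⁻¹ * W u, ⟨⟨?_, ?_, ?_⟩, ?_, ?_⟩⟩
  · exact contDiff_const.mul hW.smooth
  · intro u
    show (∫ v, W v)⁻¹ * W (-u) = (∫ v, W v)⁻¹ * W u
    rw [hW.even]
  · intro u hu
    show (∫ v, W v)⁻¹ * W u = 0
    rw [hW.supp u hu, mul_zero]
  · intro u
    exact mul_nonneg (inv_nonneg.2 hpos.le) (hW.nonneg u)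
  · show ∫ u, (∫ v, W v)⁻¹ * W u = 1
    rw [integral_const_mul, inv_mul_cancel₀ hpos.ne']

private theorem S1_xg {T : ℝ} (hT : 1 < T) (t x γ : ℝ) :
    xg T (t + 2 * Real.pi * x / Real.log T) γ = xg T t γ - x := by
  have h : Real.log T ≠ 0 := (Real.log_pos hT).ne'
  have hpi : Real.pi ≠ 0 := Real.pi_ne_zero
  unfold xg
  field_simp
  ring

theorem CF_shift {ρ : ℝ → ℝ} {m : ℕ} {τ : ℝ} {a : ℕ → ℂ} {c T : ℝ} (hT : 1 < T) (t x : ℝ) (z : ℂ) :
    ‖CF ρ m τ a c T t ((x : ℂ) + z)‖ = ‖CF ρ m τ a c T (t + 2 * Real.pi * x / Real.log T) z‖ := by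
  have h : CF ρ m τ a c T (t + 2 * Real.pi * x / Real.log T) z =
      cexp (((2 * Real.pi * c * x : ℝ) : ℂ) * I) * CF ρ m τ a c T t ((x : ℂ) + z) := by
    unfold CF
    rw [Finset.mul_sum]
    refine Finset.sum_congr rfl fun γ _ => ?_
    rw [S1_xg hT]
    have h1 : z - ((xg T t γ - x : ℝ) : ℂ) = (x : ℂ) + z - (xg T t γ : ℂ) := by
      push_cast
      ring
    have h2 : cexp (-((2 * Real.pi * c * (xg T t γ - x) : ℝ) : ℂ) * I) =
        cexp (((2 * Real.pi * c * x : ℝ) : ℂ) * I) *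
          cexp (-((2 * Real.pi * c * xg T t γ : ℝ) : ℂ) * I) := by
      rw [← Complex.exp_add]
      congr 1
      push_cast
      ring
    rw [h1, h2]
    ring
  rw [h, norm_mul, Complex.norm_exp_ofReal_mul_I, one_mul]

theorem CF_meas {ρ : ℝ → ℝ} (hρ : RR ρ) (m : ℕ) (τ : ℝ) (a : ℕ → ℂ) (c T : ℝ) :
    Measurable (fun q : ℝ × ℂ => CF ρ m τ a c T q.1 q.2) := by
  have hx : ∀ γ : ℝ, Continuous fun q : ℝ × ℂ => xg T q.1 γ := by
    intro γ
    unfold xg
    fun_prop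
  have hP : Continuous (Psi ρ) := (Psi_diff hρ).continuous
  unfold CF Th
  refine Finset.measurable_sum _ fun γ _ => ?_
  refine Measurable.const_mul (Measurable.mul ?_ ?_) _
  · refine Continuous.measurable ?_
    have := hx γ
    fun_prop
  · refine Finset.measurable_sum _ fun k _ => ?_
    have hc : Continuous fun q : ℝ × ℂ => q.2 - (xg T q.1 γ : ℂ) - (off m τ k : ℂ) := by
      have := hx γ
      fun_prop
    exact ((hP.comp hc).measurable.div hc.measurable).const_mul _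

theorem CF_poles (ρ : ℝ → ℝ) (m : ℕ) (τ : ℝ) (a : ℕ → ℂ) (c T t : ℝ) (z : ℂ) :
    CF ρ m τ a c T t z = ∑ q ∈ ordinates T ×ˢ Finset.range (m + 1),
      ((mult q.1 : ℂ) * cexp (-((2 * Real.pi * c * xg T t q.1 : ℝ) : ℂ) * I) * a q.2) *
        Psi ρ (z - ((xg T t q.1 + off m τ q.2 : ℝ) : ℂ)) / (z - ((xg T t q.1 + off m τ q.2 : ℝ) : ℂ)) := by
  unfold CF Th
  rw [Finset.sum_product]
  refine Finset.sum_congr rfl fun γ _ => ?_
  rw [Finset.mul_sum, Finset.mul_sum]
  refine Finset.sum_congr rfl fun k _ => ?_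
  have h1 : z - ((xg T t γ + off m τ k : ℝ) : ℂ) = z - (xg T t γ : ℂ) - (off m τ k : ℂ) := by
    push_cast
    ring
  simp only [h1]
  ring

end Pool.Agent.Lib.MP_00e05b_nt.Bar
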